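import Pool.Agent.Run7.h757.MW.Stm

/-!
# Project MW (helper757), third batch of pieces: the asymptotic formula

Statements (NOT results); each is a closed `Prop` with its proof in the doc string.
Goal (page MP_927be3_nt): for `d ≥ 2 k + 1` and almost all `lam ∈ (0, ∞)^d` the number of `m ∈ ℤ^d` with
`∑ ⌊lam_i |m_i|^k⌋ = M` is `(d / k) V M^(d/k - 1) (1 + o(1))`, `V` the volume of `{∑ lam_i |x_i|^k ≤ 1}`.
-/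

open Finset MeasureTheory Filter

namespace Pool.Agent.Run7.h757.MW

noncomputable section

/-- the volume of the body `∑ lam_i |x_i|^k ≤ 1` in `ℝ^d` -/
def Vol (d k : ℕ) (lam : Fin d → ℝ) : ℝ :=
  (2 * Real.Gamma (1 / k + 1)) ^ d / Real.Gamma (d / k + 1) * ∏ i, lam i ^ (-(1 / (k : ℝ)))

/-- **AFEJ** (two-sided version of FEJ).
Proof. As `Pool.Agent.Run7.h930.MW.FEJ : t_FEJ` and `Pool.Agent.Run7.h382.MW.t_UFEJ`, with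
`k r = 1 - Fe H (rep Q r)`: this is the exact identity behind them (`main_id`). -/
def S_AFEJ : Prop := ∃ k : ℕ → ℕ → ℕ → ℝ, (∀ Q H r, 0 ≤ k Q H r ∧ k Q H r ≤ 1) ∧
  (∀ Q H r, 1 ≤ Q → 1 ≤ H → r < Q → k Q H r ≤ 5 * (H * |rep Q r|) ^ (1 / 2 : ℝ)) ∧
  ∀ (Q H M : ℕ) (c : ℕ → ℝ), 1 ≤ H → H ≤ M → M + H ≤ Q → (∀ m, 0 ≤ c m) →
    |c M - 1 / (H : ℝ) ^ 2 * ∑ i ∈ range H, ∑ j ∈ range H, c (M + i - j)| ≤
      ‖1 / (Q : ℂ) * ∑ r ∈ Ico 1 Q, k Q H r * dft Q c r * e (-(M * rep Q r))‖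

/-- **LAT** (lattice points in the dilated body).
Proof. `∑ ⌊lam_i |m_i|^k⌋ ≤ y` implies `∑ lam_i |m_i|^k ≤ y + d` and is implied by
`∑ lam_i |m_i|^k ≤ y`. `N(x) = (∑ lam_i |x_i|^k)^(1/k)` is a norm on `ℝ^d` (Minkowski:
`Real.Lp_add_le` applied to `lam_i^(1/k) |x_i|`); let `ρ = N(1/2, ..., 1/2)`. The unit cubes
`m + [-1/2, 1/2)^d` with `N(m) ≤ R` are disjoint, contained in `{N ≤ R + ρ}` and cover
`{N ≤ R - ρ}`, and `vol {N ≤ R} = Vol R^d` (`MeasureTheory.volume_sum_rpow_le` and the linear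
change of variables `x_i = lam_i^(-1/k) z_i`, e.g. `Real.map_matrix_volume_pi_eq_smul_volume_pi` /
`MeasureTheory.Measure.addHaar_preimage_linearMap` with a diagonal matrix). So the number is between
`Vol (y^(1/k) - ρ)_+^d` and `Vol ((y + d)^(1/k) + ρ)^d`, `(y + d)^(1/k) ≤ y^(1/k) + d`. -/
def S_LAT : Prop := ∀ (d k : ℕ) (lam : Fin d → ℝ), 1 ≤ d → 1 ≤ k → (∀ i, 0 < lam i) →
  ∃ C : ℝ, ∀ y : ℕ, 1 ≤ y →
    {m : Fin d → ℤ | ∑ i, fl (lam i) ((m i).natAbs ^ k) ≤ y}.Finite ∧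
    |({m : Fin d → ℤ | ∑ i, fl (lam i) ((m i).natAbs ^ k) ≤ y}.ncard : ℝ) -
      Vol d k lam * (y : ℝ) ^ ((d : ℝ) / k)| ≤ C * (y : ℝ) ^ (((d : ℝ) - 1) / k)

/-- **AVG** (averages of a sequence with a regular counting function).
Proof. `H = ⌊2^(j k) / (j + 1)^B⌋`, `F(y) = ∑_{m ≤ y} c m`. For fixed `i`:
`∑_{j' < H} c(M + i - j') = F(M + i) - F(M + i - H)`, which is
`V ((M + i)^D - (M + i - H)^D) + O(M^(D - κ))`, and by the mean value theorem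
`(M + i)^D - (M + i - H)^D = D H ξ^(D - 1)`, `|ξ - M| ≤ H ≤ M / (j + 1)^B`. Divide by `H²` and sum
over `i < H`: the error `M^(D - κ) / H ≤ C M^(D - 1) (j + 1)^B 2^(-κ j k)` tends to zero relatively. -/
def S_AVG : Prop := ∀ (c : ℕ → ℝ) (V D κ C : ℝ) (k B : ℕ), 0 < V → 1 ≤ D → 0 < κ → κ ≤ D → 1 ≤ k → 1 ≤ B →
  (∀ m, 0 ≤ c m) →
  (∀ y : ℕ, 1 ≤ y → |∑ m ∈ range (y + 1), c m - V * (y : ℝ) ^ D| ≤ C * (y : ℝ) ^ (D - κ)) →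
  ∀ ε : ℝ, 0 < ε → ∀ᶠ j : ℕ in atTop, ∀ M : ℕ, (2 : ℝ) ^ (j * k) ≤ M →
    (M : ℝ) ≤ (2 : ℝ) ^ k * (2 : ℝ) ^ (j * k) →
    |1 / (⌊(2 : ℝ) ^ (j * k) / ((j : ℝ) + 1) ^ B⌋₊ : ℝ) ^ 2 *
        ∑ i ∈ range ⌊(2 : ℝ) ^ (j * k) / ((j : ℝ) + 1) ^ B⌋₊,
          ∑ j' ∈ range ⌊(2 : ℝ) ^ (j * k) / ((j : ℝ) + 1) ^ B⌋₊, c (M + i - j') -
      V * D * (M : ℝ) ^ (D - 1)| ≤ ε * (M : ℝ) ^ (D - 1)

end

end Pool.Agent.Run7.h757.MW
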