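import Pool.Agent.Run7.h757.MW.ExcX
import Pool.Agent.Run7.h56.MW.STEP

/-!
# Project MW: the number of variables
-/

open Finset MeasureTheory Filter

namespace Pool.Agent.Run7.h757.MW

noncomputable section

theorem Reg.mono {c c' t t' : ℝ} {W : Set ℕ} (h : Reg c t W) (hc : 0 ≤ c') (hcc : c' ≤ c)
    (ht : t ≤ t') : Reg c' t' W := by
  intro B
  obtain ⟨x₀, hx₀⟩ := h B
  refine ⟨max x₀ 3, fun x y hx hy hyx =>
    le_trans ?_ (hx₀ x y ((le_max_left _ _).trans hx) hy hyx)⟩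
  have hx3 : 3 ≤ x := (le_max_right _ _).trans hx
  have hlog : 1 ≤ Real.log x := by
    rw [← Real.log_exp 1]
    refine Real.log_le_log (Real.exp_pos _) ?_
    have := Real.exp_one_lt_d9
    linarith
  have hlog0 : 0 < Real.log x := by linarith
  have hlt : (0 : ℝ) < Real.log x ^ t := Real.rpow_pos_of_pos hlog0 _
  have hlt2 : Real.log x ^ t ≤ Real.log x ^ t' := Real.rpow_le_rpow_of_exponent_le hlog ht
  have hlB : (0 : ℝ) < Real.log x ^ B := Real.rpow_pos_of_pos hlog0 _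
  have hy0 : 0 ≤ y := le_trans (by positivity) hy
  calc c' * y / Real.log x ^ t' ≤ c' * y / Real.log x ^ t := by gcongr
    _ ≤ c * y / Real.log x ^ t := by gcongr

/-- `k + 2 + ⌊log₂ k⌋` variables, all large integers -/
theorem rep_all (k : ℕ) (W : Fin (k + 2 + Nat.log 2 k) → Set ℕ) (c t : ℝ) (hk : 2 ≤ k)
    (hc : 0 < c) (ht : 0 ≤ t) (hW : ∀ i, Reg c t (W i)) :
    ∀ᵐ lam : Fin (k + 2 + Nat.log 2 k) → ℝ, (∀ i, 0 < lam i) →
      ∀ᶠ M : ℕ in atTop, M ∈ RG k 0 (k + 2 + Nat.log 2 k) Set.univ W lam := by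
  obtain ⟨u, J, hu, huJ, hcr⟩ := num_gen hk
  have hc' : 0 < min c (1 / 2) := lt_min hc (by norm_num)
  have key : ∀ (s : ℕ), u + J = s → ∀ W : Fin s → Set ℕ, (∀ i, Reg c t (W i)) →
      ∀ᵐ lam : Fin s → ℝ, (∀ i, 0 < lam i) →
        ∀ᶠ M : ℕ in atTop, M ∈ RG k 0 s Set.univ W lam := by
    rintro s rfl W hW
    exact lifted Pool.Agent.Run7.h56.MW.t_STEP k 0 u J hk hu
      Set.univ W (min c (1 / 2)) t hc' ht (reg_univ.mono hc'.le (min_le_right _ _) ht)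
      (fun i => (hW i).mono hc'.le (min_le_left _ _) le_rfl) hcr
  exact key _ huJ W hW

/-- `k + 1 + j` variables, the exceptional set -/
theorem rep_exc (k j : ℕ) (W : Fin (k + 1 + j) → Set ℕ) (c t β : ℝ) (hk : 3 ≤ k) (hc : 0 < c)
    (ht : 0 ≤ t) (hW : ∀ i, Reg c t (W i)) (hβ : 1 - 2 ^ j / (k : ℝ) < β) :
    ∀ᵐ lam : Fin (k + 1 + j) → ℝ, (∀ i, 0 < lam i) →
      Exc (RG k 0 (k + 1 + j) Set.univ W lam) β := by
  have hk0 : (0 : ℝ) < k := by
    have : 0 < k := by omega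
    exact_mod_cast this
  have hc' : 0 < min c (1 / 2) := lt_min hc (by norm_num)
  have h1 : ∀ β, 1 - 1 / (k : ℝ) < β → AA k 0 (k + 1) Set.univ (min c (1 / 2)) t β := by
    intro β hβ W hW
    refine base k 0 (k + 1) (by omega) (by omega) Set.univ W (min c (1 / 2)) t hc' ht
      (reg_univ.mono hc'.le (min_le_right _ _) ht) hW β ?_
    refine lt_of_le_of_lt (le_of_eq ?_) hβ
    push_cast
    rw [pow_zero]
    congr 2
    ring
  refine iter_RG Pool.Agent.Run7.h56.MW.t_STEP (by omega) hc' ht h1 j β ?_ W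
    fun i => (hW i).mono hc'.le (min_le_left _ _) le_rfl
  rw [mul_one_div]
  exact hβ

/-- `2 k + 1` variables, `⌊9 k / 5⌋` of them genuine `k`-th powers -/
theorem rep_HL (k : ℕ) (hk : 512 ≤ k) (V : Set ℕ) (W : Fin (2 * k + 1 - 9 * k / 5) → Set ℕ)
    (c t : ℝ) (hc : 0 < c) (ht : 0 ≤ t) (hV : Reg c t V) (hW : ∀ i, Reg c t (W i)) :
    ∀ᵐ lam : Fin (2 * k + 1 - 9 * k / 5) → ℝ, (∀ i, 0 < lam i) →
      ∀ᶠ M : ℕ in atTop, M ∈ RG k (9 * k / 5) (2 * k + 1 - 9 * k / 5) V W lam := by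
  obtain ⟨u, J, hu, huJ, hcr⟩ := num_HL hk
  have key : ∀ (s : ℕ), u + J = s → ∀ W : Fin s → Set ℕ, (∀ i, Reg c t (W i)) →
      ∀ᵐ lam : Fin s → ℝ, (∀ i, 0 < lam i) →
        ∀ᶠ M : ℕ in atTop, M ∈ RG k (9 * k / 5) s V W lam := by
    rintro s rfl W hW
    exact lifted Pool.Agent.Run7.h56.MW.t_STEP k (9 * k / 5) u J (by omega) hu
      V W c t hc ht hV hW hcr
  exact key _ (by omega) W hW

end

end Pool.Agent.Run7.h757.MW
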