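import Pool.Agent.Run7.h757.MW.Eng
import Pool.Agent.Run7.h930.MW.DIM

/-!
# Project MW: first applications
-/

open Finset MeasureTheory Filter

namespace Pool.Agent.Run7.h757.MW

noncomputable section

/-- the positive integers are regularly distributed -/
theorem reg_univ : Reg (1 / 2) 0 Set.univ := by
  intro B
  have h1 : (fun x : ℝ => Real.log x ^ B) =o[atTop] fun x : ℝ => x ^ (1 / 2 : ℝ) :=
    isLittleO_log_rpow_rpow_atTop B (by norm_num)
  have h2 := (h1.bound (by norm_num : (0 : ℝ) < 1)).and (eventually_ge_atTop (4 : ℝ))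
  obtain ⟨x₀, hx₀⟩ := eventually_atTop.1 h2
  refine ⟨x₀, fun x y hx hy _ => ?_⟩
  obtain ⟨h3, h4⟩ := hx₀ x hx
  have hx0 : 0 < x := by linarith
  have hlog : 0 < Real.log x := Real.log_pos (by linarith)
  have hlB : 0 < Real.log x ^ B := Real.rpow_pos_of_pos hlog _
  rw [Real.norm_of_nonneg hlB.le, Real.norm_of_nonneg (by positivity), one_mul] at h3
  have h5 : x ^ (1 / 2 : ℝ) ≤ x / Real.log x ^ B := by
    rw [le_div_iff₀ hlB]
    calc x ^ (1 / 2 : ℝ) * Real.log x ^ B ≤ x ^ (1 / 2 : ℝ) * x ^ (1 / 2 : ℝ) := by gcongr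
      _ = x := by
        rw [← Real.rpow_add hx0]
        norm_num
  have h6 : (2 : ℝ) ≤ x ^ (1 / 2 : ℝ) := by
    calc (2 : ℝ) = (4 : ℝ) ^ (1 / 2 : ℝ) := by
          rw [show (4 : ℝ) = 2 ^ (2 : ℝ) by norm_num, ← Real.rpow_mul (by norm_num)]
          norm_num
      _ ≤ _ := by gcongr
  have hy2 : 2 ≤ y := by linarith
  rw [Real.rpow_zero, div_one, Set.univ_inter]
  have h7 : {n : ℕ | x < n ∧ (n : ℝ) ≤ x + y} = ((Ioc ⌊x⌋₊ ⌊x + y⌋₊ : Finset ℕ) : Set ℕ) := by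
    ext n
    simp only [Set.mem_setOf_eq, coe_Ioc, Set.mem_Ioc]
    rw [Nat.floor_lt hx0.le, Nat.le_floor_iff (by linarith)]
  rw [h7, Set.ncard_coe_finset, Nat.card_Ioc]
  have h8 : ⌊x⌋₊ ≤ ⌊x + y⌋₊ := Nat.floor_le_floor (by linarith)
  rw [Nat.cast_sub h8]
  have h9 := Nat.floor_le hx0.le
  have h10 := Nat.lt_floor_add_one (x + y)
  linarith

/-- the sets of sums of `r` positive `k`-th powers from the diminishing ranges -/
theorem exU (k r : ℕ) (η : ℝ) (hk : 2 ≤ k) (hη : 0 < η) : ∃ U : ℕ → Finset ℕ,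
    (∀ j, ∀ a ∈ U j, a ≤ (2 ^ j) ^ k ∧ ∃ x : Fin r → ℕ, (∀ i, 1 ≤ x i) ∧ ∑ i, x i ^ k = a) ∧
    ∀ᶠ j : ℕ in atTop, ((2 : ℝ) ^ j) ^ ((k : ℝ) - k * (1 - 1 / (k : ℝ)) ^ r - η) ≤ (U j).card := by
  classical
  have h := Pool.Agent.Run7.h930.MW.t_DIM k r η hk hη
  have h2 : Tendsto (fun j : ℕ => 2 ^ j) atTop atTop :=
    tendsto_pow_atTop_atTop_of_one_lt (by norm_num)
  have h3 := h2.eventually h
  set P : ℕ → Finset ℕ → Prop := fun j V =>
    (∀ a ∈ V, a ≤ (2 ^ j) ^ k ∧ ∃ x : Fin r → ℕ, (∀ i, 1 ≤ x i) ∧ ∑ i, x i ^ k = a) ∧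
      (((2 ^ j : ℕ) : ℝ)) ^ ((k : ℝ) - k * (1 - 1 / (k : ℝ)) ^ r - η) ≤ V.card with hP
  refine ⟨fun j => if h : ∃ V, P j V then h.choose else ∅, fun j a ha => ?_, ?_⟩
  · by_cases h4 : ∃ V, P j V
    · simp only [h4, dif_pos] at ha
      exact h4.choose_spec.1 a ha
    · simp [h4] at ha
  · filter_upwards [h3] with j hj
    have h4 : ∃ V, P j V := hj
    simp only [h4, dif_pos]
    have h5 := h4.choose_spec.2
    push_cast at h5
    exact h5

/-- **Sums of `2 r` positive `k`-th powers and `u` generic terms.** -/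
theorem genuine (k r u : ℕ) (hk : 2 ≤ k) (hu : 4 ≤ u)
    (h : 2 * (k : ℝ) * (1 - 1 / (k : ℝ)) ^ r < u) (W : Fin u → Set ℕ) (c t : ℝ) (hc : 0 < c)
    (ht : 0 ≤ t) (hW : ∀ i, Reg c t (W i)) :
    ∀ᵐ lam : Fin u → ℝ, (∀ i, 0 < lam i) → ∀ᶠ M : ℕ in atTop,
      ∃ (x : Fin (2 * r) → ℕ) (n : Fin u → ℕ), (∀ i, 1 ≤ x i) ∧ (∀ i, n i ∈ W i ∧ 1 ≤ n i) ∧
        ∑ i, x i ^ k + ∑ i, ⌊lam i * (n i : ℝ) ^ k⌋₊ = M := by
  set δ : ℝ := ((u : ℝ) / 2 - k * (1 - 1 / (k : ℝ)) ^ r) / 2 with hδ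
  have hδ0 : 0 < δ := by
    rw [hδ]
    have : (k : ℝ) * (1 - 1 / (k : ℝ)) ^ r < u / 2 := by linarith
    linarith
  obtain ⟨U, hU1, hU2⟩ := exU k r δ hk hδ0
  have hm := mixed u k hu hk W c t hc ht hW U
    (Filter.Eventually.of_forall fun j a ha => (hU1 j a ha).1) δ hδ0 ?_
  · filter_upwards [hm] with lam hlam hpos
    filter_upwards [hlam hpos] with M hM
    obtain ⟨j, a, b, n, ha, hb, hn, hsum⟩ := hM
    obtain ⟨-, x, hx1, hx2⟩ := hU1 j a ha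
    obtain ⟨-, y, hy1, hy2⟩ := hU1 j b hb
    have e1 : 2 * r = r + r := two_mul r
    have hap : ∀ i : Fin (r + r), 1 ≤ Fin.append x y i := by
      intro i
      refine Fin.addCases (motive := fun i => 1 ≤ Fin.append x y i) (fun i => ?_) (fun i => ?_) i
      · rw [Fin.append_left]
        exact hx1 i
      · rw [Fin.append_right]
        exact hy1 i
    refine ⟨fun i => Fin.append x y (Fin.cast e1 i), n, fun i => hap _, hn, ?_⟩
    · rw [← hsum]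
      congr 1
      have h3 : ∑ i : Fin (2 * r), Fin.append x y (Fin.cast e1 i) ^ k =
          ∑ i : Fin (r + r), Fin.append x y i ^ k :=
        Fintype.sum_equiv (finCongr e1) _ _ fun i => rfl
      rw [h3, Fin.sum_univ_add]
      simp only [Fin.append_left, Fin.append_right]
      rw [hx2, hy2]
  · filter_upwards [hU2] with j hj
    refine le_trans (le_of_eq ?_) hj
    congr 1
    rw [hδ]
    ring

end

end Pool.Agent.Run7.h757.MW
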