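import Pool.Agent.Run7.h757.MW.Stm5

/-!
# Project MW (helper757), sixth batch: iterated prime-indexed primes (page MP_778b46_nt)

Statements (NOT results); each is a closed `Prop` with its proof in the doc string.
-/

open Finset MeasureTheory Filter

namespace Pool.Agent.Run7.h757.MW

noncomputable section

/-- the `n`-th prime (`n ≥ 1`) -/
def pn (n : ℕ) : ℕ := Nat.nth Nat.Prime (n - 1)

/-- **REGIT**. The primes with index in a regular set are a regular set.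
Proof. `π x = Nat.primeCounting ⌊x⌋₊`. For `n ≥ 1`: `x < pn n ↔ π x < n` and `pn n ≤ z ↔ n ≤ π z`, and `pn` is injective on
`n ≥ 1`; so `#(pn '' W ∩ (x, x + y]) ≥ #(W ∩ (π x, π (x + y)])`. By `Pool.Agent.Run7.h416.MW.regp : Reg (1 / 2) 1 primes`
(in `Pool.Agent.Run7.h416.MW.REGP`): `π (x + y) - π x ≥ y / (2 log x)` and (for the interval `(x / 2, x]`)
`π x ≥ x / (4 log x) ≥ y / (4 log x)`. Given `B`, let `B' = max B 0 + 3`, `X = π x`, `Y = min (y / (2 log x)) (π x)`, so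
`Y ≥ y / (4 log x) ≥ x / (4 (log x)^(B + 1))`, `Y ≤ X ≤ x`, and `log X ≥ (log x) / 2` for large `x`, hence
`X / (log X)^B' ≤ Y`. Apply `Reg c t W` to `X, Y`: the number is `≥ c Y / (log X)^t ≥ c (y / (4 log x)) / (log x)^t`. -/
def S_REGIT : Prop := ∀ (W : Set ℕ) (c t : ℝ), 0 < c → 0 ≤ t → Reg c t W →
  Reg (c / 8) (t + 1) (pn '' W)

/-- **SHORTIT**. The same for `Short`.
Proof. Given `U` let `T₁`, `T₂` be the numbers for `V`, the primes and `U + 2`, `T = T₁ + T₂ + 10`, `L = log N`, `Ex₁`, `Ex₂`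
the exceptional sets for `N` large, `h₀ = ⌈N^γ L^(T₁ + T₂ + 2)⌉₊`, `G = ⌈4 h₀ L⌉₊` (so `N^γ L^T₂ ≤ G ≤ N / L^T₂`).
For `n ∈ [1, N]`, `n ∉ Ex₂`, `x` in the range of `Short` (with `T`): `(n, n + x]` contains `≥ x / (4 L)` primes. If some
`e ∈ (π n, π n + h₀]`, `1 ≤ e ≤ N`, is not in `Ex₁`, then with `x' = ⌊x / (4 L)⌋₊ - h₀ ≥ x / (8 L)`:
`V ∩ (e, e + x']` has at least `c x' / L^t` elements `m`, and `n < pn m ≤ n + x` for them; `pn` is injective on `m ≥ 1`.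
So `n` is good if it is in neither `Ex₂` nor `Bad = {n ∈ [1, N], n ∉ Ex₂ : all e ∈ (π n, π n + h₀] are in Ex₁}`
(if `π n + h₀ > N` for some `n ≤ N` ... does not happen for large `N`, as `π n ≤ N / 2 + 1`).
`|Bad| h₀ ≤ #{(n, e) : n ∈ Bad, e ∈ Ex₁, π n < e ≤ π n + h₀}`; for fixed `e`, as `(n, n + G]` contains `≥ G / (4 L) ≥ h₀`
primes, `n < pn e ≤ n + G`; so at most `G` values of `n`. Hence `|Bad| ≤ |Ex₁| G / h₀ ≤ |Ex₁| (4 L + 1)`, and
`|Ex₂| + |Bad| ≤ N / L^(U + 2) (4 L + 2) ≤ N / L^U`. -/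
def S_SHORTIT : Prop := ∀ (V : Set ℕ) (c t γ : ℝ), 0 < c → 0 ≤ t → 0 < γ → γ < 1 → Short c t γ V →
  Short (1 / 4) 1 γ {p : ℕ | p.Prime} → Short (c / 16) (t + 1) γ (pn '' V)

end

end Pool.Agent.Run7.h757.MW
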