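import Pool.Agent.Run7.h757.MW.Bin6
import Pool.Agent.Run7.h757.MW.Stm6
import Pool.Agent.Run7.h757.MW.Ord

/-!
# Project MW: iterated prime-indexed primes and generic polynomial terms
-/

open Finset MeasureTheory Filter Polynomial

namespace Pool.Agent.Run7.h757.MW

noncomputable section

/-- the `x`-th `i`-prime -/
def iprime (i x : ℕ) : ℕ := Nat.iterate (fun k : ℕ => Nat.nth Nat.Prime (k - 1)) (i + 1) x

/-- the set of the `i`-primes -/
def ipS (i : ℕ) : Set ℕ := {m | ∃ x, 0 < x ∧ iprime i x = m}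

theorem prime_sub_ipS : {p : ℕ | p.Prime} ⊆ ipS 0 := by
  intro p hp
  have hp' : p.Prime := hp
  refine ⟨Nat.count Nat.Prime p + 1, by omega, ?_⟩
  unfold iprime
  rw [zero_add, Function.iterate_one]
  exact Nat.nth_count hp'

theorem pn_sub_ipS (i : ℕ) : pn '' (ipS i) ⊆ ipS (i + 1) := by
  rintro m ⟨w, ⟨x, hx, rfl⟩, rfl⟩
  refine ⟨x, hx, ?_⟩
  unfold iprime pn
  rw [Function.iterate_succ_apply']

theorem Reg.subset {c t : ℝ} {W W' : Set ℕ} (h : Reg c t W) (hs : W ⊆ W') : Reg c t W' := by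
  intro B
  obtain ⟨x₀, hx₀⟩ := h B
  refine ⟨max x₀ 1, fun x y hx hy hyx => ?_⟩
  refine (hx₀ x y ((le_max_left _ _).trans hx) hy hyx).trans ?_
  have hfin : {n : ℕ | x < n ∧ (n : ℝ) ≤ x + y}.Finite := by
    refine (Set.finite_Iic ⌊x + y⌋₊).subset fun n hn => ?_
    exact Nat.le_floor hn.2
  exact_mod_cast Set.ncard_le_ncard (Set.inter_subset_inter_left _ hs)
    (hfin.subset Set.inter_subset_right)

theorem Short.subset {c t γ : ℝ} {V V' : Set ℕ} (h : Short c t γ V) (hs : V ⊆ V') :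
    Short c t γ V' := by
  intro U
  obtain ⟨T, hT⟩ := h U
  refine ⟨T, ?_⟩
  filter_upwards [hT] with N hN
  obtain ⟨Ex, hE, h1⟩ := hN
  refine ⟨Ex, hE, fun n hn hne x hx1 hx2 => (h1 n hn hne x hx1 hx2).trans ?_⟩
  have hfin : {m : ℕ | n < m ∧ m ≤ n + x}.Finite := by
    refine (Set.finite_Iic (n + x)).subset fun m hm => ?_
    exact hm.2
  exact_mod_cast Set.ncard_le_ncard (Set.inter_subset_inter_left _ hs)
    (hfin.subset Set.inter_subset_right)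

theorem reg_ip (hREGIT : S_REGIT) (i : ℕ) : Reg (1 / 2 * (1 / 8) ^ i) (i + 1) (ipS i) := by
  induction i with
  | zero =>
    have h := Pool.Agent.Run7.h416.MW.regp
    unfold S_REGP at h
    have h2 := Reg.subset h prime_sub_ipS
    simpa using h2
  | succ i ih =>
    have h1 := hREGIT (ipS i) _ _ (by positivity) (by positivity) ih
    have h2 := Reg.subset h1 (pn_sub_ipS i)
    have e1 : (1 / 2 * (1 / 8) ^ i / 8 : ℝ) = 1 / 2 * (1 / 8) ^ (i + 1) := by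
      rw [pow_succ]
      ring
    rw [e1] at h2
    push_cast
    exact h2

theorem short_ip (hSHORTP : S_SHORTP) (hSHORTIT : S_SHORTIT) (i : ℕ) :
    Short (1 / 4 * (1 / 16) ^ i) (i + 1) (1 / 3) (ipS i) := by
  induction i with
  | zero =>
    have h2 := Short.subset hSHORTP prime_sub_ipS
    simpa using h2
  | succ i ih =>
    have h1 := hSHORTIT (ipS i) _ _ (1 / 3) (by positivity) (by positivity) (by norm_num)
      (by norm_num) ih hSHORTP
    have h2 := Short.subset h1 (pn_sub_ipS i)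
    have e1 : (1 / 4 * (1 / 16) ^ i / 16 : ℝ) = 1 / 4 * (1 / 16) ^ (i + 1) := by
      rw [pow_succ]
      ring
    rw [e1] at h2
    push_cast
    exact h2

theorem main_ip (hLOW1 : S_LOW1) (hLOW2 : S_LOW2) (hSHORTP : S_SHORTP) (hPOLY : S_POLY)
    (hREGIT : S_REGIT) (hSHORTIT : S_SHORTIT) (J : ℕ) :
    ∀ᵐ lam : Fin (J + 1) → ℝ, (∀ i, 0 < lam i) → ∀ (a b : ℕ) (o : Fin J → ℕ) (f : ℤ[X])
      (e : Fin J → ℕ), 1 ≤ f.natDegree → 0 < f.leadingCoeff → (∀ i, 1 ≤ e i) → ∀ β : ℝ,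
        1 - 2 ^ J * min (2 / 3) (1 / (f.natDegree : ℝ)) < β →
          Exc (RJ (fun n => (f.eval (n : ℤ)).toNat) (ipS a)
            (ipS b ∩ {n : ℕ | 0 < f.eval (n : ℤ)}) J e (fun i => ipS (o i)) lam) β := by
  have h0 : ∀ (a b : ℕ) (o : Fin J → ℕ) (f : ℤ[X]) (e : Fin J → ℕ) (q : ℚ),
      ∀ᵐ lam : Fin (J + 1) → ℝ, (∀ i, 0 < lam i) →
      (1 ≤ f.natDegree ∧ 0 < f.leadingCoeff ∧ (∀ i, 1 ≤ e i) ∧
        1 - 2 ^ J * min (2 / 3) (1 / (f.natDegree : ℝ)) < (q : ℝ)) →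
          Exc (RJ (fun n => (f.eval (n : ℤ)).toNat) (ipS a)
            (ipS b ∩ {n : ℕ | 0 < f.eval (n : ℤ)}) J e (fun i => ipS (o i)) lam) q := by
    intro a b o f e q
    by_cases h : 1 ≤ f.natDegree ∧ 0 < f.leadingCoeff ∧ (∀ i, 1 ≤ e i) ∧
        1 - 2 ^ J * min (2 / 3) (1 / (f.natDegree : ℝ)) < (q : ℝ)
    · obtain ⟨hd, hl, he, hq⟩ := h
      obtain ⟨hGr, hpos⟩ := hPOLY f hd hl
      set m : ℕ := b + ∑ i, o i with hm
      have hc : (0 : ℝ) < 1 / 2 * (1 / 8) ^ m := by positivity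
      have hmono : ∀ i : ℕ, i ≤ m → Reg (1 / 2 * (1 / 8) ^ m) (m + 1) (ipS i) := by
        intro i hi
        refine (reg_ip hREGIT i).mono hc.le ?_ ?_
        · have : ((1 : ℝ) / 8) ^ m ≤ (1 / 8) ^ i :=
            pow_le_pow_of_le_one (by norm_num) (by norm_num) hi
          linarith
        · have : (i : ℝ) ≤ m := by exact_mod_cast hi
          linarith
      have hRegW : Reg (1 / 2 * (1 / 8) ^ m) (m + 1) (ipS b ∩ {n : ℕ | 0 < f.eval (n : ℤ)}) :=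
        Reg.inter_ev (hmono b (by omega)) hpos
      have hb : ∀ β, 1 - min (2 / 3) (1 / (f.natDegree : ℝ)) < β →
          AJ (fun n => (f.eval (n : ℤ)).toNat) (ipS a)
            (ipS b ∩ {n : ℕ | 0 < f.eval (n : ℤ)}) (1 / 2 * (1 / 8) ^ m) (m + 1) 0 β := by
        intro β hβ
        refine base_J hLOW1 hLOW2 f.natDegree _ _ _ (1 / 2 * (1 / 8) ^ m) (m + 1)
          (1 / 4 * (1 / 16) ^ a) (a + 1) (1 / 3) hd hGr hc
          (by positivity) hRegW (by positivity) (by positivity) (by norm_num) (by norm_num)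
          (short_ip hSHORTP hSHORTIT a) β ?_
        have h1 : (1 : ℝ) - 1 / 3 = 2 / 3 := by norm_num
        rw [h1]
        exact hβ
      have h1 := iter_J Pool.Agent.Run7.h56.MW.t_STEP hc (by positivity) hb J q hq e
        (fun i => ipS (o i)) he (fun i => hmono (o i) (by
          have := Finset.single_le_sum (f := o) (fun j _ => Nat.zero_le _) (Finset.mem_univ i)
          omega))
      filter_upwards [h1] with lam hlam hp _ using hlam hp
    · exact Filter.Eventually.of_forall fun _ _ h' => (h h').elim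
  have hcount : Countable ℤ[X] := by
    rw [← Cardinal.mk_le_aleph0_iff]
    refine (Polynomial.cardinalMk_le_max (R := ℤ)).trans ?_
    exact max_le (Cardinal.mk_le_aleph0_iff.2 inferInstance) le_rfl
  filter_upwards [ae_all_iff.2 fun a => ae_all_iff.2 fun b => ae_all_iff.2 fun o => ae_all_iff.2
    fun f => ae_all_iff.2 fun e => ae_all_iff.2 fun q => h0 a b o f e q] with
    lam hlam hp a b o f e hd hl he β hβ
  obtain ⟨q, hq1, hq2⟩ := exists_rat_btwn hβ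
  exact (hlam a b o f e q hp ⟨hd, hl, he, hq1⟩).mono subset_rfl hq2.le

/-- `M = (a-prime) + ⌊lam 0 * f(b 0-prime)⌋ + ∑ ⌊lam (i + 1) * (b (i + 1)-prime) ^ e i⌋` -/
def IsSumI (J a : ℕ) (b : Fin (J + 1) → ℕ) (f : ℤ[X]) (e : Fin J → ℕ) (lam : Fin (J + 1) → ℝ)
    (M : ℕ) : Prop :=
  ∃ (x : ℕ) (y : Fin (J + 1) → ℕ), 0 < x ∧ (∀ i, 0 < y i) ∧
    0 < f.eval ((iprime (b 0) (y 0) : ℕ) : ℤ) ∧
    (M : ℤ) = iprime a x + ⌊lam 0 * ((f.eval ((iprime (b 0) (y 0) : ℕ) : ℤ) : ℤ) : ℝ)⌋ +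
      ∑ i : Fin J, ⌊lam i.succ * (iprime (b i.succ) (y i.succ) : ℝ) ^ e i⌋

theorem isSumI_of (J a : ℕ) (b : Fin (J + 1) → ℕ) (f : ℤ[X]) (e : Fin J → ℕ)
    (lam : Fin (J + 1) → ℝ) (hlam : ∀ i, 0 < lam i) :
    RJ (fun n => (f.eval (n : ℤ)).toNat) (ipS a)
      (ipS (b 0) ∩ {n : ℕ | 0 < f.eval (n : ℤ)}) J e (fun i => ipS (b i.succ)) lam ⊆
        {M | IsSumI J a b f e lam M} := by
  rintro M ⟨p, n, m, ⟨⟨x, hx, rfl⟩, ⟨⟨y, hy, rfl⟩, hn0⟩, hn1, hm⟩, hM⟩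
  choose z hz0 hz using fun i => (hm i).2
  refine ⟨x, Fin.cons y z, hx, fun i => ?_, ?_, ?_⟩
  · refine Fin.cases ?_ (fun i => ?_) i
    · rw [Fin.cons_zero]
      exact hy
    · rw [Fin.cons_succ]
      exact hz0 i
  · rw [Fin.cons_zero]
    exact hn0
  · simp only [Fin.cons_zero, Fin.cons_succ]
    set n : ℕ := iprime (b 0) y with hn
    have hn0' : 0 < f.eval (n : ℤ) := hn0
    have h1 : ((fl (lam 0) (f.eval (n : ℤ)).toNat : ℕ) : ℤ) =
        ⌊lam 0 * ((f.eval ((n : ℕ) : ℤ) : ℤ) : ℝ)⌋ := by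
      unfold fl
      have h2 : (((f.eval (n : ℤ)).toNat : ℕ) : ℝ) = ((f.eval ((n : ℕ) : ℤ) : ℤ) : ℝ) := by
        have h3 : (((f.eval (n : ℤ)).toNat : ℕ) : ℤ) = f.eval ((n : ℕ) : ℤ) :=
          Int.toNat_of_nonneg hn0'.le
        exact_mod_cast congrArg (Int.cast : ℤ → ℝ) h3
      rw [h2]
      refine Int.natCast_floor_eq_floor ?_
      have h4 : (0 : ℝ) ≤ ((f.eval ((n : ℕ) : ℤ) : ℤ) : ℝ) := by exact_mod_cast hn0'.le
      exact mul_nonneg (hlam 0).le h4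
    have h2 : ∀ i : Fin J, ((⌊lam i.succ * (m i : ℝ) ^ e i⌋₊ : ℕ) : ℤ) =
        ⌊lam i.succ * (iprime (b i.succ) (z i) : ℝ) ^ e i⌋ := by
      intro i
      rw [hz i]
      refine Int.natCast_floor_eq_floor ?_
      have := (hlam i.succ).le
      positivity
    rw [← hM]
    push_cast
    rw [h1]
    congr 1
    exact Finset.sum_congr rfl fun i _ => h2 i

open Classical in
theorem final_ip (hLOW1 : S_LOW1) (hLOW2 : S_LOW2) (hSHORTP : S_SHORTP) (hPOLY : S_POLY)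
    (hREGIT : S_REGIT) (hSHORTIT : S_SHORTIT) (J : ℕ) :
    ∀ᵐ lam : Fin (J + 1) → ℝ, (∀ i, 0 < lam i) → ∀ (a : ℕ) (b : Fin (J + 1) → ℕ) (f : ℤ[X])
      (e : Fin J → ℕ), 1 ≤ f.natDegree → 0 < f.leadingCoeff → (∀ i, 1 ≤ e i) →
        (∀ β : ℝ, 0 < β → 1 - 2 ^ J * min (2 / 3) (1 / (f.natDegree : ℝ)) < β →
          ∃ C : ℝ, ∀ X : ℕ, 1 ≤ X →
            (({M ∈ range (X + 1) | ¬ IsSumI J a b f e lam M} : Finset ℕ).card : ℝ) ≤
              C * (X : ℝ) ^ β) ∧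
        (1 < 2 ^ J * min (2 / 3) (1 / (f.natDegree : ℝ)) →
          ∀ᶠ M : ℕ in atTop, IsSumI J a b f e lam M) := by
  filter_upwards [main_ip hLOW1 hLOW2 hSHORTP hPOLY hREGIT hSHORTIT J] with lam hlam hp a b f e hd hl he
  have hsub := isSumI_of J a b f e lam hp
  refine ⟨fun β hβ0 hβ => ?_, fun h => ?_⟩
  · exact exc_X ((hlam hp a (b 0) (fun i => b i.succ) f e hd hl he β hβ).mono hsub le_rfl) hβ0
  · refine ((hlam hp a (b 0) (fun i => b i.succ) f e hd hl he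
      ((1 - 2 ^ J * min (2 / 3) (1 / (f.natDegree : ℝ))) / 2)
      (by linarith)).cofinite (by linarith)).mono fun M hM => hsub hM

end

end Pool.Agent.Run7.h757.MW
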