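import Pool.Agent.Run7.h757.MW.Stm5

/-!
# Project MW: piece LOW2 (counting)
-/

set_option autoImplicit false

open Finset MeasureTheory Filter

namespace Pool.Agent.Run7.h757.MW

noncomputable section

/-- few points of `S` see a given integer -/
theorem few_see {k : ℕ} {f : ℕ → ℕ} {C : ℝ} {n₀ : ℕ} (hC : 0 < C)
    (hsp : ∀ m n : ℕ, n₀ ≤ m → m < n → (m : ℝ) ^ (k - 1) * ((n : ℝ) - m) ≤ C * ((f n : ℝ) - f m))
    {lam : ℝ} (hlam : 0 < lam) {N h M : ℕ} (hN : n₀ ≤ N) (hN1 : 1 ≤ N) (A : Finset ℕ)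
    (hA : ∀ n ∈ A, N < n ∧ fl lam (f n) ≤ M) (e : ℕ)
    (hAe : ∀ n ∈ A, M - fl lam (f n) < e ∧ e ≤ M - fl lam (f n) + h) :
    (A.card : ℝ) ≤ 1 + C * (h + 1) / (lam * (N : ℝ) ^ (k - 1)) := by
  have hN0 : (0 : ℝ) < (N : ℝ) ^ (k - 1) := by
    have : (0 : ℝ) < N := by exact_mod_cast hN1
    positivity
  rcases A.eq_empty_or_nonempty with h0 | hne
  · rw [h0, card_empty]
    push_cast
    positivity
  set m := A.min' hne with hm
  set n := A.max' hne with hn
  have hmA : m ∈ A := A.min'_mem hne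
  have hnA : n ∈ A := A.max'_mem hne
  have hmn : m ≤ n := A.min'_le n hnA
  have hcard : A.card ≤ n - m + 1 := by
    have h1 : A ⊆ Icc m n := fun x hx => mem_Icc.2 ⟨A.min'_le x hx, A.le_max' x hx⟩
    have h2 := Finset.card_le_card h1
    rw [Nat.card_Icc] at h2
    omega
  have hcard' : (A.card : ℝ) ≤ ((n : ℝ) - m) + 1 := by
    have h1 : ((A.card : ℕ) : ℝ) ≤ ((n - m + 1 : ℕ) : ℝ) := by exact_mod_cast hcard
    rw [Nat.cast_add, Nat.cast_sub hmn] at h1
    simpa using h1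
  have key : (n : ℝ) - m ≤ C * (h + 1) / (lam * (N : ℝ) ^ (k - 1)) := by
    rcases hmn.eq_or_lt with heq | hlt
    · rw [← heq, sub_self]
      positivity
    · obtain ⟨hm1, hm2⟩ := hA m hmA
      obtain ⟨hn1, hn2⟩ := hA n hnA
      have h1 := hsp m n (by omega) hlt
      have h2 := hAe m hmA
      have h3 := hAe n hnA
      -- the floors differ by less than `h`
      have h4 : fl lam (f n) < fl lam (f m) + h := by omega
      have h5 : (fl lam (f n) : ℝ) + 1 ≤ fl lam (f m) + h := by exact_mod_cast h4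
      have h6 : lam * f n < fl lam (f n) + 1 := by
        unfold fl
        exact Nat.lt_floor_add_one _
      have h7 : (fl lam (f m) : ℝ) ≤ lam * f m := by
        unfold fl
        exact Nat.floor_le (by positivity)
      have h8 : lam * ((f n : ℝ) - f m) ≤ h := by
        rw [mul_sub]
        linarith
      have h9 : (N : ℝ) ^ (k - 1) * ((n : ℝ) - m) ≤ (m : ℝ) ^ (k - 1) * ((n : ℝ) - m) := by
        have h10 : (0 : ℝ) ≤ (n : ℝ) - m := by
          have : (m : ℝ) ≤ n := by exact_mod_cast hmn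
          linarith
        have h11 : (N : ℝ) ≤ m := by exact_mod_cast hm1.le
        gcongr
      rw [le_div_iff₀ (by positivity)]
      calc ((n : ℝ) - m) * (lam * (N : ℝ) ^ (k - 1)) = lam * ((N : ℝ) ^ (k - 1) * ((n : ℝ) - m)) := by ring
        _ ≤ lam * (C * ((f n : ℝ) - f m)) := by
            refine mul_le_mul_of_nonneg_left (h9.trans h1) hlam.le
        _ = C * (lam * ((f n : ℝ) - f m)) := by ring
        _ ≤ C * h := mul_le_mul_of_nonneg_left h8 hC.le
        _ ≤ C * (h + 1) := by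
            refine mul_le_mul_of_nonneg_left ?_ hC.le
            linarith
  linarith

/-- double counting -/
theorem bad_count (B Ex : Finset ℕ) (cc : ℕ → ℕ) (h : ℕ) (Y : ℝ)
    (hB : ∀ n ∈ B, ∀ e, cc n < e → e ≤ cc n + h → e ∈ Ex)
    (hY : ∀ e ∈ Ex, (((B.filter fun n => cc n < e ∧ e ≤ cc n + h).card : ℕ) : ℝ) ≤ Y) :
    (B.card : ℝ) * h ≤ Ex.card * Y := by
  have h1 : ∑ n ∈ B, ((Ex.filter fun e => cc n < e ∧ e ≤ cc n + h).card : ℝ) =
      ∑ e ∈ Ex, ((B.filter fun n => cc n < e ∧ e ≤ cc n + h).card : ℝ) := by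
    simp only [Finset.card_filter, Nat.cast_sum]
    exact Finset.sum_comm
  have h2 : (B.card : ℝ) * h ≤ ∑ n ∈ B, ((Ex.filter fun e => cc n < e ∧ e ≤ cc n + h).card : ℝ) := by
    rw [← nsmul_eq_mul, ← Finset.sum_const]
    refine Finset.sum_le_sum fun n hn => ?_
    have h3 : Ioc (cc n) (cc n + h) ⊆ Ex.filter fun e => cc n < e ∧ e ≤ cc n + h := by
      intro e he
      obtain ⟨h4, h5⟩ := mem_Ioc.1 he
      exact mem_filter.2 ⟨hB n hn e h4 h5, h4, h5⟩
    have h4 := Finset.card_le_card h3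
    rw [Nat.card_Ioc, Nat.add_sub_cancel_left] at h4
    exact_mod_cast h4
  refine h2.trans ?_
  rw [h1, ← nsmul_eq_mul, ← Finset.sum_const]
  exact Finset.sum_le_sum fun e he => hY e he

theorem log_beats (T : ℕ) {C η : ℝ} (hC : 0 < C) (hη : 0 < η) :
    ∀ᶠ x : ℝ in atTop, C * Real.log x ^ T ≤ x ^ η := by
  have h1 := (isLittleO_log_rpow_rpow_atTop (T : ℝ) hη).def (show 0 < 1 / C by positivity)
  filter_upwards [h1, eventually_ge_atTop 1] with x hx hx1
  have hl : 0 ≤ Real.log x := Real.log_nonneg hx1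
  rw [Real.rpow_natCast, Real.norm_of_nonneg (by positivity), Real.norm_of_nonneg (by positivity),
    one_div_mul_eq_div, le_div_iff₀ hC] at hx
  linarith

theorem low2 : S_LOW2 := by
  classical
  intro k f V c t γ γ' hk hf hc ht hγ0 hV hγ hγk hγ1 lam hlam K c₃ t' hc₃ ht'
  obtain ⟨a₀, C, n₀, ha₀, hC, hn₀, -, hsp⟩ := hf
  set U : ℕ := ⌈t'⌉₊ + 1 with hU
  have hUt : t' + 1 ≤ U := by
    have := Nat.le_ceil t'
    rw [hU]
    push_cast
    linarith
  obtain ⟨T, hT⟩ := hV U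
  set D : ℕ := ⌈t' + t⌉₊ + 1 with hD
  have hDt : t' + t + 1 ≤ D := by
    have := Nat.le_ceil (t' + t)
    rw [hD]
    push_cast
    linarith
  refine ⟨D, ?_⟩
  have hk0 : (0 : ℝ) < k := by exact_mod_cast hk
  -- tendsto
  have hXnat : Tendsto (fun j : ℕ => 2 ^ (j * k)) atTop (atTop : Filter ℕ) := by
    have h1 : Tendsto (fun j : ℕ => j * k) atTop atTop :=
      tendsto_atTop_mono (fun j => Nat.le_mul_of_pos_right j (by omega)) tendsto_id
    exact (tendsto_pow_atTop_atTop_of_one_lt (by norm_num : 1 < 2)).comp h1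
  have hXreal : Tendsto (fun j : ℕ => ((2 ^ (j * k) : ℕ) : ℝ)) atTop atTop :=
    tendsto_natCast_atTop_atTop.comp hXnat
  have hj1 : Tendsto (fun j : ℕ => (j : ℝ) + 1) atTop atTop :=
    tendsto_atTop_add_const_right _ _ tendsto_natCast_atTop_atTop
  filter_upwards [hXnat.eventually hT,
    hXreal.eventually (log_beats T (C := 16) (η := γ' - γ) (by norm_num) (by linarith)),
    hXreal.eventually (log_beats T (C := 1) (η := 1 - γ') (by norm_num) (by linarith)),
    hXreal.eventually (log_beats 0 (C := 16) (η := γ' - (1 - 1 / (k : ℝ))) (by norm_num) (by linarith)),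
    hXreal.eventually (log_beats 0 (C := 16) (η := γ') (by norm_num) (by linarith)),
    eventually_ge_atTop (n₀ + 1),
    hj1.eventually_ge_atTop (2 * (1 + 2 * C / lam) * 4 ^ U / c₃),
    hj1.eventually_ge_atTop (32 * (k : ℝ) ^ t / (c * c₃))] with j hS h1 h2 h3 h4 hjn h5 h6 M S hSM hcard
  obtain ⟨Ex, hEx, hSh⟩ := hS
  set X : ℕ := 2 ^ (j * k) with hX
  have hXX : (2 : ℝ) ^ (j * k) = (X : ℝ) := by
    rw [hX]
    push_cast
    rfl
  rw [hXX]
  set H : ℕ := ⌈(X : ℝ) ^ γ'⌉₊ with hH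
  set h : ℕ := H / 8 with hh
  set L : ℝ := Real.log X with hL
  have hX1 : (1 : ℝ) ≤ X := by
    rw [← hXX]
    exact one_le_pow₀ (by norm_num)
  have hX0 : (0 : ℝ) < X := by linarith
  rw [pow_zero, mul_one] at h3 h4
  rw [one_mul] at h2
  set N : ℝ := (2 : ℝ) ^ j with hN
  have hN0 : 0 < N := by positivity
  have hN1 : 1 ≤ N := one_le_pow₀ (by norm_num)
  have hNk : (X : ℝ) = N ^ (k - 1) * N := by
    rw [← pow_succ, Nat.sub_add_cancel hk, hN, ← pow_mul, hXX]
  have hNk1 : N ^ (k - 1) = (X : ℝ) ^ (1 - 1 / (k : ℝ)) := by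
    rw [← hXX, hN, pow_mul, ← Real.rpow_natCast _ k, ← Real.rpow_mul (by positivity),
      ← Real.rpow_natCast _ (k - 1), Nat.cast_sub hk]
    congr 1
    field_simp
    push_cast
    ring
  -- the logarithm
  have hLval : L = j * k * Real.log 2 := by
    rw [hL, hX]
    push_cast
    rw [Real.log_pow]
    push_cast
    ring
  have hjr : (1 : ℝ) ≤ j := by
    have : 1 ≤ j := by omega
    exact_mod_cast this
  have hkr : (1 : ℝ) ≤ k := by exact_mod_cast hk
  have hl2a := Real.log_two_gt_d9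
  have hl2b := Real.log_two_lt_d9
  have hLlow : ((j : ℝ) + 1) / 4 ≤ L := by
    rw [hLval]
    have e1 : (j : ℝ) ≤ j * k := by nlinarith
    have e2 : (j : ℝ) * (1 / 2) ≤ j * k * Real.log 2 := by
      have e3 : (j : ℝ) * (1 / 2) ≤ (j * k) * (1 / 2) := by linarith
      have e4 : ((j : ℝ) * k) * (1 / 2) ≤ (j * k) * Real.log 2 := by
        refine mul_le_mul_of_nonneg_left (by linarith) (by positivity)
      linarith
    linarith
  have hLup : L ≤ k * ((j : ℝ) + 1) := by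
    rw [hLval]
    have e1 : (j : ℝ) * k * Real.log 2 ≤ j * k * 1 := by
      refine mul_le_mul_of_nonneg_left (by linarith) (by positivity)
    nlinarith
  set l : ℝ := (j : ℝ) + 1 with hl
  have hl1 : 1 ≤ l := by linarith
  have hl0 : 0 < l := by linarith
  have hL0 : 0 < L := by
    have : 0 < l / 4 := by positivity
    linarith
  -- the size of h
  have hHle : H ≤ X := by
    rw [hH]
    refine Nat.ceil_le.2 ?_
    calc (X : ℝ) ^ γ' ≤ (X : ℝ) ^ (1 : ℝ) := Real.rpow_le_rpow_of_exponent_le hX1 hγ1.le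
      _ = X := Real.rpow_one _
  have hHge : (X : ℝ) ^ γ' ≤ H := Nat.le_ceil _
  have hHup : (H : ℝ) ≤ (X : ℝ) ^ γ' + 1 := (Nat.ceil_lt_add_one (by positivity)).le
  have hh1 : (H : ℝ) ≤ 8 * h + 7 := by
    have : H ≤ 8 * h + 7 := by omega
    exact_mod_cast this
  have hh2 : 8 * (h : ℝ) ≤ H := by
    have : 8 * h ≤ H := by omega
    exact_mod_cast this
  have hh16 : (X : ℝ) ^ γ' ≤ 16 * h := by linarith
  have hHh : (H : ℝ) ≤ 16 * h := by
    have : (1 : ℝ) ≤ h := by linarith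
    linarith
  have hhone : (1 : ℝ) ≤ h := by linarith
  have hh0 : (0 : ℝ) < h := by linarith
  have hcond1 : (X : ℝ) ^ γ * L ^ T ≤ h := by
    have e1 : (X : ℝ) ^ γ * (16 * L ^ T) ≤ (X : ℝ) ^ γ * (X : ℝ) ^ (γ' - γ) := by gcongr
    rw [← Real.rpow_add hX0, add_sub_cancel] at e1
    linarith
  have hcond2 : (h : ℝ) * L ^ T ≤ X := by
    have e0 : (h : ℝ) ≤ (X : ℝ) ^ γ' := by linarith
    have e1 : (h : ℝ) * L ^ T ≤ (X : ℝ) ^ γ' * (X : ℝ) ^ (1 - γ') := by gcongr
    rw [← Real.rpow_add hX0, add_sub_cancel, Real.rpow_one] at e1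
    exact e1
  have hNh : N ^ (k - 1) ≤ h := by
    have e1 : (X : ℝ) ^ (1 - 1 / (k : ℝ)) * 16 ≤
        (X : ℝ) ^ (1 - 1 / (k : ℝ)) * (X : ℝ) ^ (γ' - (1 - 1 / (k : ℝ))) := by gcongr
    rw [← Real.rpow_add hX0, add_sub_cancel] at e1
    rw [hNk1]
    linarith
  -- bad points
  set cc : ℕ → ℕ := fun n => M - fl lam (f n) with hcc
  set B : Finset ℕ := S.filter fun n =>
    ((V ∩ {m : ℕ | cc n < m ∧ m ≤ cc n + 2 * h}).ncard : ℝ) < c * h / L ^ t with hB
  have hfin : ∀ a b : ℕ, {m : ℕ | a < m ∧ m ≤ b}.Finite := fun a b =>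
    (Set.finite_Iic b).subset fun m hm => hm.2
  have hBEx : ∀ n ∈ B, ∀ e, cc n < e → e ≤ cc n + h → e ∈ Ex := by
    intro n hn e he1 he2
    rw [hB, mem_filter] at hn
    obtain ⟨hnS, hnb⟩ := hn
    obtain ⟨g1, g2, g3, g4⟩ := hSM n hnS
    by_contra hne
    have heX : e ∈ Icc 1 X := by
      rw [mem_Icc]
      have e1 : 4 * cc n ≤ 3 * X := g4
      constructor <;> omega
    have e2 := hSh e heX hne h hcond1 hcond2
    have e3 : ((V ∩ {m : ℕ | e < m ∧ m ≤ e + h}).ncard : ℝ) ≤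
        ((V ∩ {m : ℕ | cc n < m ∧ m ≤ cc n + 2 * h}).ncard : ℝ) := by
      have e4 : (V ∩ {m : ℕ | e < m ∧ m ≤ e + h}) ⊆ (V ∩ {m : ℕ | cc n < m ∧ m ≤ cc n + 2 * h}) := by
        rintro m ⟨hm1, hm2, hm3⟩
        exact ⟨hm1, by omega, by omega⟩
      exact_mod_cast Set.ncard_le_ncard e4 ((hfin _ _).subset Set.inter_subset_right)
    linarith
  have hflM : ∀ n ∈ S, fl lam (f n) ≤ M := by
    intro n hnS
    obtain ⟨g1, g2, g3, g4⟩ := hSM n hnS
    have e1 : 0 < X := by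
      rw [hX]
      positivity
    omega
  set Y : ℝ := 1 + C * (h + 1) / (lam * N ^ (k - 1)) with hY
  have hcount : (B.card : ℝ) * h ≤ Ex.card * Y := by
    refine bad_count B Ex cc h Y hBEx fun e _ => ?_
    have e1 := few_see hC hsp hlam (N := 2 ^ j) (h := h) (M := M)
      (by have := Nat.lt_two_pow_self (n := j); omega) Nat.one_le_two_pow
      (B.filter fun n => cc n < e ∧ e ≤ cc n + h) ?_ e ?_
    · refine e1.trans (le_of_eq ?_)
      rw [hY, hN]
      push_cast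
      rfl
    · intro n hn
      rw [mem_filter, hB, mem_filter] at hn
      exact ⟨(hSM n hn.1.1).1, hflM n hn.1.1⟩
    · intro n hn
      rw [mem_filter] at hn
      exact hn.2
  have hYle : Y ≤ (1 + 2 * C / lam) * (h / N ^ (k - 1)) := by
    have hNp : (0 : ℝ) < N ^ (k - 1) := by positivity
    have e1 : (1 : ℝ) ≤ h / N ^ (k - 1) := by
      rw [le_div_iff₀ hNp]
      linarith
    have e2 : C * (h + 1) / (lam * N ^ (k - 1)) ≤ 2 * C / lam * (h / N ^ (k - 1)) := by
      rw [div_mul_div_comm]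
      have e3 : C * ((h : ℝ) + 1) ≤ 2 * C * h := by nlinarith
      exact div_le_div_of_nonneg_right e3 (by positivity)
    rw [hY, add_mul, one_mul]
    linarith
  have hBcard : (B.card : ℝ) ≤ S.card / 2 := by
    have hNp : (0 : ℝ) < N ^ (k - 1) := by positivity
    have e1 : (B.card : ℝ) * h ≤ X / L ^ U * ((1 + 2 * C / lam) * (h / N ^ (k - 1))) := by
      refine hcount.trans ?_
      have hY0 : 0 ≤ Y := by
        rw [hY]
        positivity
      gcongr
    have e2 : X / L ^ U * ((1 + 2 * C / lam) * (h / N ^ (k - 1))) =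
        ((1 + 2 * C / lam) * N / L ^ U) * h := by
      rw [hNk]
      field_simp
    rw [e2] at e1
    have e3 : (B.card : ℝ) ≤ (1 + 2 * C / lam) * N / L ^ U := le_of_mul_le_mul_right e1 hh0
    have e4 : l ^ t' * l ≤ l ^ U := by
      rw [← Real.rpow_natCast l U]
      calc l ^ t' * l = l ^ (t' + 1) := by rw [Real.rpow_add hl0, Real.rpow_one]
        _ ≤ _ := Real.rpow_le_rpow_of_exponent_le hl1 hUt
    have e5 : (l / 4) ^ U ≤ L ^ U := by gcongr
    have e6 : (1 + 2 * C / lam) * N / L ^ U ≤ (1 + 2 * C / lam) * N / (l / 4) ^ U := by gcongr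
    have e7 : (1 + 2 * C / lam) * N / (l / 4) ^ U ≤ c₃ * N / l ^ t' / 2 := by
      have hlt : 0 < l ^ t' := Real.rpow_pos_of_pos hl0 _
      rw [div_pow, div_div_eq_mul_div, div_div, div_le_div_iff₀ (by positivity) (by positivity)]
      have e8 : 2 * (1 + 2 * C / lam) * 4 ^ U ≤ l * c₃ := by
        rw [div_le_iff₀ hc₃] at h5
        exact h5
      calc (1 + 2 * C / lam) * N * 4 ^ U * (l ^ t' * 2)
          = (2 * (1 + 2 * C / lam) * 4 ^ U) * (N * l ^ t') := by ring
        _ ≤ (l * c₃) * (N * l ^ t') := by gcongr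
        _ = c₃ * N * (l ^ t' * l) := by ring
        _ ≤ c₃ * N * l ^ U := by gcongr
    linarith
  -- the good points
  have hgood : ∀ n ∈ S \ B, c * h / L ^ t ≤ (((VV V k j).filter fun a =>
      2 * |((a + fl lam (f n) : ℕ) : ℤ) - M| ≤ (H : ℤ)).card : ℝ) := by
    intro n hn
    rw [Finset.mem_sdiff] at hn
    obtain ⟨hnS, hnB⟩ := hn
    have e1 : c * h / L ^ t ≤ ((V ∩ {m : ℕ | cc n < m ∧ m ≤ cc n + 2 * h}).ncard : ℝ) := by
      by_contra hlt
      push Not at hlt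
      exact hnB (mem_filter.2 ⟨hnS, hlt⟩)
    refine e1.trans ?_
    obtain ⟨g1, g2, g3, g4⟩ := hSM n hnS
    have hflM' := hflM n hnS
    have e2 : (V ∩ {m : ℕ | cc n < m ∧ m ≤ cc n + 2 * h}) ⊆ (((VV V k j).filter fun a =>
        2 * |((a + fl lam (f n) : ℕ) : ℤ) - M| ≤ (H : ℤ) : Finset ℕ) : Set ℕ) := by
      rintro m ⟨hm1, hm2, hm3⟩
      have e4 : 4 * cc n ≤ 3 * X := g4
      have e5 : cc n + fl lam (f n) = M := Nat.sub_add_cancel hflM'
      rw [Finset.mem_coe, mem_filter]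
      refine ⟨?_, ?_⟩
      · unfold VV
        rw [mem_filter, mem_range]
        refine ⟨?_, hm1⟩
        rw [← hX]
        omega
      · have e6 : ((m + fl lam (f n) : ℕ) : ℤ) - M = (m : ℤ) - cc n := by
          rw [← e5]
          push_cast
          ring
        rw [e6, abs_of_nonneg (by omega)]
        omega
    have e3 := Set.ncard_le_ncard e2 (Finset.finite_toSet _)
    rw [Set.ncard_coe_finset] at e3
    exact_mod_cast e3
  have hSB : (S.card : ℝ) / 2 ≤ ((S \ B).card : ℝ) := by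
    have e1 : B ⊆ S := Finset.filter_subset _ _
    have e2 := Finset.card_sdiff_add_card_eq_card e1
    have e3 : ((S \ B).card : ℝ) + B.card = S.card := by exact_mod_cast e2
    linarith
  have hsum : ((S \ B).card : ℝ) * (c * h / L ^ t) ≤ ∑ n ∈ S, (((VV V k j).filter fun a =>
      2 * |((a + fl lam (f n) : ℕ) : ℤ) - M| ≤ (H : ℤ)).card : ℝ) := by
    calc ((S \ B).card : ℝ) * (c * h / L ^ t) = ∑ _n ∈ S \ B, c * h / L ^ t := by
          rw [Finset.sum_const, nsmul_eq_mul]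
      _ ≤ ∑ n ∈ S \ B, (((VV V k j).filter fun a =>
          2 * |((a + fl lam (f n) : ℕ) : ℤ) - M| ≤ (H : ℤ)).card : ℝ) := Finset.sum_le_sum hgood
      _ ≤ _ := Finset.sum_le_sum_of_subset_of_nonneg (Finset.sdiff_subset) fun _ _ _ => Nat.cast_nonneg _
  refine le_trans ?_ hsum
  have hLt : L ^ t ≤ (k : ℝ) ^ t * l ^ t := by
    rw [← Real.mul_rpow hk0.le hl0.le]
    exact Real.rpow_le_rpow hL0.le hLup ht
  have hLt0 : 0 < L ^ t := Real.rpow_pos_of_pos hL0 _
  have hlt0 : 0 < l ^ t := Real.rpow_pos_of_pos hl0 _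
  have hlt0' : 0 < l ^ t' := Real.rpow_pos_of_pos hl0 _
  have hkt : 0 < (k : ℝ) ^ t := Real.rpow_pos_of_pos hk0 _
  have hDD : l ^ t' * l ^ t * l ≤ l ^ D := by
    rw [← Real.rpow_natCast l D, ← Real.rpow_add hl0]
    calc l ^ (t' + t) * l = l ^ (t' + t + 1) := (Real.rpow_add_one hl0.ne' _).symm
      _ ≤ _ := Real.rpow_le_rpow_of_exponent_le hl1 hDt
  have h6' : 32 * (k : ℝ) ^ t ≤ l * (c * c₃) := by
    rw [div_le_iff₀ (by positivity)] at h6
    exact h6
  calc (H : ℝ) * N / l ^ D ≤ (16 * h) * N / (l ^ t' * l ^ t * l) := by gcongr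
    _ ≤ (c₃ * N / l ^ t' / 2) * (c * h / ((k : ℝ) ^ t * l ^ t)) := by
        rw [div_div, div_mul_div_comm, div_le_div_iff₀ (by positivity) (by positivity)]
        calc 16 * h * N * (l ^ t' * 2 * ((k : ℝ) ^ t * l ^ t))
            = (32 * (k : ℝ) ^ t) * (h * N * l ^ t' * l ^ t) := by ring
          _ ≤ (l * (c * c₃)) * (h * N * l ^ t' * l ^ t) := by gcongr
          _ = _ := by ring
    _ ≤ ((S \ B).card : ℝ) * (c * h / L ^ t) := by
        have e1 : c₃ * N / l ^ t' / 2 ≤ ((S \ B).card : ℝ) := by linarith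
        have e2 : (0 : ℝ) ≤ c * h := by positivity
        have e3 : (0 : ℝ) ≤ c * h / ((k : ℝ) ^ t * l ^ t) := by positivity
        exact mul_le_mul e1 (div_le_div_of_nonneg_left e2 hLt0 hLt) e3 (Nat.cast_nonneg _)

end

end Pool.Agent.Run7.h757.MW
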