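import Pool.Agent.Run7.h757.MW.Stm4

/-!
# Project MW (helper757), fifth batch: binary problems (a prime and one generic term)

Statements (NOT results); each is a closed `Prop` with its proof in the doc string.
Goal (page MP_d9bc60_nt): for almost all `lam > 0` and ALL integer polynomials `f` of degree `k` with positive leading
coefficient, all but `O(X^(max(1/3, 1 - 1/k) + ε))` integers `M ≤ X` are `p + ⌊lam f(q)⌋` with primes `p, q`.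
-/

open Finset MeasureTheory Filter

namespace Pool.Agent.Run7.h757.MW

noncomputable section

/-- `f(n)` grows like `a n^k` -/
def Gr (k : ℕ) (f : ℕ → ℕ) : Prop := ∃ (a C : ℝ) (n₀ : ℕ), 0 < a ∧ 0 < C ∧ 1 ≤ n₀ ∧
  (∀ n : ℕ, n₀ ≤ n → |(f n : ℝ) - a * (n : ℝ) ^ k| ≤ C * (n : ℝ) ^ (k - 1)) ∧
  ∀ m n : ℕ, n₀ ≤ m → m < n → (m : ℝ) ^ (k - 1) * ((n : ℝ) - m) ≤ C * ((f n : ℝ) - f m)

/-- `V` has the expected number of elements in almost all intervals of length `N^γ` -/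
def Short (c t γ : ℝ) (V : Set ℕ) : Prop := ∀ U : ℕ, ∃ T : ℕ, ∀ᶠ N : ℕ in atTop,
  ∃ Ex : Finset ℕ, (Ex.card : ℝ) ≤ N / Real.log N ^ U ∧ ∀ n ∈ Icc 1 N, n ∉ Ex → ∀ x : ℕ,
    (N : ℝ) ^ γ * Real.log N ^ T ≤ x → (x : ℝ) * Real.log N ^ T ≤ N →
      c * x / Real.log N ^ t ≤ ((V ∩ {m : ℕ | n < m ∧ m ≤ n + x}).ncard : ℝ)

open Classical in
/-- the elements of `V` in `[0, 2^(j k)]` -/
def VV (V : Set ℕ) (k j : ℕ) : Finset ℕ := (range (2 ^ (j * k) + 1)).filter (· ∈ V)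

/-- **POLY**. Values of an integer polynomial of degree `k ≥ 1` with positive leading coefficient `a`.
Proof. `f(n) - a n^k` is a polynomial of degree `≤ k - 1`, so `≤ C n^(k-1)` for `n ≥ 1`, and `f(n) > 0` for `n ≥ n₀`.
`f(n) - f(m) = ∑_i f_i (n^i - m^i)`; `n^i - m^i ≤ i n^(i-1) (n - m)`, `a (n^k - m^k) ≥ a n^(k-1) (n - m)` (one term of the
geometric sum), so `f(n) - f(m) ≥ (n - m) (a n^(k-1) - C' n^(k-2)) ≥ (n - m) n^(k-1) / 2` for `n ≥ n₀` (`k ≥ 2`; the case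
`k = 1` is trivial). -/
def S_POLY : Prop := ∀ f : Polynomial ℤ, 1 ≤ f.natDegree → 0 < f.leadingCoeff →
  Gr f.natDegree (fun n => (f.eval (n : ℤ)).toNat) ∧ ∀ᶠ n : ℕ in atTop, 0 < f.eval (n : ℤ)

/-- **SHORTP**. Primes in almost all intervals of length `N^(1/3) log^T N`.
Proof. `Pool.Agent.Results.MP_028722_nt.AllShortPolynomialSequences.result 1 0 (U + 1)` with `f = X`, `E = B + 1`, any
`z ∈ [log^B N, log^(B+1) N]` (`density = 1`, as `rootCount = 1`): `∑_{m ≤ x, n + m prime} log(n + m) ≥ x (1 - 1 / log^(U+1) N) ≥ x / 2`,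
and each term is `≤ log (2 N) ≤ 2 log N`. -/
def S_SHORTP : Prop := Short (1 / 4) 1 (1 / 3) {p : ℕ | p.Prime}

/-- **LOW1** (many `n` for which `M - ⌊lam f(n)⌋` is in the middle of `[0, N^k]`; `N = 2^j`, `X = N^k`).
Proof. `c₁ = lam (a + 1) + 2`. Given `c₂` (wlog `c₁ ≤ c₂`) let `η ∈ (0, 1]` with `c₂ ((1 + η)^k - 1) ≤ 1/8`, and
`y = ((M - 5X/8) / (lam a))^(1/k)`, so `N < y ≤ K N / 2`. For `n ∈ W ∩ (y, y + η y]`: `lam a n^k ∈ [M - 5X/8, M - X/2]` and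
`lam |f(n) - a n^k| ≤ lam C n^(k-1) ≤ X / 16` for large `j`, so `M - ⌊lam f(n)⌋ ∈ [X/4, 3X/4]`. `Reg` with `B = 1` gives at
least `c η y / (log y)^t ≥ c₃ N / (j + 1)^t` such `n` (`log y ≤ C (j + 1)`). Subtraction below is in `ℕ`. -/
def S_LOW1 : Prop := ∀ (k : ℕ) (f : ℕ → ℕ) (W : Set ℕ) (c t : ℝ), 1 ≤ k → Gr k f → 0 < c → 0 ≤ t →
  Reg c t W → ∀ lam : ℝ, 0 < lam → ∃ c₁ : ℝ, 0 < c₁ ∧ ∀ c₂ : ℕ, ∃ K₀ : ℕ, ∀ K : ℕ, K₀ ≤ K →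
    ∃ c₃ : ℝ, 0 < c₃ ∧ ∀ᶠ j : ℕ in atTop, ∀ M : ℕ, c₁ * (2 : ℝ) ^ (j * k) ≤ M → M ≤ c₂ * 2 ^ (j * k) →
      c₃ * (2 : ℝ) ^ j / ((j : ℝ) + 1) ^ t ≤ (((blk W K (2 ^ j)).filter fun n =>
        2 ^ (j * k) ≤ 4 * (M - fl lam (f n)) ∧ 4 * (M - fl lam (f n)) ≤ 3 * 2 ^ (j * k)).card : ℝ)

/-- **LOW2** (most of the short intervals at the points `c_n = M - ⌊lam f(n)⌋`, `n ∈ S`, contain many elements of `V`).
`X = 2^(j k)`, `N = 2^j`, `H = ⌈X^γ'⌉`.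
Proof. `h = ⌊H / 8⌋`, `U > t' ` (a natural number), `Ex` the set of `Short` for `X`. Call `n ∈ S` bad if
`|V ∩ (c_n, c_n + 2 h]| < c h / (log X)^t`. Then all `e ∈ (c_n, c_n + h]` are in `Ex` (`(e, e + h] ⊆ (c_n, c_n + 2 h]`).
For fixed `e` the number of `n ∈ S` with `c_n < e ≤ c_n + h` is at most `1 + C (h + 1) / (lam N^(k-1))` (spacing in `Gr`,
`n > N ≥ n₀`). So `h |bad| ≤ |Ex| (1 + C (h + 1) / (lam N^(k-1)))`, `|bad| ≤ C' |Ex| / N^(k-1) ≤ C' N / (log X)^U ≤ |S| / 2`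
for large `j` (here `h ≥ N^(k-1)` because `γ' > 1 - 1/k`). Every good `n` has `≥ c h / (log X)^t` elements
`a ∈ V ∩ (c_n, c_n + 2 h]`, `a ≤ X`, `2 |a + ⌊lam f(n)⌋ - M| ≤ 4 h ≤ H`; so the sum is `≥ (|S| / 2) c h / (log X)^t`. -/
def S_LOW2 : Prop := ∀ (k : ℕ) (f : ℕ → ℕ) (V : Set ℕ) (c t γ γ' : ℝ), 1 ≤ k → Gr k f → 0 < c → 0 ≤ t →
  0 ≤ γ → Short c t γ V → γ < γ' → 1 - 1 / (k : ℝ) < γ' → γ' < 1 → ∀ lam : ℝ, 0 < lam →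
  ∀ (K : ℕ) (c₃ t' : ℝ), 0 < c₃ → 0 ≤ t' → ∃ D : ℕ, ∀ᶠ j : ℕ in atTop, ∀ (M : ℕ) (S : Finset ℕ),
    (∀ n ∈ S, 2 ^ j < n ∧ n ≤ K * 2 ^ j ∧ 2 ^ (j * k) ≤ 4 * (M - fl lam (f n)) ∧
      4 * (M - fl lam (f n)) ≤ 3 * 2 ^ (j * k)) →
    c₃ * (2 : ℝ) ^ j / ((j : ℝ) + 1) ^ t' ≤ S.card →
      (⌈((2 : ℝ) ^ (j * k)) ^ γ'⌉₊ : ℝ) * 2 ^ j / ((j : ℝ) + 1) ^ D ≤
        ∑ n ∈ S, (((VV V k j).filter fun a =>
          2 * |((a + fl lam (f n) : ℕ) : ℤ) - M| ≤ (⌈((2 : ℝ) ^ (j * k)) ^ γ'⌉₊ : ℤ)).card : ℝ)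

end

end Pool.Agent.Run7.h757.MW
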