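import Pool.Agent.Run7.h757.MW.FullDet

/-!
# Project MW: the asymptotic formula for almost all coefficients
-/

open Finset MeasureTheory Filter

namespace Pool.Agent.Run7.h757.MW

noncomputable section

theorem Vol_pos {d k : ℕ} {lam : Fin d → ℝ} (hlam : ∀ i, 0 < lam i) : 0 < Vol d k lam := by
  unfold Vol
  have h1 : 0 < Real.Gamma (1 / k + 1) := Real.Gamma_pos_of_pos (by positivity)
  have h2 : 0 < Real.Gamma ((d : ℝ) / k + 1) := Real.Gamma_pos_of_pos (by positivity)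
  have h3 : 0 < ∏ i, lam i ^ (-(1 / (k : ℝ))) :=
    Finset.prod_pos fun i _ => Real.rpow_pos_of_pos (hlam i) _
  positivity

theorem sum_NZ {d k : ℕ} {lam : Fin d → ℝ} {y : ℕ}
    (hfin : {m : Fin d → ℤ | ∑ i, fl (lam i) ((m i).natAbs ^ k) ≤ y}.Finite) :
    ∑ m ∈ range (y + 1), (NZ d k lam m : ℝ) =
      ({m : Fin d → ℤ | ∑ i, fl (lam i) ((m i).natAbs ^ k) ≤ y}.ncard : ℝ) := by
  classical
  set v : (Fin d → ℤ) → ℕ := fun m => ∑ i, fl (lam i) ((m i).natAbs ^ k) with hv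
  set F : Finset (Fin d → ℤ) := hfin.toFinset with hF
  have hmem : ∀ m, m ∈ F ↔ v m ≤ y := by
    intro m
    rw [hF, Set.Finite.mem_toFinset]
    rfl
  have h1 : {m : Fin d → ℤ | ∑ i, fl (lam i) ((m i).natAbs ^ k) ≤ y}.ncard = F.card := by
    rw [Set.ncard_eq_toFinset_card _ hfin]
  have h2 : F.card = ∑ m ∈ range (y + 1), (F.filter fun p => v p = m).card :=
    Finset.card_eq_sum_card_fiberwise fun p hp => by
      rw [Finset.mem_coe, mem_range]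
      have := (hmem p).1 hp
      omega
  rw [h1, h2]
  push_cast
  refine Finset.sum_congr rfl fun m hm => ?_
  unfold NZ
  have h3 : {m' : Fin d → ℤ | ∑ i, fl (lam i) ((m' i).natAbs ^ k) = m} =
      ((F.filter fun p => v p = m : Finset (Fin d → ℤ)) : Set (Fin d → ℤ)) := by
    ext p
    rw [Finset.mem_coe, mem_filter, hmem]
    constructor
    · intro h
      have h' : v p = m := h
      rw [mem_range] at hm
      exact ⟨by omega, h'⟩
    · intro h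
      exact h.2
  rw [h3, Set.ncard_coe_finset]

/-- **The asymptotic formula.** -/
theorem asym (hAFEJ : S_AFEJ) (hLAT : S_LAT) (hAVG : S_AVG) (d k : ℕ) (hk : 2 ≤ k)
    (hd : 2 * k + 1 ≤ d) :
    ∀ᵐ lam : Fin d → ℝ, (∀ i, 0 < lam i) → ∀ ε : ℝ, 0 < ε → ∀ᶠ M : ℕ in atTop,
      |(NZ d k lam M : ℝ) - Vol d k lam * ((d : ℝ) / k) * (M : ℝ) ^ ((d : ℝ) / k - 1)| ≤
        ε * (M : ℝ) ^ ((d : ℝ) / k - 1) := by
  classical
  have hAE := Pool.Agent.Run7.h304.MW.AE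
  obtain ⟨kk, hkk, hkk2, hkk3⟩ := hAFEJ
  have hlowae : ∀ A K q : ℕ, ∀ᵐ x : Fin d → ℝ, (1 ≤ A ∧ 1 ≤ K ∧ 1 ≤ q) → x ∈ Box d A →
      ∀ᶠ j : ℕ in atTop, XlowF d k K q (5 * d + 6) x j ≤ ((2 : ℝ) ^ j) ^ (2 * d) /
        ((2 : ℝ) ^ j) ^ (2 * k) / ((j : ℝ) + 1) ^ 2 := by
    intro A K q
    by_cases h : 1 ≤ A ∧ 1 ≤ K ∧ 1 ≤ q
    · have := core_lowF hAE d k A K q hk (by omega) h.1 h.2.1 h.2.2
      filter_upwards [this] with x hx _ using hx
    · exact Filter.Eventually.of_forall fun x h' => (h h').elim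
  have hhighae : ∀ A K q : ℕ, ∀ᵐ x : Fin d → ℝ, (1 ≤ A ∧ 1 ≤ K ∧ 1 ≤ q) → x ∈ Box d A →
      ∀ᶠ j : ℕ in atTop, XhighF d k K q x j ≤
        ((2 : ℝ) ^ j) ^ d * ((j : ℝ) + 1) ^ (5 * d + 3) := by
    intro A K q
    by_cases h : 1 ≤ A ∧ 1 ≤ K ∧ 1 ≤ q
    · have := core_highF hAE d k A K q hk h.1 h.2.1 h.2.2
      filter_upwards [this] with x hx _ using hx
    · exact Filter.Eventually.of_forall fun x h' => (h h').elim
  have h1 := ae_all_iff.2 fun A => ae_all_iff.2 fun K => ae_all_iff.2 fun q => hlowae A K q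
  have h2 := ae_all_iff.2 fun A => ae_all_iff.2 fun K => ae_all_iff.2 fun q => hhighae A K q
  filter_upwards [h1, h2] with lam hl hh hpos
  intro ε hε
  have hk0 : (0 : ℝ) < k := by
    have : 0 < k := by omega
    exact_mod_cast this
  have hdk : (2 * (k : ℝ) + 1) ≤ d := by exact_mod_cast hd
  -- the parameters
  set R : ℕ := 2 ^ k + 2 with hR
  obtain ⟨K, hK1, hK⟩ : ∃ K : ℕ, 1 ≤ K ∧ ∀ i, (R : ℝ) ≤ lam i * (K : ℝ) ^ k := by
    refine ⟨∑ i, ⌈(R : ℝ) / lam i⌉₊ + 1, by omega, fun i => ?_⟩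
    have h3 : ⌈(R : ℝ) / lam i⌉₊ ≤ ∑ i, ⌈(R : ℝ) / lam i⌉₊ :=
      Finset.single_le_sum (f := fun i => ⌈(R : ℝ) / lam i⌉₊) (fun _ _ => Nat.zero_le _)
        (mem_univ i)
    have h4 : ((⌈(R : ℝ) / lam i⌉₊ : ℕ) : ℝ) ≤ ((∑ i, ⌈(R : ℝ) / lam i⌉₊ : ℕ) : ℝ) := by
      exact_mod_cast h3
    have h5 := Nat.le_ceil ((R : ℝ) / lam i)
    set K : ℕ := ∑ i, ⌈(R : ℝ) / lam i⌉₊ + 1 with hKdef
    have h6 : (R : ℝ) / lam i ≤ K := by
      rw [hKdef]
      push_cast at h4 ⊢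
      linarith
    have h7 : (1 : ℝ) ≤ K := by
      rw [hKdef]
      push_cast
      have : (0 : ℝ) ≤ ∑ i, (⌈(R : ℝ) / lam i⌉₊ : ℝ) := Finset.sum_nonneg fun _ _ => by positivity
      linarith
    have h8 : (K : ℝ) ≤ (K : ℝ) ^ k := le_self_pow₀ h7 (by omega)
    rw [div_le_iff₀ (hpos i)] at h6
    calc (R : ℝ) ≤ K * lam i := h6
      _ ≤ (K : ℝ) ^ k * lam i := mul_le_mul_of_nonneg_right h8 (hpos i).le
      _ = _ := by ring
  obtain ⟨A, hA1, hA⟩ : ∃ A : ℕ, 1 ≤ A ∧ ∀ i, lam i ≤ A := by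
    refine ⟨∑ i, ⌈lam i⌉₊ + 1, by omega, fun i => ?_⟩
    have h3 : ⌈lam i⌉₊ ≤ ∑ i, ⌈lam i⌉₊ :=
      Finset.single_le_sum (f := fun i => ⌈lam i⌉₊) (fun _ _ => Nat.zero_le _) (mem_univ i)
    have h4 : ((⌈lam i⌉₊ : ℕ) : ℝ) ≤ ((∑ i, ⌈lam i⌉₊ : ℕ) : ℝ) := by exact_mod_cast h3
    have h5 := Nat.le_ceil (lam i)
    push_cast at h4 ⊢
    linarith
  set q : ℕ := d * (A * K ^ k) + R with hq
  have hR2 : 3 ≤ R := by
    rw [hR]
    have : 0 < 2 ^ k := by positivity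
    omega
  have hq1 : 1 ≤ q := by omega
  have hqlt : d * (A * K ^ k) < q := by omega
  have hqR : R ≤ q := by omega
  have hbox : lam ∈ Box d A := by
    unfold Box
    rw [Set.mem_univ_pi]
    exact fun i => ⟨(hpos i).le, hA i⟩
  have hcond : 1 ≤ A ∧ 1 ≤ K ∧ 1 ≤ q := ⟨hA1, hK1, hq1⟩
  have hlow := hl A K q hcond hbox
  have hhigh := hh A K q hcond hbox
  -- the averages
  obtain ⟨C, hC⟩ := hLAT d k lam (by omega) (by omega) hpos
  set B : ℕ := 5 * d + 6 with hB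
  have havg := hAVG (fun m => (NZ d k lam m : ℝ)) (Vol d k lam) ((d : ℝ) / k) (1 / k) C k B
    (Vol_pos hpos) (by rw [le_div_iff₀ hk0]; linarith) (by positivity)
    (by
      rw [div_le_div_iff_of_pos_right hk0]
      linarith) (by omega) (by omega) (fun m => by positivity)
    (fun y hy => by
      obtain ⟨hfin, hle⟩ := hC y hy
      rw [sum_NZ hfin]
      have he : (d : ℝ) / k - 1 / k = ((d : ℝ) - 1) / k := by ring
      rw [he]
      exact hle) (ε / 2) (by positivity)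
  have hbeat1 := pow_beats B 1
  have hbeat2 := pow_beats (5 * d + 3) (16 / ε ^ 2)
  have hbeat3 : ∀ᶠ j : ℕ in atTop, 60 / ε ≤ (j : ℝ) + 1 := tendsto_l.eventually_ge_atTop _
  have hgood := blocks (k := k) (by omega) (one_pos : (0 : ℝ) < 1)
    (hlow.and (hhigh.and (havg.and (hbeat1.and (hbeat2.and hbeat3)))))
  filter_upwards [hgood] with M hM
  obtain ⟨j, ⟨hlowj, hhighj, havgj, hb1, hb2, hb3⟩, hM1, hM2⟩ := hM
  rw [one_mul] at hM1
  rw [mul_one] at hM2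
  have hMavg := havgj M hM1 hM2
  set N : ℝ := (2 : ℝ) ^ j with hN
  set l : ℝ := (j : ℝ) + 1 with hl'
  have hN1 : 1 ≤ N := one_le_pow₀ (by norm_num)
  have hN0 : 0 < N := by linarith
  have hl1 : 1 ≤ l := by
    have : (0 : ℝ) ≤ j := by positivity
    linarith
  have hl0 : 0 < l := by linarith
  have hNk : (2 : ℝ) ^ (j * k) = N ^ k := pow_mul 2 j k
  have hNN : N ≤ N ^ k := le_self_pow₀ hN1 (by omega)
  set H : ℕ := ⌊(2 : ℝ) ^ (j * k) / l ^ B⌋₊ with hH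
  have hH1 : 1 ≤ H := by
    rw [hH, Nat.one_le_floor_iff, le_div_iff₀ (by positivity), hNk]
    linarith
  have hHB : (H : ℝ) ≤ N ^ k / l ^ B := by
    rw [hH, ← hNk]
    exact Nat.floor_le (by positivity)
  have hHN : (H : ℝ) ≤ N ^ k :=
    hHB.trans (div_le_self (by positivity) (one_le_pow₀ hl1))
  have hHn : H ≤ 2 ^ (j * k) := by
    rw [← hNk] at hHN
    exact_mod_cast hHN
  have hM1n : 2 ^ (j * k) ≤ M := by exact_mod_cast hM1
  have hM2n : M ≤ 2 ^ k * 2 ^ (j * k) := by exact_mod_cast hM2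
  have hHM : H ≤ M := hHn.trans hM1n
  have hpow1 : 1 ≤ 2 ^ (j * k) := Nat.one_le_two_pow
  have hMH1 : M + H + 1 ≤ R * 2 ^ (j * k) := by
    rw [hR, add_mul]
    omega
  have hMH : M + H ≤ q * 2 ^ (j * k) := by
    have h3 : R * 2 ^ (j * k) ≤ q * 2 ^ (j * k) := Nat.mul_le_mul_right _ hqR
    omega
  have hdet := det_Z hkk hkk2 hkk3 d k K A q B H lam j M (fun i => (hpos i).le) hA hqlt hH1 hHB
    hHM hMH
  have hcM : cn (sZ d K j) (vZ d k lam) M = NZ d k lam M :=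
    cn_eq_NZ d k K lam hpos R hK j M (by omega)
  have hcavg : ∑ i ∈ range H, ∑ j' ∈ range H, cn (sZ d K j) (vZ d k lam) (M + i - j') =
      ∑ i ∈ range H, ∑ j' ∈ range H, (NZ d k lam (M + i - j') : ℝ) := by
    refine Finset.sum_congr rfl fun i hi => Finset.sum_congr rfl fun j' _ => ?_
    rw [mem_range] at hi
    exact cn_eq_NZ d k K lam hpos R hK j _ (by omega)
  rw [hcM, hcavg] at hdet
  -- the errors
  set Y : ℝ := (M : ℝ) ^ ((d : ℝ) / k - 1) with hY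
  have hYN : N ^ d / N ^ k ≤ Y := by
    have h3 : N ^ k ≤ M := by
      rw [← hNk]
      exact hM1
    have he : 0 ≤ (d : ℝ) / k - 1 := by
      rw [sub_nonneg, le_div_iff₀ hk0]
      linarith
    calc N ^ d / N ^ k = (N ^ k) ^ ((d : ℝ) / k - 1) := by
          rw [← Real.rpow_natCast N k, ← Real.rpow_mul hN0.le, ← Real.rpow_natCast N d,
            ← Real.rpow_sub hN0]
          congr 1
          field_simp
      _ ≤ Y := Real.rpow_le_rpow (by positivity) h3 he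
  have hs1 : Real.sqrt (XlowF d k K q B lam j) ≤ N ^ d / N ^ k / l := by
    rw [Real.sqrt_le_left (by positivity)]
    refine hlowj.trans (le_of_eq ?_)
    rw [div_pow, div_pow, ← pow_mul N d 2, ← pow_mul N k 2, mul_comm d 2, mul_comm k 2]
  have hs1' : 15 * Real.sqrt (XlowF d k K q B lam j) ≤ ε / 4 * Y := by
    have h3 : 15 / l ≤ ε / 4 := by
      rw [div_le_div_iff₀ hl0 (by norm_num)]
      rw [div_le_iff₀ hε] at hb3
      linarith
    calc 15 * Real.sqrt (XlowF d k K q B lam j) ≤ 15 * (N ^ d / N ^ k / l) := by gcongr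
      _ = 15 / l * (N ^ d / N ^ k) := by ring
      _ ≤ ε / 4 * Y := by gcongr
  have hs2 : Real.sqrt (XhighF d k K q lam j) ≤ ε / 4 * Y := by
    have h3 : Real.sqrt (XhighF d k K q lam j) ≤ ε / 4 * (N ^ d / N ^ k) := by
      rw [Real.sqrt_le_left (by positivity)]
      refine hhighj.trans ?_
      have h4 : 16 / ε ^ 2 * l ^ (5 * d + 3) * (N ^ k) ^ 2 ≤ N ^ d := by
        obtain ⟨b, rfl⟩ : ∃ b, d = 2 * k + 1 + b := ⟨d - (2 * k + 1), by omega⟩
        calc 16 / ε ^ 2 * l ^ (5 * (2 * k + 1 + b) + 3) * (N ^ k) ^ 2 ≤ N * (N ^ k) ^ 2 := by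
              gcongr
          _ ≤ N * (N ^ k) ^ 2 * N ^ b := by
              exact le_mul_of_one_le_right (by positivity) (one_le_pow₀ hN1)
          _ = N ^ (2 * k + 1 + b) := by
              rw [← pow_mul, pow_add, pow_add]
              ring
      have h5 : l ^ (5 * d + 3) ≤ ε ^ 2 / 16 * (N ^ d / (N ^ k) ^ 2) := by
        have h6 : (16 / ε ^ 2 * l ^ (5 * d + 3)) ≤ N ^ d / (N ^ k) ^ 2 := by
          rw [le_div_iff₀ (by positivity)]
          exact h4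
        calc l ^ (5 * d + 3) = ε ^ 2 / 16 * (16 / ε ^ 2 * l ^ (5 * d + 3)) := by
              field_simp
          _ ≤ _ := by gcongr
      calc N ^ d * l ^ (5 * d + 3) ≤ N ^ d * (ε ^ 2 / 16 * (N ^ d / (N ^ k) ^ 2)) := by gcongr
        _ = (ε / 4 * (N ^ d / N ^ k)) ^ 2 := by
            field_simp
            ring
    exact h3.trans (by gcongr)
  have htri : |(NZ d k lam M : ℝ) - Vol d k lam * ((d : ℝ) / k) * Y| ≤
      |(NZ d k lam M : ℝ) - 1 / (H : ℝ) ^ 2 *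
        ∑ i ∈ range H, ∑ j' ∈ range H, (NZ d k lam (M + i - j') : ℝ)| +
      |1 / (H : ℝ) ^ 2 * ∑ i ∈ range H, ∑ j' ∈ range H, (NZ d k lam (M + i - j') : ℝ) -
        Vol d k lam * ((d : ℝ) / k) * Y| := abs_sub_le _ _ _
  have hMavg' : |1 / (H : ℝ) ^ 2 * ∑ i ∈ range H, ∑ j' ∈ range H,
      (NZ d k lam (M + i - j') : ℝ) - Vol d k lam * ((d : ℝ) / k) * Y| ≤ ε / 2 * Y := hMavg
  have : ε * Y = (ε / 4 * Y + ε / 4 * Y) + ε / 2 * Y := by ring
  rw [this]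
  linarith

end

end Pool.Agent.Run7.h757.MW
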