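import Pool.Agent.Run7.h757.MW.Use
import Pool.Agent.Run7.h382.MW.DIMV
import Pool.Agent.Run7.h416.MW.REGP

/-!
# Project MW: genuine powers with variables in a regular set
-/

open Finset MeasureTheory Filter

namespace Pool.Agent.Run7.h757.MW

noncomputable section

theorem reg_dens {V : Set ℕ} {c t : ℝ} (hc : 0 < c) (hV : Reg c t V) :
    ∀ η : ℝ, 0 < η → ∀ᶠ N : ℕ in atTop,
      (N : ℝ) ^ (1 - η) ≤ ((V ∩ {n : ℕ | N < n ∧ n ≤ 2 * N}).ncard : ℝ) := by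
  intro η hη
  obtain ⟨x₀, hx₀⟩ := hV 0
  have h1 : (fun x : ℝ => Real.log x ^ t) =o[atTop] fun x : ℝ => x ^ η :=
    isLittleO_log_rpow_rpow_atTop t hη
  have h2 := (h1.bound hc).and (eventually_ge_atTop (max x₀ 4))
  have h3 := tendsto_natCast_atTop_atTop (R := ℝ) |>.eventually h2
  filter_upwards [h3] with N hN
  obtain ⟨h4, h5⟩ := hN
  have hx0 : x₀ ≤ (N : ℝ) := (le_max_left _ _).trans h5
  have hx4 : (4 : ℝ) ≤ (N : ℝ) := (le_max_right _ _).trans h5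
  have hN0 : (0 : ℝ) < N := by linarith
  have hlog : 0 < Real.log (N : ℝ) := Real.log_pos (by linarith)
  have hlt : (0 : ℝ) < Real.log N ^ t := Real.rpow_pos_of_pos hlog _
  rw [Real.norm_of_nonneg hlt.le, Real.norm_of_nonneg (by positivity)] at h4
  have h6 := hx₀ N N hx0 (by rw [Real.rpow_zero, div_one]) le_rfl
  have h7 : V ∩ {n : ℕ | (N : ℝ) < n ∧ (n : ℝ) ≤ N + N} = V ∩ {n : ℕ | N < n ∧ n ≤ 2 * N} := by
    ext n
    simp only [Set.mem_inter_iff, Set.mem_setOf_eq]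
    have e1 : ((N : ℝ) < n) ↔ N < n := Nat.cast_lt
    have e2 : ((n : ℝ) ≤ N + N) ↔ n ≤ 2 * N := by
      rw [two_mul]
      exact_mod_cast Iff.rfl
    rw [e1, e2]
  rw [h7] at h6
  refine le_trans ?_ h6
  rw [le_div_iff₀ hlt, Real.rpow_sub hN0, Real.rpow_one]
  have h8 : (0 : ℝ) < (N : ℝ) ^ η := by positivity
  calc (N : ℝ) / (N : ℝ) ^ η * Real.log N ^ t ≤ (N : ℝ) / (N : ℝ) ^ η * (c * (N : ℝ) ^ η) := by
        gcongr
    _ = c * N := by field_simp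

/-- the sets of sums of `r` positive `k`-th powers from the diminishing ranges, variables in `V` -/
theorem exUV (V : Set ℕ) (hV : ∀ η : ℝ, 0 < η → ∀ᶠ N : ℕ in atTop,
      (N : ℝ) ^ (1 - η) ≤ ((V ∩ {n : ℕ | N < n ∧ n ≤ 2 * N}).ncard : ℝ))
    (k r : ℕ) (η : ℝ) (hk : 2 ≤ k) (hη : 0 < η) : ∃ U : ℕ → Finset ℕ,
    (∀ j, ∀ a ∈ U j, a ≤ (2 ^ j) ^ k ∧
      ∃ x : Fin r → ℕ, (∀ i, 1 ≤ x i ∧ x i ∈ V) ∧ ∑ i, x i ^ k = a) ∧
    ∀ᶠ j : ℕ in atTop, ((2 : ℝ) ^ j) ^ ((k : ℝ) - k * (1 - 1 / (k : ℝ)) ^ r - η) ≤ (U j).card := by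
  classical
  have h := Pool.Agent.Run7.h382.MW.t_DIMV V hV k r η hk hη
  have h2 : Tendsto (fun j : ℕ => 2 ^ j) atTop atTop :=
    tendsto_pow_atTop_atTop_of_one_lt (by norm_num)
  have h3 := h2.eventually h
  set P : ℕ → Finset ℕ → Prop := fun j Y =>
    (∀ a ∈ Y, a ≤ (2 ^ j) ^ k ∧
      ∃ x : Fin r → ℕ, (∀ i, 1 ≤ x i ∧ x i ∈ V) ∧ ∑ i, x i ^ k = a) ∧
      (((2 ^ j : ℕ) : ℝ)) ^ ((k : ℝ) - k * (1 - 1 / (k : ℝ)) ^ r - η) ≤ Y.card with hP
  refine ⟨fun j => if h : ∃ Y, P j Y then h.choose else ∅, fun j a ha => ?_, ?_⟩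
  · by_cases h4 : ∃ Y, P j Y
    · simp only [h4, dif_pos] at ha
      exact h4.choose_spec.1 a ha
    · simp [h4] at ha
  · filter_upwards [h3] with j hj
    have h4 : ∃ Y, P j Y := hj
    simp only [h4, dif_pos]
    have h5 := h4.choose_spec.2
    push_cast at h5
    exact h5

/-- **Sums of `2 r` positive `k`-th powers and `u` generic terms**, variables in regular sets. -/
theorem genuineV (k r u : ℕ) (hk : 2 ≤ k) (hu : 4 ≤ u)
    (h : 2 * (k : ℝ) * (1 - 1 / (k : ℝ)) ^ r < u) (V : Set ℕ) (W : Fin u → Set ℕ) (c t : ℝ)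
    (hc : 0 < c) (ht : 0 ≤ t) (hV : Reg c t V) (hW : ∀ i, Reg c t (W i)) :
    ∀ᵐ lam : Fin u → ℝ, (∀ i, 0 < lam i) → ∀ᶠ M : ℕ in atTop,
      ∃ (x : Fin (2 * r) → ℕ) (n : Fin u → ℕ), (∀ i, 1 ≤ x i ∧ x i ∈ V) ∧
        (∀ i, 1 ≤ n i ∧ n i ∈ W i) ∧
        ∑ i, x i ^ k + ∑ i, ⌊lam i * (n i : ℝ) ^ k⌋₊ = M := by
  set δ : ℝ := ((u : ℝ) / 2 - k * (1 - 1 / (k : ℝ)) ^ r) / 2 with hδ
  have hδ0 : 0 < δ := by
    rw [hδ]
    have : (k : ℝ) * (1 - 1 / (k : ℝ)) ^ r < u / 2 := by linarith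
    linarith
  obtain ⟨U, hU1, hU2⟩ := exUV V (reg_dens hc hV) k r δ hk hδ0
  have hm := mixed u k hu hk W c t hc ht hW U
    (Filter.Eventually.of_forall fun j a ha => (hU1 j a ha).1) δ hδ0 ?_
  · filter_upwards [hm] with lam hlam hpos
    filter_upwards [hlam hpos] with M hM
    obtain ⟨j, a, b, n, ha, hb, hn, hsum⟩ := hM
    obtain ⟨-, x, hx1, hx2⟩ := hU1 j a ha
    obtain ⟨-, y, hy1, hy2⟩ := hU1 j b hb
    have e1 : 2 * r = r + r := two_mul r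
    have hap : ∀ i : Fin (r + r), 1 ≤ Fin.append x y i ∧ Fin.append x y i ∈ V := by
      intro i
      refine Fin.addCases (motive := fun i => 1 ≤ Fin.append x y i ∧ Fin.append x y i ∈ V)
        (fun i => ?_) (fun i => ?_) i
      · rw [Fin.append_left]
        exact hx1 i
      · rw [Fin.append_right]
        exact hy1 i
    refine ⟨fun i => Fin.append x y (Fin.cast e1 i), n, fun i => hap _,
      fun i => ⟨(hn i).2, (hn i).1⟩, ?_⟩
    rw [← hsum]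
    congr 1
    have h3 : ∑ i : Fin (2 * r), Fin.append x y (Fin.cast e1 i) ^ k =
        ∑ i : Fin (r + r), Fin.append x y i ^ k :=
      Fintype.sum_equiv (finCongr e1) _ _ fun i => rfl
    rw [h3, Fin.sum_univ_add]
    simp only [Fin.append_left, Fin.append_right]
    rw [hx2, hy2]
  · filter_upwards [hU2] with j hj
    refine le_trans (le_of_eq ?_) hj
    congr 1
    rw [hδ]
    ring

end

end Pool.Agent.Run7.h757.MW
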