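import Pool.Agent.Run7.h757.MW.Ord

/-!
# Project MW: proportions of genuine `k`-th powers
-/

open Finset MeasureTheory Filter

namespace Pool.Agent.Run7.h757.MW

noncomputable section

theorem ev_log (δ : ℝ) (hδ : 0 < δ) (A : ℝ) :
    ∀ᶠ k : ℕ in atTop, ((Nat.log 2 k + 1 : ℕ) : ℝ) + A ≤ δ * k := by
  have h1 : (fun x : ℝ => Real.log x) =o[atTop] fun x : ℝ => x := Real.isLittleO_log_id_atTop
  have h2 := (h1.bound (show (0 : ℝ) < δ / 4 by positivity)).and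
    (eventually_ge_atTop (max 1 (2 * (1 + |A|) / δ)))
  have h3 := tendsto_natCast_atTop_atTop (R := ℝ) |>.eventually h2
  filter_upwards [h3] with k hk
  obtain ⟨h4, h5⟩ := hk
  have hk1 : (1 : ℝ) ≤ k := (le_max_left _ _).trans h5
  have hkA : 2 * (1 + |A|) / δ ≤ k := (le_max_right _ _).trans h5
  rw [div_le_iff₀ hδ] at hkA
  have hl0 : 0 ≤ Real.log k := Real.log_nonneg hk1
  rw [Real.norm_of_nonneg hl0, Real.norm_of_nonneg (by linarith)] at h4
  have hk0 : k ≠ 0 := by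
    intro h
    rw [h] at hk1
    norm_num at hk1
  have h6 : (Nat.log 2 k : ℝ) * Real.log 2 ≤ Real.log k := by
    have h7 : (2 : ℝ) ^ Nat.log 2 k ≤ k := by exact_mod_cast Nat.pow_log_le_self 2 hk0
    have h8 := Real.log_le_log (by positivity) h7
    rwa [Real.log_pow] at h8
  have h7 : (Nat.log 2 k : ℝ) ≤ 2 * Real.log k := by
    have h8 := Real.log_two_gt_d9
    have h9 : (0 : ℝ) ≤ Nat.log 2 k := by positivity
    nlinarith
  push_cast
  have := le_abs_self A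
  linarith

/-- **Total `C k`, of which `ρ k` are genuine `k`-th powers**, if `ρ + exp (-ρ) < C`. -/
theorem rep_prop (C ρ : ℝ) (hρ : 0 ≤ ρ) (hC : ρ + Real.exp (-ρ) < C) : ∀ᶠ k : ℕ in atTop,
    ∀ (V : Set ℕ) (W : Fin (⌊C * k⌋₊ - ⌊ρ * k⌋₊) → Set ℕ) (c t : ℝ), 0 < c → 0 ≤ t →
      Reg c t V → (∀ i, Reg c t (W i)) →
      ∀ᵐ lam : Fin (⌊C * k⌋₊ - ⌊ρ * k⌋₊) → ℝ, (∀ i, 0 < lam i) →
        ∀ᶠ M : ℕ in atTop, M ∈ RG k ⌊ρ * k⌋₊ (⌊C * k⌋₊ - ⌊ρ * k⌋₊) V W lam := by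
  set δ : ℝ := C - ρ - Real.exp (-ρ) with hδ
  have hδ0 : 0 < δ := by
    rw [hδ]
    linarith
  have hC0 : 0 < C := by
    have := Real.exp_pos (-ρ)
    linarith
  filter_upwards [ev_log δ hδ0 8, ev_log (Real.exp (-ρ) + δ) (by positivity) 8,
    eventually_ge_atTop 2] with k hk1 hk2 hk
  have hk0 : (1 : ℝ) ≤ k := by
    have : 1 ≤ k := by omega
    exact_mod_cast this
  set r : ℕ := ⌊ρ * k⌋₊ with hr
  set L : ℕ := Nat.log 2 k + 1 with hL
  intro V W c t hc ht hV hW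
  have hr1 : (r : ℝ) ≤ ρ * k := Nat.floor_le (by positivity)
  have hr2 : ρ * k - 1 ≤ r := by
    have := Nat.lt_floor_add_one (ρ * k)
    linarith
  have hs : C * k - 1 ≤ ⌊C * k⌋₊ := by
    have := Nat.lt_floor_add_one (C * k)
    linarith
  have hrs : r ≤ ⌊C * k⌋₊ := by
    refine Nat.floor_le_floor ?_
    have := Real.exp_pos (-ρ)
    nlinarith
  have hsr : (C - ρ) * k - 1 ≤ ((⌊C * k⌋₊ - r : ℕ) : ℝ) := by
    rw [Nat.cast_sub hrs]
    linarith
  have hkk : (Real.exp (-ρ) + δ) * k = (C - ρ) * k := by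
    rw [hδ]
    ring
  have hLs : L + 4 ≤ ⌊C * k⌋₊ - r := by
    have h1 : ((L + 4 : ℕ) : ℝ) ≤ ((⌊C * k⌋₊ - r : ℕ) : ℝ) := by
      push_cast
      push_cast at hk2
      linarith
    exact_mod_cast h1
  obtain ⟨u, hu⟩ : ∃ u, ⌊C * k⌋₊ - r = u + L := ⟨⌊C * k⌋₊ - r - L, by omega⟩
  have hu4 : 4 ≤ u := by omega
  have hth : (k : ℝ) * (1 - 1 / (k : ℝ)) ^ r ≤ Real.exp (-ρ) * k + 2 := by
    have h1 := theta_exp (k := k) (by omega) r
    have h2 : Real.exp (-((r : ℝ) / k)) ≤ Real.exp (-ρ) * Real.exp (1 / k) := by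
      rw [← Real.exp_add, Real.exp_le_exp]
      have h3 : ρ - 1 / k ≤ (r : ℝ) / k := by
        rw [le_div_iff₀ (by linarith)]
        have h4 : (ρ - 1 / (k : ℝ)) * k = ρ * k - 1 := by field_simp
        linarith
      linarith
    have h3 : Real.exp (1 / (k : ℝ)) ≤ 1 + 2 * (1 / k) := by
      have hx0 : (0 : ℝ) ≤ 1 / k := by positivity
      have hx1 : 1 / (k : ℝ) ≤ 1 := by
        rw [div_le_one (by linarith)]
        exact hk0
      have hcv := convexOn_exp.2 (Set.mem_univ (1 : ℝ)) (Set.mem_univ (0 : ℝ)) hx0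
        (by linarith : (0 : ℝ) ≤ 1 - 1 / (k : ℝ)) (by ring)
      simp only [smul_eq_mul, mul_zero, add_zero, Real.exp_zero, mul_one] at hcv
      have he := Real.exp_one_lt_d9
      have h4 : 1 / (k : ℝ) * Real.exp 1 ≤ 1 / (k : ℝ) * 3 :=
        mul_le_mul_of_nonneg_left (by linarith) hx0
      linarith
    have h4 : Real.exp (-ρ) ≤ 1 := Real.exp_le_one_iff.2 (by linarith)
    have h5 : 0 < Real.exp (-ρ) := Real.exp_pos _
    calc (k : ℝ) * (1 - 1 / (k : ℝ)) ^ r ≤ k * (Real.exp (-ρ) * (1 + 2 * (1 / k))) := by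
          refine mul_le_mul_of_nonneg_left (h1.trans (h2.trans ?_)) (by linarith)
          exact mul_le_mul_of_nonneg_left h3 h5.le
      _ = Real.exp (-ρ) * k + 2 * Real.exp (-ρ) := by
          field_simp
      _ ≤ _ := by linarith
  have hcr : (k : ℝ) < 2 ^ L * ((u : ℝ) - k * (1 - 1 / (k : ℝ)) ^ r) := by
    have h1 : (k : ℝ) < 2 ^ L := by
      rw [hL]
      exact_mod_cast Nat.lt_pow_succ_log_self (by norm_num : 1 < 2) k
    have h2 : 1 ≤ (u : ℝ) - k * (1 - 1 / (k : ℝ)) ^ r := by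
      have h3 : ((⌊C * k⌋₊ - r : ℕ) : ℝ) = u + L := by exact_mod_cast hu
      have h4 : δ * k = (C - ρ) * k - Real.exp (-ρ) * k := by
        rw [hδ]
        ring
      linarith
    calc (k : ℝ) < 2 ^ L := h1
      _ = 2 ^ L * 1 := by ring
      _ ≤ _ := by gcongr
  have key : ∀ (s : ℕ), u + L = s → ∀ W : Fin s → Set ℕ, (∀ i, Reg c t (W i)) →
      ∀ᵐ lam : Fin s → ℝ, (∀ i, 0 < lam i) → ∀ᶠ M : ℕ in atTop, M ∈ RG k r s V W lam := by
    rintro s rfl W hW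
    exact lifted Pool.Agent.Run7.h56.MW.t_STEP k r u L hk hu4 V W c t hc ht hV hW hcr
  exact key _ hu.symm W hW

end

end Pool.Agent.Run7.h757.MW
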