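import Pool.Agent.Run7.h757.MW.Stm

/-!
# Project MW, piece MT: mean square of the exponential sums over integer parts
-/

open Finset MeasureTheory Filter

namespace Pool.Agent.Run7.h757.MW

noncomputable section

theorem norm_e (x : ℝ) : ‖e x‖ = 1 := by
  unfold e
  rw [Complex.norm_exp]
  simp

theorem continuous_e : Continuous e := by
  unfold e
  fun_prop

theorem e_add (x y : ℝ) : e (x + y) = e x * e y := by
  unfold e
  rw [← Complex.exp_add]
  congr 1
  push_cast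
  ring

theorem measurable_fl (m : ℕ) : Measurable fun lam : ℝ => (fl lam m : ℝ) := by
  unfold fl
  exact measurable_from_nat.comp (Nat.measurable_floor.comp (measurable_id.mul_const _))

theorem measurable_T (f : ℕ → ℕ) (B : Finset ℕ) (a : ℝ) : Measurable fun lam => T f B lam a := by
  unfold T
  exact Finset.measurable_sum _ fun n _ =>
    continuous_e.measurable.comp ((measurable_fl (f n)).const_mul a)

theorem ii_of_bdd {g : ℝ → ℝ} (hg : Measurable g) {C : ℝ} (hC : ∀ x, |g x| ≤ C) (A : ℝ) :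
    IntervalIntegrable g volume 0 A := by
  rw [intervalIntegrable_iff]
  refine Measure.integrableOn_of_bounded (M := C) ?_ hg.aestronglyMeasurable ?_
  · simp [Set.uIoc, Real.volume_Ioc]
  · exact Filter.Eventually.of_forall fun x => by simpa using hC x

theorem norm_T_le (f : ℕ → ℕ) (B : Finset ℕ) (lam a : ℝ) : ‖T f B lam a‖ ≤ B.card := by
  unfold T
  refine (norm_sum_le _ _).trans ?_
  simp [norm_e]

theorem norm_S_le (f : ℕ → ℕ) (B : Finset ℕ) (x : ℝ) : ‖S f B x‖ ≤ B.card := by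
  unfold S
  refine (norm_sum_le _ _).trans ?_
  simp [norm_e]

/-- the majorant of the coefficients -/
def phi (h : ℤ) : ℝ := if h = 0 then 1 else 1 / |(h : ℝ)|

theorem sum_phi (Z : ℕ) : ∑ h ∈ Icc (-(Z : ℤ)) Z, phi h = 1 + 2 * ((harmonic Z : ℚ) : ℝ) := by
  induction Z with
  | zero => simp [phi]
  | succ Z ih =>
    have h1 : Icc (-((Z + 1 : ℕ) : ℤ)) ((Z + 1 : ℕ) : ℤ) =
        insert ((Z + 1 : ℕ) : ℤ) (insert (-((Z + 1 : ℕ) : ℤ)) (Icc (-(Z : ℤ)) Z)) := by
      ext x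
      simp only [mem_Icc, mem_insert]
      push_cast
      omega
    rw [h1, Finset.sum_insert, Finset.sum_insert, ih, harmonic_succ]
    · unfold phi
      have e1 : ((Z + 1 : ℕ) : ℤ) ≠ 0 := by positivity
      have e2 : -((Z + 1 : ℕ) : ℤ) ≠ 0 := neg_ne_zero.2 e1
      rw [if_neg e1, if_neg e2]
      push_cast
      rw [abs_neg, abs_of_pos (by positivity : (0 : ℝ) < (Z : ℝ) + 1)]
      ring
    · simp only [mem_Icc]
      push_cast
      omega
    · simp only [mem_Icc, mem_insert]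
      push_cast
      omega

theorem sum_phi_le (Z : ℕ) : ∑ h ∈ Icc (-(Z : ℤ)) Z, phi h ≤ 3 + 2 * Real.log Z := by
  rw [sum_phi]
  have := harmonic_le_one_add_log Z
  linarith

theorem t_MT (hFL : S_FL) (hMS : S_MS) : S_MT := by
  obtain ⟨C1, hC1, hFL⟩ := hFL
  obtain ⟨C2, hC2, hMS⟩ := hMS
  refine ⟨8 * (5 + 9 * C2) + 2 * C1, by positivity, ?_⟩
  intro f B P D N A a hD hP hA hB hSp hf ha0 ha
  have hD' : (1 : ℝ) ≤ D := by exact_mod_cast hD
  have hA' : (1 : ℝ) ≤ A := by exact_mod_cast hA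
  set L : ℝ := 1 + Real.log D with hL
  have hlog : 0 ≤ Real.log D := Real.log_nonneg hD'
  have hL1 : 1 ≤ L := by linarith
  have hcard : (B.card : ℝ) ≤ D := by
    have := Finset.card_le_card hB
    rw [Nat.card_Ioc] at this
    have h2 : B.card ≤ D := by omega
    exact_mod_cast h2
  obtain ⟨c, hc0, hch, hFL⟩ := hFL a ha (D ^ 2) (Nat.one_le_pow _ _ hD)
  set HH : Finset ℤ := Icc (-((D ^ 2 : ℕ) : ℤ)) ((D ^ 2 : ℕ) : ℤ) with hHH
  have hcphi : ∀ h, ‖c h‖ ≤ phi h := by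
    intro h
    unfold phi
    split_ifs with h0
    · rw [h0]; exact hc0
    · exact hch h h0
  have hW : ∑ h ∈ HH, ‖c h‖ ≤ 4 * L := by
    calc ∑ h ∈ HH, ‖c h‖ ≤ ∑ h ∈ HH, phi h := Finset.sum_le_sum fun h _ => hcphi h
      _ ≤ 3 + 2 * Real.log ((D ^ 2 : ℕ) : ℝ) := sum_phi_le _
      _ = 3 + 4 * Real.log D := by
          push_cast
          rw [Real.log_pow]
          push_cast
          ring
      _ ≤ 4 * L := by linarith
  -- the error terms
  set er : ℕ → ℝ → ℂ := fun n lam =>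
    e (a * fl lam (f n)) - ∑ h ∈ HH, c h * e ((a + h) * (lam * f n)) with her
  have hmer : ∀ n, Measurable (er n) := by
    intro n
    refine (continuous_e.measurable.comp ((measurable_fl (f n)).const_mul a)).sub ?_
    refine Finset.measurable_sum _ fun h _ => ?_
    have : Continuous fun lam : ℝ => c h * e ((a + h) * (lam * f n)) := by
      have := continuous_e
      fun_prop
    exact this.measurable
  have hber : ∀ n lam, ‖er n lam‖ ≤ 1 + 4 * L := by
    intro n lam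
    refine (norm_sub_le _ _).trans ?_
    rw [norm_e]
    gcongr
    refine (norm_sum_le _ _).trans ?_
    refine le_trans (Finset.sum_le_sum fun h _ => ?_) hW
    rw [norm_mul, norm_e, mul_one]
  have hT : ∀ lam, T f B lam a = (∑ h ∈ HH, c h * S f B ((a + h) * lam)) + ∑ n ∈ B, er n lam := by
    intro lam
    unfold T S
    simp only [her, Finset.sum_sub_distrib, Finset.mul_sum]
    rw [Finset.sum_comm (s := B) (t := HH)]
    simp only [mul_assoc]
    ring
  have hpt : ∀ lam, ‖T f B lam a‖ ^ 2 ≤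
      2 * (4 * L * ∑ h ∈ HH, ‖c h‖ * ‖S f B ((a + h) * lam)‖ ^ 2) +
        2 * (D * ∑ n ∈ B, ‖er n lam‖ ^ 2) := by
    intro lam
    rw [hT lam]
    set X := ∑ h ∈ HH, c h * S f B ((a + h) * lam)
    set Y := ∑ n ∈ B, er n lam
    have h1 : ‖X + Y‖ ^ 2 ≤ 2 * ‖X‖ ^ 2 + 2 * ‖Y‖ ^ 2 := by
      have h0 : ‖X + Y‖ ≤ ‖X‖ + ‖Y‖ := norm_add_le _ _
      have h00 : 0 ≤ ‖X + Y‖ := norm_nonneg _
      nlinarith [sq_nonneg (‖X‖ - ‖Y‖), norm_nonneg X, norm_nonneg Y]
    have h2 : ‖X‖ ^ 2 ≤ 4 * L * ∑ h ∈ HH, ‖c h‖ * ‖S f B ((a + h) * lam)‖ ^ 2 := by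
      have h3 : ‖X‖ ≤ ∑ h ∈ HH, ‖c h‖ * ‖S f B ((a + h) * lam)‖ := by
        refine (norm_sum_le _ _).trans (Finset.sum_le_sum fun h _ => ?_)
        rw [norm_mul]
      have h4 : (∑ h ∈ HH, ‖c h‖ * ‖S f B ((a + h) * lam)‖) ^ 2 ≤
          (∑ h ∈ HH, ‖c h‖) * ∑ h ∈ HH, ‖c h‖ * ‖S f B ((a + h) * lam)‖ ^ 2 := by
        refine Finset.sum_sq_le_sum_mul_sum_of_sq_le_mul _ (fun _ _ => norm_nonneg _)
          (fun _ _ => by positivity) fun h _ => le_of_eq ?_
        ring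
      calc ‖X‖ ^ 2 ≤ (∑ h ∈ HH, ‖c h‖ * ‖S f B ((a + h) * lam)‖) ^ 2 := by gcongr
        _ ≤ _ := h4
        _ ≤ _ := by
          refine mul_le_mul_of_nonneg_right hW ?_
          exact Finset.sum_nonneg fun _ _ => by positivity
    have h5 : ‖Y‖ ^ 2 ≤ D * ∑ n ∈ B, ‖er n lam‖ ^ 2 := by
      have h6 : ‖Y‖ ≤ ∑ n ∈ B, ‖er n lam‖ := norm_sum_le _ _
      calc ‖Y‖ ^ 2 ≤ (∑ n ∈ B, ‖er n lam‖) ^ 2 := by gcongr
        _ ≤ B.card * ∑ n ∈ B, ‖er n lam‖ ^ 2 := sq_sum_le_card_mul_sum_sq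
        _ ≤ _ := by
          refine mul_le_mul_of_nonneg_right hcard ?_
          exact Finset.sum_nonneg fun _ _ => by positivity
    linarith
  -- integrability
  have iT : IntervalIntegrable (fun lam => ‖T f B lam a‖ ^ 2) volume 0 A := by
    refine ii_of_bdd ((measurable_T f B a).norm.pow_const 2) (C := (B.card : ℝ) ^ 2) ?_ _
    intro x
    rw [abs_of_nonneg (by positivity)]
    gcongr
    exact norm_T_le _ _ _ _
  have iS : ∀ h : ℤ, IntervalIntegrable (fun lam => ‖c h‖ * ‖S f B ((a + h) * lam)‖ ^ 2)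
      volume 0 A := by
    intro h
    apply Continuous.intervalIntegrable
    unfold S
    have := continuous_e
    fun_prop
  have iE : ∀ n, IntervalIntegrable (fun lam => ‖er n lam‖ ^ 2) volume 0 A := by
    intro n
    refine ii_of_bdd ((hmer n).norm.pow_const 2) (C := (1 + 4 * L) ^ 2) ?_ _
    intro x
    rw [abs_of_nonneg (by positivity)]
    gcongr
    exact hber n x
  have iSum1 : IntervalIntegrable (fun lam => ∑ h ∈ HH, ‖c h‖ * ‖S f B ((a + h) * lam)‖ ^ 2)
      volume 0 A := by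
    have h0 : (fun lam => ∑ h ∈ HH, ‖c h‖ * ‖S f B ((a + h) * lam)‖ ^ 2) =
        ∑ h ∈ HH, fun lam => ‖c h‖ * ‖S f B ((a + h) * lam)‖ ^ 2 := by
      funext lam
      rw [Finset.sum_apply]
    rw [h0]
    exact IntervalIntegrable.sum HH fun h _ => iS h
  have iSum2 : IntervalIntegrable (fun lam => ∑ n ∈ B, ‖er n lam‖ ^ 2) volume 0 A := by
    have h0 : (fun lam => ∑ n ∈ B, ‖er n lam‖ ^ 2) = ∑ n ∈ B, fun lam => ‖er n lam‖ ^ 2 := by
      funext lam
      rw [Finset.sum_apply]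
    rw [h0]
    exact IntervalIntegrable.sum B fun n _ => iE n
  have hA0 : (0 : ℝ) ≤ A := by linarith
  have hint : ∫ lam in (0 : ℝ)..A, ‖T f B lam a‖ ^ 2 ≤
      2 * (4 * L * ∑ h ∈ HH, ‖c h‖ * ∫ lam in (0 : ℝ)..A, ‖S f B ((a + h) * lam)‖ ^ 2) +
        2 * (D * ∑ n ∈ B, ∫ lam in (0 : ℝ)..A, ‖er n lam‖ ^ 2) := by
    calc ∫ lam in (0 : ℝ)..A, ‖T f B lam a‖ ^ 2 ≤ ∫ lam in (0 : ℝ)..A,
        (2 * (4 * L * ∑ h ∈ HH, ‖c h‖ * ‖S f B ((a + h) * lam)‖ ^ 2) +
          2 * (D * ∑ n ∈ B, ‖er n lam‖ ^ 2)) := by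
          refine intervalIntegral.integral_mono_on hA0 iT ?_ fun x _ => hpt x
          exact ((iSum1.const_mul _).const_mul _).add ((iSum2.const_mul _).const_mul _)
      _ = _ := by
          rw [intervalIntegral.integral_add ((iSum1.const_mul _).const_mul _)
            ((iSum2.const_mul _).const_mul _)]
          rw [intervalIntegral.integral_const_mul, intervalIntegral.integral_const_mul,
            intervalIntegral.integral_const_mul, intervalIntegral.integral_const_mul]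
          rw [intervalIntegral.integral_finsetSum fun h _ => iS h,
            intervalIntegral.integral_finsetSum fun n _ => iE n]
          simp only [intervalIntegral.integral_const_mul]
  -- the integrals
  have hap : 0 < |a| := abs_pos.2 ha0
  set E : ℝ := 1 + 1 / (|a| * P) with hE
  have hEq : 0 ≤ 1 / (|a| * P) := by positivity
  have hE1 : 1 ≤ E := by linarith
  have h0int : ∫ lam in (0 : ℝ)..A, ‖S f B ((a + (0 : ℤ)) * lam)‖ ^ 2 ≤
      D * A * L * (1 + C2) * E := by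
    have h1 := hMS f B P D N A (a + (0 : ℤ)) hD (by linarith) hA0 hB hSp (by simpa using ha0)
    refine h1.trans ?_
    have h2 : |a + ((0 : ℤ) : ℝ)| = |a| := by simp
    rw [h2, ← hL]
    have h3 : C2 * L / (|a| * P) = C2 * L * (1 / (|a| * P)) := by ring
    rw [h3, mul_assoc (D : ℝ), mul_assoc (D : ℝ), mul_assoc (D : ℝ)]
    refine mul_le_mul_of_nonneg_left ?_ (by positivity)
    have h4 : (A : ℝ) ≤ A * L := by nlinarith
    have h5 : C2 * L ≤ C2 * (A * L) := by nlinarith [mul_pos hC2 (by linarith : 0 < L)]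
    have h6 : C2 * L * (1 / (|a| * P)) ≤ C2 * (A * L) * (1 / (|a| * P)) :=
      mul_le_mul_of_nonneg_right h5 hEq
    have hAL : 0 ≤ (A : ℝ) * L := by positivity
    calc (A : ℝ) + C2 * L * (1 / (|a| * P)) ≤ A * L + C2 * (A * L) * (1 / (|a| * P)) := by
          linarith
      _ ≤ A * L * (1 + C2) * (1 + 1 / (|a| * P)) := by
          nlinarith [mul_nonneg hAL hEq, mul_nonneg hAL hC2.le]
      _ = _ := by rw [hE]
  have hhint : ∀ h : ℤ, h ≠ 0 → ∫ lam in (0 : ℝ)..A, ‖S f B ((a + h) * lam)‖ ^ 2 ≤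
      D * A * L * (1 + 2 * C2) := by
    intro h hh
    have hh1 : (1 : ℝ) ≤ |(h : ℝ)| := by
      have := Int.one_le_abs hh
      exact_mod_cast this
    have hb : 1 / 2 ≤ |a + h| := by
      have h7 : |(h : ℝ)| ≤ |a + h| + |a| := by
        have := abs_sub (a + h) a
        simpa using this
      linarith
    have hb0 : a + h ≠ 0 := by
      intro h0
      rw [h0] at hb
      norm_num at hb
    have h1 := hMS f B P D N A (a + h) hD (by linarith) hA0 hB hSp hb0
    refine h1.trans ?_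
    rw [← hL]
    have h2 : C2 * L / (|a + h| * P) ≤ 2 * C2 * L := by
      rw [div_le_iff₀ (by positivity)]
      have h8 : 1 / 2 ≤ |a + h| * P := by nlinarith
      have h9 : 0 ≤ C2 * L := by positivity
      nlinarith
    rw [mul_assoc (D : ℝ), mul_assoc (D : ℝ)]
    refine mul_le_mul_of_nonneg_left ?_ (by positivity)
    have h4 : (A : ℝ) ≤ A * L := by nlinarith
    have h5 : 2 * C2 * L ≤ 2 * C2 * (A * L) := by
      nlinarith [mul_pos hC2 (by linarith : 0 < L)]
    nlinarith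
  have hsum1 : ∑ h ∈ HH, ‖c h‖ * ∫ lam in (0 : ℝ)..A, ‖S f B ((a + h) * lam)‖ ^ 2 ≤
      D * A * L ^ 2 * E * (5 + 9 * C2) := by
    have h1 : ∀ h ∈ HH, ‖c h‖ * ∫ lam in (0 : ℝ)..A, ‖S f B ((a + h) * lam)‖ ^ 2 ≤
        (if h = 0 then D * A * L * (1 + C2) * E else 0) + ‖c h‖ * (D * A * L * (1 + 2 * C2)) := by
      intro h _
      by_cases hh : h = 0
      · subst hh
        rw [if_pos rfl]
        have h2 : ‖c 0‖ * ∫ lam in (0 : ℝ)..A, ‖S f B ((a + (0 : ℤ)) * lam)‖ ^ 2 ≤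
            1 * (D * A * L * (1 + C2) * E) := by
          refine mul_le_mul hc0 h0int ?_ (by norm_num)
          exact intervalIntegral.integral_nonneg hA0 fun _ _ => by positivity
        have h3 : 0 ≤ ‖c 0‖ * (D * A * L * (1 + 2 * C2)) := by positivity
        linarith
      · rw [if_neg hh, zero_add]
        exact mul_le_mul_of_nonneg_left (hhint h hh) (norm_nonneg _)
    refine (Finset.sum_le_sum h1).trans ?_
    rw [Finset.sum_add_distrib, ← Finset.sum_mul]
    have h2 : ∑ h ∈ HH, (if h = 0 then (D : ℝ) * A * L * (1 + C2) * E else 0) ≤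
        D * A * L * (1 + C2) * E := by
      rw [Finset.sum_ite_eq' HH (0 : ℤ)]
      split_ifs
      · exact le_rfl
      · positivity
    have h3 : (∑ h ∈ HH, ‖c h‖) * (D * A * L * (1 + 2 * C2)) ≤
        4 * L * (D * A * L * (1 + 2 * C2)) :=
      mul_le_mul_of_nonneg_right hW (by positivity)
    have hX : 0 ≤ (D : ℝ) * A * L := by positivity
    have h4 : D * A * L * (1 + C2) * E ≤ D * A * L ^ 2 * E * (1 + C2) := by
      have h5 : D * A * L * (1 + C2) * E ≤ (D * A * L * (1 + C2) * E) * L := by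
        have : 0 ≤ D * A * L * (1 + C2) * E := by positivity
        nlinarith
      calc _ ≤ _ := h5
        _ = _ := by ring
    have h6 : 4 * L * (D * A * L * (1 + 2 * C2)) ≤ D * A * L ^ 2 * E * (4 * (1 + 2 * C2)) := by
      have h7 : 0 ≤ D * A * L ^ 2 * (4 * (1 + 2 * C2)) := by positivity
      calc 4 * L * (D * A * L * (1 + 2 * C2)) = D * A * L ^ 2 * (4 * (1 + 2 * C2)) * 1 := by ring
        _ ≤ D * A * L ^ 2 * (4 * (1 + 2 * C2)) * E := mul_le_mul_of_nonneg_left hE1 h7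
        _ = _ := by ring
    nlinarith
  have hsum2 : D * ∑ n ∈ B, ∫ lam in (0 : ℝ)..A, ‖er n lam‖ ^ 2 ≤ C1 * A := by
    have h1 : ∀ n ∈ B, ∫ lam in (0 : ℝ)..A, ‖er n lam‖ ^ 2 ≤ C1 * A / ((D ^ 2 : ℕ) : ℝ) := by
      intro n hn
      exact hFL A (f n) hA (hf n hn)
    have h2 := Finset.sum_le_sum h1
    rw [Finset.sum_const, nsmul_eq_mul] at h2
    have h3 : (B.card : ℝ) * (C1 * A / ((D ^ 2 : ℕ) : ℝ)) ≤ D * (C1 * A / ((D ^ 2 : ℕ) : ℝ)) :=
      mul_le_mul_of_nonneg_right hcard (by positivity)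
    have h4 : (D : ℝ) * (D * (C1 * A / ((D ^ 2 : ℕ) : ℝ))) = C1 * A := by
      push_cast
      field_simp
    calc _ ≤ (D : ℝ) * (D * (C1 * A / ((D ^ 2 : ℕ) : ℝ))) :=
          mul_le_mul_of_nonneg_left (h2.trans h3) (by positivity)
      _ = _ := h4
  refine hint.trans ?_
  have h1 : 2 * (4 * L * ∑ h ∈ HH, ‖c h‖ * ∫ lam in (0 : ℝ)..A, ‖S f B ((a + h) * lam)‖ ^ 2) ≤
      2 * (4 * L * (D * A * L ^ 2 * E * (5 + 9 * C2))) := by
    refine mul_le_mul_of_nonneg_left ?_ (by norm_num)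
    exact mul_le_mul_of_nonneg_left hsum1 (by positivity)
  have h2 : C1 * A ≤ C1 * A * (D * L ^ 3 * E) := by
    have h3 : 1 ≤ D * L ^ 3 * E := by
      have : 1 ≤ L ^ 3 := one_le_pow₀ hL1
      calc (1 : ℝ) = 1 * 1 * 1 := by norm_num
        _ ≤ D * L ^ 3 * E := by gcongr
    have h4 : 0 ≤ C1 * A := by positivity
    nlinarith
  calc _ ≤ 2 * (4 * L * (D * A * L ^ 2 * E * (5 + 9 * C2))) + 2 * (C1 * A * (D * L ^ 3 * E)) := by
        linarith
    _ = _ := by ring

end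

end Pool.Agent.Run7.h757.MW
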