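import Pool.Agent.Run7.h757.MW.Stm

/-!
# Project MW (helper757), fourth batch: doubling of the saving in the exceptional set

Statements (NOT results); each is a closed `Prop` with its proof in the doc string.
Goal: `k + 2 + ⌊log_2 k⌋` terms `⌊lam_i n_i^k⌋` represent ALL large integers, for almost all `lam` (instead of `2 k + 1`).
If the exceptional set `E` of `s` variables has `X^β` elements up to `X`, then an exceptional `M` of `s + 1` variables has both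
`M - ⌊lam n₁^k⌋` and `M - ⌊lam n₂^k⌋` in `E`, and for random `lam` the number of such `M` is at most `|E|² / X = X^(2 β - 1)`.
-/

open Finset MeasureTheory Filter

namespace Pool.Agent.Run7.h757.MW

noncomputable section

open Classical in
/-- the integers of the `j`-th dyadic block which are not in `R` -/
def exB (R : Set ℕ) (j : ℕ) : Finset ℕ := (Ico (2 ^ j) (2 ^ (j + 1))).filter (· ∉ R)

/-- the exceptional set has exponent `β` -/
def Exc (R : Set ℕ) (β : ℝ) : Prop := ∃ C : ℕ, ∀ j : ℕ, ((exB R j).card : ℝ) ≤ C * (2 : ℝ) ^ (β * j)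

/-- one more variable -/
def addR (k : ℕ) (W : Set ℕ) (R : Set ℕ) (lam : ℝ) : Set ℕ :=
  {M | ∃ n ∈ W, 1 ≤ n ∧ ∃ m ∈ R, m + ⌊lam * (n : ℝ) ^ k⌋₊ = M}

/-- **STEP** (doubling of the saving).
Proof. (1) Measurability: `{p | M ∈ addR k W (R p.2) p.1} = ⋃_{n ∈ W, n ≥ 1} ⋃_m {m ∈ R p.2} ∩ {m + ⌊p.1 n^k⌋ = M}`; so
`{p | Exc (addR ..) β'}` is measurable (countable union over `C`, intersection over `j`, the cardinality is a finite sum of
indicators). By Fubini (`Measure.ae_prod_iff_ae_ae`, applied after `Measure.prod_swap`, or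
`Measure.measure_prod_null_of_ae_null` and its symmetric version) it suffices to show, for each `ω` with
`Exc (R ω) β`, that the conclusion holds for almost all `lam ∈ (0, A]`, each `A ∈ ℕ`, `A ≥ 1`.
(2) Fix `ω`, `E_j = exB (R ω) (j - 1) ∪ exB (R ω) j`, `|E_j| ≤ C' 2^(β j)`. Fix `w₀ ∈ W`, `w₀ ≥ 1`, and for large `j` an
element `w_j ∈ W` with `A w_j^k ≤ 2^(j-1)` and `w_j^k ≥ c' 2^j` (`Reg` with `B = 0`, `y = x`). Let `lam ∈ (0, A]`,
`M ∈ [2^j, 2^(j+1))`, `M ∉ addR`. Then `e₁ = M - ⌊lam w₀^k⌋` and `e₂ = M - ⌊lam w_j^k⌋` are in `E_j` and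
`e₁ - e₂ = ⌊lam w_j^k⌋ - ⌊lam w₀^k⌋`, so `|lam (w_j^k - w₀^k) - (e₁ - e₂)| ≤ 1`, and `M` is determined by `e₁` and `lam`.
Hence `card (exB (addR ..) j) ≤ F_j(lam)`, the number of the pairs `(e₁, e₂) ∈ E_j²` with
`|lam (w_j^k - w₀^k) - (e₁ - e₂)| ≤ 1`, and `∫_0^A F_j ≤ |E_j|² 2 / (w_j^k - w₀^k) ≤ C'' 2^((2 β - 1) j)`.
(3) Markov: `volume {lam ∈ (0, A] | F_j(lam) > 2^(β' j)} ≤ C'' 2^((2 β - 1 - β') j)`, summable; Borel-Cantelli. The
finitely many small `j` are absorbed by the constant. -/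
def S_STEP : Prop := ∀ (Ω : Type) [MeasurableSpace Ω] (μ : Measure Ω) [SigmaFinite μ]
  (R : Ω → Set ℕ) (k : ℕ) (W : Set ℕ) (c t β β' : ℝ), 1 ≤ k → 0 < c → 0 ≤ t → Reg c t W →
  2 * β - 1 < β' → (∀ m, MeasurableSet {ω | m ∈ R ω}) → (∀ᵐ ω ∂μ, Exc (R ω) β) →
    ∀ᵐ p : ℝ × Ω ∂(volume.prod μ), 0 < p.1 → Exc (addR k W (R p.2) p.1) β'

/-- **LOWB** (`k` terms are not enough).
Proof. `Pool.Agent.Run7.h544.MW.t_LAT` (number of `m ∈ ℤ^k` with `∑ ⌊lam_i |m_i|^k⌋ ≤ y` is `Vol k k lam y + O(y^(1-1/k))`);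
changing signs, the number of the `n` with positive coordinates is at most `2^(-k)` times this, i.e.
`Γ(1/k + 1)^k (∏ lam_i^(-1/k)) y + o(y)` (here `Γ(k/k + 1) = 1`), which is at most `(1 - 2 δ) y` for some `δ > 0`. -/
def S_LOWB : Prop := ∀ (k : ℕ) (lam : Fin k → ℝ), 2 ≤ k → (∀ i, 0 < lam i) →
  Real.Gamma (1 / k + 1) ^ k * ∏ i, lam i ^ (-(1 / (k : ℝ))) < 1 →
    ∃ δ : ℝ, 0 < δ ∧ ∀ᶠ X : ℕ in atTop,
      δ * X ≤ ({M : ℕ | M ≤ X ∧ ¬ ∃ n : Fin k → ℕ, (∀ i, 1 ≤ n i) ∧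
        ∑ i, ⌊lam i * (n i : ℝ) ^ k⌋₊ = M}.ncard : ℝ)

end

end Pool.Agent.Run7.h757.MW
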