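import Pool.Agent.Run7.h757.MW.One
import Pool.Agent.Run7.h757.MW.Use2
import Pool.Agent.Run7.h757.MW.Stm4

/-!
# Project MW: exceptional sets with one copy of `U`
-/

open Finset MeasureTheory Filter

namespace Pool.Agent.Run7.h757.MW

noncomputable section

/-- **The engine**, one copy of `U`. -/
theorem engine1 (u k : ℕ) (hu : 4 ≤ u) (hk : 2 ≤ k) (W : Fin u → Set ℕ) (c t : ℝ) (hc : 0 < c)
    (ht : 0 ≤ t) (hW : ∀ i, Reg c t (W i)) (U : ℕ → Finset ℕ)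
    (hU : ∀ᶠ j : ℕ in atTop, ∀ a ∈ U j, a ≤ (2 ^ j) ^ k)
    (hne : ∀ᶠ j : ℕ in atTop, (U j).Nonempty) :
    ∀ᵐ lam : Fin u → ℝ, (∀ i, 0 < lam i) → ∃ (K q : ℕ) (c₁ c₄ : ℝ), 0 < c₁ ∧ 0 < c₄ ∧ 1 ≤ q ∧
      ∀ᶠ j : ℕ in atTop, (U j ⊆ range (q * 2 ^ (j * k))) ∧
        (∀ M : ℕ, c₁ * (2 : ℝ) ^ (j * k) ≤ M → (M : ℝ) ≤ (2 : ℝ) ^ k * c₁ * (2 : ℝ) ^ (j * k) →
          M < q * 2 ^ (j * k) ∧
          c₄ * ((U j).card : ℝ) * (((2 : ℝ) ^ j) ^ u / ((2 : ℝ) ^ j) ^ k) /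
            ((j : ℝ) + 1) ^ (t * u) ≤
          cn (trp1 u K W (U j) j) (val1 u k lam) M +
            EH1 kk0 u k K q (HH k j (BB u t)) W (U j) lam j M) ∧
        Xhigh u k K q (U j) W lam j ≤
          2 * (U j).card * ((2 : ℝ) ^ j) ^ u * ((j : ℝ) + 1) ^ (3 * u + 3) := by
  classical
  have hPAR := Pool.Agent.Run7.h304.MW.PAR
  have hAE := Pool.Agent.Run7.h304.MW.AE
  have hUr : ∀ q : ℕ, 2 ≤ q → ∀ᶠ j : ℕ in atTop, U j ⊆ range (q * 2 ^ (j * k)) := by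
    intro q hq
    filter_upwards [hU] with j hj a ha
    have h1 := hj a ha
    rw [← pow_mul] at h1
    have h2 : 0 < 2 ^ (j * k) := by positivity
    rw [mem_range]
    nlinarith
  have hlowae : ∀ A K q : ℕ, ∀ᵐ x : Fin u → ℝ, (1 ≤ A ∧ 2 ≤ K ∧ 2 ≤ q) → x ∈ Box u A →
      ∀ᶠ j : ℕ in atTop, Xlow u k K q (BB u t) W x j ≤ ((2 : ℝ) ^ j) ^ (2 * u) /
        ((2 : ℝ) ^ j) ^ (2 * k) / ((j : ℝ) + 1) ^ (2 * (⌈t * u⌉₊ + 1)) := by
    intro A K q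
    by_cases h : 1 ≤ A ∧ 2 ≤ K ∧ 2 ≤ q
    · have := core_low ms_T hAE u k A K q (⌈t * u⌉₊ + 1) hu hk h.1 h.2.1 (by omega) W
      filter_upwards [this] with x hx _ using hx
    · exact Filter.Eventually.of_forall fun x h' => (h h').elim
  have hhighae : ∀ A K q : ℕ, ∀ᵐ x : Fin u → ℝ, (1 ≤ A ∧ 2 ≤ K ∧ 2 ≤ q) → x ∈ Box u A →
      ∀ᶠ j : ℕ in atTop, Xhigh u k K q (U j) W x j ≤
        ((U j).card + 1) * ((2 : ℝ) ^ j) ^ u * ((j : ℝ) + 1) ^ (3 * u + 3) := by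
    intro A K q
    by_cases h : 1 ≤ A ∧ 2 ≤ K ∧ 2 ≤ q
    · have := core_high ms_T hAE hPAR u k A K q hk h.1 h.2.1 (by omega) W U (hUr q h.2.2)
      filter_upwards [this] with x hx _ using hx
    · exact Filter.Eventually.of_forall fun x h' => (h h').elim
  have h1 := ae_all_iff.2 fun A => ae_all_iff.2 fun K => ae_all_iff.2 fun q => hlowae A K q
  have h2 := ae_all_iff.2 fun A => ae_all_iff.2 fun K => ae_all_iff.2 fun q => hhighae A K q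
  filter_upwards [h1, h2] with lam hl hh hpos
  obtain ⟨c₁, hc₁, hbl⟩ := block_lower1 kk0_spec.1 kk0_spec.2.1 kk0_spec.2.2
    Pool.Agent.Run7.h937.MW.t_LBC u k lam W c t (by omega) (by omega) hpos hc ht hW
  set c₂ : ℕ := ⌈(2 : ℝ) ^ k * (c₁ + 2)⌉₊ with hc₂
  obtain ⟨K₀, hbl⟩ := hbl c₂
  set K : ℕ := max K₀ 2 with hK
  obtain ⟨A, hA1, hA⟩ : ∃ A : ℕ, 1 ≤ A ∧ ∀ i, lam i ≤ A := by
    refine ⟨∑ i, ⌈lam i⌉₊ + 1, by omega, fun i => ?_⟩
    have h3 : ⌈lam i⌉₊ ≤ ∑ i, ⌈lam i⌉₊ :=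
      Finset.single_le_sum (f := fun i => ⌈lam i⌉₊) (fun _ _ => Nat.zero_le _) (mem_univ i)
    have h4 : ((⌈lam i⌉₊ : ℕ) : ℝ) ≤ ((∑ i, ⌈lam i⌉₊ : ℕ) : ℝ) := by exact_mod_cast h3
    have h5 := Nat.le_ceil (lam i)
    push_cast at h4 ⊢
    linarith
  set q : ℕ := max (u * (A * K ^ k) + 3) (c₂ + 1) with hq
  have hq2 : 2 ≤ q := by
    have := le_max_left (u * (A * K ^ k) + 3) (c₂ + 1)
    omega
  have hbox : lam ∈ Box u A := by
    unfold Box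
    rw [Set.mem_univ_pi]
    exact fun i => ⟨(hpos i).le, hA i⟩
  have hcond : 1 ≤ A ∧ 2 ≤ K ∧ 2 ≤ q := ⟨hA1, le_max_right _ _, hq2⟩
  have hlow := hl A K q hcond hbox
  have hhigh := hh A K q hcond hbox
  have hD0 : t * u + 1 ≤ ((⌈t * u⌉₊ + 1 : ℕ) : ℝ) := by
    have := Nat.le_ceil (t * u)
    push_cast
    linarith
  obtain ⟨c₄, hc₄, hbl⟩ := hbl K (le_max_left _ _) A q (⌈t * u⌉₊ + 1) hA
    (lt_of_lt_of_le (by omega) (le_max_left _ _)) (le_max_right _ _) hD0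
  refine ⟨K, q, c₁ + 2, c₄, by positivity, hc₄, by omega, ?_⟩
  filter_upwards [hbl U hU hlow, hhigh, hne, hUr q hq2] with j hj1 hj2 hj3 hj4
  refine ⟨hj4, fun M hM1 hM2 => ?_, ?_⟩
  · have hM3 : (M : ℝ) ≤ c₂ * (2 : ℝ) ^ (j * k) := by
      refine hM2.trans (mul_le_mul_of_nonneg_right ?_ (by positivity))
      exact Nat.le_ceil _
    refine ⟨?_, hj1 M hM1 hM3⟩
    have h3 : c₂ + 1 ≤ q := le_max_right _ _
    have h4 : ((c₂ : ℝ) + 1) ≤ q := by exact_mod_cast h3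
    have h5 : (M : ℝ) < q * (2 : ℝ) ^ (j * k) := by
      have h6 : (0 : ℝ) < (2 : ℝ) ^ (j * k) := by positivity
      nlinarith
    exact_mod_cast h5
  · refine hj2.trans ?_
    have h3 : (1 : ℝ) ≤ (U j).card := by exact_mod_cast hj3.card_pos
    have h4 : ((U j).card : ℝ) + 1 ≤ 2 * (U j).card := by linarith
    gcongr


/-- **One block.** -/
theorem one_block (u k : ℕ) (hu : 4 ≤ u) (hk : 2 ≤ k) (W : Fin u → Set ℕ) (c t : ℝ) (hc : 0 < c)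
    (ht : 0 ≤ t) (hW : ∀ i, Reg c t (W i)) (U : ℕ → Finset ℕ)
    (hU : ∀ᶠ j : ℕ in atTop, ∀ a ∈ U j, a ≤ (2 ^ j) ^ k)
    (hne : ∀ᶠ j : ℕ in atTop, (U j).Nonempty) :
    ∀ᵐ lam : Fin u → ℝ, (∀ i, 0 < lam i) → ∃ (c₁ C : ℝ), 0 < c₁ ∧ 0 < C ∧
      ∀ᶠ j : ℕ in atTop, ∃ Bad : Finset ℕ,
        (Bad.card : ℝ) ≤ C * ((2 : ℝ) ^ j) ^ (2 * (k : ℝ) - u) *
          ((j : ℝ) + 1) ^ (3 * (u : ℝ) + 3 + 2 * (t * u)) / (U j).card ∧
        ∀ M : ℕ, c₁ * (2 : ℝ) ^ (j * k) ≤ M → (M : ℝ) ≤ (2 : ℝ) ^ k * c₁ * (2 : ℝ) ^ (j * k) →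
          M ∉ Bad → ∃ a ∈ U j, ∃ n : Fin u → ℕ, (∀ i, 1 ≤ n i ∧ n i ∈ W i) ∧
            a + ∑ i, ⌊lam i * (n i : ℝ) ^ k⌋₊ = M := by
  classical
  have heng := engine1 u k hu hk W c t hc ht hW U hU hne
  filter_upwards [heng] with lam hlam hpos
  obtain ⟨K, q, c₁, c₄, hc₁, hc₄, hq, hj⟩ := hlam hpos
  refine ⟨c₁, 8 / c₄ ^ 2, hc₁, by positivity, ?_⟩
  filter_upwards [hj, hne] with j hj hnej
  obtain ⟨hUr, hj1, hj2⟩ := hj
  set w : ℝ := ((U j).card : ℝ) with hw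
  have hw1 : (1 : ℝ) ≤ w := by
    rw [hw]
    exact_mod_cast hnej.card_pos
  have hw0 : 0 < w := by linarith
  set N : ℝ := (2 : ℝ) ^ j with hN
  set l : ℝ := (j : ℝ) + 1 with hl
  have hN1 : 1 ≤ N := one_le_pow₀ (by norm_num)
  have hN0 : 0 < N := by linarith
  have hl1 : 1 ≤ l := by
    have : (0 : ℝ) ≤ j := by positivity
    linarith
  have hl0 : 0 < l := by linarith
  have hlt : (0 : ℝ) < l ^ (t * u) := Real.rpow_pos_of_pos hl0 _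
  set m : ℝ := c₄ / 2 * w * (N ^ u / N ^ k) / l ^ (t * u) with hm
  have hm0 : 0 < m := by positivity
  set E : ℕ → ℝ := fun M => EH1 kk0 u k K q (HH k j (BB u t)) W (U j) lam j M with hE
  refine ⟨(range (q * 2 ^ (j * k))).filter fun M => m ≤ E M, ?_, fun M hM1 hM2 hbad => ?_⟩
  · have hsq := EH1_sq Pool.Agent.Run7.h304.MW.PAR kk0_spec.1 u k K q (HH k j (BB u t)) W (U j)
      lam j hq
    have h1 : (((range (q * 2 ^ (j * k))).filter fun M => m ≤ E M).card : ℝ) * m ^ 2 ≤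
        ∑ M ∈ range (q * 2 ^ (j * k)), E M ^ 2 := by
      calc _ = ∑ _M ∈ (range (q * 2 ^ (j * k))).filter fun M => m ≤ E M, m ^ 2 := by
            rw [Finset.sum_const, nsmul_eq_mul]
        _ ≤ ∑ M ∈ (range (q * 2 ^ (j * k))).filter fun M => m ≤ E M, E M ^ 2 := by
            refine Finset.sum_le_sum fun M hM => ?_
            have := (mem_filter.1 hM).2
            gcongr
        _ ≤ _ := Finset.sum_le_sum_of_subset_of_nonneg (Finset.filter_subset _ _)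
            fun _ _ _ => sq_nonneg _
    have h2 : (((range (q * 2 ^ (j * k))).filter fun M => m ≤ E M).card : ℝ) * m ^ 2 ≤
        2 * w * N ^ u * l ^ (3 * u + 3) := h1.trans (hsq.trans hj2)
    rw [← le_div_iff₀ (by positivity)] at h2
    refine h2.trans (le_of_eq ?_)
    rw [hm, Real.rpow_sub hN0, Real.rpow_add hl0, mul_comm (2 : ℝ) (k : ℝ), Real.rpow_mul hN0.le,
      mul_comm (2 : ℝ) (t * u), Real.rpow_mul hl0.le (t * u)]
    have e1 : l ^ (3 * (u : ℝ) + 3) = l ^ (3 * u + 3) := by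
      rw [← Real.rpow_natCast]
      push_cast
      rfl
    rw [e1, Real.rpow_natCast, Real.rpow_natCast, Real.rpow_ofNat, Real.rpow_ofNat]
    field_simp
    ring
  · obtain ⟨hMQ, hmain⟩ := hj1 M hM1 hM2
    have h1 : E M < m := by
      by_contra h
      exact hbad (mem_filter.2 ⟨mem_range.2 hMQ, not_lt.1 h⟩)
    have h2 : c₄ * w * (N ^ u / N ^ k) / l ^ (t * u) = m + m := by
      rw [hm]
      ring
    rw [h2] at hmain
    have h4 : EH1 kk0 u k K q (HH k j (BB u t)) W (U j) lam j M = E M := rfl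
    rw [h4] at hmain
    have hpos' : 0 < cn (trp1 u K W (U j) j) (val1 u k lam) M := by linarith
    unfold cn at hpos'
    have hcp : 0 < ((trp1 u K W (U j) j).filter fun p => val1 u k lam p = M).card := by
      exact_mod_cast hpos'
    obtain ⟨p, hp⟩ := Finset.card_pos.1 hcp
    rw [mem_filter] at hp
    obtain ⟨hp1, hp2⟩ := hp
    unfold trp1 at hp1
    rw [mem_product] at hp1
    refine ⟨p.1, hp1.1, p.2, fun i => ?_, ?_⟩
    · have h3 := hp1.2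
      unfold tup at h3
      rw [Fintype.mem_piFinset] at h3
      have h5 : p.2 i ∈ Ioc (2 ^ j) (K * 2 ^ j) ∧ p.2 i ∈ W i := by
        simpa only [blk, Finset.mem_filter] using h3 i
      have h6 := (mem_Ioc.1 h5.1).1
      exact ⟨lt_of_le_of_lt (Nat.zero_le _) h6, h5.2⟩
    · unfold val1 fl at hp2
      push_cast at hp2
      exact hp2

end

end Pool.Agent.Run7.h757.MW
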