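import Pool.Agent.Run7.h757.MW.Stm5
import Pool.Agent.Run7.h757.MW.One2

/-!
# Project MW: binary problems, the circle method
-/

open Finset MeasureTheory Filter

namespace Pool.Agent.Run7.h757.MW

noncomputable section

theorem gr_mono {k : ℕ} {f : ℕ → ℕ} (hf : Gr k f) :
    ∃ n₀ : ℕ, 1 ≤ n₀ ∧ ∀ m n : ℕ, n₀ ≤ m → m ≤ n → f m + (n - m) ≤ f n := by
  obtain ⟨a, C, n₀, ha, hC, hn₀, -, h2⟩ := hf
  refine ⟨n₀, hn₀, fun m n hm hmn => ?_⟩
  induction n, hmn using Nat.le_induction with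
  | base => simp
  | succ n hmn ih =>
    have h3 := h2 n (n + 1) (hm.trans hmn) (by omega)
    have hn : (0 : ℝ) < n := by
      have : 0 < n := by omega
      exact_mod_cast this
    have h4 : (0 : ℝ) < (n : ℝ) ^ (k - 1) * (((n + 1 : ℕ) : ℝ) - n) := by
      push_cast
      have : (0 : ℝ) < (n : ℝ) ^ (k - 1) := by positivity
      nlinarith
    have h5 : (0 : ℝ) < C * ((f (n + 1) : ℝ) - f n) := lt_of_lt_of_le h4 h3
    have h6 : (f n : ℝ) < f (n + 1) := by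
      by_contra h
      push Not at h
      nlinarith
    have h7 : f n < f (n + 1) := by exact_mod_cast h6
    omega

/-- mean square for a sequence growing like `n^k` -/
theorem gr_ms (k : ℕ) (f : ℕ → ℕ) (hf : Gr k f) (K A : ℕ) (hK : 2 ≤ K) (hA : 1 ≤ A) :
    ∃ C : ℝ, 0 < C ∧ ∀ᶠ j : ℕ in atTop, ∀ (W : Set ℕ) (b : ℝ), b ≠ 0 → |b| ≤ 1 / 2 →
      ∫ lam in (0 : ℝ)..A, ‖T f (blk W K (2 ^ j)) lam b‖ ^ 2 ≤
        C * (2 : ℝ) ^ j * ((j : ℝ) + 1) ^ 3 * (1 + 1 / (|b| * ((2 : ℝ) ^ j) ^ (k - 1))) := by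
  obtain ⟨n₁, hn₁, hmono⟩ := gr_mono hf
  obtain ⟨a, C₂, n₀, ha, hC₂, hn₀, -, hsp⟩ := hf
  obtain ⟨C, hC, hMT⟩ := ms_T
  have hK' : (2 : ℝ) ≤ K := by exact_mod_cast hK
  have hlK : 0 ≤ Real.log K := Real.log_nonneg (by linarith)
  have hA' : (1 : ℝ) ≤ A := by exact_mod_cast hA
  refine ⟨C * A * K * (1 + Real.log K) ^ 3 * (1 + C₂), by positivity, ?_⟩
  filter_upwards [eventually_ge_atTop (n₀ + n₁)] with j hj W b hb0 hb
  have hj2 : j < 2 ^ j := Nat.lt_two_pow_self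
  have hN : 1 ≤ 2 ^ j := Nat.one_le_two_pow
  have hD : 1 ≤ (K - 1) * 2 ^ j := Nat.mul_pos (by omega) hN
  have hsub : blk W K (2 ^ j) ⊆ Ioc (2 ^ j) (2 ^ j + (K - 1) * 2 ^ j) := by
    intro y hy
    have hy' : y ∈ Ioc (2 ^ j) (K * 2 ^ j) ∧ y ∈ W := by
      simpa only [blk, Finset.mem_filter] using hy
    have h0 := mem_Ioc.1 hy'.1
    refine mem_Ioc.2 ⟨h0.1, h0.2.trans (le_of_eq ?_)⟩
    obtain ⟨m, rfl⟩ : ∃ m, K = m + 1 := ⟨K - 1, by omega⟩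
    rw [Nat.add_sub_cancel]
    ring
  set P : ℝ := max 1 (((2 : ℝ) ^ j) ^ (k - 1) / C₂) with hP
  have hP1 : 1 ≤ P := le_max_left _ _
  have hP0 : 0 < P := by linarith
  have hSp : Sp f (blk W K (2 ^ j)) P := by
    intro n hn m hm hmn
    have hm1 : 2 ^ j < m := by
      have := hsub hm
      rw [mem_Ioc] at this
      exact this.1
    have hm2 : (2 : ℝ) ^ j ≤ m := by exact_mod_cast hm1.le
    have hmn' : (m : ℝ) ≤ n := by exact_mod_cast hmn.le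
    have h2 : (0 : ℝ) ≤ (n : ℝ) - m := by linarith
    rw [hP, max_mul_of_nonneg _ _ h2]
    refine max_le ?_ ?_
    · have h3 := hmono m n (by omega) hmn.le
      have h4 : ((f m + (n - m) : ℕ) : ℝ) ≤ f n := by exact_mod_cast h3
      rw [Nat.cast_add, Nat.cast_sub hmn.le] at h4
      linarith
    · have h3 := hsp m n (by omega) hmn
      rw [div_mul_eq_mul_div, div_le_iff₀ hC₂, mul_comm ((f n : ℝ) - f m)]
      refine le_trans ?_ h3
      gcongr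
  have h1 := hMT f (blk W K (2 ^ j)) P ((K - 1) * 2 ^ j)
    (2 ^ j) A b hD hP1 hA hsub hSp ?_ hb0 hb
  · refine h1.trans ?_
    have hDle : (((K - 1) * 2 ^ j : ℕ) : ℝ) ≤ K * (2 : ℝ) ^ j := by
      have : (K - 1) * 2 ^ j ≤ K * 2 ^ j := Nat.mul_le_mul_right _ (Nat.sub_le _ _)
      exact_mod_cast this
    have hDpos : (0 : ℝ) < (((K - 1) * 2 ^ j : ℕ) : ℝ) := by exact_mod_cast hD
    have hlog : 1 + Real.log (((K - 1) * 2 ^ j : ℕ) : ℝ) ≤ (1 + Real.log K) * ((j : ℝ) + 1) := by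
      have h2 := Real.log_le_log hDpos hDle
      rw [Real.log_mul (by positivity) (by positivity), Real.log_pow] at h2
      have h3 : (j : ℝ) * Real.log 2 ≤ j := by
        have : Real.log 2 ≤ 1 := by
          have := Real.log_two_lt_d9
          linarith
        have hj : (0 : ℝ) ≤ j := by positivity
        nlinarith
      have h4 : 0 ≤ Real.log K * j := by positivity
      nlinarith
    have hlog0 : 0 ≤ 1 + Real.log (((K - 1) * 2 ^ j : ℕ) : ℝ) := by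
      have : 0 ≤ Real.log (((K - 1) * 2 ^ j : ℕ) : ℝ) :=
        Real.log_nonneg (by exact_mod_cast hD)
      linarith
    have hb1 : 0 < |b| := abs_pos.2 hb0
    have hNk : (0 : ℝ) < ((2 : ℝ) ^ j) ^ (k - 1) := by positivity
    have hE : 1 + 1 / (|b| * P) ≤ (1 + C₂) * (1 + 1 / (|b| * ((2 : ℝ) ^ j) ^ (k - 1))) := by
      have h5 : 1 / (|b| * P) ≤ C₂ * (1 / (|b| * ((2 : ℝ) ^ j) ^ (k - 1))) := by
        rw [mul_one_div, div_le_div_iff₀ (by positivity) (by positivity), one_mul]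
        have h6 : ((2 : ℝ) ^ j) ^ (k - 1) ≤ C₂ * P := by
          have h7 : ((2 : ℝ) ^ j) ^ (k - 1) / C₂ ≤ P := le_max_right _ _
          rw [div_le_iff₀ hC₂] at h7
          linarith
        calc |b| * ((2 : ℝ) ^ j) ^ (k - 1) ≤ |b| * (C₂ * P) := by gcongr
          _ = _ := by ring
      have h8 : (0 : ℝ) ≤ 1 / (|b| * ((2 : ℝ) ^ j) ^ (k - 1)) := by positivity
      nlinarith
    calc C * A * (((K - 1) * 2 ^ j : ℕ) : ℝ) * (1 + Real.log (((K - 1) * 2 ^ j : ℕ) : ℝ)) ^ 3 *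
          (1 + 1 / (|b| * P))
        ≤ C * A * (K * (2 : ℝ) ^ j) * ((1 + Real.log K) * ((j : ℝ) + 1)) ^ 3 *
          ((1 + C₂) * (1 + 1 / (|b| * ((2 : ℝ) ^ j) ^ (k - 1)))) := by gcongr
      _ = _ := by ring
  · intro n hn
    have h3 := hsub hn
    rw [mem_Ioc] at h3
    have h4 := hmono n₁ n le_rfl (by omega)
    omega

/-- the weighted sum over the frequencies -/
def XB (Q H : ℕ) (U : Finset ℕ) (f : ℕ → ℕ) (B : Finset ℕ) (lam : ℝ) : ℝ :=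
  ∑ r ∈ Ico 1 Q, 1 / (Q : ℝ) * (kk0 Q H r ^ 2 * ‖SU U (rep Q r)‖ ^ 2) *
    ‖T f B lam (rep Q r)‖ ^ 2

theorem ae_XB (k : ℕ) (f : ℕ → ℕ) (V : ℕ → Finset ℕ) (W : Set ℕ) (H : ℕ → ℕ)
    (hf : Gr k f) (hV : ∀ᶠ j : ℕ in atTop, ∀ a ∈ V j, a ≤ 2 ^ (j * k))
    (hH : ∀ᶠ j : ℕ in atTop, 1 ≤ H j) (A K q : ℕ) (hA : 1 ≤ A) (hK : 2 ≤ K) (hq : 2 ≤ q) :
    ∀ᵐ lam : ℝ, 0 ≤ lam → lam ≤ A → ∀ᶠ j : ℕ in atTop,
      XB (q * 2 ^ (j * k)) (H j) (V j) f (blk W K (2 ^ j)) lam ≤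
        ((V j).card + 1) * (2 : ℝ) ^ j * ((j : ℝ) + 1) ^ 6 *
          (1 + H j / ((2 : ℝ) ^ j) ^ (k - 1)) := by
  obtain ⟨C, hC, hms⟩ := gr_ms k f hf K A hK hA
  have hPAR := Pool.Agent.Run7.h304.MW.PAR
  have key := Pool.Agent.Run7.h304.MW.AE 1 A 2 (fun _ => f) (fun j _ => blk W K (2 ^ j))
    (fun j => Ico 1 (q * 2 ^ (j * k)))
    (fun j r => 1 / ((q * 2 ^ (j * k) : ℕ) : ℝ) * (kk0 (q * 2 ^ (j * k)) (H j) r ^ 2 *
      ‖SU (V j) (rep (q * 2 ^ (j * k)) r)‖ ^ 2))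
    (fun j r => rep (q * 2 ^ (j * k)) r)
    (fun j => ((V j).card + 1) * (2 : ℝ) ^ j * ((j : ℝ) + 1) ^ 6 *
      (1 + H j / ((2 : ℝ) ^ j) ^ (k - 1)))
    (fun j r => by positivity) (fun j => by positivity) ?_
  · have hmp := (volume_preserving_funUnique (Fin 1) ℝ).symm.quasiMeasurePreserving.ae key
    filter_upwards [hmp] with lam hlam h0 h1
    have hbox : ((MeasurableEquiv.funUnique (Fin 1) ℝ).symm lam) ∈ Box 1 A := by
      unfold Box
      rw [Set.mem_univ_pi]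
      exact fun i => ⟨h0, h1⟩
    filter_upwards [hlam hbox] with j hj
    unfold XB
    refine le_trans (le_of_eq ?_) hj
    refine Finset.sum_congr rfl fun r _ => ?_
    rw [Fin.prod_univ_one]
    rfl
  · have hev : ∀ᶠ j : ℕ in atTop, 26 * C ≤ (j : ℝ) + 1 := tendsto_l.eventually_ge_atTop _
    filter_upwards [hms, hV, hH, hev] with j hj hVj hHj hCj
    set Q : ℕ := q * 2 ^ (j * k) with hQ
    set N : ℝ := (2 : ℝ) ^ j with hN
    set l : ℝ := (j : ℝ) + 1 with hl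
    have hN1 : 1 ≤ N := one_le_pow₀ (by norm_num)
    have hN0 : 0 < N := by linarith
    have hl1 : 1 ≤ l := by
      have : (0 : ℝ) ≤ j := by positivity
      linarith
    have hl0 : 0 < l := by linarith
    have hQ1 : 1 ≤ Q := Nat.mul_pos (by omega) (pow_pos (by norm_num) _)
    have hQ0 : (0 : ℝ) < Q := by exact_mod_cast hQ1
    have hVr : V j ⊆ range Q := by
      intro a ha
      have h1 := hVj a ha
      have h2 : 0 < 2 ^ (j * k) := by positivity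
      rw [mem_range, hQ]
      nlinarith
    have hNk : (0 : ℝ) < N ^ (k - 1) := by positivity
    set Y : ℝ := 1 + H j / N ^ (k - 1) with hY
    have hY0 : 0 < Y := by positivity
    have hterm : ∀ r ∈ Ico 1 Q, 1 / (Q : ℝ) * (kk0 Q (H j) r ^ 2 * ‖SU (V j) (rep Q r)‖ ^ 2) *
        ∏ _i : Fin 1, ∫ lam in (0 : ℝ)..A, ‖T f (blk W K (2 ^ j)) lam (rep Q r)‖ ^ 2 ≤
        1 / (Q : ℝ) * (26 * C * N * l ^ 3 * Y) * ‖SU (V j) (rep Q r)‖ ^ 2 := by
      intro r hr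
      obtain ⟨h1, h2, -, -⟩ := rep_abs hr
      have hb : rep Q r ≠ 0 := abs_pos.1 h1
      rw [Fin.prod_univ_one]
      have h3 := hj W (rep Q r) hb h2
      have hk1 := kk0_spec.1 Q (H j) r
      have hk2 := kk0_spec.2.1 Q (H j) r hQ1 hHj (mem_Ico.1 hr).2
      have hkk : kk0 Q (H j) r ^ 2 * (1 + 1 / (|rep Q r| * N ^ (k - 1))) ≤ 26 * Y := by
        have h4 : kk0 Q (H j) r ^ 2 ≤ 1 := pow_le_one₀ hk1.1 hk1.2
        have h5 : kk0 Q (H j) r ^ 2 ≤ 25 * (H j * |rep Q r|) := by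
          have h6 : ((H j * |rep Q r|) ^ (1 / 2 : ℝ)) ^ 2 = H j * |rep Q r| := by
            rw [← Real.rpow_natCast, ← Real.rpow_mul (by positivity)]
            norm_num
          calc kk0 Q (H j) r ^ 2 ≤ (5 * (H j * |rep Q r|) ^ (1 / 2 : ℝ)) ^ 2 :=
                pow_le_pow_left₀ hk1.1 hk2 2
            _ = 25 * ((H j * |rep Q r|) ^ (1 / 2 : ℝ)) ^ 2 := by ring
            _ = _ := by rw [h6]
        have h7 : kk0 Q (H j) r ^ 2 * (1 / (|rep Q r| * N ^ (k - 1))) ≤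
            25 * (H j / N ^ (k - 1)) := by
          calc _ ≤ 25 * (H j * |rep Q r|) * (1 / (|rep Q r| * N ^ (k - 1))) := by gcongr
            _ = _ := by field_simp
        rw [mul_add, mul_one, hY]
        have h8 : (0 : ℝ) ≤ H j / N ^ (k - 1) := by positivity
        linarith
      have hI0 : (0 : ℝ) ≤ ∫ lam in (0 : ℝ)..A, ‖T f (blk W K (2 ^ j)) lam (rep Q r)‖ ^ 2 :=
        intervalIntegral.integral_nonneg (by positivity) fun _ _ => by positivity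
      calc 1 / (Q : ℝ) * (kk0 Q (H j) r ^ 2 * ‖SU (V j) (rep Q r)‖ ^ 2) *
            ∫ lam in (0 : ℝ)..A, ‖T f (blk W K (2 ^ j)) lam (rep Q r)‖ ^ 2
          ≤ 1 / (Q : ℝ) * (kk0 Q (H j) r ^ 2 * ‖SU (V j) (rep Q r)‖ ^ 2) *
            (C * N * l ^ 3 * (1 + 1 / (|rep Q r| * N ^ (k - 1)))) := by gcongr
        _ = 1 / (Q : ℝ) * (C * N * l ^ 3 * (kk0 Q (H j) r ^ 2 *
            (1 + 1 / (|rep Q r| * N ^ (k - 1))))) * ‖SU (V j) (rep Q r)‖ ^ 2 := by ring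
        _ ≤ 1 / (Q : ℝ) * (C * N * l ^ 3 * (26 * Y)) * ‖SU (V j) (rep Q r)‖ ^ 2 := by gcongr
        _ = _ := by ring
    refine (Finset.sum_le_sum hterm).trans ?_
    rw [← Finset.mul_sum]
    have hs : ∑ r ∈ Ico 1 Q, ‖SU (V j) (rep Q r)‖ ^ 2 ≤ Q * ((V j).card : ℝ) := by
      calc _ ≤ ∑ r ∈ range Q, ‖SU (V j) (rep Q r)‖ ^ 2 := by
            refine Finset.sum_le_sum_of_subset_of_nonneg ?_ fun r _ _ => by positivity
            intro r hr
            exact mem_range.2 (mem_Ico.1 hr).2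
        _ = _ := (hPAR Q hQ1).2 (V j) hVr
    rw [le_div_iff₀ (by positivity)]
    calc 1 / (Q : ℝ) * (26 * C * N * l ^ 3 * Y) *
          (∑ r ∈ Ico 1 Q, ‖SU (V j) (rep Q r)‖ ^ 2) * l ^ 2
        ≤ 1 / (Q : ℝ) * (26 * C * N * l ^ 3 * Y) * (Q * ((V j).card : ℝ)) * l ^ 2 := by gcongr
      _ = 26 * C * (((V j).card : ℝ) * N * l ^ 5 * Y) := by
            field_simp
      _ ≤ l * (((V j).card : ℝ) * N * l ^ 5 * Y) := by gcongr
      _ ≤ l * ((((V j).card : ℝ) + 1) * N * l ^ 5 * Y) := by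
            gcongr
            linarith
      _ = _ := by ring

end

end Pool.Agent.Run7.h757.MW
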