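import Pool.Agent.Run7.h757.MW.Bin

/-!
# Project MW: binary problems, the exceptional set of one block
-/

open Finset MeasureTheory Filter

namespace Pool.Agent.Run7.h757.MW

noncomputable section

theorem sum_pair (U B : Finset ℕ) (f : ℕ → ℕ) (lam b : ℝ) :
    ∑ p ∈ U ×ˢ B, e (((p.1 + fl lam (f p.2) : ℕ) : ℝ) * b) = SU U b * T f B lam b := by
  classical
  have h1 : ∀ p : ℕ × ℕ, e (((p.1 + fl lam (f p.2) : ℕ) : ℝ) * b) =
      e (p.1 * b) * e (b * fl lam (f p.2)) := by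
    intro p
    push_cast
    rw [add_mul, e_add]
    congr 2
    ring
  simp only [h1]
  rw [Finset.sum_product (s := U) (t := B)
    (f := fun p => e (p.1 * b) * e (b * fl lam (f p.2)))]
  simp only [← Finset.mul_sum]
  rw [← Finset.sum_mul]
  rfl

/-- the error of the comparison -/
def EB (Q H : ℕ) (U : Finset ℕ) (f : ℕ → ℕ) (B : Finset ℕ) (lam : ℝ) (M : ℕ) : ℝ :=
  ‖1 / (Q : ℂ) * ∑ r ∈ Ico 1 Q, (kk0 Q H r : ℂ) *
    dft Q (cn (U ×ˢ B) fun p => p.1 + fl lam (f p.2)) r * e (-(M * rep Q r))‖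

theorem EB_sq (Q H : ℕ) (U : Finset ℕ) (f : ℕ → ℕ) (B : Finset ℕ) (lam : ℝ) (hQ : 1 ≤ Q)
    (hv : ∀ p ∈ U ×ˢ B, p.1 + fl lam (f p.2) < Q) :
    ∑ M ∈ range Q, EB Q H U f B lam M ^ 2 ≤ XB Q H U f B lam := by
  classical
  have hQ0 : (0 : ℝ) < Q := by exact_mod_cast hQ
  have hsub : Ico 1 Q ⊆ range Q := by
    intro r hr
    exact mem_range.2 (mem_Ico.1 hr).2
  have h1 := (Pool.Agent.Run7.h304.MW.PAR Q hQ).1 (fun r => (kk0 Q H r : ℂ) *
    dft Q (cn (U ×ˢ B) fun p => p.1 + fl lam (f p.2)) r) (Ico 1 Q) hsub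
  unfold EB XB
  rw [h1, Finset.mul_sum]
  refine Finset.sum_le_sum fun r _ => ?_
  rw [dft_cn _ _ _ _ hv, sum_pair, norm_mul, norm_mul, Complex.norm_real, Real.norm_eq_abs,
    abs_of_nonneg (kk0_spec.1 Q H r).1]
  refine le_of_eq ?_
  ring

theorem ana (k : ℕ) (f : ℕ → ℕ) (V : ℕ → Finset ℕ) (W : Set ℕ) (H : ℕ → ℕ) (hk : 1 ≤ k)
    (hf : Gr k f) (hV : ∀ᶠ j : ℕ in atTop, ∀ a ∈ V j, a ≤ 2 ^ (j * k))
    (hH : ∀ᶠ j : ℕ in atTop, 1 ≤ H j ∧ H j ≤ 2 ^ (j * k)) :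
    ∀ᵐ lam : ℝ, 0 < lam → ∀ K c₂ D : ℕ, 2 ≤ K → ∀ᶠ j : ℕ in atTop, ∃ Bad : Finset ℕ,
      (Bad.card : ℝ) ≤ 12 * (((2 : ℝ) ^ j) ^ (k - 1) + H j) * ((j : ℝ) + 1) ^ (2 * D + 6) ∧
      ∀ M : ℕ, H j ≤ M → M ≤ c₂ * 2 ^ (j * k) → M ∉ Bad →
        (H j : ℝ) * 2 ^ j / ((j : ℝ) + 1) ^ D ≤
          ∑ n ∈ blk W K (2 ^ j), (((V j).filter fun a =>
            2 * |((a + fl lam (f n) : ℕ) : ℤ) - M| ≤ (H j : ℤ)).card : ℝ) →
        ∃ a ∈ V j, ∃ n ∈ blk W K (2 ^ j), a + fl lam (f n) = M := by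
  classical
  have hae : ∀ A K q : ℕ, ∀ᵐ lam : ℝ, (1 ≤ A ∧ 2 ≤ K ∧ 2 ≤ q) → 0 ≤ lam → lam ≤ A →
      ∀ᶠ j : ℕ in atTop, XB (q * 2 ^ (j * k)) (H j) (V j) f (blk W K (2 ^ j)) lam ≤
        ((V j).card + 1) * (2 : ℝ) ^ j * ((j : ℝ) + 1) ^ 6 *
          (1 + H j / ((2 : ℝ) ^ j) ^ (k - 1)) := by
    intro A K q
    by_cases h : 1 ≤ A ∧ 2 ≤ K ∧ 2 ≤ q
    · filter_upwards [ae_XB k f V W H hf hV (hH.mono fun j hj => hj.1) A K q h.1 h.2.1 h.2.2]
        with x hx _ using hx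
    · exact Filter.Eventually.of_forall fun x h' => (h h').elim
  have h1 := ae_all_iff.2 fun A => ae_all_iff.2 fun K => ae_all_iff.2 fun q => hae A K q
  obtain ⟨a₀, C₂, n₀, ha₀, hC₂, hn₀, hgr, -⟩ := hf
  filter_upwards [h1] with lam hl hpos K c₂ D hK
  set A : ℕ := ⌈lam⌉₊ + 1 with hA
  have hlA : lam ≤ A := by
    have := Nat.le_ceil lam
    rw [hA]
    push_cast
    linarith
  set G : ℕ := ⌈a₀ + C₂⌉₊ with hG
  have hGle : a₀ + C₂ ≤ G := Nat.le_ceil _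
  set q : ℕ := A * G * K ^ k + c₂ + 4 with hq
  have hX := hl A K q ⟨by omega, hK, by omega⟩ hpos.le hlA
  filter_upwards [hX, hV, hH, eventually_ge_atTop n₀] with j hXj hVj hHj hjn
  have hj2 : j < 2 ^ j := Nat.lt_two_pow_self
  set Q : ℕ := q * 2 ^ (j * k) with hQ
  have h2jk : 0 < 2 ^ (j * k) := by positivity
  have hQ1 : 1 ≤ Q := Nat.mul_pos (by omega) h2jk
  have hQ0 : (0 : ℝ) < Q := by exact_mod_cast hQ1
  set N : ℝ := (2 : ℝ) ^ j with hN
  set l : ℝ := (j : ℝ) + 1 with hl'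
  have hN1 : 1 ≤ N := one_le_pow₀ (by norm_num)
  have hN0 : 0 < N := by linarith
  have hl1 : 1 ≤ l := by
    have : (0 : ℝ) ≤ j := by positivity
    linarith
  have hl0 : 0 < l := by linarith
  have hNk : (2 : ℝ) ^ (j * k) = N ^ k := pow_mul 2 j k
  have hH0 : (0 : ℝ) < H j := by exact_mod_cast hHj.1
  -- the values
  have hv : ∀ p ∈ V j ×ˢ blk W K (2 ^ j), p.1 + fl lam (f p.2) < Q := by
    intro p hp
    rw [mem_product] at hp
    have h3 := hVj _ hp.1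
    have h4 : p.2 ∈ Ioc (2 ^ j) (K * 2 ^ j) ∧ p.2 ∈ W := by
      simpa only [blk, Finset.mem_filter] using hp.2
    obtain ⟨h5, h6⟩ := mem_Ioc.1 h4.1
    have h7 := hgr p.2 (by omega)
    have hp1 : (1 : ℝ) ≤ p.2 := by
      have : 1 ≤ p.2 := by omega
      exact_mod_cast this
    have h8 : (f p.2 : ℝ) ≤ G * (p.2 : ℝ) ^ k := by
      have h9 := (abs_le.1 h7).2
      have h10 : (p.2 : ℝ) ^ (k - 1) ≤ (p.2 : ℝ) ^ k := pow_le_pow_right₀ hp1 (by omega)
      have h11 : C₂ * (p.2 : ℝ) ^ (k - 1) ≤ C₂ * (p.2 : ℝ) ^ k := by gcongr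
      have h12 : (a₀ + C₂) * (p.2 : ℝ) ^ k ≤ G * (p.2 : ℝ) ^ k := by gcongr
      nlinarith
    have h13 : (fl lam (f p.2) : ℝ) ≤ lam * f p.2 := by
      unfold fl
      exact Nat.floor_le (by positivity)
    have h14 : (p.2 : ℝ) ^ k ≤ (K : ℝ) ^ k * N ^ k := by
      rw [← mul_pow]
      have h15 : (p.2 : ℝ) ≤ K * N := by
        rw [hN]
        exact_mod_cast h6
      gcongr
    have h16 : (fl lam (f p.2) : ℝ) ≤ A * (G * ((K : ℝ) ^ k * N ^ k)) := by
      calc (fl lam (f p.2) : ℝ) ≤ lam * f p.2 := h13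
        _ ≤ A * (G * (p.2 : ℝ) ^ k) := by gcongr
        _ ≤ _ := by gcongr
    have h17 : fl lam (f p.2) ≤ A * G * K ^ k * 2 ^ (j * k) := by
      have h18 : (fl lam (f p.2) : ℝ) ≤ A * G * (K : ℝ) ^ k * (2 : ℝ) ^ (j * k) := by
        rw [hNk]
        refine h16.trans (le_of_eq ?_)
        ring
      exact_mod_cast h18
    rw [hQ, hq]
    nlinarith
  have hcardV : ((V j).card : ℝ) + 1 ≤ 3 * N ^ k := by
    have h3 : V j ⊆ range (2 ^ (j * k) + 1) := fun a ha => by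
      rw [mem_range]
      have := hVj a ha
      omega
    have h4 := Finset.card_le_card h3
    rw [card_range] at h4
    have h5 : ((V j).card : ℝ) ≤ (2 : ℝ) ^ (j * k) + 1 := by exact_mod_cast h4
    have h6 : (1 : ℝ) ≤ N ^ k := one_le_pow₀ hN1
    rw [hNk] at h5
    linarith
  set m : ℝ := N / (2 * l ^ D) with hm
  have hm0 : 0 < m := by positivity
  refine ⟨(range Q).filter fun M => m ≤ EB Q (H j) (V j) f (blk W K (2 ^ j)) lam M, ?_,
    fun M hM1 hM2 hMB hcnt => ?_⟩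
  · have hsq := EB_sq Q (H j) (V j) f (blk W K (2 ^ j)) lam hQ1 hv
    have h3 : (((range Q).filter fun M => m ≤ EB Q (H j) (V j) f (blk W K (2 ^ j)) lam M).card : ℝ) *
        m ^ 2 ≤ ∑ M ∈ range Q, EB Q (H j) (V j) f (blk W K (2 ^ j)) lam M ^ 2 := by
      calc _ = ∑ _M ∈ (range Q).filter fun M => m ≤ EB Q (H j) (V j) f (blk W K (2 ^ j)) lam M,
            m ^ 2 := by
            rw [Finset.sum_const, nsmul_eq_mul]
        _ ≤ ∑ M ∈ (range Q).filter fun M => m ≤ EB Q (H j) (V j) f (blk W K (2 ^ j)) lam M,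
            EB Q (H j) (V j) f (blk W K (2 ^ j)) lam M ^ 2 := by
            refine Finset.sum_le_sum fun M hM => ?_
            have := (mem_filter.1 hM).2
            gcongr
        _ ≤ _ := Finset.sum_le_sum_of_subset_of_nonneg (Finset.filter_subset _ _)
            fun _ _ _ => sq_nonneg _
    have h4 := h3.trans (hsq.trans hXj)
    rw [← le_div_iff₀ (by positivity)] at h4
    refine h4.trans ?_
    have hkk : N ^ k * N / N ^ 2 = N ^ (k - 1) := by
      have hk' : N ^ k = N ^ (k - 1) * N := by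
        rw [← pow_succ, Nat.sub_add_cancel hk]
      rw [hk', div_eq_iff (by positivity)]
      ring
    have hY : N ^ (k - 1) * (1 + H j / N ^ (k - 1)) = N ^ (k - 1) + H j := by
      field_simp
    calc (((V j).card : ℝ) + 1) * N * l ^ 6 * (1 + H j / N ^ (k - 1)) / m ^ 2
        ≤ (3 * N ^ k) * N * l ^ 6 * (1 + H j / N ^ (k - 1)) / m ^ 2 := by gcongr
      _ = 12 * (N ^ k * N / N ^ 2 * (1 + H j / N ^ (k - 1))) * l ^ (2 * D + 6) := by
          rw [hm, pow_add, pow_mul' l 2 D]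
          field_simp
          ring
      _ = _ := by rw [hkk, hY]
  · have hMQ : M + H j ≤ Q := by
      have h3 : (c₂ + 1) * 2 ^ (j * k) ≤ q * 2 ^ (j * k) := by
        refine Nat.mul_le_mul_right _ ?_
        omega
      have h4 := hHj.2
      rw [hQ]
      rw [add_mul, one_mul] at h3
      omega
    have hMQ' : M < Q := by
      have := hHj.1
      omega
    have h3 := kk0_spec.2.2 Q (H j) M (cn (V j ×ˢ blk W K (2 ^ j)) fun p => p.1 + fl lam (f p.2))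
      hHj.1 hM1 hMQ (cn_nonneg _ _)
    rw [sum_cn] at h3
    have h4 : EB Q (H j) (V j) f (blk W K (2 ^ j)) lam M < m := by
      by_contra h
      exact hMB (mem_filter.2 ⟨mem_range.2 hMQ', not_lt.1 h⟩)
    have h5 : (H j : ℝ) * N / l ^ D ≤ (((V j ×ˢ blk W K (2 ^ j)).filter fun p =>
        p.1 + fl lam (f p.2) ∈ Icc (M - H j / 2) (M + H j / 2)).card : ℝ) := by
      refine hcnt.trans ?_
      have h6 : ((V j ×ˢ blk W K (2 ^ j)).filter fun p =>
          p.1 + fl lam (f p.2) ∈ Icc (M - H j / 2) (M + H j / 2)).card =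
          ∑ n ∈ blk W K (2 ^ j), ((V j).filter fun a =>
            a + fl lam (f n) ∈ Icc (M - H j / 2) (M + H j / 2)).card := by
        simp only [Finset.card_filter]
        rw [Finset.sum_product_right]
      rw [h6]
      push_cast
      refine Finset.sum_le_sum fun n _ => ?_
      have h7 : ((V j).filter fun a => 2 * |((a + fl lam (f n) : ℕ) : ℤ) - M| ≤ (H j : ℤ)) ⊆
          ((V j).filter fun a => a + fl lam (f n) ∈ Icc (M - H j / 2) (M + H j / 2)) := by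
        intro a ha
        rw [mem_filter] at ha ⊢
        refine ⟨ha.1, ?_⟩
        have h8 := ha.2
        rw [mem_Icc]
        have h9 := (abs_le.1 (show |((a + fl lam (f n) : ℕ) : ℤ) - M| ≤ (H j : ℤ) / 2 by omega))
        constructor <;> omega
      exact_mod_cast Finset.card_le_card h7
    have h6 : m ≤ 1 / (2 * (H j : ℝ)) * (((V j ×ˢ blk W K (2 ^ j)).filter fun p =>
        p.1 + fl lam (f p.2) ∈ Icc (M - H j / 2) (M + H j / 2)).card : ℝ) := by
      calc m = 1 / (2 * (H j : ℝ)) * ((H j : ℝ) * N / l ^ D) := by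
            rw [hm]
            field_simp
        _ ≤ _ := by gcongr
    have h7 : 0 < cn (V j ×ˢ blk W K (2 ^ j)) (fun p => p.1 + fl lam (f p.2)) M := by
      have h8 : 1 / (2 * (H j : ℝ)) * (((V j ×ˢ blk W K (2 ^ j)).filter fun p =>
        p.1 + fl lam (f p.2) ∈ Icc (M - H j / 2) (M + H j / 2)).card : ℝ) -
          EB Q (H j) (V j) f (blk W K (2 ^ j)) lam M ≤
          cn (V j ×ˢ blk W K (2 ^ j)) (fun p => p.1 + fl lam (f p.2)) M := h3
      linarith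
    unfold cn at h7
    have hcp : 0 < ((V j ×ˢ blk W K (2 ^ j)).filter fun p => p.1 + fl lam (f p.2) = M).card := by
      exact_mod_cast h7
    obtain ⟨p, hp⟩ := Finset.card_pos.1 hcp
    rw [mem_filter, mem_product] at hp
    exact ⟨p.1, hp.1.1, p.2, hp.1.2, hp.2⟩

end

end Pool.Agent.Run7.h757.MW
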