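import Pool.Agent.Run7.h757.MW.One2

/-!
# Project MW: doubling of the saving, all large integers with few more variables
-/

open Finset MeasureTheory Filter

namespace Pool.Agent.Run7.h757.MW

noncomputable section

theorem exc_of_ev {R : Set ℕ} {β C' : ℝ}
    (h : ∀ᶠ i : ℕ in atTop, ((exB R i).card : ℝ) ≤ C' * (2 : ℝ) ^ (β * i)) : Exc R β := by
  obtain ⟨I, hI⟩ := eventually_atTop.1 h
  set D : ℝ := ∑ i ∈ range I, ((exB R i).card : ℝ) / (2 : ℝ) ^ (β * i) with hD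
  refine ⟨⌈|C'| + D⌉₊, fun j => ?_⟩
  have hD0 : 0 ≤ D := Finset.sum_nonneg fun i _ => by positivity
  have hp : (0 : ℝ) < (2 : ℝ) ^ (β * j) := by positivity
  have hc := Nat.le_ceil (|C'| + D)
  rcases lt_or_ge j I with hj | hj
  · have h1 : ((exB R j).card : ℝ) / (2 : ℝ) ^ (β * j) ≤ D :=
      Finset.single_le_sum (f := fun i : ℕ => ((exB R i).card : ℝ) / (2 : ℝ) ^ (β * i))
        (fun i _ => by positivity) (mem_range.2 hj)
    rw [div_le_iff₀ hp] at h1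
    refine h1.trans (mul_le_mul_of_nonneg_right ?_ hp.le)
    have := abs_nonneg C'
    linarith
  · refine (hI j hj).trans (mul_le_mul_of_nonneg_right ?_ hp.le)
    have := le_abs_self C'
    linarith

theorem Exc.mono {R R' : Set ℕ} {β β' : ℝ} (h : Exc R β) (hR : R ⊆ R') (hβ : β ≤ β') :
    Exc R' β' := by
  classical
  obtain ⟨C, hC⟩ := h
  refine ⟨C, fun j => ?_⟩
  have h1 : exB R' j ⊆ exB R j := by
    intro M hM
    unfold exB at hM ⊢
    rw [mem_filter] at hM ⊢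
    exact ⟨hM.1, fun h => hM.2 (hR h)⟩
  have h2 : ((exB R' j).card : ℝ) ≤ (exB R j).card := by exact_mod_cast Finset.card_le_card h1
  refine h2.trans ((hC j).trans ?_)
  refine mul_le_mul_of_nonneg_left ?_ (by positivity)
  refine Real.rpow_le_rpow_of_exponent_le (by norm_num) ?_
  exact mul_le_mul_of_nonneg_right hβ (by positivity)

theorem Exc.cofinite {R : Set ℕ} {β : ℝ} (h : Exc R β) (hβ : β < 0) : ∀ᶠ M : ℕ in atTop, M ∈ R := by
  classical
  obtain ⟨C, hC⟩ := h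
  -- the exceptional sets are empty
  have h0 : Tendsto (fun j : ℕ => (C : ℝ) * (2 : ℝ) ^ (β * j)) atTop (nhds 0) := by
    have h1 : Tendsto (fun j : ℕ => ((2 : ℝ) ^ β) ^ j) atTop (nhds 0) := by
      refine tendsto_pow_atTop_nhds_zero_of_lt_one (by positivity) ?_
      exact Real.rpow_lt_one_of_one_lt_of_neg (by norm_num) hβ
    have h2 := h1.const_mul (C : ℝ)
    rw [mul_zero] at h2
    refine h2.congr fun j => ?_
    rw [Real.rpow_mul (by norm_num), Real.rpow_natCast]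
  obtain ⟨J, hJ⟩ := eventually_atTop.1 (h0.eventually_lt_const (by norm_num : (0 : ℝ) < 1))
  filter_upwards [eventually_ge_atTop (2 ^ J)] with M hM
  by_contra hMR
  have hM0 : M ≠ 0 := by
    have : 0 < 2 ^ J := by positivity
    omega
  have hlog : J ≤ Nat.log 2 M := Nat.le_log_of_pow_le (by norm_num) hM
  have h1 : M ∈ exB R (Nat.log 2 M) := by
    unfold exB
    rw [mem_filter, mem_Ico]
    exact ⟨⟨Nat.pow_log_le_self 2 hM0, Nat.lt_pow_succ_log_self (by norm_num) M⟩, hMR⟩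
  have h2 : (1 : ℝ) ≤ (exB R (Nat.log 2 M)).card := by
    exact_mod_cast Finset.card_pos.2 ⟨M, h1⟩
  have h3 := hC (Nat.log 2 M)
  have h4 := hJ _ hlog
  linarith

theorem exB_empty {R : Set ℕ} (h : ∀ m, m ∈ R) (j : ℕ) : exB R j = ∅ := by
  classical
  refine Finset.eq_empty_of_forall_notMem fun m hm => ?_
  unfold exB at hm
  rw [mem_filter] at hm
  exact hm.2 (h m)

/-- the sums of `r` positive `k`-th powers `x_i ^ k`, `x_i ∈ V`, and `s` terms `⌊lam_i n_i ^ k⌋`, `n_i ∈ W i` -/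
def RG (k r s : ℕ) (V : Set ℕ) (W : Fin s → Set ℕ) (lam : Fin s → ℝ) : Set ℕ :=
  {M | ∃ (x : Fin r → ℕ) (n : Fin s → ℕ), (∀ i, 1 ≤ x i ∧ x i ∈ V) ∧ (∀ i, 1 ≤ n i ∧ n i ∈ W i) ∧
    ∑ i, x i ^ k + ∑ i, ⌊lam i * (n i : ℝ) ^ k⌋₊ = M}

/-- **The base.** -/
theorem base (k r u : ℕ) (hk : 2 ≤ k) (hu : 4 ≤ u) (V : Set ℕ) (W : Fin u → Set ℕ) (c t : ℝ)
    (hc : 0 < c) (ht : 0 ≤ t) (hV : Reg c t V) (hW : ∀ i, Reg c t (W i)) (β : ℝ)
    (hβ : 1 - ((u : ℝ) - k * (1 - 1 / (k : ℝ)) ^ r) / k < β) :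
    ∀ᵐ lam : Fin u → ℝ, (∀ i, 0 < lam i) → Exc (RG k r u V W lam) β := by
  classical
  have hk0 : (0 : ℝ) < k := by
    have : 0 < k := by omega
    exact_mod_cast this
  set σ : ℝ := (u : ℝ) - k * (1 - 1 / (k : ℝ)) ^ r with hσ
  have hβ' : (k : ℝ) - σ < β * k := by
    have h1 : (1 - σ / k) * k < β * k := mul_lt_mul_of_pos_right hβ hk0
    have h2 : (1 - σ / k) * k = k - σ := by field_simp
    linarith
  set η : ℝ := (β * k - (k - σ)) / 2 with hη
  have hη0 : 0 < η := by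
    rw [hη]
    linarith
  obtain ⟨U, hU1, hU2⟩ := exUV V (reg_dens hc hV) k r η hk hη0
  have hne : ∀ᶠ j : ℕ in atTop, (U j).Nonempty := by
    filter_upwards [hU2] with j hj
    rw [← Finset.card_pos]
    have h1 : (0 : ℝ) < ((2 : ℝ) ^ j) ^ ((k : ℝ) - k * (1 - 1 / (k : ℝ)) ^ r - η) := by positivity
    exact_mod_cast h1.trans_le hj
  filter_upwards [one_block u k hu hk W c t hc ht hW U
    (Filter.Eventually.of_forall fun j a ha => (hU1 j a ha).1) hne] with lam hlam hpos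
  obtain ⟨c₁, C, hc₁, hC, hj⟩ := hlam hpos
  set E : ℝ := 3 * (u : ℝ) + 3 + 2 * (t * u) with hE
  -- the logarithms
  have hbeat : ∀ᶠ j : ℕ in atTop, ((j : ℝ) + 1) ^ E ≤ ((2 : ℝ) ^ j) ^ η := by
    obtain ⟨m, hm⟩ := exists_nat_gt (1 / η)
    have h0 : 0 < 1 / η := by positivity
    have hm0 : (0 : ℝ) < m := h0.trans hm
    have hm1 : 0 < m := by exact_mod_cast hm0
    filter_upwards [pow_beats (⌈E⌉₊ * m) 1] with j hj
    rw [one_mul] at hj
    have hl1 : 1 ≤ (j : ℝ) + 1 := by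
      have : (0 : ℝ) ≤ j := by positivity
      linarith
    have h1 : ((j : ℝ) + 1) ^ E ≤ ((j : ℝ) + 1) ^ ⌈E⌉₊ := by
      rw [← Real.rpow_natCast]
      exact Real.rpow_le_rpow_of_exponent_le hl1 (Nat.le_ceil _)
    have h2 : (((j : ℝ) + 1) ^ ⌈E⌉₊) ^ m ≤ (((2 : ℝ) ^ j) ^ η) ^ m := by
      rw [← pow_mul]
      refine hj.trans ?_
      have h3 : (1 : ℝ) ≤ (2 : ℝ) ^ j := one_le_pow₀ (by norm_num)
      rw [← Real.rpow_natCast _ m, ← Real.rpow_mul (by positivity)]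
      rw [div_lt_iff₀ hη0] at hm
      calc (2 : ℝ) ^ j = ((2 : ℝ) ^ j) ^ (1 : ℝ) := (Real.rpow_one _).symm
        _ ≤ _ := Real.rpow_le_rpow_of_exponent_le h3 (by linarith)
    exact h1.trans (le_of_pow_le_pow_left₀ hm1.ne' (by positivity) h2)
  -- the property of a block
  set P : ℕ → Prop := fun j => ∃ Bad : Finset ℕ, (Bad.card : ℝ) ≤ C * (2 : ℝ) ^ (β * (j * k : ℕ)) ∧
    ∀ M : ℕ, c₁ * (2 : ℝ) ^ (j * k) ≤ M → (M : ℝ) ≤ (2 : ℝ) ^ k * c₁ * (2 : ℝ) ^ (j * k) →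
      M ∉ Bad → M ∈ RG k r u V W lam with hP
  have hPev : ∀ᶠ j in atTop, P j := by
    filter_upwards [hj, hU2, hbeat, hne] with j hj1 hj2 hj3 hj4
    obtain ⟨Bad, hB1, hB2⟩ := hj1
    refine ⟨Bad, ?_, fun M hM1 hM2 hMB => ?_⟩
    · set N : ℝ := (2 : ℝ) ^ j with hN
      have hN0 : 0 < N := by positivity
      have hw0 : (0 : ℝ) < ((U j).card : ℝ) := by exact_mod_cast hj4.card_pos
      refine hB1.trans ?_
      rw [div_le_iff₀ hw0]
      have h1 : (2 : ℝ) ^ (β * (j * k : ℕ)) = N ^ (β * k) := by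
        rw [hN, ← Real.rpow_natCast 2 j, ← Real.rpow_mul (by norm_num)]
        congr 1
        push_cast
        ring
      rw [h1]
      calc C * N ^ (2 * (k : ℝ) - u) * ((j : ℝ) + 1) ^ E
          ≤ C * N ^ (2 * (k : ℝ) - u) * N ^ η := by gcongr
        _ = C * N ^ (β * k) * N ^ ((k : ℝ) - k * (1 - 1 / (k : ℝ)) ^ r - η) := by
            rw [mul_assoc, mul_assoc, ← Real.rpow_add hN0, ← Real.rpow_add hN0]
            congr 2
            rw [hη, hσ]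
            ring
        _ ≤ C * N ^ (β * k) * ((U j).card : ℝ) := by gcongr
    · obtain ⟨a, ha, n, hn, hs⟩ := hB2 M hM1 hM2 hMB
      obtain ⟨-, x, hx1, hx2⟩ := hU1 j a ha
      exact ⟨x, n, hx1, hn, by rw [hx2]; exact hs⟩
  have hPev2 : ∀ᶠ j in atTop, P j ∧ P (j + 1) :=
    hPev.and ((tendsto_add_atTop_nat 1).eventually hPev)
  have hbl := blocks (k := k) (by omega) hc₁ hPev2
  have hpow : Tendsto (fun i : ℕ => 2 ^ i) atTop atTop :=
    tendsto_pow_atTop_atTop_of_one_lt (by norm_num)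
  -- the constant
  set C1 : ℝ := (1 / c₁) ^ β + (1 / ((2 : ℝ) ^ k * c₁)) ^ β with hC1
  have hkey : ∀ x : ℝ, 0 < x → ∀ i : ℕ, c₁ * x ≤ (2 : ℝ) ^ i → (2 : ℝ) ^ i ≤ (2 : ℝ) ^ k * c₁ * x →
      x ^ β ≤ C1 * (2 : ℝ) ^ (β * i) := by
    intro x hx i h1 h2
    have h3 : (2 : ℝ) ^ (β * i) = ((2 : ℝ) ^ i) ^ β := by
      rw [← Real.rpow_natCast 2 i, ← Real.rpow_mul (by norm_num), mul_comm]
    have hi0 : (0 : ℝ) < (2 : ℝ) ^ i := by positivity
    have hA : (0 : ℝ) < (1 / c₁) ^ β := by positivity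
    have hB : (0 : ℝ) < (1 / ((2 : ℝ) ^ k * c₁)) ^ β := by positivity
    rw [h3, hC1, add_mul, ← Real.mul_rpow (by positivity) hi0.le,
      ← Real.mul_rpow (by positivity) hi0.le]
    rcases le_or_gt 0 β with hb | hb
    · have h4 : x ≤ 1 / c₁ * (2 : ℝ) ^ i := by
        rw [one_div_mul_eq_div, le_div_iff₀ hc₁]
        linarith
      have h5 := Real.rpow_le_rpow hx.le h4 hb
      have h6 : (0 : ℝ) ≤ (1 / ((2 : ℝ) ^ k * c₁) * (2 : ℝ) ^ i) ^ β := by positivity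
      linarith
    · have h4 : 1 / ((2 : ℝ) ^ k * c₁) * (2 : ℝ) ^ i ≤ x := by
        rw [one_div_mul_eq_div, div_le_iff₀ (by positivity)]
        linarith
      have h5 := Real.rpow_le_rpow_of_nonpos (by positivity) h4 hb.le
      have h6 : (0 : ℝ) ≤ (1 / c₁ * (2 : ℝ) ^ i) ^ β := by positivity
      linarith
  refine exc_of_ev (C' := C * C1 + C * (((2 : ℝ) ^ k) ^ β * C1)) ?_
  filter_upwards [hpow.eventually hbl] with i hi
  obtain ⟨j, ⟨hPj, hPj1⟩, h1, h2⟩ := hi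
  obtain ⟨Bad, hB1, hB2⟩ := hPj
  obtain ⟨Bad', hB1', hB2'⟩ := hPj1
  push_cast at h1 h2
  have hsub : exB (RG k r u V W lam) i ⊆ Bad ∪ Bad' := by
    intro M hM
    unfold exB at hM
    rw [mem_filter, mem_Ico] at hM
    obtain ⟨⟨hM1, hM2⟩, hM3⟩ := hM
    have hM1' : (2 : ℝ) ^ i ≤ M := by exact_mod_cast hM1
    have hM2' : (M : ℝ) < (2 : ℝ) ^ (i + 1) := by exact_mod_cast hM2
    rw [mem_union]
    by_contra hno
    push Not at hno
    refine hM3 ?_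
    rcases le_or_gt (M : ℝ) ((2 : ℝ) ^ k * c₁ * (2 : ℝ) ^ (j * k)) with h | h
    · exact hB2 M (h1.trans hM1') h hno.1
    · have e1 : (2 : ℝ) ^ ((j + 1) * k) = (2 : ℝ) ^ k * (2 : ℝ) ^ (j * k) := by
        rw [add_mul, one_mul, pow_add]
        ring
      refine hB2' M ?_ ?_ hno.2
      · rw [e1]
        linarith
      · rw [e1]
        have h3 : (2 : ℝ) ≤ (2 : ℝ) ^ k := by
          calc (2 : ℝ) = 2 ^ 1 := by norm_num
            _ ≤ 2 ^ k := pow_le_pow_right₀ (by norm_num) (by omega)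
        have h4 : (M : ℝ) ≤ 2 * ((2 : ℝ) ^ k * c₁ * (2 : ℝ) ^ (j * k)) := by
          rw [pow_succ] at hM2'
          linarith
        have h5 : (0 : ℝ) < (2 : ℝ) ^ k * c₁ * (2 : ℝ) ^ (j * k) := by positivity
        calc (M : ℝ) ≤ 2 * ((2 : ℝ) ^ k * c₁ * (2 : ℝ) ^ (j * k)) := h4
          _ ≤ (2 : ℝ) ^ k * ((2 : ℝ) ^ k * c₁ * (2 : ℝ) ^ (j * k)) :=
            mul_le_mul_of_nonneg_right h3 h5.le
          _ = _ := by ring
  have hcard : ((exB (RG k r u V W lam) i).card : ℝ) ≤ Bad.card + Bad'.card := by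
    exact_mod_cast (Finset.card_le_card hsub).trans (Finset.card_union_le _ _)
  have hx1 := hkey ((2 : ℝ) ^ (j * k)) (by positivity) i h1 h2
  have e2 : (2 : ℝ) ^ (β * (j * k : ℕ)) = ((2 : ℝ) ^ (j * k)) ^ β := by
    rw [← Real.rpow_natCast 2 (j * k), ← Real.rpow_mul (by norm_num), mul_comm]
  have e3 : (2 : ℝ) ^ (β * ((j + 1) * k : ℕ)) = ((2 : ℝ) ^ k) ^ β * ((2 : ℝ) ^ (j * k)) ^ β := by
    rw [← Real.mul_rpow (by positivity) (by positivity), ← pow_add,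
      ← Real.rpow_natCast 2 (k + j * k), ← Real.rpow_mul (by norm_num), mul_comm β]
    congr 2
    push_cast
    ring
  rw [e2] at hB1
  rw [e3] at hB1'
  have hkb : (0 : ℝ) < ((2 : ℝ) ^ k) ^ β := by positivity
  calc ((exB (RG k r u V W lam) i).card : ℝ) ≤ Bad.card + Bad'.card := hcard
    _ ≤ C * ((2 : ℝ) ^ (j * k)) ^ β + C * (((2 : ℝ) ^ k) ^ β * ((2 : ℝ) ^ (j * k)) ^ β) :=
      add_le_add hB1 hB1'
    _ ≤ C * (C1 * (2 : ℝ) ^ (β * i)) + C * (((2 : ℝ) ^ k) ^ β * (C1 * (2 : ℝ) ^ (β * i))) := by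
      gcongr
    _ = _ := by ring

/-- measurability -/
theorem meas_RG (k r s : ℕ) (V : Set ℕ) (W : Fin s → Set ℕ) (m : ℕ) :
    MeasurableSet {lam : Fin s → ℝ | (∀ i, 0 < lam i) → m ∈ RG k r s V W lam} := by
  have h1 : {lam : Fin s → ℝ | (∀ i, 0 < lam i) → m ∈ RG k r s V W lam} =
      {lam : Fin s → ℝ | ∀ i, 0 < lam i}ᶜ ∪ ⋃ (x : Fin r → ℕ), ⋃ (n : Fin s → ℕ),
        {lam : Fin s → ℝ | (∀ i, 1 ≤ x i ∧ x i ∈ V) ∧ (∀ i, 1 ≤ n i ∧ n i ∈ W i) ∧
          ∑ i, x i ^ k + ∑ i, ⌊lam i * (n i : ℝ) ^ k⌋₊ = m} := by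
    ext lam
    simp only [RG, Set.mem_setOf_eq, Set.mem_union, Set.mem_compl_iff, Set.mem_iUnion]
    rw [imp_iff_not_or]
  rw [h1]
  refine MeasurableSet.union ?_ ?_
  · refine MeasurableSet.compl ?_
    have h2 : {lam : Fin s → ℝ | ∀ i, 0 < lam i} = ⋂ i, {lam : Fin s → ℝ | 0 < lam i} := by
      ext lam
      simp
    rw [h2]
    exact MeasurableSet.iInter fun i => measurableSet_lt measurable_const (measurable_pi_apply i)
  · refine MeasurableSet.iUnion fun x => MeasurableSet.iUnion fun n => ?_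
    by_cases hx : (∀ i, 1 ≤ x i ∧ x i ∈ V) ∧ (∀ i, 1 ≤ n i ∧ n i ∈ W i)
    · have h2 : {lam : Fin s → ℝ | (∀ i, 1 ≤ x i ∧ x i ∈ V) ∧ (∀ i, 1 ≤ n i ∧ n i ∈ W i) ∧
          ∑ i, x i ^ k + ∑ i, ⌊lam i * (n i : ℝ) ^ k⌋₊ = m} =
          (fun lam : Fin s → ℝ => ∑ i, x i ^ k + ∑ i, ⌊lam i * (n i : ℝ) ^ k⌋₊) ⁻¹' {m} := by
        ext lam
        simp only [Set.mem_setOf_eq, Set.mem_preimage, Set.mem_singleton_iff]
        exact ⟨fun h => h.2.2, fun h => ⟨hx.1, hx.2, h⟩⟩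
      rw [h2]
      refine measurableSet_preimage ?_ (measurableSet_singleton m)
      refine measurable_const.add (Finset.measurable_sum _ fun i _ => ?_)
      exact Nat.measurable_floor.comp ((measurable_pi_apply i).mul_const _)
    · have h2 : {lam : Fin s → ℝ | (∀ i, 1 ≤ x i ∧ x i ∈ V) ∧ (∀ i, 1 ≤ n i ∧ n i ∈ W i) ∧
          ∑ i, x i ^ k + ∑ i, ⌊lam i * (n i : ℝ) ^ k⌋₊ = m} = ∅ := by
        ext lam
        simp only [Set.mem_setOf_eq, Set.mem_empty_iff_false, iff_false]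
        exact fun h => hx ⟨h.1, h.2.1⟩
      rw [h2]
      exact MeasurableSet.empty

/-- almost all coefficients give an exceptional set of exponent `β` -/
def AA (k r s : ℕ) (V : Set ℕ) (c t β : ℝ) : Prop := ∀ W : Fin s → Set ℕ, (∀ i, Reg c t (W i)) →
  ∀ᵐ lam : Fin s → ℝ, (∀ i, 0 < lam i) → Exc (RG k r s V W lam) β

/-- **One more variable.** -/
theorem step_RG (hSTEP : S_STEP) {k r s : ℕ} {V : Set ℕ} {c t β β' : ℝ} (hk : 1 ≤ k) (hc : 0 < c)
    (ht : 0 ≤ t) (hβ : 2 * β - 1 < β') (h : AA k r s V c t β) : AA k r (s + 1) V c t β' := by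
  classical
  intro W hW
  set W' : Fin s → Set ℕ := fun i => W i.castSucc with hW'
  set R : (Fin s → ℝ) → Set ℕ := fun ω => {m | (∀ i, 0 < ω i) → m ∈ RG k r s V W' ω} with hR
  have hRpos : ∀ ω, (∀ i, 0 < ω i) → R ω = RG k r s V W' ω := by
    intro ω hω
    ext m
    exact ⟨fun h => h hω, fun h _ => h⟩
  have hae : ∀ᵐ ω : Fin s → ℝ, Exc (R ω) β := by
    filter_upwards [h W' fun i => hW _] with ω hω
    by_cases hp : ∀ i, 0 < ω i
    · rw [hRpos ω hp]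
      exact hω hp
    · have h1 : R ω = Set.univ := by
        ext m
        simp only [hR, Set.mem_setOf_eq, Set.mem_univ, iff_true]
        exact fun h => absurd h hp
      rw [h1]
      refine ⟨0, fun j => ?_⟩
      have h2 : exB Set.univ j = ∅ := exB_empty (fun m => Set.mem_univ m) j
      rw [h2]
      simp
  have hst := hSTEP (Fin s → ℝ) volume R k (W (Fin.last s)) c t β β' hk hc ht (hW _) hβ
    (fun m => meas_RG k r s V W' m) hae
  have hmp := volume_preserving_piFinSuccAbove (fun _ : Fin (s + 1) => ℝ) (Fin.last s)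
  have hst2 := hmp.quasiMeasurePreserving.ae hst
  filter_upwards [hst2] with x hx hpos
  have hx1 : ((MeasurableEquiv.piFinSuccAbove (fun _ : Fin (s + 1) => ℝ) (Fin.last s)) x).1 =
      x (Fin.last s) := rfl
  have hx2 : ((MeasurableEquiv.piFinSuccAbove (fun _ : Fin (s + 1) => ℝ) (Fin.last s)) x).2 =
      fun i : Fin s => x i.castSucc := by
    funext i
    change x ((Fin.last s).succAbove i) = x i.castSucc
    rw [Fin.succAbove_last]
  rw [hx1, hx2] at hx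
  have h3 := hx (hpos _)
  rw [hRpos _ fun i => hpos _] at h3
  refine h3.mono ?_ le_rfl
  rintro M ⟨n, hnW, hn1, m, ⟨y, n', hy, hn', hs⟩, hM⟩
  refine ⟨y, Fin.snoc n' n, hy, fun i => ?_, ?_⟩
  · refine Fin.lastCases ?_ (fun i => ?_) i
    · rw [Fin.snoc_last]
      exact ⟨hn1, hnW⟩
    · rw [Fin.snoc_castSucc]
      exact hn' i
  · rw [Fin.sum_univ_castSucc]
    simp only [Fin.snoc_castSucc, Fin.snoc_last]
    rw [← add_assoc, hs]
    exact hM

theorem iter_RG (hSTEP : S_STEP) {k r s : ℕ} {V : Set ℕ} {c t δ : ℝ} (hk : 1 ≤ k) (hc : 0 < c)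
    (ht : 0 ≤ t) (h : ∀ β, 1 - δ < β → AA k r s V c t β) (J : ℕ) :
    ∀ β, 1 - 2 ^ J * δ < β → AA k r (s + J) V c t β := by
  induction J with
  | zero =>
    intro β hβ
    refine h β ?_
    simpa using hβ
  | succ J ih =>
    intro β hβ
    rw [pow_succ] at hβ
    set β₁ : ℝ := ((β + 1) / 2 + (1 - 2 ^ J * δ)) / 2 with hβ₁
    have h1 : 1 - 2 ^ J * δ < (β + 1) / 2 := by linarith
    exact step_RG hSTEP hk hc ht (by rw [hβ₁]; linarith) (ih β₁ (by rw [hβ₁]; linarith))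

/-- **All large integers.** -/
theorem lifted (hSTEP : S_STEP) (k r u J : ℕ) (hk : 2 ≤ k) (hu : 4 ≤ u) (V : Set ℕ)
    (W : Fin (u + J) → Set ℕ) (c t : ℝ) (hc : 0 < c) (ht : 0 ≤ t) (hV : Reg c t V)
    (hW : ∀ i, Reg c t (W i))
    (h : (k : ℝ) < 2 ^ J * ((u : ℝ) - k * (1 - 1 / (k : ℝ)) ^ r)) :
    ∀ᵐ lam : Fin (u + J) → ℝ, (∀ i, 0 < lam i) → ∀ᶠ M : ℕ in atTop, M ∈ RG k r (u + J) V W lam := by
  have hk0 : (0 : ℝ) < k := by
    have : 0 < k := by omega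
    exact_mod_cast this
  set δ : ℝ := ((u : ℝ) - k * (1 - 1 / (k : ℝ)) ^ r) / k with hδ
  have h1 : 1 < 2 ^ J * δ := by
    rw [hδ, ← mul_div_assoc, lt_div_iff₀ hk0]
    linarith
  have h2 := iter_RG hSTEP (k := k) (r := r) (s := u) (V := V) (δ := δ) (by omega) hc ht
    (fun β hβ W hW => base k r u hk hu V W c t hc ht hV hW β hβ) J ((1 - 2 ^ J * δ) / 2)
    (by linarith) W hW
  filter_upwards [h2] with lam hlam hpos
  exact (hlam hpos).cofinite (by linarith)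

end

end Pool.Agent.Run7.h757.MW
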