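import Pool.Agent.Run7.h757.MW.Bin2
import Pool.Agent.Run7.h757.MW.Lift

/-!
# Project MW: binary problems, from the blocks to the exceptional sets
-/

open Finset MeasureTheory Filter

namespace Pool.Agent.Run7.h757.MW

noncomputable section

/-- from the blocks to the exceptional set -/
theorem exc_of_blocks {R : Set ℕ} {k : ℕ} {c₁ C β : ℝ} (hk : 1 ≤ k) (hc₁ : 0 < c₁) (hC : 0 < C)
    (hP : ∀ᶠ j : ℕ in atTop, ∃ Bad : Finset ℕ, (Bad.card : ℝ) ≤ C * (2 : ℝ) ^ (β * (j * k : ℕ)) ∧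
      ∀ M : ℕ, c₁ * (2 : ℝ) ^ (j * k) ≤ M → (M : ℝ) ≤ (2 : ℝ) ^ k * c₁ * (2 : ℝ) ^ (j * k) →
        M ∉ Bad → M ∈ R) : Exc R β := by
  classical
  set P : ℕ → Prop := fun j => ∃ Bad : Finset ℕ, (Bad.card : ℝ) ≤ C * (2 : ℝ) ^ (β * (j * k : ℕ)) ∧
    ∀ M : ℕ, c₁ * (2 : ℝ) ^ (j * k) ≤ M → (M : ℝ) ≤ (2 : ℝ) ^ k * c₁ * (2 : ℝ) ^ (j * k) →
      M ∉ Bad → M ∈ R with hPdef
  have hPev : ∀ᶠ j in atTop, P j := hP
  have hPev2 : ∀ᶠ j in atTop, P j ∧ P (j + 1) :=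
    hPev.and ((tendsto_add_atTop_nat 1).eventually hPev)
  have hbl := blocks (k := k) (by omega) hc₁ hPev2
  have hpow : Tendsto (fun i : ℕ => 2 ^ i) atTop atTop :=
    tendsto_pow_atTop_atTop_of_one_lt (by norm_num)
  -- the constant
  set C1 : ℝ := (1 / c₁) ^ β + (1 / ((2 : ℝ) ^ k * c₁)) ^ β with hC1
  have hkey : ∀ x : ℝ, 0 < x → ∀ i : ℕ, c₁ * x ≤ (2 : ℝ) ^ i → (2 : ℝ) ^ i ≤ (2 : ℝ) ^ k * c₁ * x →
      x ^ β ≤ C1 * (2 : ℝ) ^ (β * i) := by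
    intro x hx i h1 h2
    have h3 : (2 : ℝ) ^ (β * i) = ((2 : ℝ) ^ i) ^ β := by
      rw [← Real.rpow_natCast 2 i, ← Real.rpow_mul (by norm_num), mul_comm]
    have hi0 : (0 : ℝ) < (2 : ℝ) ^ i := by positivity
    have hA : (0 : ℝ) < (1 / c₁) ^ β := by positivity
    have hB : (0 : ℝ) < (1 / ((2 : ℝ) ^ k * c₁)) ^ β := by positivity
    rw [h3, hC1, add_mul, ← Real.mul_rpow (by positivity) hi0.le,
      ← Real.mul_rpow (by positivity) hi0.le]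
    rcases le_or_gt 0 β with hb | hb
    · have h4 : x ≤ 1 / c₁ * (2 : ℝ) ^ i := by
        rw [one_div_mul_eq_div, le_div_iff₀ hc₁]
        linarith
      have h5 := Real.rpow_le_rpow hx.le h4 hb
      have h6 : (0 : ℝ) ≤ (1 / ((2 : ℝ) ^ k * c₁) * (2 : ℝ) ^ i) ^ β := by positivity
      linarith
    · have h4 : 1 / ((2 : ℝ) ^ k * c₁) * (2 : ℝ) ^ i ≤ x := by
        rw [one_div_mul_eq_div, div_le_iff₀ (by positivity)]
        linarith
      have h5 := Real.rpow_le_rpow_of_nonpos (by positivity) h4 hb.le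
      have h6 : (0 : ℝ) ≤ (1 / c₁ * (2 : ℝ) ^ i) ^ β := by positivity
      linarith
  refine exc_of_ev (C' := C * C1 + C * (((2 : ℝ) ^ k) ^ β * C1)) ?_
  filter_upwards [hpow.eventually hbl] with i hi
  obtain ⟨j, ⟨hPj, hPj1⟩, h1, h2⟩ := hi
  obtain ⟨Bad, hB1, hB2⟩ := hPj
  obtain ⟨Bad', hB1', hB2'⟩ := hPj1
  push_cast at h1 h2
  have hsub : exB R i ⊆ Bad ∪ Bad' := by
    intro M hM
    unfold exB at hM
    rw [mem_filter, mem_Ico] at hM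
    obtain ⟨⟨hM1, hM2⟩, hM3⟩ := hM
    have hM1' : (2 : ℝ) ^ i ≤ M := by exact_mod_cast hM1
    have hM2' : (M : ℝ) < (2 : ℝ) ^ (i + 1) := by exact_mod_cast hM2
    rw [mem_union]
    by_contra hno
    push Not at hno
    refine hM3 ?_
    rcases le_or_gt (M : ℝ) ((2 : ℝ) ^ k * c₁ * (2 : ℝ) ^ (j * k)) with h | h
    · exact hB2 M (h1.trans hM1') h hno.1
    · have e1 : (2 : ℝ) ^ ((j + 1) * k) = (2 : ℝ) ^ k * (2 : ℝ) ^ (j * k) := by
        rw [add_mul, one_mul, pow_add]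
        ring
      refine hB2' M ?_ ?_ hno.2
      · rw [e1]
        linarith
      · rw [e1]
        have h3 : (2 : ℝ) ≤ (2 : ℝ) ^ k := by
          calc (2 : ℝ) = 2 ^ 1 := by norm_num
            _ ≤ 2 ^ k := pow_le_pow_right₀ (by norm_num) (by omega)
        have h4 : (M : ℝ) ≤ 2 * ((2 : ℝ) ^ k * c₁ * (2 : ℝ) ^ (j * k)) := by
          rw [pow_succ] at hM2'
          linarith
        have h5 : (0 : ℝ) < (2 : ℝ) ^ k * c₁ * (2 : ℝ) ^ (j * k) := by positivity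
        calc (M : ℝ) ≤ 2 * ((2 : ℝ) ^ k * c₁ * (2 : ℝ) ^ (j * k)) := h4
          _ ≤ (2 : ℝ) ^ k * ((2 : ℝ) ^ k * c₁ * (2 : ℝ) ^ (j * k)) :=
            mul_le_mul_of_nonneg_right h3 h5.le
          _ = _ := by ring
  have hcard : ((exB R i).card : ℝ) ≤ Bad.card + Bad'.card := by
    exact_mod_cast (Finset.card_le_card hsub).trans (Finset.card_union_le _ _)
  have hx1 := hkey ((2 : ℝ) ^ (j * k)) (by positivity) i h1 h2
  have e2 : (2 : ℝ) ^ (β * (j * k : ℕ)) = ((2 : ℝ) ^ (j * k)) ^ β := by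
    rw [← Real.rpow_natCast 2 (j * k), ← Real.rpow_mul (by norm_num), mul_comm]
  have e3 : (2 : ℝ) ^ (β * ((j + 1) * k : ℕ)) = ((2 : ℝ) ^ k) ^ β * ((2 : ℝ) ^ (j * k)) ^ β := by
    rw [← Real.mul_rpow (by positivity) (by positivity), ← pow_add,
      ← Real.rpow_natCast 2 (k + j * k), ← Real.rpow_mul (by norm_num), mul_comm β]
    congr 2
    push_cast
    ring
  rw [e2] at hB1
  rw [e3] at hB1'
  have hkb : (0 : ℝ) < ((2 : ℝ) ^ k) ^ β := by positivity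
  calc ((exB R i).card : ℝ) ≤ Bad.card + Bad'.card := hcard
    _ ≤ C * ((2 : ℝ) ^ (j * k)) ^ β + C * (((2 : ℝ) ^ k) ^ β * ((2 : ℝ) ^ (j * k)) ^ β) :=
      add_le_add hB1 hB1'
    _ ≤ C * (C1 * (2 : ℝ) ^ (β * i)) + C * (((2 : ℝ) ^ k) ^ β * (C1 * (2 : ℝ) ^ (β * i))) := by
      gcongr
    _ = _ := by ring

/-- the numbers `a + ⌊lam f(n)⌋` -/
def RB (f : ℕ → ℕ) (V W : Set ℕ) (lam : ℝ) : Set ℕ :=
  {M | ∃ a ∈ V, ∃ n ∈ W, 1 ≤ n ∧ a + fl lam (f n) = M}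

theorem tendsto_X (k : ℕ) (hk : 1 ≤ k) : Tendsto (fun j : ℕ => (2 : ℝ) ^ (j * k)) atTop atTop := by
  have h1 : Tendsto (fun j : ℕ => j * k) atTop atTop :=
    tendsto_atTop_mono (fun j => Nat.le_mul_of_pos_right j (by omega)) tendsto_id
  exact (tendsto_pow_atTop_atTop_of_one_lt (by norm_num : (1 : ℝ) < 2)).comp h1

theorem one_gamma (hLOW1 : S_LOW1) (hLOW2 : S_LOW2) (k : ℕ) (f : ℕ → ℕ) (V W : Set ℕ)
    (c t c' t' γ γ' : ℝ) (hk : 1 ≤ k) (hf : Gr k f) (hc : 0 < c) (ht : 0 ≤ t) (hW : Reg c t W)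
    (hc' : 0 < c') (ht' : 0 ≤ t') (hγ : 0 ≤ γ) (hV : Short c' t' γ V) (h1 : γ < γ')
    (h2 : 1 - 1 / (k : ℝ) < γ') (h3 : γ' < 1) :
    ∀ᵐ lam : ℝ, 0 < lam → ∀ β : ℝ, γ' < β → Exc (RB f V W lam) β := by
  classical
  set H : ℕ → ℕ := fun j => ⌈((2 : ℝ) ^ (j * k)) ^ γ'⌉₊ with hH
  have hX1 : ∀ j : ℕ, (1 : ℝ) ≤ (2 : ℝ) ^ (j * k) := fun j => one_le_pow₀ (by norm_num)
  have hHj : ∀ j, 1 ≤ H j ∧ H j ≤ 2 ^ (j * k) := by
    intro j
    constructor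
    · rw [hH]
      exact Nat.ceil_pos.2 (by have := hX1 j; positivity)
    · rw [hH]
      refine Nat.ceil_le.2 ?_
      push_cast
      calc ((2 : ℝ) ^ (j * k)) ^ γ' ≤ ((2 : ℝ) ^ (j * k)) ^ (1 : ℝ) :=
            Real.rpow_le_rpow_of_exponent_le (hX1 j) h3.le
        _ = _ := Real.rpow_one _
  have hVV : ∀ j, ∀ a ∈ VV V k j, a ≤ 2 ^ (j * k) := by
    intro j a ha
    unfold VV at ha
    have h4 := mem_range.1 (mem_filter.1 ha).1
    omega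
  filter_upwards [ana k f (VV V k) W H hk hf (Filter.Eventually.of_forall hVV)
    (Filter.Eventually.of_forall hHj)] with lam hana hpos β hβ
  obtain ⟨c₁, hc₁, hL1⟩ := hLOW1 k f W c t hk hf hc ht hW lam hpos
  set c₂ : ℕ := ⌈(2 : ℝ) ^ k * c₁⌉₊ with hc₂
  obtain ⟨K₀, hK₀⟩ := hL1 c₂
  set K : ℕ := K₀ + 2 with hK
  obtain ⟨c₃, hc₃, hL1'⟩ := hK₀ K (by omega)
  obtain ⟨D, hL2⟩ := hLOW2 k f V c' t' γ γ' hk hf hc' ht' hγ hV h1 h2 h3 lam hpos K c₃ t hc₃ ht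
  have hA := hana hpos K c₂ D (by omega)
  -- the size of H
  have hHs : ∀ᶠ j : ℕ in atTop, (H j : ℝ) ≤ c₁ * (2 : ℝ) ^ (j * k) := by
    have h4 : Tendsto (fun j : ℕ => ((2 : ℝ) ^ (j * k)) ^ (-(1 - γ'))) atTop (nhds 0) :=
      (tendsto_rpow_neg_atTop (by linarith : 0 < 1 - γ')).comp (tendsto_X k hk)
    filter_upwards [h4.eventually_lt_const (by positivity : (0 : ℝ) < c₁ / 2)] with j hj
    have hx := hX1 j
    set x : ℝ := (2 : ℝ) ^ (j * k) with hxdef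
    have hx0 : 0 < x := by linarith
    have h5 : (H j : ℝ) ≤ x ^ γ' + 1 := by
      rw [hH]
      exact (Nat.ceil_lt_add_one (by positivity)).le
    have h6 : (1 : ℝ) ≤ x ^ γ' := Real.one_le_rpow hx (by linarith)
    have h7 : x ^ γ' = x * x ^ (-(1 - γ')) := by
      nth_rewrite 2 [← Real.rpow_one x]
      rw [← Real.rpow_add hx0]
      congr 1
      ring
    have h8 : x * x ^ (-(1 - γ')) ≤ x * (c₁ / 2) := by gcongr
    linarith
  -- the logarithms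
  set E : ℕ := 2 * D + 6 with hE
  set η : ℝ := β - γ' with hη
  have hη0 : 0 < η := by rw [hη]; linarith
  have hbeat : ∀ᶠ j : ℕ in atTop, ((j : ℝ) + 1) ^ E ≤ ((2 : ℝ) ^ j) ^ η := by
    obtain ⟨m, hm⟩ := exists_nat_gt (1 / η)
    have h0 : 0 < 1 / η := by positivity
    have hm0 : (0 : ℝ) < m := h0.trans hm
    have hm1 : 0 < m := by exact_mod_cast hm0
    filter_upwards [pow_beats (E * m) 1] with j hj
    rw [one_mul] at hj
    have h5 : (((j : ℝ) + 1) ^ E) ^ m ≤ (((2 : ℝ) ^ j) ^ η) ^ m := by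
      rw [← pow_mul]
      refine hj.trans ?_
      have h6 : (1 : ℝ) ≤ (2 : ℝ) ^ j := one_le_pow₀ (by norm_num)
      rw [← Real.rpow_natCast _ m, ← Real.rpow_mul (by positivity)]
      rw [div_lt_iff₀ hη0] at hm
      calc (2 : ℝ) ^ j = ((2 : ℝ) ^ j) ^ (1 : ℝ) := (Real.rpow_one _).symm
        _ ≤ _ := Real.rpow_le_rpow_of_exponent_le h6 (by linarith)
    exact le_of_pow_le_pow_left₀ hm1.ne' (by positivity) h5
  refine exc_of_blocks (k := k) (c₁ := c₁) (C := 36) hk hc₁ (by norm_num) ?_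
  filter_upwards [hA, hL1', hL2, hHs, hbeat] with j hAj hL1j hL2j hHj2 hbj
  obtain ⟨Bad, hB1, hB2⟩ := hAj
  refine ⟨Bad, ?_, fun M hM1 hM2 hMB => ?_⟩
  · refine hB1.trans ?_
    have hx := hX1 j
    have e1 : (2 : ℝ) ^ (β * (j * k : ℕ)) = ((2 : ℝ) ^ (j * k)) ^ β := by
      rw [← Real.rpow_natCast 2 (j * k), ← Real.rpow_mul (by norm_num), mul_comm]
    rw [e1]
    set x : ℝ := (2 : ℝ) ^ (j * k) with hxdef
    have hx0 : 0 < x := by linarith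
    have hk0 : (0 : ℝ) < k := by exact_mod_cast hk
    have h6 : (1 : ℝ) ≤ x ^ γ' := Real.one_le_rpow hx (by linarith)
    have h5 : (H j : ℝ) ≤ x ^ γ' + 1 := by
      rw [hH]
      exact (Nat.ceil_lt_add_one (by positivity)).le
    have h7 : ((2 : ℝ) ^ j) ^ (k - 1) ≤ x ^ γ' := by
      have h8 : ((2 : ℝ) ^ j) ^ (k - 1) = x ^ (1 - 1 / (k : ℝ)) := by
        rw [hxdef, pow_mul, ← Real.rpow_natCast _ k, ← Real.rpow_mul (by positivity),
          ← Real.rpow_natCast _ (k - 1), Nat.cast_sub hk]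
        congr 1
        field_simp
        push_cast
        ring
      rw [h8]
      exact Real.rpow_le_rpow_of_exponent_le hx h2.le
    have h9 : ((j : ℝ) + 1) ^ E ≤ x ^ η := by
      refine hbj.trans ?_
      refine Real.rpow_le_rpow (by positivity) ?_ hη0.le
      rw [hxdef]
      refine pow_le_pow_right₀ (by norm_num) ?_
      exact Nat.le_mul_of_pos_right j (by omega)
    calc 12 * (((2 : ℝ) ^ j) ^ (k - 1) + H j) * ((j : ℝ) + 1) ^ E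
        ≤ 12 * (x ^ γ' + (x ^ γ' + 1)) * x ^ η := by gcongr
      _ ≤ 12 * (x ^ γ' + (x ^ γ' + x ^ γ')) * x ^ η := by gcongr
      _ = 36 * (x ^ γ' * x ^ η) := by ring
      _ = 36 * x ^ β := by
          rw [← Real.rpow_add hx0, hη]
          congr 2
          ring
  · have hMc : M ≤ c₂ * 2 ^ (j * k) := by
      have h4 : (2 : ℝ) ^ k * c₁ ≤ c₂ := Nat.le_ceil _
      have h5 : (M : ℝ) ≤ c₂ * (2 : ℝ) ^ (j * k) := by
        refine hM2.trans ?_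
        gcongr
      exact_mod_cast h5
    have hHM : H j ≤ M := by
      have h4 := hHj2.trans hM1
      exact_mod_cast h4
    have h4 := hL1j M hM1 hMc
    have h5 := hL2j M ((blk W K (2 ^ j)).filter fun n =>
        2 ^ (j * k) ≤ 4 * (M - fl lam (f n)) ∧ 4 * (M - fl lam (f n)) ≤ 3 * 2 ^ (j * k)) ?_ h4
    · have h6 : (H j : ℝ) * 2 ^ j / ((j : ℝ) + 1) ^ D ≤
          ∑ n ∈ blk W K (2 ^ j), (((VV V k j).filter fun a =>
            2 * |((a + fl lam (f n) : ℕ) : ℤ) - M| ≤ (H j : ℤ)).card : ℝ) := by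
        refine h5.trans ?_
        refine Finset.sum_le_sum_of_subset_of_nonneg (Finset.filter_subset _ _) ?_
        intro n _ _
        positivity
      obtain ⟨a, ha, n, hn, hs⟩ := hB2 M hHM hMc hMB h6
      have ha' : a ∈ V := by
        unfold VV at ha
        exact (mem_filter.1 ha).2
      have hn' : n ∈ Ioc (2 ^ j) (K * 2 ^ j) ∧ n ∈ W := by
        simpa only [blk, Finset.mem_filter] using hn
      have hn1 := (mem_Ioc.1 hn'.1).1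
      exact ⟨a, ha', n, hn'.2, (Nat.one_le_two_pow (n := j)).trans hn1.le, hs⟩
    · intro n hn
      have h6 := mem_filter.1 hn
      have hn' : n ∈ Ioc (2 ^ j) (K * 2 ^ j) ∧ n ∈ W := by
        simpa only [blk, Finset.mem_filter] using h6.1
      obtain ⟨h7, h8⟩ := mem_Ioc.1 hn'.1
      exact ⟨h7, h8, h6.2.1, h6.2.2⟩

/-- **The binary theorem.** -/
theorem binary (hLOW1 : S_LOW1) (hLOW2 : S_LOW2) (k : ℕ) (f : ℕ → ℕ) (V W : Set ℕ)
    (c t c' t' γ : ℝ) (hk : 1 ≤ k) (hf : Gr k f) (hc : 0 < c) (ht : 0 ≤ t) (hW : Reg c t W)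
    (hc' : 0 < c') (ht' : 0 ≤ t') (hγ : 0 ≤ γ) (hγ1 : γ < 1) (hV : Short c' t' γ V) :
    ∀ᵐ lam : ℝ, 0 < lam → ∀ β : ℝ, γ < β → 1 - 1 / (k : ℝ) < β → Exc (RB f V W lam) β := by
  have hk0 : (0 : ℝ) < k := by exact_mod_cast hk
  have h0 : ∀ q : ℚ, ∀ᵐ lam : ℝ, 0 < lam → (γ < (q : ℝ) ∧ 1 - 1 / (k : ℝ) < (q : ℝ) ∧ (q : ℝ) < 1) →
      ∀ β : ℝ, (q : ℝ) < β → Exc (RB f V W lam) β := by
    intro q
    by_cases h : γ < (q : ℝ) ∧ 1 - 1 / (k : ℝ) < (q : ℝ) ∧ (q : ℝ) < 1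
    · filter_upwards [one_gamma hLOW1 hLOW2 k f V W c t c' t' γ q hk hf hc ht hW hc' ht' hγ hV
        h.1 h.2.1 h.2.2] with lam hlam hpos _ using hlam hpos
    · exact Filter.Eventually.of_forall fun _ _ h' => (h h').elim
  filter_upwards [ae_all_iff.2 h0] with lam hlam hpos β hβ1 hβ2
  have hk1 : 1 - 1 / (k : ℝ) < 1 := by
    have : 0 < 1 / (k : ℝ) := by positivity
    linarith
  obtain ⟨q, hq1, hq2⟩ := exists_rat_btwn (show max γ (1 - 1 / (k : ℝ)) < min β 1 from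
    max_lt (lt_min hβ1 hγ1) (lt_min hβ2 hk1))
  rw [max_lt_iff] at hq1
  rw [lt_min_iff] at hq2
  exact hlam q hpos ⟨hq1.1, hq1.2, hq2.2⟩ β hq2.1

end

end Pool.Agent.Run7.h757.MW
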