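import Pool.Agent.Run7.h757.MW.Num

/-!
# Project MW: exceptional sets up to `X`
-/

open Finset MeasureTheory Filter

namespace Pool.Agent.Run7.h757.MW

noncomputable section

open Classical in
theorem exc_X {R : Set ℕ} {β : ℝ} (h : Exc R β) (hβ : 0 < β) : ∃ C : ℝ, ∀ X : ℕ, 1 ≤ X →
    (({M ∈ range (X + 1) | M ∉ R} : Finset ℕ).card : ℝ) ≤ C * (X : ℝ) ^ β := by
  obtain ⟨C, hC⟩ := h
  set g : ℝ := (2 : ℝ) ^ β with hg
  have hg1 : 1 < g := Real.one_lt_rpow (by norm_num) hβ
  have hg0 : 0 < g - 1 := by linarith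
  refine ⟨1 + C * (g / (g - 1)), fun X hX => ?_⟩
  have hX' : (1 : ℝ) ≤ X := by exact_mod_cast hX
  have hXβ : (1 : ℝ) ≤ (X : ℝ) ^ β := Real.one_le_rpow hX' hβ.le
  have hsub : {M ∈ range (X + 1) | M ∉ R} ⊆
      {0} ∪ (range (Nat.log 2 X + 1)).biUnion fun i => exB R i := by
    intro M hM
    rw [mem_filter, mem_range] at hM
    rw [mem_union, mem_singleton, mem_biUnion]
    by_cases hM0 : M = 0
    · exact Or.inl hM0
    · right
      refine ⟨Nat.log 2 M, ?_, ?_⟩
      · rw [mem_range]
        have := Nat.log_mono_right (b := 2) (show M ≤ X by omega)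
        omega
      · unfold exB
        rw [mem_filter, mem_Ico]
        exact ⟨⟨Nat.pow_log_le_self 2 hM0, Nat.lt_pow_succ_log_self (by norm_num) M⟩, hM.2⟩
  have h1 : (({M ∈ range (X + 1) | M ∉ R} : Finset ℕ).card : ℝ) ≤
      1 + ∑ i ∈ range (Nat.log 2 X + 1), ((exB R i).card : ℝ) := by
    have h2 := Finset.card_le_card hsub
    have h3 := Finset.card_union_le ({0} : Finset ℕ)
      ((range (Nat.log 2 X + 1)).biUnion fun i => exB R i)
    have h4 := Finset.card_biUnion_le (s := range (Nat.log 2 X + 1)) (t := fun i => exB R i)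
    rw [card_singleton] at h3
    exact_mod_cast h2.trans (h3.trans (Nat.add_le_add_left h4 _))
  have h2 : ∑ i ∈ range (Nat.log 2 X + 1), ((exB R i).card : ℝ) ≤
      C * (g / (g - 1)) * (X : ℝ) ^ β := by
    calc _ ≤ ∑ i ∈ range (Nat.log 2 X + 1), C * g ^ i := by
          refine Finset.sum_le_sum fun i _ => (hC i).trans (le_of_eq ?_)
          rw [Real.rpow_mul (by norm_num), Real.rpow_natCast]
      _ = C * ((g ^ (Nat.log 2 X + 1) - 1) / (g - 1)) := by
          rw [← Finset.mul_sum, geom_sum_eq hg1.ne']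
      _ ≤ C * (g / (g - 1) * g ^ Nat.log 2 X) := by
          refine mul_le_mul_of_nonneg_left ?_ (by positivity)
          rw [div_mul_eq_mul_div, div_le_div_iff_of_pos_right hg0, pow_succ]
          linarith
      _ ≤ C * (g / (g - 1) * (X : ℝ) ^ β) := by
          have h5 : g ^ Nat.log 2 X ≤ (X : ℝ) ^ β := by
            rw [hg, ← Real.rpow_natCast, ← Real.rpow_mul (by norm_num), mul_comm,
              Real.rpow_mul (by norm_num), Real.rpow_natCast]
            refine Real.rpow_le_rpow (by positivity) ?_ hβ.le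
            exact_mod_cast Nat.pow_log_le_self 2 (by omega : X ≠ 0)
          gcongr
      _ = _ := by ring
  linarith

end

end Pool.Agent.Run7.h757.MW
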