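import Pool.Agent.Run7.h757.MW.Bin3
import Pool.Agent.Run7.h757.MW.ExcX
import Pool.Agent.Run7.h56.MW.STEP

/-!
# Project MW: binary problems with further generic terms
-/

open Finset MeasureTheory Filter

namespace Pool.Agent.Run7.h757.MW

noncomputable section

/-- the numbers `a + ⌊lam 0 f(n)⌋ + ∑ ⌊lam (i + 1) m_i ^ (e i)⌋` -/
def RJ (f : ℕ → ℕ) (V W : Set ℕ) (J : ℕ) (e : Fin J → ℕ) (W' : Fin J → Set ℕ)
    (lam : Fin (J + 1) → ℝ) : Set ℕ :=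
  {M | ∃ (a n : ℕ) (m : Fin J → ℕ), (a ∈ V ∧ n ∈ W ∧ 1 ≤ n ∧ ∀ i, 1 ≤ m i ∧ m i ∈ W' i) ∧
    a + fl (lam 0) (f n) + ∑ i, ⌊lam i.succ * (m i : ℝ) ^ e i⌋₊ = M}

theorem meas_RJ (f : ℕ → ℕ) (V W : Set ℕ) (J : ℕ) (e : Fin J → ℕ) (W' : Fin J → Set ℕ) (M : ℕ) :
    MeasurableSet {lam : Fin (J + 1) → ℝ | (∀ i, 0 < lam i) → M ∈ RJ f V W J e W' lam} := by
  have h1 : {lam : Fin (J + 1) → ℝ | (∀ i, 0 < lam i) → M ∈ RJ f V W J e W' lam} =
      {lam : Fin (J + 1) → ℝ | ∀ i, 0 < lam i}ᶜ ∪ ⋃ (a : ℕ), ⋃ (n : ℕ), ⋃ (m : Fin J → ℕ),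
        {lam : Fin (J + 1) → ℝ | (a ∈ V ∧ n ∈ W ∧ 1 ≤ n ∧ ∀ i, 1 ≤ m i ∧ m i ∈ W' i) ∧
          a + fl (lam 0) (f n) + ∑ i, ⌊lam i.succ * (m i : ℝ) ^ e i⌋₊ = M} := by
    ext lam
    simp only [RJ, Set.mem_setOf_eq, Set.mem_union, Set.mem_compl_iff, Set.mem_iUnion]
    rw [imp_iff_not_or]
  rw [h1]
  refine MeasurableSet.union ?_ ?_
  · refine MeasurableSet.compl ?_
    have h2 : {lam : Fin (J + 1) → ℝ | ∀ i, 0 < lam i} = ⋂ i, {lam : Fin (J + 1) → ℝ | 0 < lam i} := by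
      ext lam
      simp
    rw [h2]
    exact MeasurableSet.iInter fun i => measurableSet_lt measurable_const (measurable_pi_apply i)
  · refine MeasurableSet.iUnion fun a => MeasurableSet.iUnion fun n => MeasurableSet.iUnion fun m => ?_
    by_cases hx : a ∈ V ∧ n ∈ W ∧ 1 ≤ n ∧ ∀ i, 1 ≤ m i ∧ m i ∈ W' i
    · have h2 : {lam : Fin (J + 1) → ℝ | (a ∈ V ∧ n ∈ W ∧ 1 ≤ n ∧ ∀ i, 1 ≤ m i ∧ m i ∈ W' i) ∧
          a + fl (lam 0) (f n) + ∑ i, ⌊lam i.succ * (m i : ℝ) ^ e i⌋₊ = M} =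
          (fun lam : Fin (J + 1) → ℝ => a + fl (lam 0) (f n) +
            ∑ i, ⌊lam i.succ * (m i : ℝ) ^ e i⌋₊) ⁻¹' {M} := by
        ext lam
        simp only [Set.mem_setOf_eq, Set.mem_preimage, Set.mem_singleton_iff]
        exact ⟨fun h => h.2, fun h => ⟨hx, h⟩⟩
      rw [h2]
      refine measurableSet_preimage ?_ (measurableSet_singleton M)
      refine Measurable.add ?_ (Finset.measurable_sum _ fun i _ => ?_)
      · refine measurable_const.add ?_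
        unfold fl
        exact Nat.measurable_floor.comp ((measurable_pi_apply 0).mul_const _)
      · exact Nat.measurable_floor.comp ((measurable_pi_apply _).mul_const _)
    · have h2 : {lam : Fin (J + 1) → ℝ | (a ∈ V ∧ n ∈ W ∧ 1 ≤ n ∧ ∀ i, 1 ≤ m i ∧ m i ∈ W' i) ∧
          a + fl (lam 0) (f n) + ∑ i, ⌊lam i.succ * (m i : ℝ) ^ e i⌋₊ = M} = ∅ := by
        ext lam
        simp only [Set.mem_setOf_eq, Set.mem_empty_iff_false, iff_false]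
        exact fun h => hx h.1
      rw [h2]
      exact MeasurableSet.empty

/-- almost all coefficients give an exceptional set of exponent `β` -/
def AJ (f : ℕ → ℕ) (V W : Set ℕ) (c t : ℝ) (J : ℕ) (β : ℝ) : Prop :=
  ∀ (e : Fin J → ℕ) (W' : Fin J → Set ℕ), (∀ i, 1 ≤ e i) → (∀ i, Reg c t (W' i)) →
    ∀ᵐ lam : Fin (J + 1) → ℝ, (∀ i, 0 < lam i) → Exc (RJ f V W J e W' lam) β

theorem step_J (hSTEP : S_STEP) {f : ℕ → ℕ} {V W : Set ℕ} {c t : ℝ} {J : ℕ} {β β' : ℝ}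
    (hc : 0 < c) (ht : 0 ≤ t) (hβ : 2 * β - 1 < β') (h : AJ f V W c t J β) :
    AJ f V W c t (J + 1) β' := by
  classical
  intro e W' he hW'
  set e₁ : Fin J → ℕ := fun i => e i.castSucc with he₁
  set W₁ : Fin J → Set ℕ := fun i => W' i.castSucc with hW₁
  set R : (Fin (J + 1) → ℝ) → Set ℕ := fun ω => {m | (∀ i, 0 < ω i) → m ∈ RJ f V W J e₁ W₁ ω} with hR
  have hRpos : ∀ ω, (∀ i, 0 < ω i) → R ω = RJ f V W J e₁ W₁ ω := by
    intro ω hω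
    ext m
    exact ⟨fun h => h hω, fun h _ => h⟩
  have hae : ∀ᵐ ω : Fin (J + 1) → ℝ, Exc (R ω) β := by
    filter_upwards [h e₁ W₁ (fun i => he _) (fun i => hW' _)] with ω hω
    by_cases hp : ∀ i, 0 < ω i
    · rw [hRpos ω hp]
      exact hω hp
    · have h1 : R ω = Set.univ := by
        ext m
        simp only [hR, Set.mem_setOf_eq, Set.mem_univ, iff_true]
        exact fun h => absurd h hp
      rw [h1]
      refine ⟨0, fun j => ?_⟩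
      have h2 : exB Set.univ j = ∅ := exB_empty (fun m => Set.mem_univ m) j
      rw [h2]
      simp
  have hst := hSTEP (Fin (J + 1) → ℝ) volume R (e (Fin.last J)) (W' (Fin.last J)) c t β β' (he _) hc ht
    (hW' _) hβ (fun m => meas_RJ f V W J e₁ W₁ m) hae
  have hmp := volume_preserving_piFinSuccAbove (fun _ : Fin (J + 2) => ℝ) (Fin.last (J + 1))
  have hst2 := hmp.quasiMeasurePreserving.ae hst
  filter_upwards [hst2] with x hx hpos
  have hx1 : ((MeasurableEquiv.piFinSuccAbove (fun _ : Fin (J + 2) => ℝ) (Fin.last (J + 1))) x).1 =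
      x (Fin.last (J + 1)) := rfl
  have hx2 : ((MeasurableEquiv.piFinSuccAbove (fun _ : Fin (J + 2) => ℝ) (Fin.last (J + 1))) x).2 =
      fun i : Fin (J + 1) => x i.castSucc := by
    funext i
    change x ((Fin.last (J + 1)).succAbove i) = x i.castSucc
    rw [Fin.succAbove_last]
  rw [hx1, hx2] at hx
  have h3 := hx (hpos _)
  rw [hRpos _ fun i => hpos _] at h3
  refine h3.mono ?_ le_rfl
  rintro M ⟨n, hnW, hn1, m, ⟨a, n₀, m', ⟨ha, hn₀, hn₀1, hm'⟩, hs⟩, hM⟩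
  refine ⟨a, n₀, Fin.snoc m' n, ⟨ha, hn₀, hn₀1, fun i => ?_⟩, ?_⟩
  · refine Fin.lastCases ?_ (fun i => ?_) i
    · rw [Fin.snoc_last]
      exact ⟨hn1, hnW⟩
    · rw [Fin.snoc_castSucc]
      exact hm' i
  · rw [Fin.sum_univ_castSucc]
    simp only [Fin.snoc_castSucc, Fin.snoc_last, Fin.succ_castSucc, Fin.succ_last]
    rw [← add_assoc]
    rw [← hM, ← hs]
    rfl

theorem iter_J (hSTEP : S_STEP) {f : ℕ → ℕ} {V W : Set ℕ} {c t δ : ℝ} (hc : 0 < c)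
    (ht : 0 ≤ t) (h : ∀ β, 1 - δ < β → AJ f V W c t 0 β) (J : ℕ) :
    ∀ β, 1 - 2 ^ J * δ < β → AJ f V W c t J β := by
  induction J with
  | zero =>
    intro β hβ
    refine h β ?_
    simpa using hβ
  | succ J ih =>
    intro β hβ
    rw [pow_succ] at hβ
    set β₁ : ℝ := ((β + 1) / 2 + (1 - 2 ^ J * δ)) / 2 with hβ₁
    have h1 : 1 - 2 ^ J * δ < (β + 1) / 2 := by linarith
    exact step_J hSTEP hc ht (by rw [hβ₁]; linarith) (ih β₁ (by rw [hβ₁]; linarith))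

theorem base_J (hLOW1 : S_LOW1) (hLOW2 : S_LOW2) (k : ℕ) (f : ℕ → ℕ) (V W : Set ℕ)
    (c t c' t' γ : ℝ) (hk : 1 ≤ k) (hf : Gr k f) (hc : 0 < c) (ht : 0 ≤ t) (hW : Reg c t W)
    (hc' : 0 < c') (ht' : 0 ≤ t') (hγ : 0 ≤ γ) (hγ1 : γ < 1) (hV : Short c' t' γ V) (β : ℝ)
    (hβ : 1 - min (1 - γ) (1 / (k : ℝ)) < β) : AJ f V W c t 0 β := by
  intro e W' _ _
  have h1 := binary hLOW1 hLOW2 k f V W c t c' t' γ hk hf hc ht hW hc' ht' hγ hγ1 hV
  have hmp := (volume_preserving_funUnique (Fin 1) ℝ).quasiMeasurePreserving.ae h1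
  have ha := min_le_left (1 - γ) (1 / (k : ℝ))
  have hb := min_le_right (1 - γ) (1 / (k : ℝ))
  filter_upwards [hmp] with x hx hpos
  have h2 : (MeasurableEquiv.funUnique (Fin 1) ℝ) x = x 0 := rfl
  rw [h2] at hx
  refine (hx (hpos 0) β (by linarith) (by linarith)).mono ?_ le_rfl
  rintro M ⟨a, ha, n, hn, hn1, hM⟩
  refine ⟨a, n, fun i => i.elim0, ⟨ha, hn, hn1, fun i => i.elim0⟩, ?_⟩
  rw [Fin.sum_univ_zero, add_zero]
  exact hM

theorem Reg.inter_ev {c t : ℝ} {W S : Set ℕ} (h : Reg c t W) (hS : ∀ᶠ n : ℕ in atTop, n ∈ S) :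
    Reg c t (W ∩ S) := by
  intro B
  obtain ⟨x₀, hx₀⟩ := h B
  obtain ⟨n₁, hn₁⟩ := eventually_atTop.1 hS
  refine ⟨max x₀ n₁, fun x y hx hy hyx => ?_⟩
  refine (hx₀ x y ((le_max_left _ _).trans hx) hy hyx).trans (le_of_eq ?_)
  congr 2
  ext n
  simp only [Set.mem_inter_iff, Set.mem_setOf_eq]
  constructor
  · rintro ⟨h1, h2, h3⟩
    have h4 : (n₁ : ℝ) < n := lt_of_le_of_lt ((le_max_right _ _).trans hx) h2
    have h5 : n₁ ≤ n := by exact_mod_cast h4.le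
    exact ⟨⟨h1, hn₁ n h5⟩, h2, h3⟩
  · rintro ⟨⟨h1, -⟩, h2, h3⟩
    exact ⟨h1, h2, h3⟩

end

end Pool.Agent.Run7.h757.MW
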