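import Pool.Agent.Run7.h757.MW.Bin4
import Pool.Agent.Run7.h416.MW.REGP

/-!
# Project MW: a prime and generic polynomial terms at primes, all polynomials at once
-/

open Finset MeasureTheory Filter Polynomial

namespace Pool.Agent.Run7.h757.MW

noncomputable section

theorem main_bin (hLOW1 : S_LOW1) (hLOW2 : S_LOW2) (hSHORTP : S_SHORTP) (hPOLY : S_POLY) (J : ℕ) :
    ∀ᵐ lam : Fin (J + 1) → ℝ, (∀ i, 0 < lam i) → ∀ (f : ℤ[X]) (e : Fin J → ℕ), 1 ≤ f.natDegree →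
      0 < f.leadingCoeff → (∀ i, 1 ≤ e i) → ∀ β : ℝ,
        1 - 2 ^ J * min (2 / 3) (1 / (f.natDegree : ℝ)) < β →
          Exc (RJ (fun n => (f.eval (n : ℤ)).toNat) {p : ℕ | p.Prime}
            ({p : ℕ | p.Prime} ∩ {n : ℕ | 0 < f.eval (n : ℤ)}) J e (fun _ => {p : ℕ | p.Prime}) lam) β := by
  have h0 : ∀ (f : ℤ[X]) (e : Fin J → ℕ) (q : ℚ), ∀ᵐ lam : Fin (J + 1) → ℝ, (∀ i, 0 < lam i) →
      (1 ≤ f.natDegree ∧ 0 < f.leadingCoeff ∧ (∀ i, 1 ≤ e i) ∧
        1 - 2 ^ J * min (2 / 3) (1 / (f.natDegree : ℝ)) < (q : ℝ)) →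
          Exc (RJ (fun n => (f.eval (n : ℤ)).toNat) {p : ℕ | p.Prime}
            ({p : ℕ | p.Prime} ∩ {n : ℕ | 0 < f.eval (n : ℤ)}) J e (fun _ => {p : ℕ | p.Prime}) lam) q := by
    intro f e q
    by_cases h : 1 ≤ f.natDegree ∧ 0 < f.leadingCoeff ∧ (∀ i, 1 ≤ e i) ∧
        1 - 2 ^ J * min (2 / 3) (1 / (f.natDegree : ℝ)) < (q : ℝ)
    · obtain ⟨hd, hl, he, hq⟩ := h
      obtain ⟨hGr, hpos⟩ := hPOLY f hd hl
      have hRegW : Reg (1 / 2) 1 ({p : ℕ | p.Prime} ∩ {n : ℕ | 0 < f.eval (n : ℤ)}) :=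
        Reg.inter_ev Pool.Agent.Run7.h416.MW.regp hpos
      have hb : ∀ β, 1 - min (2 / 3) (1 / (f.natDegree : ℝ)) < β →
          AJ (fun n => (f.eval (n : ℤ)).toNat) {p : ℕ | p.Prime}
            ({p : ℕ | p.Prime} ∩ {n : ℕ | 0 < f.eval (n : ℤ)}) (1 / 2) 1 0 β := by
        intro β hβ
        refine base_J hLOW1 hLOW2 f.natDegree _ _ _ (1 / 2) 1 (1 / 4) 1 (1 / 3) hd hGr (by norm_num)
          (by norm_num) hRegW (by norm_num) (by norm_num) (by norm_num) (by norm_num) hSHORTP β ?_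
        have h1 : (1 : ℝ) - 1 / 3 = 2 / 3 := by norm_num
        rw [h1]
        exact hβ
      have h1 := iter_J Pool.Agent.Run7.h56.MW.t_STEP (by norm_num) (by norm_num) hb J q hq e
        (fun _ => {p : ℕ | p.Prime}) he (fun _ => Pool.Agent.Run7.h416.MW.regp)
      filter_upwards [h1] with lam hlam hp _ using hlam hp
    · exact Filter.Eventually.of_forall fun _ _ h' => (h h').elim
  have hcount : Countable ℤ[X] := by
    rw [← Cardinal.mk_le_aleph0_iff]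
    refine (Polynomial.cardinalMk_le_max (R := ℤ)).trans ?_
    exact max_le (Cardinal.mk_le_aleph0_iff.2 inferInstance) le_rfl
  filter_upwards [ae_all_iff.2 fun f => ae_all_iff.2 fun e => ae_all_iff.2 fun q => h0 f e q] with
    lam hlam hp f e hd hl he β hβ
  obtain ⟨q, hq1, hq2⟩ := exists_rat_btwn hβ
  exact (hlam f e q hp ⟨hd, hl, he, hq1⟩).mono subset_rfl hq2.le

end

end Pool.Agent.Run7.h757.MW
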