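import Pool.Agent.Run7.h757.MW.Bin5

/-!
# Project MW: the final form for MP_d9bc60_nt, from the pieces
-/

open Finset MeasureTheory Filter Polynomial

namespace Pool.Agent.Run7.h757.MW

noncomputable section

/-- integers `M = p + ⌊lam 0 * f(q 0)⌋ + ∑ ⌊lam (i + 1) * q (i + 1) ^ e i⌋` -/
def IsSum (J : ℕ) (f : ℤ[X]) (e : Fin J → ℕ) (lam : Fin (J + 1) → ℝ) (M : ℕ) : Prop :=
  ∃ (p : ℕ) (q : Fin (J + 1) → ℕ), p.Prime ∧ (∀ i, (q i).Prime) ∧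
    0 < f.eval ((q 0 : ℕ) : ℤ) ∧
    (M : ℤ) = p + ⌊lam 0 * ((f.eval ((q 0 : ℕ) : ℤ) : ℤ) : ℝ)⌋ +
      ∑ i : Fin J, ⌊lam i.succ * (q i.succ : ℝ) ^ e i⌋

theorem isSum_of (J : ℕ) (f : ℤ[X]) (e : Fin J → ℕ) (lam : Fin (J + 1) → ℝ) (hlam : ∀ i, 0 < lam i) :
    RJ (fun n => (f.eval (n : ℤ)).toNat) {p : ℕ | p.Prime}
      ({p : ℕ | p.Prime} ∩ {n : ℕ | 0 < f.eval (n : ℤ)}) J e (fun _ => {p : ℕ | p.Prime}) lam ⊆
        {M | IsSum J f e lam M} := by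
  rintro M ⟨a, n, m, ⟨ha, ⟨hn, hn0⟩, hn1, hm⟩, hM⟩
  refine ⟨a, Fin.cons n m, ha, fun i => ?_, ?_, ?_⟩
  · refine Fin.cases ?_ (fun i => ?_) i
    · rw [Fin.cons_zero]
      exact hn
    · rw [Fin.cons_succ]
      exact (hm i).2
  · rw [Fin.cons_zero]
    exact hn0
  · simp only [Fin.cons_zero, Fin.cons_succ]
    have hn0' : 0 < f.eval (n : ℤ) := hn0
    have h1 : ((fl (lam 0) (f.eval (n : ℤ)).toNat : ℕ) : ℤ) =
        ⌊lam 0 * ((f.eval ((n : ℕ) : ℤ) : ℤ) : ℝ)⌋ := by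
      unfold fl
      have h2 : (((f.eval (n : ℤ)).toNat : ℕ) : ℝ) = ((f.eval ((n : ℕ) : ℤ) : ℤ) : ℝ) := by
        have h3 : (((f.eval (n : ℤ)).toNat : ℕ) : ℤ) = f.eval ((n : ℕ) : ℤ) :=
          Int.toNat_of_nonneg hn0'.le
        exact_mod_cast congrArg (Int.cast : ℤ → ℝ) h3
      rw [h2]
      refine Int.natCast_floor_eq_floor ?_
      have h4 : (0 : ℝ) ≤ ((f.eval ((n : ℕ) : ℤ) : ℤ) : ℝ) := by exact_mod_cast hn0'.le
      exact mul_nonneg (hlam 0).le h4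
    have h2 : ∀ i : Fin J, ((⌊lam i.succ * (m i : ℝ) ^ e i⌋₊ : ℕ) : ℤ) =
        ⌊lam i.succ * (m i : ℝ) ^ e i⌋ := by
      intro i
      refine Int.natCast_floor_eq_floor ?_
      have := (hlam i.succ).le
      positivity
    rw [← hM]
    push_cast
    rw [h1]
    congr 1
    exact Finset.sum_congr rfl fun i _ => h2 i

open Classical in
theorem final_bin (hLOW1 : S_LOW1) (hLOW2 : S_LOW2) (hSHORTP : S_SHORTP) (hPOLY : S_POLY) (J : ℕ) :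
    ∀ᵐ lam : Fin (J + 1) → ℝ, (∀ i, 0 < lam i) → ∀ (f : ℤ[X]) (e : Fin J → ℕ),
      1 ≤ f.natDegree → 0 < f.leadingCoeff → (∀ i, 1 ≤ e i) →
        (∀ β : ℝ, 0 < β → 1 - 2 ^ J * min (2 / 3) (1 / (f.natDegree : ℝ)) < β →
          ∃ C : ℝ, ∀ X : ℕ, 1 ≤ X →
            (({M ∈ range (X + 1) | ¬ IsSum J f e lam M} : Finset ℕ).card : ℝ) ≤ C * (X : ℝ) ^ β) ∧
        (1 < 2 ^ J * min (2 / 3) (1 / (f.natDegree : ℝ)) → ∀ᶠ M : ℕ in atTop, IsSum J f e lam M) := by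
  filter_upwards [main_bin hLOW1 hLOW2 hSHORTP hPOLY J] with lam hlam hp f e hd hl he
  have hsub := isSum_of J f e lam hp
  refine ⟨fun β hβ0 hβ => ?_, fun h => ?_⟩
  · exact exc_X ((hlam hp f e hd hl he β hβ).mono hsub le_rfl) hβ0
  · refine ((hlam hp f e hd hl he ((1 - 2 ^ J * min (2 / 3) (1 / (f.natDegree : ℝ))) / 2)
      (by linarith)).cofinite (by linarith)).mono fun M hM => hsub hM

end

end Pool.Agent.Run7.h757.MW
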