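import Pool.Agent.Run7.h757.MW.Det

/-!
# Project MW: one dyadic block
-/

open Finset MeasureTheory Filter

namespace Pool.Agent.Run7.h757.MW

noncomputable section

/-- the length of the averages -/
def HH (k j B : ℕ) : ℕ := ⌊(2 : ℝ) ^ (j * k) / ((j : ℝ) + 1) ^ B⌋₊

theorem tendsto_l : Tendsto (fun j : ℕ => (j : ℝ) + 1) atTop atTop :=
  tendsto_atTop_add_const_right _ _ tendsto_natCast_atTop_atTop

/-- powers of two beat powers of `j + 1` -/
theorem pow_beats (B : ℕ) (C : ℝ) : ∀ᶠ j : ℕ in atTop, C * ((j : ℝ) + 1) ^ B ≤ (2 : ℝ) ^ j := by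
  have h1 : Tendsto (fun n : ℕ => (n : ℝ) ^ B / (2 : ℝ) ^ n) atTop (nhds 0) :=
    tendsto_pow_const_div_const_pow_of_one_lt B (by norm_num)
  have h2 : Tendsto (fun j : ℕ => (((j + 1 : ℕ) : ℝ)) ^ B / (2 : ℝ) ^ (j + 1)) atTop (nhds 0) :=
    h1.comp (tendsto_add_atTop_nat 1)
  have h3 : ∀ᶠ j : ℕ in atTop, (((j + 1 : ℕ) : ℝ)) ^ B / (2 : ℝ) ^ (j + 1) <
      1 / (2 * (|C| + 1)) := h2.eventually_lt_const (by positivity)
  filter_upwards [h3] with j hj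
  rw [div_lt_div_iff₀ (by positivity) (by positivity)] at hj
  push_cast at hj
  rw [pow_succ] at hj
  have h4 : C * ((j : ℝ) + 1) ^ B ≤ (|C| + 1) * ((j : ℝ) + 1) ^ B := by
    refine mul_le_mul_of_nonneg_right ?_ (by positivity)
    have := le_abs_self C
    linarith
  nlinarith

theorem block_lower {kk : ℕ → ℕ → ℕ → ℝ} (hkk : ∀ Q H r, 0 ≤ kk Q H r ∧ kk Q H r ≤ 1)
    (hkk2 : ∀ Q H r, 1 ≤ Q → 1 ≤ H → r < Q → kk Q H r ≤ 5 * (H * |rep Q r|) ^ (1 / 2 : ℝ))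
    (hkk3 : ∀ (Q H M : ℕ) (c : ℕ → ℝ), 1 ≤ H → H ≤ M → M + H ≤ Q → (∀ m, 0 ≤ c m) →
      1 / (2 * (H : ℝ)) * ∑ m ∈ Icc (M - H / 2) (M + H / 2), c m -
        ‖1 / (Q : ℂ) * ∑ r ∈ Ico 1 Q, kk Q H r * dft Q c r * e (-(M * rep Q r))‖ ≤ c M)
    (hLBC : S_LBC) (u k : ℕ) (lam : Fin u → ℝ) (W : Fin u → Set ℕ) (c t : ℝ)
    (hu : 1 ≤ u) (hk : 1 ≤ k) (hlam : ∀ i, 0 < lam i) (hc : 0 < c) (ht : 0 ≤ t)
    (hW : ∀ i, Reg c t (W i)) :
    ∃ c₁ : ℝ, 0 < c₁ ∧ ∀ c₂ : ℕ, ∃ K₀ : ℕ, ∀ K : ℕ, K₀ ≤ K → ∀ A q D0 : ℕ, (∀ i, lam i ≤ A) →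
      u * (A * K ^ k) + 2 < q → c₂ + 1 ≤ q → t * u + 1 ≤ D0 → ∃ c₄ : ℝ, 0 < c₄ ∧
      ∀ U : ℕ → Finset ℕ, (∀ᶠ j : ℕ in atTop, ∀ a ∈ U j, a ≤ (2 ^ j) ^ k) →
      (∀ᶠ j : ℕ in atTop, Xlow u k K q (3 * u + 4 + 2 * D0) W lam j ≤
        ((2 : ℝ) ^ j) ^ (2 * u) / ((2 : ℝ) ^ j) ^ (2 * k) / ((j : ℝ) + 1) ^ (2 * D0)) →
      ∀ᶠ j : ℕ in atTop, ∀ M : ℕ, (c₁ + 2) * (2 : ℝ) ^ (j * k) ≤ M →
        (M : ℝ) ≤ c₂ * (2 : ℝ) ^ (j * k) →
        c₄ * ((U j).card : ℝ) ^ 2 * (((2 : ℝ) ^ j) ^ u / ((2 : ℝ) ^ j) ^ k) /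
          ((j : ℝ) + 1) ^ (t * u) ≤
          cn (trp u K W (U j) j) (val u k lam) M +
            EH kk u k K q (HH k j (3 * u + 4 + 2 * D0)) W (U j) lam j M := by
  classical
  obtain ⟨c₁, hc₁, hLBC⟩ := hLBC u k lam W c t hu hk hlam hc ht hW
  refine ⟨c₁, hc₁, fun c₂ => ?_⟩
  obtain ⟨K₀, hLBC⟩ := hLBC c₂
  refine ⟨K₀, fun K hK A q D0 hA hq hq2 hD0 => ?_⟩
  set B : ℕ := 3 * u + 4 + 2 * D0 with hB
  obtain ⟨c₃, hc₃, hLBC⟩ := hLBC K hK B
  refine ⟨c₃ / 4, by positivity, fun U hU hX => ?_⟩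
  have hev2 : ∀ᶠ j : ℕ in atTop, 60 / c₃ ≤ (j : ℝ) + 1 := tendsto_l.eventually_ge_atTop _
  filter_upwards [hLBC, hU, hX, hev2, pow_beats B 1] with j hj hUj hXj hl2 hbeat
  intro M hM1 hM2
  set N : ℝ := (2 : ℝ) ^ j with hN
  set l : ℝ := (j : ℝ) + 1 with hl
  have hN1 : 1 ≤ N := one_le_pow₀ (by norm_num)
  have hN0 : 0 < N := by linarith
  have hl1 : 1 ≤ l := by
    have : (0 : ℝ) ≤ j := by positivity
    linarith
  have hl0 : 0 < l := by linarith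
  have hNk : (2 : ℝ) ^ (j * k) = N ^ k := pow_mul 2 j k
  have hNN : N ≤ N ^ k := le_self_pow₀ hN1 (by omega)
  set H : ℕ := HH k j B with hH
  have hH1 : 1 ≤ H := by
    rw [hH]
    unfold HH
    rw [Nat.one_le_floor_iff, le_div_iff₀ (by positivity), hNk]
    linarith
  have hH0 : (0 : ℝ) < H := by exact_mod_cast hH1
  have hHB : (H : ℝ) ≤ N ^ k / l ^ B := by
    rw [hH, ← hNk]
    unfold HH
    exact Nat.floor_le (by positivity)
  have hHN : (H : ℝ) ≤ N ^ k := by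
    refine hHB.trans (div_le_self (by positivity) (one_le_pow₀ hl1))
  have hHM : H ≤ M := by
    have h1 : (H : ℝ) ≤ M := by
      rw [hNk] at hM1
      nlinarith [pow_pos hN0 k]
    exact_mod_cast h1
  have hMH : M + H ≤ q * 2 ^ (j * k) := by
    have h1 : (M : ℝ) + H ≤ q * (2 : ℝ) ^ (j * k) := by
      have h2 : ((c₂ : ℝ) + 1) ≤ q := by exact_mod_cast hq2
      have h3 : ((c₂ : ℝ) + 1) * (2 : ℝ) ^ (j * k) ≤ q * (2 : ℝ) ^ (j * k) :=
        mul_le_mul_of_nonneg_right h2 (by positivity)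
      rw [← hNk] at hHN
      linarith
    exact_mod_cast h1
  have hdet := det_main hkk hkk2 hkk3 u k K A q B H W (U j) lam j M (fun i => (hlam i).le) hA hUj hq
    hH1 hHB hHM hMH
  -- the main term
  have hcount : ((U j).card : ℝ) ^ 2 * (c₃ * (2 : ℝ) ^ (j * u) / l ^ ((B : ℝ) + t * u)) ≤
      (((trp u K W (U j) j).filter fun p => val u k lam p ∈
        Icc (M - H / 2) (M + H / 2)).card : ℝ) := by
    have h1 : ((trp u K W (U j) j).filter fun p => val u k lam p ∈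
        Icc (M - H / 2) (M + H / 2)).card = ∑ ab ∈ (U j) ×ˢ (U j),
          ((tup u K W j).filter fun n => val u k lam (ab, n) ∈
            Icc (M - H / 2) (M + H / 2)).card := by
      unfold trp
      simp only [Finset.card_filter]
      rw [Finset.sum_product]
    rw [h1]
    push_cast
    have h2 : ∀ ab ∈ (U j) ×ˢ (U j), c₃ * (2 : ℝ) ^ (j * u) / l ^ ((B : ℝ) + t * u) ≤
        (((tup u K W j).filter fun n => val u k lam (ab, n) ∈
            Icc (M - H / 2) (M + H / 2)).card : ℝ) := by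
      intro ab hab
      rw [mem_product] at hab
      have ha := hUj _ hab.1
      have hb := hUj _ hab.2
      have ha' : (ab.1 : ℝ) ≤ N ^ k := by
        rw [hN]
        exact_mod_cast ha
      have hb' : (ab.2 : ℝ) ≤ N ^ k := by
        rw [hN]
        exact_mod_cast hb
      have hle : ab.1 + ab.2 ≤ M := by
        have h3 : (ab.1 : ℝ) + ab.2 ≤ M := by
          rw [hNk] at hM1
          nlinarith [pow_pos hN0 k]
        exact_mod_cast h3
      obtain ⟨y, hy⟩ : ∃ y, M = ab.1 + ab.2 + y := ⟨M - (ab.1 + ab.2), by omega⟩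
      have hy' : (M : ℝ) = ab.1 + ab.2 + y := by exact_mod_cast hy
      refine (hj y ?_ ?_).trans ?_
      · rw [hNk] at hM1 ⊢
        nlinarith
      · have : (0 : ℝ) ≤ (ab.1 : ℝ) + ab.2 := by positivity
        linarith
      · have h4 : (((Fintype.piFinset fun i => blk (W i) K (2 ^ j)).filter fun n =>
          2 * |((∑ i, fl (lam i) (n i ^ k) : ℕ) : ℤ) - y| ≤
            (⌊(2 : ℝ) ^ (j * k) / ((j : ℝ) + 1) ^ B⌋₊ : ℤ))) ⊆
            ((tup u K W j).filter fun n => val u k lam (ab, n) ∈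
              Icc (M - H / 2) (M + H / 2)) := by
          intro n hn
          rw [mem_filter] at hn ⊢
          refine ⟨hn.1, ?_⟩
          have h5 := hn.2
          unfold val
          rw [mem_Icc]
          have h6 : (⌊(2 : ℝ) ^ (j * k) / ((j : ℝ) + 1) ^ B⌋₊ : ℤ) = (H : ℤ) := rfl
          rw [h6] at h5
          have h7 : |((∑ i, fl (lam i) (n i ^ k) : ℕ) : ℤ) - y| * 2 ≤ H := by linarith
          generalize ∑ i, fl (lam i) (n i ^ k) = s at h7 ⊢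
          have h8 := neg_abs_le (((s : ℕ) : ℤ) - y)
          have h9 := le_abs_self (((s : ℕ) : ℤ) - y)
          change M - H / 2 ≤ ab.1 + ab.2 + s ∧ ab.1 + ab.2 + s ≤ M + H / 2
          clear hdet h1 hj hLBC
          constructor <;> omega
        exact Nat.cast_le.2 (Finset.card_le_card h4)
    calc _ = ∑ _ab ∈ (U j) ×ˢ (U j), c₃ * (2 : ℝ) ^ (j * u) / l ^ ((B : ℝ) + t * u) := by
          rw [Finset.sum_const, card_product, nsmul_eq_mul]
          push_cast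
          ring
      _ ≤ _ := Finset.sum_le_sum h2
  have hmain : c₃ / 2 * ((U j).card : ℝ) ^ 2 * (N ^ u / N ^ k) / l ^ (t * u) ≤
      1 / (2 * (H : ℝ)) * (((trp u K W (U j) j).filter fun p => val u k lam p ∈
        Icc (M - H / 2) (M + H / 2)).card : ℝ) := by
    have h1 : l ^ B / N ^ k ≤ 1 / (H : ℝ) := by
      rw [div_le_div_iff₀ (by positivity) hH0]
      rw [le_div_iff₀ (by positivity)] at hHB
      linarith
    have h2 : 1 / (2 * (H : ℝ)) = 1 / 2 * (1 / H) := by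
      field_simp
    rw [h2]
    calc c₃ / 2 * ((U j).card : ℝ) ^ 2 * (N ^ u / N ^ k) / l ^ (t * u)
        = 1 / 2 * (l ^ B / N ^ k) * (((U j).card : ℝ) ^ 2 *
          (c₃ * (2 : ℝ) ^ (j * u) / l ^ ((B : ℝ) + t * u))) := by
          rw [Real.rpow_add hl0, Real.rpow_natCast, pow_mul, ← hN]
          have : (0 : ℝ) < l ^ (t * u) := Real.rpow_pos_of_pos hl0 _
          field_simp
      _ ≤ 1 / 2 * (1 / (H : ℝ)) * (((trp u K W (U j) j).filter fun p => val u k lam p ∈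
        Icc (M - H / 2) (M + H / 2)).card : ℝ) := by
          refine mul_le_mul ?_ hcount (by positivity) (by positivity)
          exact mul_le_mul_of_nonneg_left h1 (by norm_num)
  have hlow : 15 * ((U j).card : ℝ) ^ 2 * Real.sqrt (Xlow u k K q B W lam j) ≤
      c₃ / 4 * ((U j).card : ℝ) ^ 2 * (N ^ u / N ^ k) / l ^ (t * u) := by
    have h1 : Real.sqrt (Xlow u k K q B W lam j) ≤ N ^ u / N ^ k / l ^ D0 := by
      rw [Real.sqrt_le_left (by positivity)]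
      refine hXj.trans (le_of_eq ?_)
      rw [div_pow, div_pow, ← pow_mul N u 2, ← pow_mul N k 2, ← pow_mul l D0 2, mul_comm u 2,
        mul_comm k 2, mul_comm D0 2]
    have h2 : 15 / l ^ D0 ≤ c₃ / 4 / l ^ (t * u) := by
      have h3 : l ^ (t * u + 1) ≤ l ^ D0 := by
        rw [← Real.rpow_natCast]
        exact Real.rpow_le_rpow_of_exponent_le hl1 hD0
      rw [Real.rpow_add hl0, Real.rpow_one] at h3
      have h4 : (0 : ℝ) < l ^ (t * u) := Real.rpow_pos_of_pos hl0 _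
      rw [div_le_div_iff₀ (by positivity) h4]
      rw [div_le_iff₀ hc₃] at hl2
      have h5 : c₃ / 4 * (l ^ (t * u) * l) ≤ c₃ / 4 * l ^ D0 :=
        mul_le_mul_of_nonneg_left h3 (by positivity)
      nlinarith
    calc 15 * ((U j).card : ℝ) ^ 2 * Real.sqrt (Xlow u k K q B W lam j)
        ≤ 15 * ((U j).card : ℝ) ^ 2 * (N ^ u / N ^ k / l ^ D0) := by gcongr
      _ = ((U j).card : ℝ) ^ 2 * (N ^ u / N ^ k) * (15 / l ^ D0) := by ring
      _ ≤ ((U j).card : ℝ) ^ 2 * (N ^ u / N ^ k) * (c₃ / 4 / l ^ (t * u)) := by gcongr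
      _ = _ := by ring
  have hsum : c₃ / 2 * ((U j).card : ℝ) ^ 2 * (N ^ u / N ^ k) / l ^ (t * u) =
      c₃ / 4 * ((U j).card : ℝ) ^ 2 * (N ^ u / N ^ k) / l ^ (t * u) +
        c₃ / 4 * ((U j).card : ℝ) ^ 2 * (N ^ u / N ^ k) / l ^ (t * u) := by ring
  linarith

end

end Pool.Agent.Run7.h757.MW
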