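import Pool.Agent.Run7.h757.MW.MT

/-!
# Project MW: the two random sums
-/

open Finset MeasureTheory Filter

namespace Pool.Agent.Run7.h757.MW

noncomputable section

theorem rep_abs {Q r : ℕ} (hr : r ∈ Ico 1 Q) :
    0 < |rep Q r| ∧ |rep Q r| ≤ 1 / 2 ∧
      1 / (Q * |rep Q r|) ≤ 1 / (r : ℝ) + 1 / ((Q : ℝ) - r) ∧ 1 ≤ Q * |rep Q r| := by
  rw [mem_Ico] at hr
  have hr1 : (1 : ℝ) ≤ r := by exact_mod_cast hr.1
  have hrQ : (r : ℝ) + 1 ≤ Q := by exact_mod_cast hr.2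
  have hQ : (0 : ℝ) < Q := by linarith
  unfold rep
  split_ifs with h
  · have h' : 2 * (r : ℝ) ≤ Q := by exact_mod_cast h
    have e1 : |(r : ℝ) / Q| = r / Q := abs_of_pos (by positivity)
    have e2 : (Q : ℝ) * (r / Q) = r := by field_simp
    rw [e1, e2]
    refine ⟨by positivity, ?_, ?_, hr1⟩
    · rw [div_le_div_iff₀ hQ (by norm_num)]
      linarith
    · have : 0 ≤ 1 / ((Q : ℝ) - r) := by
        apply div_nonneg (by norm_num)
        linarith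
      linarith
  · have h' : (Q : ℝ) < 2 * r := by exact_mod_cast (not_le.1 h)
    have e1 : |(r : ℝ) / Q - 1| = 1 - r / Q := by
      rw [abs_sub_comm, abs_of_pos]
      rw [sub_pos, div_lt_one hQ]
      linarith
    have e2 : (Q : ℝ) * (1 - r / Q) = Q - r := by field_simp
    rw [e1, e2]
    refine ⟨?_, ?_, ?_, by linarith⟩
    · rw [sub_pos, div_lt_one hQ]
      linarith
    · rw [sub_le_iff_le_add, ← sub_le_iff_le_add', le_div_iff₀ hQ]
      linarith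
    · have : 0 ≤ 1 / (r : ℝ) := by positivity
      linarith

/-- sum of the inverses of the distances -/
theorem sum_inv_rep (Q : ℕ) :
    ∑ r ∈ Ico 1 Q, 1 / (Q * |rep Q r|) ≤ 2 * (1 + Real.log Q) := by
  rcases Nat.eq_zero_or_pos Q with h0 | hQ
  · subst h0
    simp
  have h1 : ∑ r ∈ Ico 1 Q, 1 / (Q * |rep Q r|) ≤
      ∑ r ∈ Ico 1 Q, (1 / (r : ℝ) + 1 / ((Q : ℝ) - r)) :=
    Finset.sum_le_sum fun r hr => (rep_abs hr).2.2.1
  have h2 : ∑ r ∈ Ico 1 Q, 1 / ((Q : ℝ) - r) = ∑ r ∈ Ico 1 Q, 1 / (r : ℝ) := by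
    refine Finset.sum_bij' (fun r _ => Q - r) (fun r _ => Q - r) ?_ ?_ ?_ ?_ ?_
    · intro r hr
      rw [mem_Ico] at hr ⊢
      omega
    · intro r hr
      rw [mem_Ico] at hr ⊢
      omega
    · intro r hr
      rw [mem_Ico] at hr
      omega
    · intro r hr
      rw [mem_Ico] at hr
      omega
    · intro r hr
      rw [mem_Ico] at hr
      rw [Nat.cast_sub hr.2.le]
  have h3 : ∑ r ∈ Ico 1 Q, 1 / (r : ℝ) ≤ 1 + Real.log Q := by
    have h4 : ∑ r ∈ Ico 1 Q, 1 / (r : ℝ) = ((harmonic (Q - 1) : ℚ) : ℝ) := by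
      unfold harmonic
      push_cast
      rw [Finset.sum_Ico_eq_sum_range]
      refine Finset.sum_congr rfl fun i _ => ?_
      push_cast
      rw [one_div, add_comm]
    rw [h4]
    refine (harmonic_le_one_add_log (Q - 1)).trans ?_
    rcases Nat.eq_zero_or_pos (Q - 1) with h5 | h5
    · rw [h5]
      simp
      exact Real.log_nonneg (by exact_mod_cast hQ)
    · have h6 : (0 : ℝ) < ((Q - 1 : ℕ) : ℝ) := by exact_mod_cast h5
      have h7 : ((Q - 1 : ℕ) : ℝ) ≤ Q := by exact_mod_cast Nat.sub_le Q 1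
      have := Real.log_le_log h6 h7
      linarith
  rw [Finset.sum_add_distrib, h2] at h1
  linarith

theorem sum_inv_sq_rep (Q : ℕ) :
    ∑ r ∈ Ico 1 Q, (1 / (Q * |rep Q r|)) ^ 2 ≤ 8 := by
  have h0 : ∀ r ∈ Ico 1 Q, (1 / (Q * |rep Q r|)) ^ 2 ≤
      2 * (1 / (r : ℝ) ^ 2) + 2 * (1 / ((Q : ℝ) - r) ^ 2) := by
    intro r hr
    obtain ⟨h1, -, h3, -⟩ := rep_abs hr
    rw [mem_Ico] at hr
    have hQ : (0 : ℝ) < Q := by
      have : 0 < Q := by omega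
      exact_mod_cast this
    have h4 : (0 : ℝ) ≤ 1 / (Q * |rep Q r|) := by positivity
    calc (1 / (Q * |rep Q r|)) ^ 2 ≤ (1 / (r : ℝ) + 1 / ((Q : ℝ) - r)) ^ 2 := by gcongr
      _ ≤ 2 * (1 / (r : ℝ)) ^ 2 + 2 * (1 / ((Q : ℝ) - r)) ^ 2 := by
        nlinarith [sq_nonneg (1 / (r : ℝ) - 1 / ((Q : ℝ) - r))]
      _ = _ := by rw [one_div_pow, one_div_pow]
  have h2 : ∑ r ∈ Ico 1 Q, 1 / ((Q : ℝ) - r) ^ 2 = ∑ r ∈ Ico 1 Q, 1 / (r : ℝ) ^ 2 := by
    refine Finset.sum_bij' (fun r _ => Q - r) (fun r _ => Q - r) ?_ ?_ ?_ ?_ ?_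
    · intro r hr
      rw [mem_Ico] at hr ⊢
      omega
    · intro r hr
      rw [mem_Ico] at hr ⊢
      omega
    · intro r hr
      rw [mem_Ico] at hr
      omega
    · intro r hr
      rw [mem_Ico] at hr
      omega
    · intro r hr
      rw [mem_Ico] at hr
      rw [Nat.cast_sub hr.2.le]
  have h3 : ∑ r ∈ Ico 1 Q, 1 / (r : ℝ) ^ 2 ≤ 2 := by
    have h4 : ∀ n : ℕ, ∑ r ∈ Ico 1 (n + 2), 1 / (r : ℝ) ^ 2 ≤ 2 - 1 / ((n : ℝ) + 1) := by
      intro n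
      induction n with
      | zero => norm_num
      | succ n ih =>
        rw [Finset.sum_Ico_succ_top (by omega)]
        refine (add_le_add_left ih _).trans ?_
        push_cast
        have h7 : 1 / ((n : ℝ) + 2) ^ 2 ≤ 1 / ((n : ℝ) + 1) - 1 / ((n : ℝ) + 1 + 1) := by
          rw [div_sub_div _ _ (by positivity) (by positivity),
            div_le_div_iff₀ (by positivity) (by positivity)]
          nlinarith [(by positivity : (0 : ℝ) ≤ (n : ℝ))]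
        have h8 : (n : ℝ) + 1 + 1 = n + 2 := by ring
        rw [h8] at h7 ⊢
        linarith
    rcases Nat.lt_or_ge Q 2 with h5 | h5
    · have : Ico 1 Q = ∅ := Finset.Ico_eq_empty (by omega)
      rw [this]
      simp
    · obtain ⟨n, rfl⟩ : ∃ n, Q = n + 2 := ⟨Q - 2, by omega⟩
      refine (h4 n).trans ?_
      have : (0 : ℝ) ≤ 1 / ((n : ℝ) + 1) := by positivity
      linarith
  calc _ ≤ ∑ r ∈ Ico 1 Q, (2 * (1 / (r : ℝ) ^ 2) + 2 * (1 / ((Q : ℝ) - r) ^ 2)) :=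
        Finset.sum_le_sum h0
    _ = 2 * ∑ r ∈ Ico 1 Q, 1 / (r : ℝ) ^ 2 + 2 * ∑ r ∈ Ico 1 Q, 1 / ((Q : ℝ) - r) ^ 2 := by
        rw [Finset.sum_add_distrib, Finset.mul_sum, Finset.mul_sum]
    _ ≤ 8 := by rw [h2]; linarith

theorem blk_ms (hMT : S_MT) (k K A : ℕ) (hk : 1 ≤ k) (hK : 2 ≤ K) (hA : 1 ≤ A) :
    ∃ C : ℝ, 0 < C ∧ ∀ (W : Set ℕ) (j : ℕ) (b : ℝ), b ≠ 0 → |b| ≤ 1 / 2 →
      ∫ lam in (0 : ℝ)..A, ‖T (fun n => n ^ k) (blk W K (2 ^ j)) lam b‖ ^ 2 ≤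
        C * (2 : ℝ) ^ j * ((j : ℝ) + 1) ^ 3 * (1 + 1 / (|b| * ((2 : ℝ) ^ j) ^ (k - 1))) := by
  obtain ⟨C, hC, hMT⟩ := hMT
  have hK' : (2 : ℝ) ≤ K := by exact_mod_cast hK
  have hlK : 0 ≤ Real.log K := Real.log_nonneg (by linarith)
  have hA' : (1 : ℝ) ≤ A := by exact_mod_cast hA
  refine ⟨C * A * K * (1 + Real.log K) ^ 3, by positivity, ?_⟩
  intro W j b hb0 hb
  have hN : 1 ≤ 2 ^ j := Nat.one_le_two_pow
  have hD : 1 ≤ (K - 1) * 2 ^ j := Nat.mul_pos (by omega) hN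
  have hsub : blk W K (2 ^ j) ⊆ Ioc (2 ^ j) (2 ^ j + (K - 1) * 2 ^ j) := by
    intro y hy
    have hy' : y ∈ Ioc (2 ^ j) (K * 2 ^ j) ∧ y ∈ W := by
      simpa only [blk, Finset.mem_filter] using hy
    have h0 := mem_Ioc.1 hy'.1
    refine mem_Ioc.2 ⟨h0.1, h0.2.trans (le_of_eq ?_)⟩
    obtain ⟨m, rfl⟩ : ∃ m, K = m + 1 := ⟨K - 1, by omega⟩
    rw [Nat.add_sub_cancel]
    ring
  have hSp : Sp (fun n => n ^ k) (blk W K (2 ^ j)) (((2 : ℝ) ^ j) ^ (k - 1)) := by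
    intro n hn m hm hmn
    have hm1 : 2 ^ j < m := by
      have := hsub hm
      rw [mem_Ioc] at this
      exact this.1
    have hm2 : (2 : ℝ) ^ j ≤ m := by exact_mod_cast hm1.le
    have hmn' : (m : ℝ) ≤ n := by exact_mod_cast hmn.le
    have h2 : (0 : ℝ) ≤ (n : ℝ) - m := by linarith
    push_cast
    have h3 : (n : ℝ) ^ k - (m : ℝ) ^ k =
        (∑ i ∈ range k, (n : ℝ) ^ i * (m : ℝ) ^ (k - 1 - i)) * ((n : ℝ) - m) :=
      (Commute.all (n : ℝ) (m : ℝ)).geom_sum₂_mul k |>.symm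
    rw [h3]
    refine mul_le_mul_of_nonneg_right ?_ h2
    have h4 : ((2 : ℝ) ^ j) ^ (k - 1) ≤ (m : ℝ) ^ (k - 1) := by gcongr
    refine h4.trans ?_
    have h5 : (m : ℝ) ^ (k - 1) = (n : ℝ) ^ 0 * (m : ℝ) ^ (k - 1 - 0) := by simp
    rw [h5]
    exact Finset.single_le_sum (f := fun i => (n : ℝ) ^ i * (m : ℝ) ^ (k - 1 - i))
      (fun i _ => by positivity) (mem_range.2 (by omega))
  have hP : (1 : ℝ) ≤ ((2 : ℝ) ^ j) ^ (k - 1) := one_le_pow₀ (one_le_pow₀ (by norm_num))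
  have h1 := hMT (fun n => n ^ k) (blk W K (2 ^ j)) (((2 : ℝ) ^ j) ^ (k - 1)) ((K - 1) * 2 ^ j)
    (2 ^ j) A b hD hP hA hsub hSp ?_ hb0 hb
  · refine h1.trans ?_
    have hDle : (((K - 1) * 2 ^ j : ℕ) : ℝ) ≤ K * (2 : ℝ) ^ j := by
      have : (K - 1) * 2 ^ j ≤ K * 2 ^ j := Nat.mul_le_mul_right _ (Nat.sub_le _ _)
      exact_mod_cast this
    have hDpos : (0 : ℝ) < (((K - 1) * 2 ^ j : ℕ) : ℝ) := by exact_mod_cast hD
    have hlog : 1 + Real.log (((K - 1) * 2 ^ j : ℕ) : ℝ) ≤ (1 + Real.log K) * ((j : ℝ) + 1) := by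
      have h2 := Real.log_le_log hDpos hDle
      rw [Real.log_mul (by positivity) (by positivity), Real.log_pow] at h2
      have h3 : (j : ℝ) * Real.log 2 ≤ j := by
        have : Real.log 2 ≤ 1 := by
          have := Real.log_two_lt_d9
          linarith
        have hj : (0 : ℝ) ≤ j := by positivity
        nlinarith
      have h4 : 0 ≤ Real.log K * j := by positivity
      nlinarith
    have hlog0 : 0 ≤ 1 + Real.log (((K - 1) * 2 ^ j : ℕ) : ℝ) := by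
      have : 0 ≤ Real.log (((K - 1) * 2 ^ j : ℕ) : ℝ) :=
        Real.log_nonneg (by exact_mod_cast hD)
      linarith
    have hE : 0 ≤ 1 + 1 / (|b| * ((2 : ℝ) ^ j) ^ (k - 1)) := by positivity
    refine mul_le_mul_of_nonneg_right ?_ hE
    calc C * A * (((K - 1) * 2 ^ j : ℕ) : ℝ) * (1 + Real.log (((K - 1) * 2 ^ j : ℕ) : ℝ)) ^ 3
        ≤ C * A * (K * (2 : ℝ) ^ j) * ((1 + Real.log K) * ((j : ℝ) + 1)) ^ 3 := by gcongr
      _ = _ := by ring
  · intro n hn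
    have := hsub hn
    rw [mem_Ioc] at this
    exact Nat.one_le_pow _ _ (by omega)

/-- the low frequencies -/
def low (k j Q : ℕ) : Finset ℕ := (Ico 1 Q).filter fun r => |rep Q r| * ((2 : ℝ) ^ j) ^ (k - 1) ≤ 1

/-- the high frequencies -/
def high (k j Q : ℕ) : Finset ℕ :=
  (Ico 1 Q).filter fun r => ¬ |rep Q r| * ((2 : ℝ) ^ j) ^ (k - 1) ≤ 1

/-- the weighted sum over the low frequencies -/
def Xlow (u k K q : ℕ) (B : ℕ) (W : Fin u → Set ℕ) (x : Fin u → ℝ) (j : ℕ) : ℝ :=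
  ∑ r ∈ low k j (q * 2 ^ (j * k)),
    ((2 : ℝ) ^ j) ^ k / ((j : ℝ) + 1) ^ B * |rep (q * 2 ^ (j * k)) r| ^ 3 *
      ∏ i, ‖T (fun n => n ^ k) (blk (W i) K (2 ^ j)) (x i) (rep (q * 2 ^ (j * k)) r)‖ ^ 2

/-- the exponential sum over `U` -/
def SU (U : Finset ℕ) (b : ℝ) : ℂ := ∑ a ∈ U, e (a * b)

/-- the weighted sum over the high frequencies -/
def Xhigh (u k K q : ℕ) (U : Finset ℕ) (W : Fin u → Set ℕ) (x : Fin u → ℝ) (j : ℕ) : ℝ :=
  ∑ r ∈ high k j (q * 2 ^ (j * k)),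
    1 / ((q * 2 ^ (j * k) : ℕ) : ℝ) * ‖SU U (rep (q * 2 ^ (j * k)) r)‖ ^ 2 *
      ∏ i, ‖T (fun n => n ^ k) (blk (W i) K (2 ^ j)) (x i) (rep (q * 2 ^ (j * k)) r)‖ ^ 2

theorem core_low (hMT : S_MT) (hAE : S_AE) (u k A K q D0 : ℕ) (hu : 4 ≤ u) (hk : 2 ≤ k)
    (hA : 1 ≤ A) (hK : 2 ≤ K) (hq : 1 ≤ q) (W : Fin u → Set ℕ) :
    ∀ᵐ x : Fin u → ℝ, x ∈ Box u A → ∀ᶠ j : ℕ in atTop,
      Xlow u k K q (3 * u + 4 + 2 * D0) W x j ≤
        ((2 : ℝ) ^ j) ^ (2 * u) / ((2 : ℝ) ^ j) ^ (2 * k) / ((j : ℝ) + 1) ^ (2 * D0) := by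
  obtain ⟨C, hC, hms⟩ := blk_ms hMT k K A (by omega) hK hA
  set B : ℕ := 3 * u + 4 + 2 * D0 with hB
  refine hAE u A 2 (fun _ n => n ^ k) (fun j i => blk (W i) K (2 ^ j))
    (fun j => low k j (q * 2 ^ (j * k)))
    (fun j r => ((2 : ℝ) ^ j) ^ k / ((j : ℝ) + 1) ^ B * |rep (q * 2 ^ (j * k)) r| ^ 3)
    (fun j r => rep (q * 2 ^ (j * k)) r)
    (fun j => ((2 : ℝ) ^ j) ^ (2 * u) / ((2 : ℝ) ^ j) ^ (2 * k) / ((j : ℝ) + 1) ^ (2 * D0))
    (fun j r => by positivity) (fun j => by positivity) ?_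
  -- the constant
  set C2 : ℝ := (2 * C) ^ u * (q : ℝ) ^ (u - 3) * (2 * (1 + Real.log q + k)) with hC2
  have hq' : (1 : ℝ) ≤ q := by exact_mod_cast hq
  have hlq : 0 ≤ Real.log q := Real.log_nonneg hq'
  have hev : ∀ᶠ j : ℕ in atTop, C2 ≤ (j : ℝ) + 1 := by
    obtain ⟨n, hn⟩ := exists_nat_gt C2
    filter_upwards [eventually_ge_atTop n] with j hj
    have : (n : ℝ) ≤ j := by exact_mod_cast hj
    linarith
  filter_upwards [hev] with j hj
  set Q : ℕ := q * 2 ^ (j * k) with hQ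
  set N : ℝ := (2 : ℝ) ^ j with hN
  set l : ℝ := (j : ℝ) + 1 with hl
  have hN1 : 1 ≤ N := one_le_pow₀ (by norm_num)
  have hN0 : 0 < N := by linarith
  have hl1 : 1 ≤ l := by
    have : (0 : ℝ) ≤ j := by positivity
    linarith
  have hl0 : 0 < l := by linarith
  have hQr : (Q : ℝ) = q * N ^ k := by
    rw [hQ, hN, ← pow_mul]
    push_cast
    ring
  have hQ1 : 1 ≤ Q := Nat.mul_pos hq (pow_pos (by norm_num) _)
  have hQ0 : (0 : ℝ) < Q := by exact_mod_cast hQ1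
  have hlogQ : 1 + Real.log Q ≤ (1 + Real.log q + k) * l := by
    rw [hQr, Real.log_mul (by positivity) (by positivity), Real.log_pow, hN, Real.log_pow]
    have h2 : Real.log 2 ≤ 1 := by
      have := Real.log_two_lt_d9
      linarith
    have hj0 : (0 : ℝ) ≤ j := by positivity
    have hk0 : (0 : ℝ) ≤ k := by positivity
    have h3 : (k : ℝ) * ((j : ℝ) * Real.log 2) ≤ k * j := by
      refine mul_le_mul_of_nonneg_left ?_ hk0
      nlinarith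
    rw [hl]
    nlinarith [mul_nonneg hlq hj0, mul_nonneg hk0 hj0]
  -- termwise bound
  have hterm : ∀ r ∈ low k j Q, N ^ k / l ^ B * |rep Q r| ^ 3 *
      ∏ i, ∫ lam in (0 : ℝ)..A, ‖T (fun n => n ^ k) (blk (W i) K (2 ^ j)) lam (rep Q r)‖ ^ 2 ≤
      N ^ k / l ^ B * ((2 * C * l ^ 3 * N ^ 2 / N ^ k) ^ u * (Q : ℝ) ^ (u - 3)) *
        (1 / (Q * |rep Q r|)) := by
    intro r hr
    unfold low at hr
    rw [mem_filter] at hr
    obtain ⟨hr, hlow⟩ := hr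
    obtain ⟨h1, h2, -, h4⟩ := rep_abs hr
    have hb : rep Q r ≠ 0 := abs_pos.1 h1
    have hprod : ∏ i, ∫ lam in (0 : ℝ)..A,
        ‖T (fun n => n ^ k) (blk (W i) K (2 ^ j)) lam (rep Q r)‖ ^ 2 ≤
        (2 * C * l ^ 3 * N ^ 2 / N ^ k / |rep Q r|) ^ u := by
      have h5 : ∀ i ∈ (univ : Finset (Fin u)), ∫ lam in (0 : ℝ)..A,
          ‖T (fun n => n ^ k) (blk (W i) K (2 ^ j)) lam (rep Q r)‖ ^ 2 ≤
          2 * C * l ^ 3 * N ^ 2 / N ^ k / |rep Q r| := by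
        intro i _
        refine (hms (W i) j (rep Q r) hb h2).trans ?_
        have h6 : 1 + 1 / (|rep Q r| * N ^ (k - 1)) ≤ 2 * (1 / (|rep Q r| * N ^ (k - 1))) := by
          have : 1 ≤ 1 / (|rep Q r| * N ^ (k - 1)) := by
            rw [le_div_iff₀ (by positivity)]
            linarith
          linarith
        calc C * N * l ^ 3 * (1 + 1 / (|rep Q r| * N ^ (k - 1)))
            ≤ C * N * l ^ 3 * (2 * (1 / (|rep Q r| * N ^ (k - 1)))) := by gcongr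
          _ = 2 * C * l ^ 3 * N ^ 2 / N ^ k / |rep Q r| := by
            obtain ⟨m, rfl⟩ : ∃ m, k = m + 1 := ⟨k - 1, by omega⟩
            simp only [Nat.add_sub_cancel]
            rw [pow_succ N m]
            field_simp
      calc _ ≤ ∏ _i : Fin u, 2 * C * l ^ 3 * N ^ 2 / N ^ k / |rep Q r| := by
            refine Finset.prod_le_prod (fun i _ => ?_) h5
            exact intervalIntegral.integral_nonneg (by positivity) fun _ _ => by positivity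
        _ = _ := by rw [Finset.prod_const, Finset.card_univ, Fintype.card_fin]
    have h7 : |rep Q r| ^ 3 * (2 * C * l ^ 3 * N ^ 2 / N ^ k / |rep Q r|) ^ u =
        (2 * C * l ^ 3 * N ^ 2 / N ^ k) ^ u * (1 / |rep Q r|) ^ (u - 3) := by
      obtain ⟨m, rfl⟩ : ∃ m, u = m + 3 := ⟨u - 3, by omega⟩
      simp only [Nat.add_sub_cancel]
      rw [div_pow, one_div_pow, pow_add |rep Q r| m 3]
      field_simp
    have h8 : (1 / |rep Q r|) ^ (u - 3) ≤ (Q : ℝ) ^ (u - 3) * (1 / (Q * |rep Q r|)) := by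
      have h9 : 1 / |rep Q r| = Q * (1 / (Q * |rep Q r|)) := by field_simp
      rw [h9, mul_pow]
      refine mul_le_mul_of_nonneg_left ?_ (by positivity)
      have h10 : 1 / (Q * |rep Q r|) ≤ 1 := by
        rw [div_le_one (by positivity)]
        exact h4
      exact pow_le_of_le_one (by positivity) h10 (by omega)
    calc N ^ k / l ^ B * |rep Q r| ^ 3 *
        ∏ i, ∫ lam in (0 : ℝ)..A, ‖T (fun n => n ^ k) (blk (W i) K (2 ^ j)) lam (rep Q r)‖ ^ 2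
        ≤ N ^ k / l ^ B * |rep Q r| ^ 3 * (2 * C * l ^ 3 * N ^ 2 / N ^ k / |rep Q r|) ^ u := by
          gcongr
      _ = N ^ k / l ^ B * (|rep Q r| ^ 3 * (2 * C * l ^ 3 * N ^ 2 / N ^ k / |rep Q r|) ^ u) := by
          ring
      _ = N ^ k / l ^ B * ((2 * C * l ^ 3 * N ^ 2 / N ^ k) ^ u * (1 / |rep Q r|) ^ (u - 3)) := by
          rw [h7]
      _ ≤ N ^ k / l ^ B * ((2 * C * l ^ 3 * N ^ 2 / N ^ k) ^ u *
          ((Q : ℝ) ^ (u - 3) * (1 / (Q * |rep Q r|)))) := by gcongr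
      _ = _ := by ring
  refine (Finset.sum_le_sum hterm).trans ?_
  rw [← Finset.mul_sum]
  have hs : ∑ r ∈ low k j Q, 1 / (Q * |rep Q r|) ≤ 2 * ((1 + Real.log q + k) * l) := by
    calc ∑ r ∈ low k j Q, 1 / (Q * |rep Q r|) ≤ ∑ r ∈ Ico 1 Q, 1 / (Q * |rep Q r|) := by
          refine Finset.sum_le_sum_of_subset_of_nonneg (Finset.filter_subset _ _) fun r _ _ => ?_
          positivity
      _ ≤ 2 * (1 + Real.log Q) := sum_inv_rep Q
      _ ≤ _ := by linarith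
  have hfin : N ^ k / l ^ B * ((2 * C * l ^ 3 * N ^ 2 / N ^ k) ^ u * (Q : ℝ) ^ (u - 3)) *
      (2 * ((1 + Real.log q + k) * l)) =
      C2 * (N ^ (2 * u) / N ^ (2 * k)) / l ^ (2 * D0 + 3) := by
    rw [hC2, hQr, hB]
    obtain ⟨m, rfl⟩ : ∃ m, u = m + 3 := ⟨u - 3, by omega⟩
    simp only [Nat.add_sub_cancel]
    have e1 : 3 * (m + 3) + 4 + 2 * D0 = (3 * (m + 3) + 1) + (2 * D0 + 3) := by ring
    rw [e1, pow_add l (3 * (m + 3) + 1), pow_succ l (3 * (m + 3)), div_pow, mul_pow, mul_pow,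
      mul_pow, mul_pow]
    rw [← pow_mul l, ← pow_mul N 2, ← pow_mul N k (m + 3), ← pow_mul N k m,
      show k * (m + 3) = k * m + k + 2 * k by ring, pow_add N, pow_add N (k * m) k]
    have hq0 : (q : ℝ) ≠ 0 := by positivity
    have hN' : N ≠ 0 := by positivity
    have hl' : l ≠ 0 := by positivity
    field_simp
  calc _ ≤ N ^ k / l ^ B * ((2 * C * l ^ 3 * N ^ 2 / N ^ k) ^ u * (Q : ℝ) ^ (u - 3)) *
        (2 * ((1 + Real.log q + k) * l)) := by gcongr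
    _ = C2 * (N ^ (2 * u) / N ^ (2 * k)) / l ^ (2 * D0 + 3) := hfin
    _ ≤ l * (N ^ (2 * u) / N ^ (2 * k)) / l ^ (2 * D0 + 3) := by gcongr
    _ = N ^ (2 * u) / N ^ (2 * k) / l ^ (2 * D0) / l ^ 2 := by
        rw [show 2 * D0 + 3 = 2 * D0 + 2 + 1 by ring, pow_succ l (2 * D0 + 2), pow_add l (2 * D0) 2]
        field_simp

theorem core_high (hMT : S_MT) (hAE : S_AE) (hPAR : S_PAR) (u k A K q : ℕ) (hk : 2 ≤ k)
    (hA : 1 ≤ A) (hK : 2 ≤ K) (hq : 1 ≤ q) (W : Fin u → Set ℕ) (U : ℕ → Finset ℕ)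
    (hU : ∀ᶠ j : ℕ in atTop, U j ⊆ range (q * 2 ^ (j * k))) :
    ∀ᵐ x : Fin u → ℝ, x ∈ Box u A → ∀ᶠ j : ℕ in atTop,
      Xhigh u k K q (U j) W x j ≤
        ((U j).card + 1) * ((2 : ℝ) ^ j) ^ u * ((j : ℝ) + 1) ^ (3 * u + 3) := by
  obtain ⟨C, hC, hms⟩ := blk_ms hMT k K A (by omega) hK hA
  refine hAE u A 2 (fun _ n => n ^ k) (fun j i => blk (W i) K (2 ^ j))
    (fun j => high k j (q * 2 ^ (j * k)))
    (fun j r => 1 / ((q * 2 ^ (j * k) : ℕ) : ℝ) * ‖SU (U j) (rep (q * 2 ^ (j * k)) r)‖ ^ 2)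
    (fun j r => rep (q * 2 ^ (j * k)) r)
    (fun j => ((U j).card + 1) * ((2 : ℝ) ^ j) ^ u * ((j : ℝ) + 1) ^ (3 * u + 3))
    (fun j r => by positivity) (fun j => by positivity) ?_
  have hev : ∀ᶠ j : ℕ in atTop, (2 * C) ^ u ≤ (j : ℝ) + 1 := by
    obtain ⟨n, hn⟩ := exists_nat_gt ((2 * C) ^ u)
    filter_upwards [eventually_ge_atTop n] with j hj
    have : (n : ℝ) ≤ j := by exact_mod_cast hj
    linarith
  filter_upwards [hev, hU] with j hj hUj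
  set Q : ℕ := q * 2 ^ (j * k) with hQ
  set N : ℝ := (2 : ℝ) ^ j with hN
  set l : ℝ := (j : ℝ) + 1 with hl
  have hN1 : 1 ≤ N := one_le_pow₀ (by norm_num)
  have hN0 : 0 < N := by linarith
  have hl1 : 1 ≤ l := by
    have : (0 : ℝ) ≤ j := by positivity
    linarith
  have hl0 : 0 < l := by linarith
  have hQ1 : 1 ≤ Q := Nat.mul_pos hq (pow_pos (by norm_num) _)
  have hQ0 : (0 : ℝ) < Q := by exact_mod_cast hQ1
  have hterm : ∀ r ∈ high k j Q, 1 / (Q : ℝ) * ‖SU (U j) (rep Q r)‖ ^ 2 *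
      ∏ i, ∫ lam in (0 : ℝ)..A, ‖T (fun n => n ^ k) (blk (W i) K (2 ^ j)) lam (rep Q r)‖ ^ 2 ≤
      1 / (Q : ℝ) * (2 * C * N * l ^ 3) ^ u * ‖SU (U j) (rep Q r)‖ ^ 2 := by
    intro r hr
    unfold high at hr
    rw [mem_filter] at hr
    obtain ⟨hr, hhigh⟩ := hr
    obtain ⟨h1, h2, -, -⟩ := rep_abs hr
    have hb : rep Q r ≠ 0 := abs_pos.1 h1
    have hprod : ∏ i, ∫ lam in (0 : ℝ)..A,
        ‖T (fun n => n ^ k) (blk (W i) K (2 ^ j)) lam (rep Q r)‖ ^ 2 ≤ (2 * C * N * l ^ 3) ^ u := by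
      have h5 : ∀ i ∈ (univ : Finset (Fin u)), ∫ lam in (0 : ℝ)..A,
          ‖T (fun n => n ^ k) (blk (W i) K (2 ^ j)) lam (rep Q r)‖ ^ 2 ≤ 2 * C * N * l ^ 3 := by
        intro i _
        refine (hms (W i) j (rep Q r) hb h2).trans ?_
        have h6 : 1 + 1 / (|rep Q r| * N ^ (k - 1)) ≤ 2 := by
          have : 1 / (|rep Q r| * N ^ (k - 1)) ≤ 1 := by
            rw [div_le_one (by positivity)]
            exact (not_le.1 hhigh).le
          linarith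
        calc C * N * l ^ 3 * (1 + 1 / (|rep Q r| * N ^ (k - 1)))
            ≤ C * N * l ^ 3 * 2 := by gcongr
          _ = 2 * C * N * l ^ 3 := by ring
      calc _ ≤ ∏ _i : Fin u, 2 * C * N * l ^ 3 := by
            refine Finset.prod_le_prod (fun i _ => ?_) h5
            exact intervalIntegral.integral_nonneg (by positivity) fun _ _ => by positivity
        _ = _ := by rw [Finset.prod_const, Finset.card_univ, Fintype.card_fin]
    calc _ ≤ 1 / (Q : ℝ) * ‖SU (U j) (rep Q r)‖ ^ 2 * (2 * C * N * l ^ 3) ^ u := by gcongr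
      _ = _ := by ring
  refine (Finset.sum_le_sum hterm).trans ?_
  rw [← Finset.mul_sum]
  have hs : ∑ r ∈ high k j Q, ‖SU (U j) (rep Q r)‖ ^ 2 ≤ Q * ((U j).card : ℝ) := by
    calc _ ≤ ∑ r ∈ range Q, ‖SU (U j) (rep Q r)‖ ^ 2 := by
          refine Finset.sum_le_sum_of_subset_of_nonneg ?_ fun r _ _ => by positivity
          intro r hr
          unfold high at hr
          rw [mem_filter, mem_Ico] at hr
          exact mem_range.2 hr.1.2
      _ = _ := (hPAR Q hQ1).2 (U j) hUj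
  calc _ ≤ 1 / (Q : ℝ) * (2 * C * N * l ^ 3) ^ u * (Q * ((U j).card : ℝ)) := by gcongr
    _ = (2 * C) ^ u * ((U j).card * N ^ u * l ^ (3 * u)) := by
        have e1 : (2 * C * N * l ^ 3) ^ u = (2 * C) ^ u * N ^ u * l ^ (3 * u) := by
          rw [mul_pow, mul_pow, pow_mul l 3 u]
        rw [e1]
        field_simp
    _ ≤ l * ((U j).card * N ^ u * l ^ (3 * u)) := by gcongr
    _ ≤ l * (((U j).card + 1) * N ^ u * l ^ (3 * u)) := by
        gcongr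
        linarith
    _ = ((U j).card + 1) * N ^ u * l ^ (3 * u + 3) / l ^ 2 := by
        rw [show 3 * u + 3 = 3 * u + 1 + 2 by ring, pow_add l (3 * u + 1) 2, pow_succ l (3 * u)]
        field_simp

end

end Pool.Agent.Run7.h757.MW
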