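import Pool.Agent.Run7.h757.MW.Core

/-!
# Project MW: the deterministic part
-/

open Finset MeasureTheory Filter

namespace Pool.Agent.Run7.h757.MW

noncomputable section

open Classical in
/-- the number of the elements of `s` with value `M` -/
def cn {ι : Type} (s : Finset ι) (v : ι → ℕ) (M : ℕ) : ℝ := ((s.filter fun p => v p = M).card : ℝ)

theorem cn_nonneg {ι : Type} (s : Finset ι) (v : ι → ℕ) (M : ℕ) : 0 ≤ cn s v M := by
  unfold cn
  positivity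

theorem dft_cn {ι : Type} (s : Finset ι) (v : ι → ℕ) (Q r : ℕ) (hv : ∀ p ∈ s, v p < Q) :
    dft Q (cn s v) r = ∑ p ∈ s, e (v p * rep Q r) := by
  classical
  unfold dft cn
  have h1 : ∀ M ∈ range Q, (((s.filter fun p => v p = M).card : ℝ) : ℂ) * e (M * rep Q r) =
      ∑ p ∈ s.filter fun p => v p = M, e (v p * rep Q r) := by
    intro M _
    rw [Finset.sum_congr rfl (g := fun _ => e (M * rep Q r))]
    · rw [Finset.sum_const, nsmul_eq_mul]
      push_cast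
      rfl
    · intro p hp
      rw [(mem_filter.1 hp).2]
  have h2 : ∀ M ∈ range Q, (((s.filter fun p => v p = M).card : ℝ) : ℂ) * e (M * rep Q r) =
      ∑ p ∈ s.filter fun p => v p = M, e (v p * rep Q r) := h1
  rw [← Finset.sum_fiberwise_of_maps_to (s := s) (t := range Q) (g := v)
    (fun p hp => mem_range.2 (hv p hp))]
  refine Finset.sum_congr rfl fun M hM => ?_
  rw [← h2 M hM]

theorem sum_cn {ι : Type} (s : Finset ι) (v : ι → ℕ) (I : Finset ℕ) :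
    ∑ m ∈ I, cn s v m = ((s.filter fun p => v p ∈ I).card : ℝ) := by
  classical
  unfold cn
  have h := Finset.card_eq_sum_card_fiberwise (s := s.filter fun p => v p ∈ I) (t := I) (f := v)
    (fun p hp => (mem_filter.1 hp).2)
  have h' : (s.filter fun p => v p ∈ I).card = ∑ m ∈ I, (s.filter fun p => v p = m).card := by
    rw [h]
    refine Finset.sum_congr rfl fun m hm => ?_
    congr 1
    ext p
    simp only [mem_filter]
    constructor
    · rintro ⟨⟨h1, -⟩, h2⟩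
      exact ⟨h1, h2⟩
    · rintro ⟨h1, h2⟩
      exact ⟨⟨h1, h2 ▸ hm⟩, h2⟩
  have h'' : ((s.filter fun p => v p ∈ I).card : ℝ) =
      ((∑ m ∈ I, (s.filter fun p => v p = m).card : ℕ) : ℝ) := by
    rw [← h']
  push_cast at h''
  rw [← h'']

/-- the tuples -/
def tup (u K : ℕ) (W : Fin u → Set ℕ) (j : ℕ) : Finset (Fin u → ℕ) :=
  Fintype.piFinset fun i => blk (W i) K (2 ^ j)

/-- the triples -/
def trp (u K : ℕ) (W : Fin u → Set ℕ) (U : Finset ℕ) (j : ℕ) : Finset ((ℕ × ℕ) × (Fin u → ℕ)) :=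
  (U ×ˢ U) ×ˢ tup u K W j

/-- the value of a triple -/
def val (u k : ℕ) (x : Fin u → ℝ) (p : (ℕ × ℕ) × (Fin u → ℕ)) : ℕ :=
  p.1.1 + p.1.2 + ∑ i, fl (x i) (p.2 i ^ k)

theorem e_sum {ι : Type} (s : Finset ι) (g : ι → ℝ) : e (∑ i ∈ s, g i) = ∏ i ∈ s, e (g i) := by
  classical
  induction s using Finset.induction_on with
  | empty => simp [e]
  | insert a s ha ih => rw [Finset.sum_insert ha, Finset.prod_insert ha, e_add, ih]

theorem sum_trp (u k K : ℕ) (W : Fin u → Set ℕ) (U : Finset ℕ) (x : Fin u → ℝ) (j : ℕ) (b : ℝ) :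
    ∑ p ∈ trp u K W U j, e (val u k x p * b) =
      SU U b ^ 2 * ∏ i, T (fun n => n ^ k) (blk (W i) K (2 ^ j)) (x i) b := by
  classical
  have h1 : ∀ p : (ℕ × ℕ) × (Fin u → ℕ), e (val u k x p * b) =
      (e (p.1.1 * b) * e (p.1.2 * b)) * ∏ i, e (b * fl (x i) (p.2 i ^ k)) := by
    intro p
    unfold val
    push_cast
    rw [add_mul, add_mul, e_add, e_add, Finset.sum_mul, e_sum]
    congr 1
    exact Finset.prod_congr rfl fun i _ => by rw [mul_comm]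
  simp only [h1]
  unfold trp
  rw [Finset.sum_product (s := U ×ˢ U) (t := tup u K W j)
    (f := fun p => (e (p.1.1 * b) * e (p.1.2 * b)) * ∏ i, e (b * fl (x i) (p.2 i ^ k)))]
  simp only [← Finset.mul_sum]
  rw [← Finset.sum_mul]
  congr 1
  · rw [Finset.sum_product, sq]
    unfold SU
    rw [Finset.sum_mul_sum]
  · unfold tup T
    rw [Finset.prod_univ_sum]

theorem val_lt (u k K A : ℕ) (W : Fin u → Set ℕ) (U : Finset ℕ) (x : Fin u → ℝ) (j q : ℕ)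
    (hx0 : ∀ i, 0 ≤ x i) (hx : ∀ i, x i ≤ A) (hU : ∀ a ∈ U, a ≤ (2 ^ j) ^ k)
    (hq : u * (A * K ^ k) + 2 < q) : ∀ p ∈ trp u K W U j, val u k x p < q * 2 ^ (j * k) := by
  classical
  intro p hp
  unfold trp at hp
  rw [mem_product, mem_product] at hp
  obtain ⟨⟨h1, h2⟩, h3⟩ := hp
  have h4 : ∀ i, fl (x i) (p.2 i ^ k) ≤ A * (K * 2 ^ j) ^ k := by
    intro i
    unfold tup at h3
    rw [Fintype.mem_piFinset] at h3
    have h5 : p.2 i ∈ Ioc (2 ^ j) (K * 2 ^ j) ∧ p.2 i ∈ W i := by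
      simpa only [blk, Finset.mem_filter] using h3 i
    have h6 := (mem_Ioc.1 h5.1).2
    unfold fl
    refine Nat.floor_le_of_le ?_
    push_cast
    have h7 : (p.2 i : ℝ) ≤ K * (2 : ℝ) ^ j := by exact_mod_cast h6
    have := hx i
    have := hx0 i
    gcongr
  unfold val
  have h8 : ∑ i, fl (x i) (p.2 i ^ k) ≤ u * (A * (K * 2 ^ j) ^ k) := by
    calc _ ≤ ∑ _i : Fin u, A * (K * 2 ^ j) ^ k := Finset.sum_le_sum fun i _ => h4 i
      _ = _ := by simp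
  have h9 := hU _ h1
  have h10 := hU _ h2
  have h11 : (2 ^ j) ^ k = 2 ^ (j * k) := (pow_mul 2 j k).symm
  have h12 : (K * 2 ^ j) ^ k = K ^ k * 2 ^ (j * k) := by rw [mul_pow, h11]
  rw [h11] at h9 h10
  rw [h12] at h8
  have h13 : 0 < 2 ^ (j * k) := by positivity
  calc p.1.1 + p.1.2 + ∑ i, fl (x i) (p.2 i ^ k) ≤
      2 ^ (j * k) + 2 ^ (j * k) + u * (A * (K ^ k * 2 ^ (j * k))) := by omega
    _ = (u * (A * K ^ k) + 2) * 2 ^ (j * k) := by ring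
    _ < q * 2 ^ (j * k) := Nat.mul_lt_mul_of_pos_right hq h13

/-- the contribution of the high frequencies -/
def EH (kk : ℕ → ℕ → ℕ → ℝ) (u k K q H : ℕ) (W : Fin u → Set ℕ) (U : Finset ℕ) (x : Fin u → ℝ)
    (j M : ℕ) : ℝ :=
  ‖1 / ((q * 2 ^ (j * k) : ℕ) : ℂ) * ∑ r ∈ high k j (q * 2 ^ (j * k)),
    ((kk (q * 2 ^ (j * k)) H r : ℂ) *
      (SU U (rep (q * 2 ^ (j * k)) r) ^ 2 *
        ∏ i, T (fun n => n ^ k) (blk (W i) K (2 ^ j)) (x i) (rep (q * 2 ^ (j * k)) r))) *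
      e (-(M * rep (q * 2 ^ (j * k)) r))‖

/-- **comparison with the averages** -/
theorem det_main {kk : ℕ → ℕ → ℕ → ℝ} (hkk : ∀ Q H r, 0 ≤ kk Q H r ∧ kk Q H r ≤ 1)
    (hkk2 : ∀ Q H r, 1 ≤ Q → 1 ≤ H → r < Q → kk Q H r ≤ 5 * (H * |rep Q r|) ^ (1 / 2 : ℝ))
    (hkk3 : ∀ (Q H M : ℕ) (c : ℕ → ℝ), 1 ≤ H → H ≤ M → M + H ≤ Q → (∀ m, 0 ≤ c m) →
      1 / (2 * (H : ℝ)) * ∑ m ∈ Icc (M - H / 2) (M + H / 2), c m -
        ‖1 / (Q : ℂ) * ∑ r ∈ Ico 1 Q, kk Q H r * dft Q c r * e (-(M * rep Q r))‖ ≤ c M)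
    (u k K A q B H : ℕ) (W : Fin u → Set ℕ) (U : Finset ℕ) (x : Fin u → ℝ) (j M : ℕ)
    (hx0 : ∀ i, 0 ≤ x i) (hx : ∀ i, x i ≤ A) (hU : ∀ a ∈ U, a ≤ (2 ^ j) ^ k)
    (hq : u * (A * K ^ k) + 2 < q) (hH : 1 ≤ H)
    (hHB : (H : ℝ) ≤ ((2 : ℝ) ^ j) ^ k / ((j : ℝ) + 1) ^ B) (hHM : H ≤ M)
    (hMH : M + H ≤ q * 2 ^ (j * k)) :
    1 / (2 * (H : ℝ)) *
      (((trp u K W U j).filter fun p => val u k x p ∈ Icc (M - H / 2) (M + H / 2)).card : ℝ) -
        15 * (U.card : ℝ) ^ 2 * Real.sqrt (Xlow u k K q B W x j) - EH kk u k K q H W U x j M ≤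
      cn (trp u K W U j) (val u k x) M := by
  classical
  set Q : ℕ := q * 2 ^ (j * k) with hQ
  have hQ1 : 1 ≤ Q := by omega
  have hQ0 : (0 : ℝ) < Q := by exact_mod_cast hQ1
  set F : ℝ → ℂ := fun b => SU U b ^ 2 *
    ∏ i, T (fun n => n ^ k) (blk (W i) K (2 ^ j)) (x i) b with hF
  have hd : ∀ r, dft Q (cn (trp u K W U j) (val u k x)) r = F (rep Q r) := by
    intro r
    rw [dft_cn _ _ _ _ (val_lt u k K A W U x j q hx0 hx hU hq), sum_trp]
  have h1 := hkk3 Q H M (cn (trp u K W U j) (val u k x)) hH hHM hMH (cn_nonneg _ _)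
  rw [sum_cn] at h1
  refine le_trans ?_ h1
  rw [sub_sub]
  refine sub_le_sub_left ?_ _
  have hsplit : ∑ r ∈ Ico 1 Q, (kk Q H r : ℂ) * dft Q (cn (trp u K W U j) (val u k x)) r *
      e (-(M * rep Q r)) = ∑ r ∈ low k j Q, (kk Q H r : ℂ) * F (rep Q r) * e (-(M * rep Q r)) +
        ∑ r ∈ high k j Q, (kk Q H r : ℂ) * F (rep Q r) * e (-(M * rep Q r)) := by
    unfold low high
    rw [Finset.sum_filter_add_sum_filter_not]
    exact Finset.sum_congr rfl fun r _ => by rw [hd]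
  rw [hsplit, mul_add]
  refine (norm_add_le _ _).trans ?_
  refine add_le_add ?_ (le_of_eq rfl)
  -- the low frequencies
  rw [norm_mul]
  have hn1 : ‖1 / (Q : ℂ)‖ = 1 / (Q : ℝ) := by
    rw [norm_div, norm_one, Complex.norm_natCast]
  rw [hn1]
  have hSU : ∀ b, ‖SU U b‖ ≤ U.card := by
    intro b
    unfold SU
    refine (norm_sum_le _ _).trans ?_
    simp [norm_e]
  set Pr : ℕ → ℝ := fun r => ∏ i, ‖T (fun n => n ^ k) (blk (W i) K (2 ^ j)) (x i) (rep Q r)‖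
    with hPr
  have hPr0 : ∀ r, 0 ≤ Pr r := fun r => Finset.prod_nonneg fun _ _ => norm_nonneg _
  have hFn : ∀ r, ‖F (rep Q r)‖ ≤ (U.card : ℝ) ^ 2 * Pr r := by
    intro r
    rw [hF]
    simp only
    rw [norm_mul, norm_pow, norm_prod]
    refine mul_le_mul_of_nonneg_right ?_ (hPr0 r)
    have := hSU (rep Q r)
    gcongr
  have hlow : ∑ r ∈ low k j Q, ‖(kk Q H r : ℂ) * F (rep Q r) * e (-(M * rep Q r))‖ ≤
      ∑ r ∈ low k j Q, (5 * (U.card : ℝ) ^ 2 * Q) * ((1 / (Q * |rep Q r|)) *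
        (((H : ℝ) * |rep Q r|) ^ (1 / 2 : ℝ) * |rep Q r| * Pr r)) := by
    refine Finset.sum_le_sum fun r hr => ?_
    unfold low at hr
    rw [mem_filter] at hr
    obtain ⟨h2, -, -, -⟩ := rep_abs hr.1
    have hrQ := (mem_Ico.1 hr.1).2
    rw [norm_mul, norm_mul, norm_e, mul_one, Complex.norm_real, Real.norm_eq_abs,
      abs_of_nonneg (hkk Q H r).1]
    calc kk Q H r * ‖F (rep Q r)‖ ≤
        (5 * (H * |rep Q r|) ^ (1 / 2 : ℝ)) * ((U.card : ℝ) ^ 2 * Pr r) := by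
          refine mul_le_mul (hkk2 Q H r hQ1 hH hrQ) (hFn r) (norm_nonneg _) ?_
          positivity
      _ = _ := by
          field_simp
  have hcs : ∑ r ∈ low k j Q, (1 / (Q * |rep Q r|)) *
        (((H : ℝ) * |rep Q r|) ^ (1 / 2 : ℝ) * |rep Q r| * Pr r) ≤
      3 * Real.sqrt (Xlow u k K q B W x j) := by
    have h2 := Finset.sum_mul_sq_le_sq_mul_sq (low k j Q) (fun r => 1 / (Q * |rep Q r|))
      (fun r => ((H : ℝ) * |rep Q r|) ^ (1 / 2 : ℝ) * |rep Q r| * Pr r)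
    have h3 : ∑ r ∈ low k j Q, (1 / (Q * |rep Q r|)) ^ 2 ≤ 8 := by
      refine le_trans ?_ (sum_inv_sq_rep Q)
      exact Finset.sum_le_sum_of_subset_of_nonneg (Finset.filter_subset _ _)
        fun r _ _ => by positivity
    have h4 : ∑ r ∈ low k j Q, (((H : ℝ) * |rep Q r|) ^ (1 / 2 : ℝ) * |rep Q r| * Pr r) ^ 2 ≤
        Xlow u k K q B W x j := by
      unfold Xlow
      rw [← hQ]
      refine Finset.sum_le_sum fun r _ => ?_
      have h5 : ((((H : ℝ) * |rep Q r|) ^ (1 / 2 : ℝ)) ^ 2) = H * |rep Q r| := by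
        rw [← Real.rpow_natCast, ← Real.rpow_mul (by positivity)]
        norm_num
      rw [mul_pow, mul_pow, h5, hPr]
      simp only
      rw [← Finset.prod_pow]
      have h6 : 0 ≤ ∏ i, ‖T (fun n => n ^ k) (blk (W i) K (2 ^ j)) (x i) (rep Q r)‖ ^ 2 :=
        Finset.prod_nonneg fun _ _ => by positivity
      refine mul_le_mul_of_nonneg_right ?_ h6
      calc (H : ℝ) * |rep Q r| * |rep Q r| ^ 2 = H * |rep Q r| ^ 3 := by ring
        _ ≤ _ := mul_le_mul_of_nonneg_right hHB (by positivity)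
    have hX0 : 0 ≤ Xlow u k K q B W x j :=
      le_trans (Finset.sum_nonneg fun _ _ => sq_nonneg _) h4
    have h7 : (∑ r ∈ low k j Q, (1 / (Q * |rep Q r|)) *
        (((H : ℝ) * |rep Q r|) ^ (1 / 2 : ℝ) * |rep Q r| * Pr r)) ^ 2 ≤
        (3 * Real.sqrt (Xlow u k K q B W x j)) ^ 2 := by
      rw [mul_pow, Real.sq_sqrt hX0]
      refine h2.trans ?_
      calc _ ≤ 8 * Xlow u k K q B W x j := by
            refine mul_le_mul h3 h4 (Finset.sum_nonneg fun _ _ => sq_nonneg _) (by norm_num)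
        _ ≤ _ := by nlinarith
    exact (abs_le_of_sq_le_sq' h7 (by positivity)).2
  calc 1 / (Q : ℝ) * ‖∑ r ∈ low k j Q, (kk Q H r : ℂ) * F (rep Q r) * e (-(M * rep Q r))‖
      ≤ 1 / (Q : ℝ) * ∑ r ∈ low k j Q, ‖(kk Q H r : ℂ) * F (rep Q r) * e (-(M * rep Q r))‖ := by
        refine mul_le_mul_of_nonneg_left (norm_sum_le _ _) (by positivity)
    _ ≤ 1 / (Q : ℝ) * ∑ r ∈ low k j Q, (5 * (U.card : ℝ) ^ 2 * Q) * ((1 / (Q * |rep Q r|)) *
        (((H : ℝ) * |rep Q r|) ^ (1 / 2 : ℝ) * |rep Q r| * Pr r)) :=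
        mul_le_mul_of_nonneg_left hlow (by positivity)
    _ = 5 * (U.card : ℝ) ^ 2 * ∑ r ∈ low k j Q, (1 / (Q * |rep Q r|)) *
        (((H : ℝ) * |rep Q r|) ^ (1 / 2 : ℝ) * |rep Q r| * Pr r) := by
        rw [← Finset.mul_sum]
        have h9 : ∀ Y : ℝ, 1 / (Q : ℝ) * (5 * (U.card : ℝ) ^ 2 * Q * Y) =
            5 * (U.card : ℝ) ^ 2 * Y := by
          intro Y
          field_simp
        exact h9 _
    _ ≤ 5 * (U.card : ℝ) ^ 2 * (3 * Real.sqrt (Xlow u k K q B W x j)) :=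
        mul_le_mul_of_nonneg_left hcs (by positivity)
    _ = _ := by ring

/-- the high frequencies, absolute values -/
theorem EH_le (hPAR : S_PAR) {kk : ℕ → ℕ → ℕ → ℝ} (hkk : ∀ Q H r, 0 ≤ kk Q H r ∧ kk Q H r ≤ 1)
    (u k K q H : ℕ) (W : Fin u → Set ℕ) (U : Finset ℕ) (x : Fin u → ℝ) (j M : ℕ) (hq : 1 ≤ q)
    (hU : U ⊆ range (q * 2 ^ (j * k))) :
    EH kk u k K q H W U x j M ≤
      Real.sqrt U.card * Real.sqrt (Xhigh u k K q U W x j) := by
  classical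
  unfold EH Xhigh
  set Q : ℕ := q * 2 ^ (j * k) with hQ
  have hQ1 : 1 ≤ Q := Nat.mul_pos hq (pow_pos (by norm_num) _)
  have hQ0 : (0 : ℝ) < Q := by exact_mod_cast hQ1
  rw [norm_mul]
  have hn1 : ‖1 / (Q : ℂ)‖ = 1 / (Q : ℝ) := by
    rw [norm_div, norm_one, Complex.norm_natCast]
  rw [hn1]
  set Pr : ℕ → ℝ := fun r => ∏ i, ‖T (fun n => n ^ k) (blk (W i) K (2 ^ j)) (x i) (rep Q r)‖
    with hPr
  have hPr0 : ∀ r, 0 ≤ Pr r := fun r => Finset.prod_nonneg fun _ _ => norm_nonneg _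
  have h1 : ‖∑ r ∈ high k j Q, ((kk Q H r : ℂ) * (SU U (rep Q r) ^ 2 *
      ∏ i, T (fun n => n ^ k) (blk (W i) K (2 ^ j)) (x i) (rep Q r))) *
      e (-(M * rep Q r))‖ ≤ ∑ r ∈ high k j Q, ‖SU U (rep Q r)‖ * (‖SU U (rep Q r)‖ * Pr r) := by
    refine (norm_sum_le _ _).trans (Finset.sum_le_sum fun r _ => ?_)
    rw [norm_mul, norm_e, mul_one, norm_mul, norm_mul, norm_pow, norm_prod, Complex.norm_real,
      Real.norm_eq_abs, abs_of_nonneg (hkk Q H r).1]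
    have h2 : 0 ≤ ‖SU U (rep Q r)‖ ^ 2 * Pr r := mul_nonneg (by positivity) (hPr0 r)
    calc _ ≤ 1 * (‖SU U (rep Q r)‖ ^ 2 * Pr r) := mul_le_mul_of_nonneg_right (hkk Q H r).2 h2
      _ = _ := by ring
  have h2 := Finset.sum_mul_sq_le_sq_mul_sq (high k j Q) (fun r => ‖SU U (rep Q r)‖)
    (fun r => ‖SU U (rep Q r)‖ * Pr r)
  have h3 : ∑ r ∈ high k j Q, ‖SU U (rep Q r)‖ ^ 2 ≤ Q * (U.card : ℝ) := by
    calc _ ≤ ∑ r ∈ range Q, ‖SU U (rep Q r)‖ ^ 2 := by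
          refine Finset.sum_le_sum_of_subset_of_nonneg ?_ fun r _ _ => by positivity
          intro r hr
          unfold high at hr
          rw [mem_filter, mem_Ico] at hr
          exact mem_range.2 hr.1.2
      _ = _ := (hPAR Q hQ1).2 U hU
  have h4 : ∑ r ∈ high k j Q, (‖SU U (rep Q r)‖ * Pr r) ^ 2 =
      Q * ∑ r ∈ high k j Q, 1 / (Q : ℝ) * ‖SU U (rep Q r)‖ ^ 2 *
        ∏ i, ‖T (fun n => n ^ k) (blk (W i) K (2 ^ j)) (x i) (rep Q r)‖ ^ 2 := by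
    rw [Finset.mul_sum]
    refine Finset.sum_congr rfl fun r _ => ?_
    rw [mul_pow, hPr]
    simp only
    rw [← Finset.prod_pow]
    field_simp
  set X : ℝ := ∑ r ∈ high k j Q, 1 / (Q : ℝ) * ‖SU U (rep Q r)‖ ^ 2 *
        ∏ i, ‖T (fun n => n ^ k) (blk (W i) K (2 ^ j)) (x i) (rep Q r)‖ ^ 2 with hX
  have hX0 : 0 ≤ X := Finset.sum_nonneg fun r _ =>
    mul_nonneg (by positivity) (Finset.prod_nonneg fun _ _ => by positivity)
  rw [h4] at h2
  have h5 : (∑ r ∈ high k j Q, ‖SU U (rep Q r)‖ * (‖SU U (rep Q r)‖ * Pr r)) ≤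
      Q * (Real.sqrt U.card * Real.sqrt X) := by
    refine (abs_le_of_sq_le_sq' (h2.trans ?_) (by positivity)).2
    rw [mul_pow, mul_pow, Real.sq_sqrt (by positivity), Real.sq_sqrt hX0]
    calc _ ≤ (Q * (U.card : ℝ)) * (Q * X) := mul_le_mul_of_nonneg_right h3 (by positivity)
      _ = _ := by ring
  calc _ ≤ 1 / (Q : ℝ) * (Q * (Real.sqrt U.card * Real.sqrt X)) :=
        mul_le_mul_of_nonneg_left (h1.trans h5) (by positivity)
    _ = _ := by field_simp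

end

end Pool.Agent.Run7.h757.MW
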