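import Pool.Agent.Run7.h757.MW.Blk
import Pool.Agent.Run7.h416.MW.FL
import Pool.Agent.Run7.h304.MW.AE
import Pool.Agent.Run7.h304.MW.PAR
import Pool.Agent.Run7.h930.MW.MS
import Pool.Agent.Run7.h930.MW.FEJ
import Pool.Agent.Run7.h937.LBC

/-!
# Project MW: the engine
-/

open Finset MeasureTheory Filter

namespace Pool.Agent.Run7.h757.MW

noncomputable section

theorem ms_T : S_MT := t_MT Pool.Agent.Run7.h416.MW.fl_fourier Pool.Agent.Run7.h930.MW.t_MS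

/-- the weights `1 - F` of the comparison -/
def kk0 : ℕ → ℕ → ℕ → ℝ := Classical.choose Pool.Agent.Run7.h930.MW.t_FEJ

theorem kk0_spec : (∀ Q H r, 0 ≤ kk0 Q H r ∧ kk0 Q H r ≤ 1) ∧
    (∀ Q H r, 1 ≤ Q → 1 ≤ H → r < Q → kk0 Q H r ≤ 5 * (H * |rep Q r|) ^ (1 / 2 : ℝ)) ∧
    ∀ (Q H M : ℕ) (c : ℕ → ℝ), 1 ≤ H → H ≤ M → M + H ≤ Q → (∀ m, 0 ≤ c m) →
      1 / (2 * (H : ℝ)) * ∑ m ∈ Icc (M - H / 2) (M + H / 2), c m -
        ‖1 / (Q : ℂ) * ∑ r ∈ Ico 1 Q, kk0 Q H r * dft Q c r * e (-(M * rep Q r))‖ ≤ c M :=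
  Classical.choose_spec Pool.Agent.Run7.h930.MW.t_FEJ

/-- the exponent of the length of the averages -/
def BB (u : ℕ) (t : ℝ) : ℕ := 3 * u + 4 + 2 * (⌈t * u⌉₊ + 1)

/-- **The engine.** -/
theorem engine (u k : ℕ) (hu : 4 ≤ u) (hk : 2 ≤ k) (W : Fin u → Set ℕ) (c t : ℝ) (hc : 0 < c)
    (ht : 0 ≤ t) (hW : ∀ i, Reg c t (W i)) (U : ℕ → Finset ℕ)
    (hU : ∀ᶠ j : ℕ in atTop, ∀ a ∈ U j, a ≤ (2 ^ j) ^ k)
    (hne : ∀ᶠ j : ℕ in atTop, (U j).Nonempty) :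
    ∀ᵐ lam : Fin u → ℝ, (∀ i, 0 < lam i) → ∃ (K q : ℕ) (c₁ c₄ : ℝ), 0 < c₁ ∧ 0 < c₄ ∧ 1 ≤ q ∧
      ∀ᶠ j : ℕ in atTop, (U j ⊆ range (q * 2 ^ (j * k))) ∧
        (∀ M : ℕ, c₁ * (2 : ℝ) ^ (j * k) ≤ M → (M : ℝ) ≤ (2 : ℝ) ^ k * c₁ * (2 : ℝ) ^ (j * k) →
          M < q * 2 ^ (j * k) ∧
          c₄ * ((U j).card : ℝ) ^ 2 * (((2 : ℝ) ^ j) ^ u / ((2 : ℝ) ^ j) ^ k) /
            ((j : ℝ) + 1) ^ (t * u) ≤
          cn (trp u K W (U j) j) (val u k lam) M +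
            EH kk0 u k K q (HH k j (BB u t)) W (U j) lam j M) ∧
        Xhigh u k K q (U j) W lam j ≤
          2 * (U j).card * ((2 : ℝ) ^ j) ^ u * ((j : ℝ) + 1) ^ (3 * u + 3) := by
  classical
  have hPAR := Pool.Agent.Run7.h304.MW.PAR
  have hAE := Pool.Agent.Run7.h304.MW.AE
  have hUr : ∀ q : ℕ, 2 ≤ q → ∀ᶠ j : ℕ in atTop, U j ⊆ range (q * 2 ^ (j * k)) := by
    intro q hq
    filter_upwards [hU] with j hj a ha
    have h1 := hj a ha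
    rw [← pow_mul] at h1
    have h2 : 0 < 2 ^ (j * k) := by positivity
    rw [mem_range]
    nlinarith
  have hlowae : ∀ A K q : ℕ, ∀ᵐ x : Fin u → ℝ, (1 ≤ A ∧ 2 ≤ K ∧ 2 ≤ q) → x ∈ Box u A →
      ∀ᶠ j : ℕ in atTop, Xlow u k K q (BB u t) W x j ≤ ((2 : ℝ) ^ j) ^ (2 * u) /
        ((2 : ℝ) ^ j) ^ (2 * k) / ((j : ℝ) + 1) ^ (2 * (⌈t * u⌉₊ + 1)) := by
    intro A K q
    by_cases h : 1 ≤ A ∧ 2 ≤ K ∧ 2 ≤ q
    · have := core_low ms_T hAE u k A K q (⌈t * u⌉₊ + 1) hu hk h.1 h.2.1 (by omega) W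
      filter_upwards [this] with x hx _ using hx
    · exact Filter.Eventually.of_forall fun x h' => (h h').elim
  have hhighae : ∀ A K q : ℕ, ∀ᵐ x : Fin u → ℝ, (1 ≤ A ∧ 2 ≤ K ∧ 2 ≤ q) → x ∈ Box u A →
      ∀ᶠ j : ℕ in atTop, Xhigh u k K q (U j) W x j ≤
        ((U j).card + 1) * ((2 : ℝ) ^ j) ^ u * ((j : ℝ) + 1) ^ (3 * u + 3) := by
    intro A K q
    by_cases h : 1 ≤ A ∧ 2 ≤ K ∧ 2 ≤ q
    · have := core_high ms_T hAE hPAR u k A K q hk h.1 h.2.1 (by omega) W U (hUr q h.2.2)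
      filter_upwards [this] with x hx _ using hx
    · exact Filter.Eventually.of_forall fun x h' => (h h').elim
  have h1 := ae_all_iff.2 fun A => ae_all_iff.2 fun K => ae_all_iff.2 fun q => hlowae A K q
  have h2 := ae_all_iff.2 fun A => ae_all_iff.2 fun K => ae_all_iff.2 fun q => hhighae A K q
  filter_upwards [h1, h2] with lam hl hh hpos
  obtain ⟨c₁, hc₁, hbl⟩ := block_lower kk0_spec.1 kk0_spec.2.1 kk0_spec.2.2
    Pool.Agent.Run7.h937.MW.t_LBC u k lam W c t (by omega) (by omega) hpos hc ht hW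
  set c₂ : ℕ := ⌈(2 : ℝ) ^ k * (c₁ + 2)⌉₊ with hc₂
  obtain ⟨K₀, hbl⟩ := hbl c₂
  set K : ℕ := max K₀ 2 with hK
  obtain ⟨A, hA1, hA⟩ : ∃ A : ℕ, 1 ≤ A ∧ ∀ i, lam i ≤ A := by
    refine ⟨∑ i, ⌈lam i⌉₊ + 1, by omega, fun i => ?_⟩
    have h3 : ⌈lam i⌉₊ ≤ ∑ i, ⌈lam i⌉₊ :=
      Finset.single_le_sum (f := fun i => ⌈lam i⌉₊) (fun _ _ => Nat.zero_le _) (mem_univ i)
    have h4 : ((⌈lam i⌉₊ : ℕ) : ℝ) ≤ ((∑ i, ⌈lam i⌉₊ : ℕ) : ℝ) := by exact_mod_cast h3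
    have h5 := Nat.le_ceil (lam i)
    push_cast at h4 ⊢
    linarith
  set q : ℕ := max (u * (A * K ^ k) + 3) (c₂ + 1) with hq
  have hq2 : 2 ≤ q := by
    have := le_max_left (u * (A * K ^ k) + 3) (c₂ + 1)
    omega
  have hbox : lam ∈ Box u A := by
    unfold Box
    rw [Set.mem_univ_pi]
    exact fun i => ⟨(hpos i).le, hA i⟩
  have hcond : 1 ≤ A ∧ 2 ≤ K ∧ 2 ≤ q := ⟨hA1, le_max_right _ _, hq2⟩
  have hlow := hl A K q hcond hbox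
  have hhigh := hh A K q hcond hbox
  have hD0 : t * u + 1 ≤ ((⌈t * u⌉₊ + 1 : ℕ) : ℝ) := by
    have := Nat.le_ceil (t * u)
    push_cast
    linarith
  obtain ⟨c₄, hc₄, hbl⟩ := hbl K (le_max_left _ _) A q (⌈t * u⌉₊ + 1) hA
    (lt_of_lt_of_le (by omega) (le_max_left _ _)) (le_max_right _ _) hD0
  refine ⟨K, q, c₁ + 2, c₄, by positivity, hc₄, by omega, ?_⟩
  filter_upwards [hbl U hU hlow, hhigh, hne, hUr q hq2] with j hj1 hj2 hj3 hj4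
  refine ⟨hj4, fun M hM1 hM2 => ?_, ?_⟩
  · have hM3 : (M : ℝ) ≤ c₂ * (2 : ℝ) ^ (j * k) := by
      refine hM2.trans (mul_le_mul_of_nonneg_right ?_ (by positivity))
      exact Nat.le_ceil _
    refine ⟨?_, hj1 M hM1 hM3⟩
    have h3 : c₂ + 1 ≤ q := le_max_right _ _
    have h4 : ((c₂ : ℝ) + 1) ≤ q := by exact_mod_cast h3
    have h5 : (M : ℝ) < q * (2 : ℝ) ^ (j * k) := by
      have h6 : (0 : ℝ) < (2 : ℝ) ^ (j * k) := by positivity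
      nlinarith
    exact_mod_cast h5
  · refine hj2.trans ?_
    have h3 : (1 : ℝ) ≤ (U j).card := by exact_mod_cast hj3.card_pos
    have h4 : ((U j).card : ℝ) + 1 ≤ 2 * (U j).card := by linarith
    gcongr

/-- every large integer lies in the range of a large block -/
theorem blocks {k : ℕ} (hk : 1 ≤ k) {c₁ : ℝ} (hc₁ : 0 < c₁) {P : ℕ → Prop}
    (hP : ∀ᶠ j in atTop, P j) : ∀ᶠ M : ℕ in atTop, ∃ j, P j ∧ c₁ * (2 : ℝ) ^ (j * k) ≤ M ∧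
      (M : ℝ) ≤ (2 : ℝ) ^ k * c₁ * (2 : ℝ) ^ (j * k) := by
  obtain ⟨J, hJ⟩ := eventually_atTop.1 hP
  obtain ⟨n, hn⟩ := exists_nat_gt (c₁ * (2 : ℝ) ^ ((J + 1) * k))
  filter_upwards [eventually_ge_atTop n] with M hM
  have hM' : c₁ * (2 : ℝ) ^ ((J + 1) * k) < M := hn.trans_le (by exact_mod_cast hM)
  have h2k : (1 : ℝ) < (2 : ℝ) ^ k := one_lt_pow₀ (by norm_num) (by omega)
  have hx : (1 : ℝ) ≤ M / c₁ := by
    rw [le_div_iff₀ hc₁]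
    have : (1 : ℝ) ≤ (2 : ℝ) ^ ((J + 1) * k) := one_le_pow₀ (by norm_num)
    nlinarith
  obtain ⟨j, hj1, hj2⟩ := exists_nat_pow_near hx h2k
  rw [le_div_iff₀ hc₁, ← pow_mul] at hj1
  rw [div_lt_iff₀ hc₁, ← pow_mul] at hj2
  refine ⟨j, ?_, ?_, ?_⟩
  · apply hJ
    by_contra hlt
    push Not at hlt
    have h3 : (2 : ℝ) ^ (k * (j + 1)) ≤ (2 : ℝ) ^ ((J + 1) * k) := by
      refine pow_le_pow_right₀ (by norm_num) ?_
      rw [mul_comm k]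
      exact Nat.mul_le_mul_right _ (by omega)
    have h4 : (2 : ℝ) ^ (k * (j + 1)) * c₁ ≤ (2 : ℝ) ^ ((J + 1) * k) * c₁ :=
      mul_le_mul_of_nonneg_right h3 hc₁.le
    linarith
  · rw [mul_comm j k]
    linarith
  · refine hj2.le.trans (le_of_eq ?_)
    rw [mul_add, mul_one, pow_add, mul_comm k j]
    ring

/-- **Existence for all large integers**, if `U j` is large. -/
theorem mixed (u k : ℕ) (hu : 4 ≤ u) (hk : 2 ≤ k) (W : Fin u → Set ℕ) (c t : ℝ) (hc : 0 < c)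
    (ht : 0 ≤ t) (hW : ∀ i, Reg c t (W i)) (U : ℕ → Finset ℕ)
    (hU : ∀ᶠ j : ℕ in atTop, ∀ a ∈ U j, a ≤ (2 ^ j) ^ k) (δ : ℝ) (hδ : 0 < δ)
    (hcard : ∀ᶠ j : ℕ in atTop, ((2 : ℝ) ^ j) ^ ((k : ℝ) - u / 2 + δ) ≤ (U j).card) :
    ∀ᵐ lam : Fin u → ℝ, (∀ i, 0 < lam i) → ∀ᶠ M : ℕ in atTop,
      ∃ (j a b : ℕ) (n : Fin u → ℕ), a ∈ U j ∧ b ∈ U j ∧ (∀ i, n i ∈ W i ∧ 1 ≤ n i) ∧
        a + b + ∑ i, ⌊lam i * (n i : ℝ) ^ k⌋₊ = M := by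
  classical
  have hne : ∀ᶠ j : ℕ in atTop, (U j).Nonempty := by
    filter_upwards [hcard] with j hj
    rw [← Finset.card_pos]
    have h1 : (0 : ℝ) < ((2 : ℝ) ^ j) ^ ((k : ℝ) - u / 2 + δ) := by positivity
    exact_mod_cast h1.trans_le hj
  filter_upwards [engine u k hu hk W c t hc ht hW U hU hne] with lam hlam hpos
  obtain ⟨K, q, c₁, c₄, hc₁, hc₄, hq, hj⟩ := hlam hpos
  -- the condition on `j`
  have hbeat : ∀ᶠ j : ℕ in atTop, (2 / c₄) ^ 2 * (2 * ((j : ℝ) + 1) ^ (3 * u + 3 +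
      2 * ⌈t * u⌉₊)) ≤ (((2 : ℝ) ^ j) ^ δ) ^ 2 := by
    obtain ⟨m, hm⟩ := exists_nat_gt (1 / (2 * δ))
    have h0 : 0 < 1 / (2 * δ) := by positivity
    have hm0 : (0 : ℝ) < m := h0.trans hm
    have hm1 : 0 < m := by exact_mod_cast hm0
    have h1 := pow_beats ((3 * u + 3 + 2 * ⌈t * u⌉₊) * m) (((2 / c₄) ^ 2 * 2) ^ m)
    filter_upwards [h1] with j hj
    have h2 : ((2 / c₄) ^ 2 * (2 * ((j : ℝ) + 1) ^ (3 * u + 3 + 2 * ⌈t * u⌉₊))) ^ m ≤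
        (2 : ℝ) ^ j := by
      refine le_trans (le_of_eq ?_) hj
      rw [← mul_assoc, mul_pow, ← pow_mul]
    have h3 : (2 : ℝ) ^ j ≤ ((((2 : ℝ) ^ j) ^ δ) ^ 2) ^ m := by
      rw [← Real.rpow_natCast _ m, ← Real.rpow_natCast _ 2, ← Real.rpow_mul (by positivity),
        ← Real.rpow_mul (by positivity)]
      have h4 : (1 : ℝ) ≤ (2 : ℝ) ^ j := one_le_pow₀ (by norm_num)
      have h5 : (1 : ℝ) ≤ δ * ((2 : ℕ) : ℝ) * m := by
        rw [div_lt_iff₀ (by positivity)] at hm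
        push_cast
        linarith
      calc (2 : ℝ) ^ j = ((2 : ℝ) ^ j) ^ (1 : ℝ) := (Real.rpow_one _).symm
        _ ≤ _ := by
          rw [← mul_assoc] at *
          exact Real.rpow_le_rpow_of_exponent_le h4 h5
    exact le_of_pow_le_pow_left₀ hm1.ne' (by positivity) (h2.trans h3)
  have hgood := blocks (k := k) (by omega) hc₁ (hj.and (hcard.and (hne.and hbeat)))
  filter_upwards [hgood] with M hM
  obtain ⟨j, ⟨⟨hUr, hj1, hj2⟩, hcardj, hnej, hbeatj⟩, hM1, hM2⟩ := hM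
  obtain ⟨-, hmain⟩ := hj1 M hM1 hM2
  set w : ℝ := ((U j).card : ℝ) with hw
  have hw1 : (1 : ℝ) ≤ w := by
    rw [hw]
    exact_mod_cast hnej.card_pos
  have hw0 : 0 < w := by linarith
  set N : ℝ := (2 : ℝ) ^ j with hN
  set l : ℝ := (j : ℝ) + 1 with hl
  have hN1 : 1 ≤ N := one_le_pow₀ (by norm_num)
  have hN0 : 0 < N := by linarith
  have hl1 : 1 ≤ l := by
    have : (0 : ℝ) ≤ j := by positivity
    linarith
  have hl0 : 0 < l := by linarith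
  have hEH := EH_le Pool.Agent.Run7.h304.MW.PAR kk0_spec.1 u k K q (HH k j (BB u t)) W (U j) lam
    j M hq hUr
  -- the high frequencies are smaller than the main term
  have hlt : EH kk0 u k K q (HH k j (BB u t)) W (U j) lam j M <
      c₄ * w ^ 2 * (N ^ u / N ^ k) / l ^ (t * u) := by
    refine lt_of_le_of_lt hEH ?_
    have h1 : Real.sqrt (Xhigh u k K q (U j) W lam j) ≤
        Real.sqrt (2 * w * N ^ u * l ^ (3 * u + 3)) := Real.sqrt_le_sqrt hj2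
    have hT0 : (0 : ℝ) < l ^ (t * u) := Real.rpow_pos_of_pos hl0 _
    have h2 : Real.sqrt w * Real.sqrt (2 * w * N ^ u * l ^ (3 * u + 3)) <
        c₄ * w ^ 2 * (N ^ u / N ^ k) / l ^ (t * u) := by
      rw [← Real.sqrt_mul hw0.le, Real.sqrt_lt' (by positivity)]
      -- squares
      have h3 : l ^ (t * u) ≤ l ^ (⌈t * u⌉₊ : ℕ) := by
        rw [← Real.rpow_natCast]
        exact Real.rpow_le_rpow_of_exponent_le hl1 (Nat.le_ceil _)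
      have h4 : (N ^ ((k : ℝ) - u / 2 + δ)) ^ 2 * N ^ u = (N ^ k) ^ 2 * (N ^ δ) ^ 2 := by
        rw [← Real.rpow_natCast (N ^ ((k : ℝ) - u / 2 + δ)) 2, ← Real.rpow_mul hN0.le,
          ← Real.rpow_natCast N u, ← Real.rpow_add hN0, ← Real.rpow_natCast (N ^ δ) 2,
          ← Real.rpow_mul hN0.le, ← Real.rpow_natCast N k, ← Real.rpow_natCast (N ^ (k : ℝ)) 2,
          ← Real.rpow_mul hN0.le, ← Real.rpow_add hN0]
        congr 1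
        push_cast
        ring
      have h5 : (N ^ k) ^ 2 * (N ^ δ) ^ 2 ≤ w ^ 2 * N ^ u := by
        rw [← h4]
        gcongr
      have h6 : (c₄ / 2) ^ 2 * ((2 / c₄) ^ 2 * (2 * l ^ (3 * u + 3 + 2 * ⌈t * u⌉₊))) ≤
          (c₄ / 2) ^ 2 * (N ^ δ) ^ 2 := mul_le_mul_of_nonneg_left hbeatj (by positivity)
      have h7 : (c₄ / 2) ^ 2 * ((2 / c₄) ^ 2 * (2 * l ^ (3 * u + 3 + 2 * ⌈t * u⌉₊))) =
          2 * l ^ (3 * u + 3) * (l ^ ⌈t * u⌉₊) ^ 2 := by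
        rw [pow_add l, ← pow_mul l ⌈t * u⌉₊ 2, mul_comm 2 ⌈t * u⌉₊]
        field_simp
      rw [h7] at h6
      rw [div_pow, mul_pow, mul_pow, div_pow]
      rw [lt_div_iff₀ (by positivity)]
      have h8 : w * (2 * w * N ^ u * l ^ (3 * u + 3)) * (l ^ (t * u)) ^ 2 ≤
          w ^ 2 * N ^ u * (2 * l ^ (3 * u + 3) * (l ^ ⌈t * u⌉₊) ^ 2) := by
        calc _ = w ^ 2 * N ^ u * (2 * l ^ (3 * u + 3) * (l ^ (t * u)) ^ 2) := by ring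
          _ ≤ _ := by gcongr
      have h9 : w ^ 2 * N ^ u * (2 * l ^ (3 * u + 3) * (l ^ ⌈t * u⌉₊) ^ 2) ≤
          w ^ 2 * N ^ u * ((c₄ / 2) ^ 2 * (N ^ δ) ^ 2) := by gcongr
      have h10 : w ^ 2 * N ^ u * ((c₄ / 2) ^ 2 * (N ^ δ) ^ 2) <
          c₄ ^ 2 * (w ^ 2) ^ 2 * ((N ^ u) ^ 2 / (N ^ k) ^ 2) := by
        have h11 : c₄ ^ 2 * (w ^ 2) ^ 2 * ((N ^ u) ^ 2 / (N ^ k) ^ 2) =
            (c₄ ^ 2 * w ^ 2 * N ^ u / (N ^ k) ^ 2) * (w ^ 2 * N ^ u) := by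
          field_simp
        rw [h11]
        have h12 : (c₄ ^ 2 * w ^ 2 * N ^ u / (N ^ k) ^ 2) * ((N ^ k) ^ 2 * (N ^ δ) ^ 2) ≤
            (c₄ ^ 2 * w ^ 2 * N ^ u / (N ^ k) ^ 2) * (w ^ 2 * N ^ u) := by gcongr
        have h13 : (c₄ ^ 2 * w ^ 2 * N ^ u / (N ^ k) ^ 2) * ((N ^ k) ^ 2 * (N ^ δ) ^ 2) =
            w ^ 2 * N ^ u * (c₄ ^ 2 * (N ^ δ) ^ 2) := by
          field_simp
        have h14 : w ^ 2 * N ^ u * ((c₄ / 2) ^ 2 * (N ^ δ) ^ 2) <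
            w ^ 2 * N ^ u * (c₄ ^ 2 * (N ^ δ) ^ 2) := by
          have h15 : 0 < w ^ 2 * N ^ u * (c₄ ^ 2 * (N ^ δ) ^ 2) := by positivity
          have h16 : w ^ 2 * N ^ u * ((c₄ / 2) ^ 2 * (N ^ δ) ^ 2) =
              w ^ 2 * N ^ u * (c₄ ^ 2 * (N ^ δ) ^ 2) / 4 := by ring
          rw [h16]
          linarith
        linarith
      linarith
    calc Real.sqrt w * Real.sqrt (Xhigh u k K q (U j) W lam j) ≤
        Real.sqrt w * Real.sqrt (2 * w * N ^ u * l ^ (3 * u + 3)) :=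
          mul_le_mul_of_nonneg_left h1 (Real.sqrt_nonneg _)
      _ < _ := h2
  have hpos' : 0 < cn (trp u K W (U j) j) (val u k lam) M := by linarith
  unfold cn at hpos'
  have hcp : 0 < ((trp u K W (U j) j).filter fun p => val u k lam p = M).card := by
    exact_mod_cast hpos'
  obtain ⟨p, hp⟩ := Finset.card_pos.1 hcp
  rw [mem_filter] at hp
  obtain ⟨hp1, hp2⟩ := hp
  unfold trp at hp1
  rw [mem_product, mem_product] at hp1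
  refine ⟨j, p.1.1, p.1.2, p.2, hp1.1.1, hp1.1.2, fun i => ?_, ?_⟩
  · have h3 := hp1.2
    unfold tup at h3
    rw [Fintype.mem_piFinset] at h3
    have h5 : p.2 i ∈ Ioc (2 ^ j) (K * 2 ^ j) ∧ p.2 i ∈ W i := by
      simpa only [blk, Finset.mem_filter] using h3 i
    have h6 := (mem_Ioc.1 h5.1).1
    exact ⟨h5.2, lt_of_le_of_lt (Nat.zero_le _) h6⟩
  · unfold val fl at hp2
    push_cast at hp2
    exact hp2

end

end Pool.Agent.Run7.h757.MW
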