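import Pool.Agent.Run7.h757.MW.Eng
import Pool.Agent.Run7.h757.MW.Stm3
import Pool.Agent.Run7.h416.MW.MTF

/-!
# Project MW: all solutions in integers
-/

open Finset MeasureTheory Filter

namespace Pool.Agent.Run7.h757.MW

noncomputable section

/-- the value `|m|^k` for the `n`-th integer `m` -/
def fz (k n : ℕ) : ℕ := ((n + 1) / 2) ^ k

theorem sum_fold (g : ℕ → ℂ) (N : ℕ) :
    ∑ n ∈ Icc 0 (2 * N), g ((n + 1) / 2) = 2 * ∑ m ∈ Icc 0 N, g m - g 0 := by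
  induction N with
  | zero =>
    simp
    ring
  | succ N ih =>
    rw [show 2 * (N + 1) = 2 * N + 1 + 1 by ring, Finset.sum_Icc_succ_top (by omega),
      Finset.sum_Icc_succ_top (by omega), ih, Finset.sum_Icc_succ_top (by omega),
      show (2 * N + 1 + 1) / 2 = N + 1 by omega, show (2 * N + 1 + 1 + 1) / 2 = N + 1 by omega]
    ring

theorem T_fz (k N : ℕ) (hk : 1 ≤ k) (lam a : ℝ) :
    T (fz k) (Icc 0 (2 * N)) lam a = 2 * T (fun n => n ^ k) (Icc 0 N) lam a - 1 := by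
  unfold T fz
  have h := sum_fold (fun m => e (a * fl lam (m ^ k))) N
  rw [h]
  congr 1
  have h0 : fl lam (0 ^ k) = 0 := by
    unfold fl
    rw [zero_pow (by omega)]
    simp
  rw [h0]
  simp [e]

theorem full_ms (k K A : ℕ) (hk : 2 ≤ k) (hK : 1 ≤ K) (hA : 1 ≤ A) :
    ∃ C : ℝ, 0 < C ∧ ∀ (j : ℕ) (b : ℝ), b ≠ 0 → |b| ≤ 1 / 2 →
      ∫ lam in (0 : ℝ)..A, ‖T (fz k) (Icc 0 (2 * (K * 2 ^ j))) lam b‖ ^ 2 ≤
        C * ((j : ℝ) + 1) ^ 5 * ((2 : ℝ) ^ j + |b| ^ (-(2 : ℝ) / k)) := by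
  obtain ⟨C, hC, h⟩ := Pool.Agent.Run7.h416.MW.mtf ms_T
  have hK' : (1 : ℝ) ≤ K := by exact_mod_cast hK
  have hlK : 0 ≤ Real.log K := Real.log_nonneg hK'
  have hA' : (1 : ℝ) ≤ A := by exact_mod_cast hA
  refine ⟨8 * (C * A * (1 + Real.log K) ^ 5 * K) + 2 * A, by positivity, ?_⟩
  intro j b hb0 hb
  have hN : 1 ≤ K * 2 ^ j := Nat.mul_pos hK (by positivity)
  have h1 := h k (K * 2 ^ j) A b hk hN hA hb0 hb
  set l : ℝ := (j : ℝ) + 1 with hl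
  have hj0 : (0 : ℝ) ≤ j := by positivity
  have hl1 : 1 ≤ l := by
    rw [hl]
    linarith
  have hlog : 1 + Real.log ((K * 2 ^ j : ℕ) : ℝ) ≤ (1 + Real.log K) * l := by
    push_cast
    rw [Real.log_mul (by positivity) (by positivity), Real.log_pow]
    have h3 : (j : ℝ) * Real.log 2 ≤ j := by
      have : Real.log 2 ≤ 1 := by
        have := Real.log_two_lt_d9
        linarith
      nlinarith
    have h4 : 0 ≤ Real.log K * j := by positivity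
    rw [hl]
    nlinarith
  have hlog0 : 0 ≤ 1 + Real.log ((K * 2 ^ j : ℕ) : ℝ) := by
    have : 0 ≤ Real.log ((K * 2 ^ j : ℕ) : ℝ) := Real.log_nonneg (by exact_mod_cast hN)
    linarith
  set Y : ℝ := (2 : ℝ) ^ j + |b| ^ (-(2 : ℝ) / k) with hY
  have hY1 : 1 ≤ Y := by
    have h2 : (1 : ℝ) ≤ (2 : ℝ) ^ j := one_le_pow₀ (by norm_num)
    have h3 : (0 : ℝ) ≤ |b| ^ (-(2 : ℝ) / k) := by positivity
    rw [hY]
    linarith
  have h2 : ∫ lam in (0 : ℝ)..A, ‖T (fun n => n ^ k) (Icc 0 (K * 2 ^ j)) lam b‖ ^ 2 ≤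
      C * A * (1 + Real.log K) ^ 5 * K * l ^ 5 * Y := by
    refine h1.trans ?_
    have h3 : ((K * 2 ^ j : ℕ) : ℝ) + |b| ^ (-(2 : ℝ) / k) ≤ K * Y := by
      have h4 : |b| ^ (-(2 : ℝ) / k) ≤ K * |b| ^ (-(2 : ℝ) / k) :=
        le_mul_of_one_le_left (by positivity) hK'
      rw [hY]
      push_cast
      linarith
    calc C * A * (1 + Real.log ((K * 2 ^ j : ℕ) : ℝ)) ^ 5 *
          (((K * 2 ^ j : ℕ) : ℝ) + |b| ^ (-(2 : ℝ) / k))
        ≤ C * A * ((1 + Real.log K) * l) ^ 5 * (K * Y) := by gcongr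
      _ = _ := by ring
  have hi : IntervalIntegrable (fun lam : ℝ => ‖T (fun n => n ^ k) (Icc 0 (K * 2 ^ j)) lam b‖ ^ 2)
      volume 0 A := by
    refine ii_of_bdd ((measurable_T _ _ b).norm.pow_const 2)
      (C := ((Icc 0 (K * 2 ^ j)).card : ℝ) ^ 2) (fun x => ?_) A
    rw [abs_of_nonneg (by positivity)]
    have := norm_T_le (fun n => n ^ k) (Icc 0 (K * 2 ^ j)) x b
    gcongr
  have hi2 : IntervalIntegrable (fun lam : ℝ => ‖T (fz k) (Icc 0 (2 * (K * 2 ^ j))) lam b‖ ^ 2)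
      volume 0 A := by
    refine ii_of_bdd ((measurable_T _ _ b).norm.pow_const 2)
      (C := ((Icc 0 (2 * (K * 2 ^ j))).card : ℝ) ^ 2) (fun x => ?_) A
    rw [abs_of_nonneg (by positivity)]
    have := norm_T_le (fz k) (Icc 0 (2 * (K * 2 ^ j))) x b
    gcongr
  have hle : ∀ lam ∈ Set.Icc (0 : ℝ) A, ‖T (fz k) (Icc 0 (2 * (K * 2 ^ j))) lam b‖ ^ 2 ≤
      8 * ‖T (fun n => n ^ k) (Icc 0 (K * 2 ^ j)) lam b‖ ^ 2 + 2 := by
    intro lam _
    rw [T_fz k (K * 2 ^ j) (by omega)]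
    set z : ℂ := T (fun n => n ^ k) (Icc 0 (K * 2 ^ j)) lam b with hz
    have h3 : ‖2 * z - 1‖ ≤ 2 * ‖z‖ + 1 := by
      refine (norm_sub_le _ _).trans ?_
      rw [norm_mul]
      simp
    have h4 : 0 ≤ ‖z‖ := norm_nonneg _
    have h5 : 0 ≤ ‖2 * z - 1‖ := norm_nonneg _
    nlinarith [sq_nonneg (2 * ‖z‖ - 1)]
  have h3 := intervalIntegral.integral_mono_on (by positivity : (0 : ℝ) ≤ A) hi2
    ((hi.const_mul 8).add (intervalIntegrable_const (c := (2 : ℝ)))) hle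
  rw [intervalIntegral.integral_add (hi.const_mul 8) intervalIntegrable_const,
    intervalIntegral.integral_const_mul, intervalIntegral.integral_const] at h3
  refine h3.trans ?_
  rw [smul_eq_mul, sub_zero]
  have h4 : (A : ℝ) * 2 ≤ 2 * A * l ^ 5 * Y := by
    have h5 : 1 ≤ l ^ 5 * Y := one_le_mul_of_one_le_of_one_le (one_le_pow₀ hl1) hY1
    have h6 : 2 * (A : ℝ) * 1 ≤ 2 * A * (l ^ 5 * Y) := mul_le_mul_of_nonneg_left h5 (by positivity)
    linarith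
  calc 8 * (∫ lam in (0 : ℝ)..A, ‖T (fun n => n ^ k) (Icc 0 (K * 2 ^ j)) lam b‖ ^ 2) + A * 2
      ≤ 8 * (C * A * (1 + Real.log K) ^ 5 * K * l ^ 5 * Y) + 2 * A * l ^ 5 * Y := by gcongr
    _ = _ := by ring

/-- the low frequencies -/
def lowF (k j Q : ℕ) : Finset ℕ :=
  (Ico 1 Q).filter fun r => (2 : ℝ) ^ j ≤ |rep Q r| ^ (-(2 : ℝ) / k)

/-- the high frequencies -/
def highF (k j Q : ℕ) : Finset ℕ :=
  (Ico 1 Q).filter fun r => ¬ (2 : ℝ) ^ j ≤ |rep Q r| ^ (-(2 : ℝ) / k)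

/-- the weighted sum over the low frequencies -/
def XlowF (u k K q : ℕ) (B : ℕ) (x : Fin u → ℝ) (j : ℕ) : ℝ :=
  ∑ r ∈ lowF k j (q * 2 ^ (j * k)),
    ((2 : ℝ) ^ j) ^ k / ((j : ℝ) + 1) ^ B * |rep (q * 2 ^ (j * k)) r| ^ 3 *
      ∏ i, ‖T (fz k) (Icc 0 (2 * (K * 2 ^ j))) (x i) (rep (q * 2 ^ (j * k)) r)‖ ^ 2

/-- the sum over the high frequencies -/
def XhighF (u k K q : ℕ) (x : Fin u → ℝ) (j : ℕ) : ℝ :=
  ∑ r ∈ highF k j (q * 2 ^ (j * k)),
    1 / ((q * 2 ^ (j * k) : ℕ) : ℝ) *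
      ∏ i, ‖T (fz k) (Icc 0 (2 * (K * 2 ^ j))) (x i) (rep (q * 2 ^ (j * k)) r)‖ ^ 2

theorem core_lowF (hAE : S_AE) (u k A K q : ℕ) (hk : 2 ≤ k) (hu : 2 * k ≤ u)
    (hA : 1 ≤ A) (hK : 1 ≤ K) (hq : 1 ≤ q) :
    ∀ᵐ x : Fin u → ℝ, x ∈ Box u A → ∀ᶠ j : ℕ in atTop,
      XlowF u k K q (5 * u + 6) x j ≤
        ((2 : ℝ) ^ j) ^ (2 * u) / ((2 : ℝ) ^ j) ^ (2 * k) / ((j : ℝ) + 1) ^ 2 := by
  obtain ⟨C, hC, hms⟩ := full_ms k K A hk hK hA
  refine hAE u A 2 (fun _ => fz k) (fun j _ => Icc 0 (2 * (K * 2 ^ j)))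
    (fun j => lowF k j (q * 2 ^ (j * k)))
    (fun j r => ((2 : ℝ) ^ j) ^ k / ((j : ℝ) + 1) ^ (5 * u + 6) * |rep (q * 2 ^ (j * k)) r| ^ 3)
    (fun j r => rep (q * 2 ^ (j * k)) r)
    (fun j => ((2 : ℝ) ^ j) ^ (2 * u) / ((2 : ℝ) ^ j) ^ (2 * k) / ((j : ℝ) + 1) ^ 2)
    (fun j r => by positivity) (fun j => by positivity) ?_
  set E : ℝ := 2 * (u : ℝ) / k - 3 with hE
  have hk0 : (0 : ℝ) < k := by
    have : 0 < k := by omega
    exact_mod_cast this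
  have hE1 : 1 ≤ E := by
    have h1 : 2 * (k : ℝ) ≤ u := by exact_mod_cast hu
    have h2 : 4 ≤ 2 * (u : ℝ) / k := by
      rw [le_div_iff₀ hk0]
      linarith
    rw [hE]
    linarith
  set C2 : ℝ := (2 * C) ^ u * (q : ℝ) ^ E * (2 * (1 + Real.log q + k)) with hC2
  have hq' : (1 : ℝ) ≤ q := by exact_mod_cast hq
  have hlq : 0 ≤ Real.log q := Real.log_nonneg hq'
  have hev : ∀ᶠ j : ℕ in atTop, C2 ≤ (j : ℝ) + 1 := tendsto_l.eventually_ge_atTop _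
  filter_upwards [hev] with j hj
  set Q : ℕ := q * 2 ^ (j * k) with hQ
  set N : ℝ := (2 : ℝ) ^ j with hN
  set l : ℝ := (j : ℝ) + 1 with hl
  have hN1 : 1 ≤ N := one_le_pow₀ (by norm_num)
  have hN0 : 0 < N := by linarith
  have hl1 : 1 ≤ l := by
    have : (0 : ℝ) ≤ j := by positivity
    linarith
  have hl0 : 0 < l := by linarith
  have hQr : (Q : ℝ) = q * N ^ k := by
    rw [hQ, hN, ← pow_mul]
    push_cast
    ring
  have hQ1 : 1 ≤ Q := Nat.mul_pos hq (pow_pos (by norm_num) _)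
  have hQ0 : (0 : ℝ) < Q := by exact_mod_cast hQ1
  have hlogQ : 1 + Real.log Q ≤ (1 + Real.log q + k) * l := by
    rw [hQr, Real.log_mul (by positivity) (by positivity), Real.log_pow, hN, Real.log_pow]
    have h2 : Real.log 2 ≤ 1 := by
      have := Real.log_two_lt_d9
      linarith
    have hj0 : (0 : ℝ) ≤ j := by positivity
    have h3 : (k : ℝ) * ((j : ℝ) * Real.log 2) ≤ k * j := by
      refine mul_le_mul_of_nonneg_left ?_ hk0.le
      nlinarith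
    rw [hl]
    nlinarith [mul_nonneg hlq hj0, mul_nonneg hk0.le hj0]
  have hterm : ∀ r ∈ lowF k j Q, N ^ k / l ^ (5 * u + 6) * |rep Q r| ^ 3 *
      ∏ _i : Fin u, ∫ lam in (0 : ℝ)..A,
        ‖T (fz k) (Icc 0 (2 * (K * 2 ^ j))) lam (rep Q r)‖ ^ 2 ≤
      N ^ k / l ^ (5 * u + 6) * ((2 * C * l ^ 5) ^ u * (Q : ℝ) ^ E) *
        (1 / (Q * |rep Q r|)) := by
    intro r hr
    unfold lowF at hr
    rw [mem_filter] at hr
    obtain ⟨hr, hlow⟩ := hr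
    obtain ⟨h1, h2, -, h4⟩ := rep_abs hr
    have hb : rep Q r ≠ 0 := abs_pos.1 h1
    have hprod : ∏ _i : Fin u, ∫ lam in (0 : ℝ)..A,
        ‖T (fz k) (Icc 0 (2 * (K * 2 ^ j))) lam (rep Q r)‖ ^ 2 ≤
        (2 * C * l ^ 5 * |rep Q r| ^ (-(2 : ℝ) / k)) ^ u := by
      have h5 : ∫ lam in (0 : ℝ)..A,
          ‖T (fz k) (Icc 0 (2 * (K * 2 ^ j))) lam (rep Q r)‖ ^ 2 ≤
          2 * C * l ^ 5 * |rep Q r| ^ (-(2 : ℝ) / k) := by
        refine (hms j (rep Q r) hb h2).trans ?_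
        calc C * l ^ 5 * (N + |rep Q r| ^ (-(2 : ℝ) / k))
            ≤ C * l ^ 5 * (|rep Q r| ^ (-(2 : ℝ) / k) + |rep Q r| ^ (-(2 : ℝ) / k)) := by gcongr
          _ = _ := by ring
      calc _ ≤ ∏ _i : Fin u, 2 * C * l ^ 5 * |rep Q r| ^ (-(2 : ℝ) / k) := by
            refine Finset.prod_le_prod (fun i _ => ?_) fun i _ => h5
            exact intervalIntegral.integral_nonneg (by positivity) fun _ _ => by positivity
        _ = _ := by rw [Finset.prod_const, Finset.card_univ, Fintype.card_fin]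
    have h7 : |rep Q r| ^ 3 * (|rep Q r| ^ (-(2 : ℝ) / k)) ^ u = |rep Q r| ^ (-E) := by
      rw [← Real.rpow_natCast (|rep Q r| ^ (-(2 : ℝ) / k)) u, ← Real.rpow_mul h1.le,
        ← Real.rpow_natCast |rep Q r| 3, ← Real.rpow_add h1]
      congr 1
      rw [hE]
      push_cast
      field_simp
      ring
    have h8 : |rep Q r| ^ (-E) ≤ (Q : ℝ) ^ E * (1 / (Q * |rep Q r|)) := by
      have h9 : |rep Q r| ^ (-E) = (Q : ℝ) ^ E * (1 / (Q * |rep Q r|)) ^ E := by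
        rw [Real.div_rpow (by norm_num) (by positivity), Real.one_rpow,
          Real.mul_rpow hQ0.le h1.le, Real.rpow_neg h1.le]
        have h10 : (0 : ℝ) < (Q : ℝ) ^ E := by positivity
        have h11 : (0 : ℝ) < |rep Q r| ^ E := by positivity
        field_simp
      rw [h9]
      refine mul_le_mul_of_nonneg_left ?_ (by positivity)
      have h10 : 1 / (Q * |rep Q r|) ≤ 1 := by
        rw [div_le_one (by positivity)]
        exact h4
      exact Real.rpow_le_self_of_le_one (by positivity) h10 hE1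
    calc N ^ k / l ^ (5 * u + 6) * |rep Q r| ^ 3 *
        ∏ _i : Fin u, ∫ lam in (0 : ℝ)..A, ‖T (fz k) (Icc 0 (2 * (K * 2 ^ j))) lam (rep Q r)‖ ^ 2
        ≤ N ^ k / l ^ (5 * u + 6) * |rep Q r| ^ 3 *
          (2 * C * l ^ 5 * |rep Q r| ^ (-(2 : ℝ) / k)) ^ u := by gcongr
      _ = N ^ k / l ^ (5 * u + 6) * ((2 * C * l ^ 5) ^ u *
          (|rep Q r| ^ 3 * (|rep Q r| ^ (-(2 : ℝ) / k)) ^ u)) := by
          rw [mul_pow (2 * C * l ^ 5) (|rep Q r| ^ (-(2 : ℝ) / k)) u]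
          ring
      _ ≤ N ^ k / l ^ (5 * u + 6) * ((2 * C * l ^ 5) ^ u *
          ((Q : ℝ) ^ E * (1 / (Q * |rep Q r|)))) := by
          rw [h7]
          gcongr
      _ = _ := by ring
  refine (Finset.sum_le_sum hterm).trans ?_
  rw [← Finset.mul_sum]
  have hs : ∑ r ∈ lowF k j Q, 1 / (Q * |rep Q r|) ≤ 2 * ((1 + Real.log q + k) * l) := by
    calc ∑ r ∈ lowF k j Q, 1 / (Q * |rep Q r|) ≤ ∑ r ∈ Ico 1 Q, 1 / (Q * |rep Q r|) := by
          refine Finset.sum_le_sum_of_subset_of_nonneg (Finset.filter_subset _ _) fun r _ _ => ?_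
          positivity
      _ ≤ 2 * (1 + Real.log Q) := sum_inv_rep Q
      _ ≤ _ := by linarith
  have hQE : (Q : ℝ) ^ E * N ^ k = (q : ℝ) ^ E * (N ^ (2 * u) / N ^ (2 * k)) := by
    rw [hQr, Real.mul_rpow (by positivity) (by positivity), ← Real.rpow_natCast N k,
      ← Real.rpow_mul hN0.le, mul_assoc, ← Real.rpow_add hN0, ← Real.rpow_natCast N (2 * u),
      ← Real.rpow_natCast N (2 * k), ← Real.rpow_sub hN0]
    congr 2
    rw [hE]
    push_cast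
    field_simp
    ring
  have hfin : N ^ k / l ^ (5 * u + 6) * ((2 * C * l ^ 5) ^ u * (Q : ℝ) ^ E) *
      (2 * ((1 + Real.log q + k) * l)) =
      C2 * (N ^ (2 * u) / N ^ (2 * k)) / l ^ 5 := by
    have h1 : N ^ k / l ^ (5 * u + 6) * ((2 * C * l ^ 5) ^ u * (Q : ℝ) ^ E) *
      (2 * ((1 + Real.log q + k) * l)) = ((Q : ℝ) ^ E * N ^ k) * ((2 * C) ^ u * (l ^ 5) ^ u) /
        l ^ (5 * u + 6) * (2 * (1 + Real.log q + k)) * l := by
      rw [mul_pow (2 * C) (l ^ 5) u]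
      ring
    rw [h1, hQE, hC2, ← pow_mul l 5 u, pow_add l (5 * u) 6]
    field_simp
  calc _ ≤ N ^ k / l ^ (5 * u + 6) * ((2 * C * l ^ 5) ^ u * (Q : ℝ) ^ E) *
        (2 * ((1 + Real.log q + k) * l)) := by gcongr
    _ = C2 * (N ^ (2 * u) / N ^ (2 * k)) / l ^ 5 := hfin
    _ ≤ l * (N ^ (2 * u) / N ^ (2 * k)) / l ^ 5 := by gcongr
    _ = N ^ (2 * u) / N ^ (2 * k) / l ^ 2 / l ^ 2 := by
        field_simp

theorem core_highF (hAE : S_AE) (u k A K q : ℕ) (hk : 2 ≤ k)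
    (hA : 1 ≤ A) (hK : 1 ≤ K) (hq : 1 ≤ q) :
    ∀ᵐ x : Fin u → ℝ, x ∈ Box u A → ∀ᶠ j : ℕ in atTop,
      XhighF u k K q x j ≤ ((2 : ℝ) ^ j) ^ u * ((j : ℝ) + 1) ^ (5 * u + 3) := by
  obtain ⟨C, hC, hms⟩ := full_ms k K A hk hK hA
  refine hAE u A 2 (fun _ => fz k) (fun j _ => Icc 0 (2 * (K * 2 ^ j)))
    (fun j => highF k j (q * 2 ^ (j * k)))
    (fun j r => 1 / ((q * 2 ^ (j * k) : ℕ) : ℝ))
    (fun j r => rep (q * 2 ^ (j * k)) r)
    (fun j => ((2 : ℝ) ^ j) ^ u * ((j : ℝ) + 1) ^ (5 * u + 3))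
    (fun j r => by positivity) (fun j => by positivity) ?_
  have hev : ∀ᶠ j : ℕ in atTop, (2 * C) ^ u ≤ (j : ℝ) + 1 := tendsto_l.eventually_ge_atTop _
  filter_upwards [hev] with j hj
  set Q : ℕ := q * 2 ^ (j * k) with hQ
  set N : ℝ := (2 : ℝ) ^ j with hN
  set l : ℝ := (j : ℝ) + 1 with hl
  have hN1 : 1 ≤ N := one_le_pow₀ (by norm_num)
  have hN0 : 0 < N := by linarith
  have hl1 : 1 ≤ l := by
    have : (0 : ℝ) ≤ j := by positivity
    linarith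
  have hl0 : 0 < l := by linarith
  have hQ1 : 1 ≤ Q := Nat.mul_pos hq (pow_pos (by norm_num) _)
  have hQ0 : (0 : ℝ) < Q := by exact_mod_cast hQ1
  have hterm : ∀ r ∈ highF k j Q, 1 / (Q : ℝ) *
      ∏ _i : Fin u, ∫ lam in (0 : ℝ)..A,
        ‖T (fz k) (Icc 0 (2 * (K * 2 ^ j))) lam (rep Q r)‖ ^ 2 ≤
      1 / (Q : ℝ) * (2 * C * l ^ 5 * N) ^ u := by
    intro r hr
    unfold highF at hr
    rw [mem_filter] at hr
    obtain ⟨hr, hhigh⟩ := hr
    obtain ⟨h1, h2, -, -⟩ := rep_abs hr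
    have hb : rep Q r ≠ 0 := abs_pos.1 h1
    have h5 : ∫ lam in (0 : ℝ)..A,
        ‖T (fz k) (Icc 0 (2 * (K * 2 ^ j))) lam (rep Q r)‖ ^ 2 ≤ 2 * C * l ^ 5 * N := by
      refine (hms j (rep Q r) hb h2).trans ?_
      have h6 := (not_le.1 hhigh).le
      calc C * l ^ 5 * (N + |rep Q r| ^ (-(2 : ℝ) / k))
          ≤ C * l ^ 5 * (N + N) := by gcongr
        _ = _ := by ring
    refine mul_le_mul_of_nonneg_left ?_ (by positivity)
    calc _ ≤ ∏ _i : Fin u, 2 * C * l ^ 5 * N := by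
          refine Finset.prod_le_prod (fun i _ => ?_) fun i _ => h5
          exact intervalIntegral.integral_nonneg (by positivity) fun _ _ => by positivity
      _ = _ := by rw [Finset.prod_const, Finset.card_univ, Fintype.card_fin]
  refine (Finset.sum_le_sum hterm).trans ?_
  rw [Finset.sum_const, nsmul_eq_mul]
  have hcard : ((highF k j Q).card : ℝ) ≤ Q := by
    have h1 : (highF k j Q).card ≤ (Ico 1 Q).card := Finset.card_filter_le _ _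
    rw [Nat.card_Ico] at h1
    have h2 : (highF k j Q).card ≤ Q := by omega
    exact_mod_cast h2
  calc ((highF k j Q).card : ℝ) * (1 / (Q : ℝ) * (2 * C * l ^ 5 * N) ^ u)
      ≤ Q * (1 / (Q : ℝ) * (2 * C * l ^ 5 * N) ^ u) := by gcongr
    _ = (2 * C) ^ u * (N ^ u * l ^ (5 * u)) := by
        rw [mul_pow, mul_pow, ← pow_mul]
        field_simp
    _ ≤ l * (N ^ u * l ^ (5 * u)) := by gcongr
    _ = N ^ u * l ^ (5 * u + 3) / l ^ 2 := by
        rw [pow_add]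
        field_simp

end

end Pool.Agent.Run7.h757.MW
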