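import Pool.Agent.Run7.h757.MW.Full

/-!
# Project MW: all solutions in integers, the asymptotic formula
-/

open Finset MeasureTheory Filter

namespace Pool.Agent.Run7.h757.MW

noncomputable section

/-- the tuples -/
def sZ (u K j : ℕ) : Finset (Fin u → ℕ) := Fintype.piFinset fun _ => Icc 0 (2 * (K * 2 ^ j))

/-- the values -/
def vZ (u k : ℕ) (x : Fin u → ℝ) (n : Fin u → ℕ) : ℕ := ∑ i, fl (x i) (fz k (n i))

theorem sum_Z (u k K : ℕ) (x : Fin u → ℝ) (j : ℕ) (b : ℝ) :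
    ∑ n ∈ sZ u K j, e (vZ u k x n * b) =
      ∏ i, T (fz k) (Icc 0 (2 * (K * 2 ^ j))) (x i) b := by
  classical
  have h1 : ∀ n : Fin u → ℕ, e (vZ u k x n * b) = ∏ i, e (b * fl (x i) (fz k (n i))) := by
    intro n
    unfold vZ
    push_cast
    rw [Finset.sum_mul, e_sum]
    exact Finset.prod_congr rfl fun i _ => by rw [mul_comm]
  simp only [h1]
  unfold sZ T
  rw [Finset.prod_univ_sum]

theorem vZ_lt (u k K A : ℕ) (x : Fin u → ℝ) (j q : ℕ)
    (hx0 : ∀ i, 0 ≤ x i) (hx : ∀ i, x i ≤ A)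
    (hq : u * (A * K ^ k) < q) : ∀ n ∈ sZ u K j, vZ u k x n < q * 2 ^ (j * k) := by
  intro n hn
  unfold sZ at hn
  rw [Fintype.mem_piFinset] at hn
  have h4 : ∀ i, fl (x i) (fz k (n i)) ≤ A * (K * 2 ^ j) ^ k := by
    intro i
    have h5 := (mem_Icc.1 (hn i)).2
    have h6 : (n i + 1) / 2 ≤ K * 2 ^ j := by omega
    unfold fl fz
    refine Nat.floor_le_of_le ?_
    push_cast
    have h7 : (((n i + 1) / 2 : ℕ) : ℝ) ≤ K * (2 : ℝ) ^ j := by exact_mod_cast h6
    have := hx i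
    have := hx0 i
    gcongr
  unfold vZ
  have h8 : ∑ i, fl (x i) (fz k (n i)) ≤ u * (A * (K * 2 ^ j) ^ k) := by
    calc _ ≤ ∑ _i : Fin u, A * (K * 2 ^ j) ^ k := Finset.sum_le_sum fun i _ => h4 i
      _ = _ := by simp
  have h12 : (K * 2 ^ j) ^ k = K ^ k * 2 ^ (j * k) := by rw [mul_pow, (pow_mul 2 j k).symm]
  rw [h12] at h8
  have h13 : 0 < 2 ^ (j * k) := by positivity
  calc _ ≤ u * (A * (K ^ k * 2 ^ (j * k))) := h8
    _ = (u * (A * K ^ k)) * 2 ^ (j * k) := by ring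
    _ < q * 2 ^ (j * k) := Nat.mul_lt_mul_of_pos_right hq h13

/-- **comparison with the averages** -/
theorem det_Z {kk : ℕ → ℕ → ℕ → ℝ} (hkk : ∀ Q H r, 0 ≤ kk Q H r ∧ kk Q H r ≤ 1)
    (hkk2 : ∀ Q H r, 1 ≤ Q → 1 ≤ H → r < Q → kk Q H r ≤ 5 * (H * |rep Q r|) ^ (1 / 2 : ℝ))
    (hkk3 : ∀ (Q H M : ℕ) (c : ℕ → ℝ), 1 ≤ H → H ≤ M → M + H ≤ Q → (∀ m, 0 ≤ c m) →
      |c M - 1 / (H : ℝ) ^ 2 * ∑ i ∈ range H, ∑ j ∈ range H, c (M + i - j)| ≤
      ‖1 / (Q : ℂ) * ∑ r ∈ Ico 1 Q, kk Q H r * dft Q c r * e (-(M * rep Q r))‖)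
    (u k K A q B H : ℕ) (x : Fin u → ℝ) (j M : ℕ)
    (hx0 : ∀ i, 0 ≤ x i) (hx : ∀ i, x i ≤ A)
    (hq : u * (A * K ^ k) < q) (hH : 1 ≤ H)
    (hHB : (H : ℝ) ≤ ((2 : ℝ) ^ j) ^ k / ((j : ℝ) + 1) ^ B) (hHM : H ≤ M)
    (hMH : M + H ≤ q * 2 ^ (j * k)) :
    |cn (sZ u K j) (vZ u k x) M - 1 / (H : ℝ) ^ 2 *
      ∑ i ∈ range H, ∑ j' ∈ range H, cn (sZ u K j) (vZ u k x) (M + i - j')| ≤
        15 * Real.sqrt (XlowF u k K q B x j) + Real.sqrt (XhighF u k K q x j) := by
  classical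
  set Q : ℕ := q * 2 ^ (j * k) with hQ
  have hQ1 : 1 ≤ Q := by omega
  have hQ0 : (0 : ℝ) < Q := by exact_mod_cast hQ1
  set F : ℝ → ℂ := fun b => ∏ i, T (fz k) (Icc 0 (2 * (K * 2 ^ j))) (x i) b with hF
  have hd : ∀ r, dft Q (cn (sZ u K j) (vZ u k x)) r = F (rep Q r) := by
    intro r
    rw [dft_cn _ _ _ _ (vZ_lt u k K A x j q hx0 hx hq), sum_Z]
  refine (hkk3 Q H M (cn (sZ u K j) (vZ u k x)) hH hHM hMH (cn_nonneg _ _)).trans ?_
  have hsplit : ∑ r ∈ Ico 1 Q, (kk Q H r : ℂ) * dft Q (cn (sZ u K j) (vZ u k x)) r *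
      e (-(M * rep Q r)) = ∑ r ∈ lowF k j Q, (kk Q H r : ℂ) * F (rep Q r) * e (-(M * rep Q r)) +
        ∑ r ∈ highF k j Q, (kk Q H r : ℂ) * F (rep Q r) * e (-(M * rep Q r)) := by
    unfold lowF highF
    rw [Finset.sum_filter_add_sum_filter_not]
    exact Finset.sum_congr rfl fun r _ => by rw [hd]
  rw [hsplit, mul_add]
  refine (norm_add_le _ _).trans ?_
  rw [norm_mul, norm_mul]
  have hn1 : ‖1 / (Q : ℂ)‖ = 1 / (Q : ℝ) := by
    rw [norm_div, norm_one, Complex.norm_natCast]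
  rw [hn1]
  set Pr : ℕ → ℝ := fun r => ∏ i, ‖T (fz k) (Icc 0 (2 * (K * 2 ^ j))) (x i) (rep Q r)‖
    with hPr
  have hPr0 : ∀ r, 0 ≤ Pr r := fun r => Finset.prod_nonneg fun _ _ => norm_nonneg _
  have hFn : ∀ r, ‖F (rep Q r)‖ = Pr r := by
    intro r
    rw [hF]
    simp only
    rw [norm_prod]
  refine add_le_add ?_ ?_
  · -- the low frequencies
    have hlow : ∑ r ∈ lowF k j Q, ‖(kk Q H r : ℂ) * F (rep Q r) * e (-(M * rep Q r))‖ ≤
        ∑ r ∈ lowF k j Q, (5 * (Q : ℝ)) * ((1 / (Q * |rep Q r|)) *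
          (((H : ℝ) * |rep Q r|) ^ (1 / 2 : ℝ) * |rep Q r| * Pr r)) := by
      refine Finset.sum_le_sum fun r hr => ?_
      unfold lowF at hr
      rw [mem_filter] at hr
      obtain ⟨h2, -, -, -⟩ := rep_abs hr.1
      have hrQ := (mem_Ico.1 hr.1).2
      rw [norm_mul, norm_mul, norm_e, mul_one, Complex.norm_real, Real.norm_eq_abs,
        abs_of_nonneg (hkk Q H r).1, hFn]
      calc kk Q H r * Pr r ≤ (5 * (H * |rep Q r|) ^ (1 / 2 : ℝ)) * Pr r :=
            mul_le_mul_of_nonneg_right (hkk2 Q H r hQ1 hH hrQ) (hPr0 r)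
        _ = _ := by
            field_simp
    have hcs : ∑ r ∈ lowF k j Q, (1 / (Q * |rep Q r|)) *
          (((H : ℝ) * |rep Q r|) ^ (1 / 2 : ℝ) * |rep Q r| * Pr r) ≤
        3 * Real.sqrt (XlowF u k K q B x j) := by
      have h2 := Finset.sum_mul_sq_le_sq_mul_sq (lowF k j Q) (fun r => 1 / (Q * |rep Q r|))
        (fun r => ((H : ℝ) * |rep Q r|) ^ (1 / 2 : ℝ) * |rep Q r| * Pr r)
      have h3 : ∑ r ∈ lowF k j Q, (1 / (Q * |rep Q r|)) ^ 2 ≤ 8 := by
        refine le_trans ?_ (sum_inv_sq_rep Q)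
        exact Finset.sum_le_sum_of_subset_of_nonneg (Finset.filter_subset _ _)
          fun r _ _ => by positivity
      have h4 : ∑ r ∈ lowF k j Q, (((H : ℝ) * |rep Q r|) ^ (1 / 2 : ℝ) * |rep Q r| * Pr r) ^ 2 ≤
          XlowF u k K q B x j := by
        unfold XlowF
        rw [← hQ]
        refine Finset.sum_le_sum fun r _ => ?_
        have h5 : ((((H : ℝ) * |rep Q r|) ^ (1 / 2 : ℝ)) ^ 2) = H * |rep Q r| := by
          rw [← Real.rpow_natCast, ← Real.rpow_mul (by positivity)]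
          norm_num
        rw [mul_pow, mul_pow, h5, hPr]
        simp only
        rw [← Finset.prod_pow]
        have h6 : 0 ≤ ∏ i, ‖T (fz k) (Icc 0 (2 * (K * 2 ^ j))) (x i) (rep Q r)‖ ^ 2 :=
          Finset.prod_nonneg fun _ _ => by positivity
        refine mul_le_mul_of_nonneg_right ?_ h6
        calc (H : ℝ) * |rep Q r| * |rep Q r| ^ 2 = H * |rep Q r| ^ 3 := by ring
          _ ≤ _ := mul_le_mul_of_nonneg_right hHB (by positivity)
      have hX0 : 0 ≤ XlowF u k K q B x j :=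
        le_trans (Finset.sum_nonneg fun _ _ => sq_nonneg _) h4
      have h7 : (∑ r ∈ lowF k j Q, (1 / (Q * |rep Q r|)) *
          (((H : ℝ) * |rep Q r|) ^ (1 / 2 : ℝ) * |rep Q r| * Pr r)) ^ 2 ≤
          (3 * Real.sqrt (XlowF u k K q B x j)) ^ 2 := by
        rw [mul_pow, Real.sq_sqrt hX0]
        refine h2.trans ?_
        calc _ ≤ 8 * XlowF u k K q B x j := by
              refine mul_le_mul h3 h4 (Finset.sum_nonneg fun _ _ => sq_nonneg _) (by norm_num)
          _ ≤ _ := by nlinarith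
      exact (abs_le_of_sq_le_sq' h7 (by positivity)).2
    calc 1 / (Q : ℝ) * ‖∑ r ∈ lowF k j Q, (kk Q H r : ℂ) * F (rep Q r) * e (-(M * rep Q r))‖
        ≤ 1 / (Q : ℝ) * ∑ r ∈ lowF k j Q,
            ‖(kk Q H r : ℂ) * F (rep Q r) * e (-(M * rep Q r))‖ := by
          refine mul_le_mul_of_nonneg_left (norm_sum_le _ _) (by positivity)
      _ ≤ 1 / (Q : ℝ) * ∑ r ∈ lowF k j Q, (5 * (Q : ℝ)) * ((1 / (Q * |rep Q r|)) *
          (((H : ℝ) * |rep Q r|) ^ (1 / 2 : ℝ) * |rep Q r| * Pr r)) :=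
          mul_le_mul_of_nonneg_left hlow (by positivity)
      _ = 5 * ∑ r ∈ lowF k j Q, (1 / (Q * |rep Q r|)) *
          (((H : ℝ) * |rep Q r|) ^ (1 / 2 : ℝ) * |rep Q r| * Pr r) := by
          rw [← Finset.mul_sum]
          have h9 : ∀ Y : ℝ, 1 / (Q : ℝ) * (5 * Q * Y) = 5 * Y := by
            intro Y
            field_simp
          exact h9 _
      _ ≤ 5 * (3 * Real.sqrt (XlowF u k K q B x j)) :=
          mul_le_mul_of_nonneg_left hcs (by norm_num)
      _ = _ := by ring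
  · -- the high frequencies
    have h1 : ‖∑ r ∈ highF k j Q, (kk Q H r : ℂ) * F (rep Q r) * e (-(M * rep Q r))‖ ≤
        ∑ r ∈ highF k j Q, 1 * Pr r := by
      refine (norm_sum_le _ _).trans (Finset.sum_le_sum fun r _ => ?_)
      rw [norm_mul, norm_e, mul_one, norm_mul, Complex.norm_real,
        Real.norm_eq_abs, abs_of_nonneg (hkk Q H r).1, hFn]
      exact mul_le_mul_of_nonneg_right (hkk Q H r).2 (hPr0 r)
    have h2 := Finset.sum_mul_sq_le_sq_mul_sq (highF k j Q) (fun _ => (1 : ℝ)) Pr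
    have h3 : ∑ _r ∈ highF k j Q, (1 : ℝ) ^ 2 ≤ Q := by
      rw [one_pow, Finset.sum_const, nsmul_eq_mul, mul_one]
      have h1 : (highF k j Q).card ≤ (Ico 1 Q).card := Finset.card_filter_le _ _
      rw [Nat.card_Ico] at h1
      have h2 : (highF k j Q).card ≤ Q := by omega
      exact_mod_cast h2
    have h4 : ∑ r ∈ highF k j Q, Pr r ^ 2 = Q * XhighF u k K q x j := by
      unfold XhighF
      rw [← hQ, Finset.mul_sum]
      refine Finset.sum_congr rfl fun r _ => ?_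
      rw [hPr]
      simp only
      rw [← Finset.prod_pow]
      field_simp
    have hX0 : 0 ≤ XhighF u k K q x j := by
      unfold XhighF
      exact Finset.sum_nonneg fun r _ =>
        mul_nonneg (by positivity) (Finset.prod_nonneg fun _ _ => by positivity)
    have h5 : (∑ r ∈ highF k j Q, 1 * Pr r) ≤ Q * Real.sqrt (XhighF u k K q x j) := by
      refine (abs_le_of_sq_le_sq' (h2.trans ?_) (by positivity)).2
      rw [mul_pow, Real.sq_sqrt hX0, h4]
      calc _ ≤ (Q : ℝ) * (Q * XhighF u k K q x j) :=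
            mul_le_mul_of_nonneg_right h3 (by positivity)
        _ = _ := by ring
    calc _ ≤ 1 / (Q : ℝ) * (Q * Real.sqrt (XhighF u k K q x j)) :=
          mul_le_mul_of_nonneg_left (h1.trans h5) (by positivity)
      _ = _ := by field_simp

/-- the number of the representations by integers -/
def NZ (u k : ℕ) (lam : Fin u → ℝ) (M : ℕ) : ℕ :=
  {m : Fin u → ℤ | ∑ i, fl (lam i) ((m i).natAbs ^ k) = M}.ncard

/-- the integer with index `n` -/
def iz (n : ℕ) : ℤ := if n % 2 = 0 then (n / 2 : ℕ) else -((n + 1) / 2 : ℕ)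

theorem iz_abs (n : ℕ) : (iz n).natAbs = (n + 1) / 2 := by
  unfold iz
  split_ifs with h <;> omega

theorem iz_inj : Function.Injective iz := by
  intro a b h
  unfold iz at h
  split_ifs at h with h1 h2 h2 <;> omega

theorem iz_surj (m : ℤ) : ∃ n, iz n = m ∧ n ≤ 2 * m.natAbs := by
  rcases le_or_gt 0 m with h | h
  · refine ⟨2 * m.natAbs, ?_, le_rfl⟩
    unfold iz
    rw [if_pos (by omega)]
    omega
  · refine ⟨2 * m.natAbs - 1, ?_, by omega⟩
    unfold iz
    rw [if_neg (by omega)]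
    omega

/-- all solutions are counted -/
theorem cn_eq_NZ (u k K : ℕ) (lam : Fin u → ℝ) (hlam : ∀ i, 0 < lam i)
    (R : ℕ) (hK : ∀ i, (R : ℝ) ≤ lam i * (K : ℝ) ^ k) (j m : ℕ)
    (hm : m + 1 ≤ R * 2 ^ (j * k)) :
    cn (sZ u K j) (vZ u k lam) m = NZ u k lam m := by
  classical
  unfold cn NZ
  have h1 : {m' : Fin u → ℤ | ∑ i, fl (lam i) ((m' i).natAbs ^ k) = m} =
      (((sZ u K j).filter fun n => vZ u k lam n = m).image fun n i => iz (n i) :
        Finset (Fin u → ℤ)) := by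
    ext p
    rw [Finset.mem_coe, mem_image]
    constructor
    · intro hp
      have hp' : ∑ i, fl (lam i) ((p i).natAbs ^ k) = m := hp
      choose n hn1 hn2 using fun i => iz_surj (p i)
      refine ⟨n, ?_, funext hn1⟩
      have hv : vZ u k lam n = m := by
        rw [← hp']
        unfold vZ
        refine Finset.sum_congr rfl fun i _ => ?_
        rw [← hn1 i, iz_abs]
        rfl
      rw [mem_filter]
      refine ⟨?_, hv⟩
      unfold sZ
      rw [Fintype.mem_piFinset]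
      intro i
      have h2 : fl (lam i) ((p i).natAbs ^ k) ≤ m := by
        rw [← hp']
        exact Finset.single_le_sum (f := fun i => fl (lam i) ((p i).natAbs ^ k))
          (fun _ _ => Nat.zero_le _) (mem_univ i)
      have h3 : lam i * (((p i).natAbs ^ k : ℕ) : ℝ) < m + 1 := by
        have h4 := Nat.lt_floor_add_one (lam i * (((p i).natAbs ^ k : ℕ) : ℝ))
        have h5 : ((fl (lam i) ((p i).natAbs ^ k) : ℕ) : ℝ) ≤ m := by exact_mod_cast h2
        unfold fl at h5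
        linarith
      have h6 : ((m : ℝ) + 1) ≤ R * ((2 : ℝ) ^ j) ^ k := by
        rw [← pow_mul]
        exact_mod_cast hm
      have h7 : lam i * (((p i).natAbs ^ k : ℕ) : ℝ) < lam i * ((K : ℝ) * (2 : ℝ) ^ j) ^ k := by
        calc _ < (m : ℝ) + 1 := h3
          _ ≤ R * ((2 : ℝ) ^ j) ^ k := h6
          _ ≤ lam i * (K : ℝ) ^ k * ((2 : ℝ) ^ j) ^ k :=
            mul_le_mul_of_nonneg_right (hK i) (by positivity)
          _ = _ := by rw [mul_pow]; ring
      have h8 := lt_of_mul_lt_mul_left h7 (hlam i).le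
      have h9 : (p i).natAbs < K * 2 ^ j := by
        by_contra h
        push Not at h
        have h10 : (K * 2 ^ j) ^ k ≤ (p i).natAbs ^ k := Nat.pow_le_pow_left h k
        have h11 : ((K : ℝ) * (2 : ℝ) ^ j) ^ k ≤ (((p i).natAbs ^ k : ℕ) : ℝ) := by
          exact_mod_cast h10
        linarith
      rw [mem_Icc]
      have := hn2 i
      omega
    · rintro ⟨n, hn, rfl⟩
      rw [mem_filter] at hn
      have h2 := hn.2
      unfold vZ at h2
      change ∑ i, fl (lam i) ((iz (n i)).natAbs ^ k) = m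
      rw [← h2]
      refine Finset.sum_congr rfl fun i _ => ?_
      rw [iz_abs]
      rfl
  rw [h1, Set.ncard_coe_finset, Finset.card_image_of_injective]
  intro a b hab
  funext i
  exact iz_inj (congrFun hab i)

end

end Pool.Agent.Run7.h757.MW
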