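import Pool.Agent.Run7.h757.MW.Use

/-!
# Project MW: the number of solutions, and exceptional sets
-/

open Finset MeasureTheory Filter

namespace Pool.Agent.Run7.h757.MW

noncomputable section

/-- Parseval for the high frequencies -/
theorem EH_sq (hPAR : S_PAR) {kk : ℕ → ℕ → ℕ → ℝ} (hkk : ∀ Q H r, 0 ≤ kk Q H r ∧ kk Q H r ≤ 1)
    (u k K q H : ℕ) (W : Fin u → Set ℕ) (U : Finset ℕ) (x : Fin u → ℝ) (j : ℕ) (hq : 1 ≤ q) :
    ∑ M ∈ range (q * 2 ^ (j * k)), EH kk u k K q H W U x j M ^ 2 ≤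
      (U.card : ℝ) ^ 2 * Xhigh u k K q U W x j := by
  classical
  unfold EH Xhigh
  set Q : ℕ := q * 2 ^ (j * k) with hQ
  have hQ1 : 1 ≤ Q := Nat.mul_pos hq (pow_pos (by norm_num) _)
  have hQ0 : (0 : ℝ) < Q := by exact_mod_cast hQ1
  have hsub : high k j Q ⊆ range Q := by
    intro r hr
    unfold high at hr
    rw [mem_filter, mem_Ico] at hr
    exact mem_range.2 hr.1.2
  have h1 := (hPAR Q hQ1).1 (fun r => (kk Q H r : ℂ) * (SU U (rep Q r) ^ 2 *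
      ∏ i, T (fun n => n ^ k) (blk (W i) K (2 ^ j)) (x i) (rep Q r))) (high k j Q) hsub
  rw [h1, Finset.mul_sum, Finset.mul_sum]
  refine Finset.sum_le_sum fun r _ => ?_
  rw [norm_mul, norm_mul, norm_pow, norm_prod, Complex.norm_real,
    Real.norm_eq_abs, abs_of_nonneg (hkk Q H r).1]
  have hSU : ‖SU U (rep Q r)‖ ≤ U.card := by
    unfold SU
    refine (norm_sum_le _ _).trans ?_
    simp [norm_e]
  set P : ℝ := ∏ i, ‖T (fun n => n ^ k) (blk (W i) K (2 ^ j)) (x i) (rep Q r)‖ with hP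
  have hP0 : 0 ≤ P := Finset.prod_nonneg fun _ _ => norm_nonneg _
  have hP2 : ∏ i, ‖T (fun n => n ^ k) (blk (W i) K (2 ^ j)) (x i) (rep Q r)‖ ^ 2 = P ^ 2 := by
    rw [hP, Finset.prod_pow]
  rw [hP2]
  have h2 := (hkk Q H r)
  calc 1 / (Q : ℝ) * (kk Q H r * (‖SU U (rep Q r)‖ ^ 2 * P)) ^ 2
      ≤ 1 / (Q : ℝ) * (1 * (‖SU U (rep Q r)‖ ^ 2 * P)) ^ 2 := by
        have h3 := h2.1
        have h4 := h2.2
        gcongr
    _ = ‖SU U (rep Q r)‖ ^ 2 * (1 / (Q : ℝ) * ‖SU U (rep Q r)‖ ^ 2 * P ^ 2) := by ring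
    _ ≤ (U.card : ℝ) ^ 2 * (1 / (Q : ℝ) * ‖SU U (rep Q r)‖ ^ 2 * P ^ 2) := by gcongr

/-- the solutions -/
def sl (k s : ℕ) (W : Fin s → Set ℕ) (lam : Fin s → ℝ) (M : ℕ) : Set (Fin s → ℕ) :=
  {n | (∀ i, 1 ≤ n i ∧ n i ∈ W i) ∧ ∑ i, ⌊lam i * (n i : ℝ) ^ k⌋₊ = M}

theorem sl_le {k s : ℕ} {W : Fin s → Set ℕ} {lam : Fin s → ℝ} {M : ℕ} (hk : 1 ≤ k)
    (hlam : ∀ i, 0 < lam i) {n : Fin s → ℕ} (hn : n ∈ sl k s W lam M) (i : Fin s) :
    lam i * (n i : ℝ) ^ k < M + 1 ∧ (n i : ℝ) < (M + 1) / lam i := by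
  have h1 : ⌊lam i * (n i : ℝ) ^ k⌋₊ ≤ M := by
    rw [← hn.2]
    exact Finset.single_le_sum (f := fun i => ⌊lam i * (n i : ℝ) ^ k⌋₊)
      (fun _ _ => Nat.zero_le _) (mem_univ i)
  have h2 : lam i * (n i : ℝ) ^ k < M + 1 := by
    have h3 := Nat.lt_floor_add_one (lam i * (n i : ℝ) ^ k)
    have h4 : ((⌊lam i * (n i : ℝ) ^ k⌋₊ : ℕ) : ℝ) ≤ M := by exact_mod_cast h1
    linarith
  refine ⟨h2, ?_⟩
  rw [lt_div_iff₀ (hlam i)]
  have h3 : (1 : ℝ) ≤ n i := by exact_mod_cast (hn.1 i).1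
  have h4 : (n i : ℝ) ≤ (n i : ℝ) ^ k := le_self_pow₀ h3 (by omega)
  have := hlam i
  nlinarith

theorem sl_finite {k s : ℕ} {W : Fin s → Set ℕ} {lam : Fin s → ℝ} {M : ℕ} (hk : 1 ≤ k)
    (hlam : ∀ i, 0 < lam i) : (sl k s W lam M).Finite := by
  classical
  refine Set.Finite.subset (Finset.finite_toSet
    (Fintype.piFinset fun i => range (⌈((M : ℝ) + 1) / lam i⌉₊ + 1))) ?_
  intro n hn
  rw [Finset.mem_coe, Fintype.mem_piFinset]
  intro i
  have h1 := (sl_le hk hlam hn i).2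
  have h2 := Nat.le_ceil (((M : ℝ) + 1) / lam i)
  have h3 : (n i : ℝ) < (⌈((M : ℝ) + 1) / lam i⌉₊ : ℝ) := h1.trans_le h2
  rw [mem_range]
  have h4 : n i < ⌈((M : ℝ) + 1) / lam i⌉₊ := by exact_mod_cast h3
  omega

theorem cn_le_ncard {k s K : ℕ} {W : Fin s → Set ℕ} {lam : Fin s → ℝ} {M j : ℕ} (hk : 1 ≤ k)
    (hlam : ∀ i, 0 < lam i) :
    cn (trp s K W {0} j) (val s k lam) M ≤ ((sl k s W lam M).ncard : ℝ) := by
  classical
  unfold cn
  set F : Finset ((ℕ × ℕ) × (Fin s → ℕ)) :=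
    (trp s K W {0} j).filter fun p => val s k lam p = M with hF
  have hmem : ∀ p ∈ F, p.1 = (0, 0) ∧ p.2 ∈ sl k s W lam M := by
    intro p hp
    rw [hF, mem_filter] at hp
    obtain ⟨hp1, hp2⟩ := hp
    unfold trp at hp1
    rw [mem_product, mem_product, mem_singleton, mem_singleton] at hp1
    obtain ⟨⟨h1, h2⟩, h3⟩ := hp1
    refine ⟨Prod.ext h1 h2, fun i => ?_, ?_⟩
    · unfold tup at h3
      rw [Fintype.mem_piFinset] at h3
      have h5 : p.2 i ∈ Ioc (2 ^ j) (K * 2 ^ j) ∧ p.2 i ∈ W i := by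
        simpa only [blk, Finset.mem_filter] using h3 i
      have h6 := (mem_Ioc.1 h5.1).1
      exact ⟨lt_of_le_of_lt (Nat.zero_le _) h6, h5.2⟩
    · unfold val fl at hp2
      rw [h1, h2] at hp2
      push_cast at hp2
      simpa using hp2
  have h1 : (F.image Prod.snd).card = F.card := by
    refine Finset.card_image_of_injOn ?_
    intro a ha b hb hab
    exact Prod.ext ((hmem a ha).1.trans (hmem b hb).1.symm) hab
  have h2 : ((F.image Prod.snd : Finset (Fin s → ℕ)) : Set (Fin s → ℕ)) ⊆ sl k s W lam M := by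
    intro n hn
    rw [Finset.mem_coe, mem_image] at hn
    obtain ⟨p, hp, rfl⟩ := hn
    exact (hmem p hp).2
  have h3 := Set.ncard_le_ncard h2 (sl_finite hk hlam)
  rw [Set.ncard_coe_finset, h1] at h3
  exact_mod_cast h3

/-- **One block.** -/
theorem hl_block (u k : ℕ) (hu : 4 ≤ u) (hk : 2 ≤ k) (W : Fin u → Set ℕ) (c t : ℝ) (hc : 0 < c)
    (ht : 0 ≤ t) (hW : ∀ i, Reg c t (W i)) :
    ∀ᵐ lam : Fin u → ℝ, (∀ i, 0 < lam i) → ∃ (c₁ c₅ C : ℝ), 0 < c₁ ∧ 0 < c₅ ∧ 0 < C ∧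
      ∀ᶠ j : ℕ in atTop, ∃ Bad : Finset ℕ,
        (Bad.card : ℝ) ≤ C * ((2 : ℝ) ^ j) ^ (2 * (k : ℝ) - u) *
          ((j : ℝ) + 1) ^ (3 * (u : ℝ) + 3 + 2 * (t * u)) ∧
        ∀ M : ℕ, c₁ * (2 : ℝ) ^ (j * k) ≤ M → (M : ℝ) ≤ (2 : ℝ) ^ k * c₁ * (2 : ℝ) ^ (j * k) →
          M ∉ Bad → c₅ * (((2 : ℝ) ^ j) ^ u / ((2 : ℝ) ^ j) ^ k) / ((j : ℝ) + 1) ^ (t * u) ≤
            ((sl k u W lam M).ncard : ℝ) := by
  classical
  have heng := engine u k hu hk W c t hc ht hW (fun _ => {0})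
    (Filter.Eventually.of_forall fun j a ha => by
      rw [mem_singleton] at ha
      rw [ha]
      exact Nat.zero_le _)
    (Filter.Eventually.of_forall fun j => Finset.singleton_nonempty 0)
  filter_upwards [heng] with lam hlam hpos
  obtain ⟨K, q, c₁, c₄, hc₁, hc₄, hq, hj⟩ := hlam hpos
  refine ⟨c₁, c₄ / 2, 8 / c₄ ^ 2, hc₁, by positivity, by positivity, ?_⟩
  filter_upwards [hj] with j hj
  obtain ⟨hUr, hj1, hj2⟩ := hj
  rw [Finset.card_singleton] at hj2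
  set N : ℝ := (2 : ℝ) ^ j with hN
  set l : ℝ := (j : ℝ) + 1 with hl
  have hN1 : 1 ≤ N := one_le_pow₀ (by norm_num)
  have hN0 : 0 < N := by linarith
  have hl1 : 1 ≤ l := by
    have : (0 : ℝ) ≤ j := by positivity
    linarith
  have hl0 : 0 < l := by linarith
  have hlt : (0 : ℝ) < l ^ (t * u) := Real.rpow_pos_of_pos hl0 _
  set m : ℝ := c₄ / 2 * (N ^ u / N ^ k) / l ^ (t * u) with hm
  have hm0 : 0 < m := by positivity
  set E : ℕ → ℝ := fun M => EH kk0 u k K q (HH k j (BB u t)) W {0} lam j M with hE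
  refine ⟨(range (q * 2 ^ (j * k))).filter fun M => m ≤ E M, ?_, fun M hM1 hM2 hbad => ?_⟩
  · have hsq := EH_sq Pool.Agent.Run7.h304.MW.PAR kk0_spec.1 u k K q (HH k j (BB u t)) W {0} lam
      j hq
    rw [Finset.card_singleton] at hsq
    have h1 : (((range (q * 2 ^ (j * k))).filter fun M => m ≤ E M).card : ℝ) * m ^ 2 ≤
        ∑ M ∈ range (q * 2 ^ (j * k)), E M ^ 2 := by
      calc _ = ∑ _M ∈ (range (q * 2 ^ (j * k))).filter fun M => m ≤ E M, m ^ 2 := by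
            rw [Finset.sum_const, nsmul_eq_mul]
        _ ≤ ∑ M ∈ (range (q * 2 ^ (j * k))).filter fun M => m ≤ E M, E M ^ 2 := by
            refine Finset.sum_le_sum fun M hM => ?_
            have := (mem_filter.1 hM).2
            gcongr
        _ ≤ _ := Finset.sum_le_sum_of_subset_of_nonneg (Finset.filter_subset _ _)
            fun _ _ _ => sq_nonneg _
    have h2 : (((range (q * 2 ^ (j * k))).filter fun M => m ≤ E M).card : ℝ) * m ^ 2 ≤
        2 * N ^ u * l ^ (3 * u + 3) := by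
      refine h1.trans (hsq.trans ?_)
      push_cast at hj2 ⊢
      linarith
    rw [← le_div_iff₀ (by positivity)] at h2
    refine h2.trans (le_of_eq ?_)
    rw [hm, Real.rpow_sub hN0, Real.rpow_add hl0, mul_comm (2 : ℝ) (k : ℝ), Real.rpow_mul hN0.le,
      mul_comm (2 : ℝ) (t * u), Real.rpow_mul hl0.le (t * u)]
    have e1 : l ^ (3 * (u : ℝ) + 3) = l ^ (3 * u + 3) := by
      rw [← Real.rpow_natCast]
      push_cast
      rfl
    rw [e1, Real.rpow_natCast, Real.rpow_natCast, Real.rpow_ofNat, Real.rpow_ofNat]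
    field_simp
    ring
  · obtain ⟨hMQ, hmain⟩ := hj1 M hM1 hM2
    rw [Finset.card_singleton] at hmain
    have h1 : E M < m := by
      by_contra h
      exact hbad (mem_filter.2 ⟨mem_range.2 hMQ, not_lt.1 h⟩)
    have h2 : c₄ * ((1 : ℕ) : ℝ) ^ 2 * (N ^ u / N ^ k) / l ^ (t * u) = m + m := by
      rw [hm]
      push_cast
      ring
    rw [h2] at hmain
    have h3 := cn_le_ncard (K := K) (W := W) (M := M) (j := j) (show 1 ≤ k by omega) hpos
    have h4 : EH kk0 u k K q (HH k j (BB u t)) W {0} lam j M = E M := rfl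
    rw [h4] at hmain
    linarith

end

end Pool.Agent.Run7.h757.MW
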