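import Pool.Agent.Run7.h757.MW.Lift

/-!
# Project MW: the numbers of the variables
-/

open Finset MeasureTheory Filter

namespace Pool.Agent.Run7.h757.MW

noncomputable section

theorem exp74 : Real.exp (-(7 / 4 : ℝ)) ≤ 0.174 := by
  have h1 : (0.174 : ℝ)⁻¹ ≤ Real.exp (7 / 4) := by
    have h2 : ((0.174 : ℝ)⁻¹) ^ 4 ≤ Real.exp (7 / 4) ^ 4 := by
      calc ((0.174 : ℝ)⁻¹) ^ 4 ≤ (2.7182818283 : ℝ) ^ 7 := by norm_num
        _ ≤ Real.exp 1 ^ 7 := by
            gcongr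
            exact Real.exp_one_gt_d9.le
        _ = Real.exp (7 / 4) ^ 4 := by
            rw [← Real.exp_nat_mul, ← Real.exp_nat_mul]
            norm_num
    exact le_of_pow_le_pow_left₀ (by norm_num) (Real.exp_pos _).le h2
  rw [Real.exp_neg, inv_le_comm₀ (Real.exp_pos _) (by norm_num)]
  exact h1

theorem theta_exp {k : ℕ} (hk : 1 ≤ k) (r : ℕ) :
    (1 - 1 / (k : ℝ)) ^ r ≤ Real.exp (-((r : ℝ) / k)) := by
  have hk0 : (1 : ℝ) ≤ k := by exact_mod_cast hk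
  have hk1 : (0 : ℝ) ≤ 1 - 1 / (k : ℝ) := by
    have h2 : 1 / (k : ℝ) ≤ 1 := by
      rw [div_le_one (by linarith)]
      exact hk0
    linarith
  calc (1 - 1 / (k : ℝ)) ^ r ≤ Real.exp (-(1 / (k : ℝ))) ^ r := by
        gcongr
        exact Real.one_sub_le_exp_neg _
    _ = Real.exp (-((r : ℝ) / k)) := by
        rw [← Real.exp_nat_mul]
        congr 1
        field_simp

theorem theta_le {k r : ℕ} (hk : 1 ≤ k) (h : 7 * k ≤ 4 * r) : (1 - 1 / (k : ℝ)) ^ r ≤ 0.174 := by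
  refine (theta_exp hk r).trans (le_trans ?_ exp74)
  have hk0 : (1 : ℝ) ≤ k := by exact_mod_cast hk
  rw [Real.exp_le_exp, neg_le_neg_iff, div_le_div_iff₀ (by norm_num) (by linarith)]
  have : (7 : ℝ) * k ≤ 4 * r := by exact_mod_cast h
  linarith

theorem log_le {k : ℕ} (h : 512 ≤ k) : Nat.log 2 k ≤ k / 64 + 1 := by
  have h1 : ∀ q : ℕ, 8 ≤ q → 64 * (q + 1) ≤ 2 ^ (q + 2) := by
    intro q hq
    induction q, hq using Nat.le_induction with
    | base => norm_num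
    | succ q hq ih =>
      rw [show q + 1 + 2 = q + 2 + 1 by ring, pow_succ]
      omega
  have h2 := h1 (k / 64) (by omega)
  have h3 : k < 2 ^ (k / 64 + 2) := by omega
  have h4 := Nat.log_lt_of_lt_pow (by omega) h3
  omega

/-- `2 k + 1` summands, `⌊9 k / 5⌋` of them genuine -/
theorem num_HL {k : ℕ} (hk : 512 ≤ k) : ∃ u J : ℕ, 4 ≤ u ∧ 9 * k / 5 + (u + J) = 2 * k + 1 ∧
    (k : ℝ) < 2 ^ J * ((u : ℝ) - k * (1 - 1 / (k : ℝ)) ^ (9 * k / 5)) := by
  have hl := log_le hk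
  refine ⟨2 * k + 1 - 9 * k / 5 - (Nat.log 2 k + 1), Nat.log 2 k + 1, by omega, by omega, ?_⟩
  set u : ℕ := 2 * k + 1 - 9 * k / 5 - (Nat.log 2 k + 1) with hu
  have hk0 : (0 : ℝ) < k := by
    have : 0 < k := by omega
    exact_mod_cast this
  have h1 := theta_le (k := k) (r := 9 * k / 5) (by omega) (by omega)
  have h2 : 1 ≤ (u : ℝ) - k * (1 - 1 / (k : ℝ)) ^ (9 * k / 5) := by
    have h3 : (k : ℝ) * (1 - 1 / (k : ℝ)) ^ (9 * k / 5) ≤ k * 0.174 := by gcongr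
    have h4 : 320 * u ≥ 59 * k - 640 := by omega
    have h5 : 59 * k ≤ 320 * u + 640 := by omega
    have h6 : 59 * (k : ℝ) ≤ 320 * u + 640 := by exact_mod_cast h5
    have h7 : (512 : ℝ) ≤ k := by exact_mod_cast hk
    linarith
  have h3 : (k : ℝ) < 2 ^ (Nat.log 2 k + 1) := by
    exact_mod_cast Nat.lt_pow_succ_log_self (by norm_num : 1 < 2) k
  calc (k : ℝ) < 2 ^ (Nat.log 2 k + 1) := h3
    _ = 2 ^ (Nat.log 2 k + 1) * 1 := by ring
    _ ≤ _ := by gcongr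

/-- `k + 2 + ⌊log₂ k⌋` generic summands -/
theorem num_gen {k : ℕ} (hk : 2 ≤ k) : ∃ u J : ℕ, 4 ≤ u ∧ u + J = k + 2 + Nat.log 2 k ∧
    (k : ℝ) < 2 ^ J * ((u : ℝ) - k * (1 - 1 / (k : ℝ)) ^ 0) := by
  rcases Nat.lt_or_ge k 3 with h | h
  · obtain rfl : k = 2 := by omega
    refine ⟨4, 1, le_rfl, ?_, by norm_num⟩
    have : Nat.log 2 2 = 1 := by
      rw [Nat.log_eq_iff (by norm_num)]
      norm_num
    omega
  · refine ⟨k + 1, Nat.log 2 k + 1, by omega, by omega, ?_⟩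
    have h3 : (k : ℝ) < 2 ^ (Nat.log 2 k + 1) := by
      exact_mod_cast Nat.lt_pow_succ_log_self (by norm_num : 1 < 2) k
    push_cast
    rw [pow_zero]
    linarith

end

end Pool.Agent.Run7.h757.MW
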