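import Pool.Agent.Run7.h757.MW.HL

/-!
# Project MW: the engine with one copy of the set `U`
-/

open Finset MeasureTheory Filter

namespace Pool.Agent.Run7.h757.MW

noncomputable section

/-- the pairs -/
def trp1 (u K : ℕ) (W : Fin u → Set ℕ) (U : Finset ℕ) (j : ℕ) : Finset (ℕ × (Fin u → ℕ)) :=
  U ×ˢ tup u K W j

/-- the value of a pair -/
def val1 (u k : ℕ) (x : Fin u → ℝ) (p : ℕ × (Fin u → ℕ)) : ℕ :=
  p.1 + ∑ i, fl (x i) (p.2 i ^ k)

theorem sum_trp1 (u k K : ℕ) (W : Fin u → Set ℕ) (U : Finset ℕ) (x : Fin u → ℝ) (j : ℕ) (b : ℝ) :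
    ∑ p ∈ trp1 u K W U j, e (val1 u k x p * b) =
      SU U b * ∏ i, T (fun n => n ^ k) (blk (W i) K (2 ^ j)) (x i) b := by
  classical
  have h1 : ∀ p : ℕ × (Fin u → ℕ), e (val1 u k x p * b) =
      e (p.1 * b) * ∏ i, e (b * fl (x i) (p.2 i ^ k)) := by
    intro p
    unfold val1
    push_cast
    rw [add_mul, e_add, Finset.sum_mul, e_sum]
    congr 1
    exact Finset.prod_congr rfl fun i _ => by rw [mul_comm]
  simp only [h1]
  unfold trp1
  rw [Finset.sum_product (s := U) (t := tup u K W j)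
    (f := fun p => e (p.1 * b) * ∏ i, e (b * fl (x i) (p.2 i ^ k)))]
  simp only [← Finset.mul_sum]
  rw [← Finset.sum_mul]
  congr 1
  unfold tup T
  rw [Finset.prod_univ_sum]

theorem val_lt1 (u k K A : ℕ) (W : Fin u → Set ℕ) (U : Finset ℕ) (x : Fin u → ℝ) (j q : ℕ)
    (hx0 : ∀ i, 0 ≤ x i) (hx : ∀ i, x i ≤ A) (hU : ∀ a ∈ U, a ≤ (2 ^ j) ^ k)
    (hq : u * (A * K ^ k) + 2 < q) : ∀ p ∈ trp1 u K W U j, val1 u k x p < q * 2 ^ (j * k) := by
  intro p hp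
  unfold trp1 at hp
  rw [mem_product] at hp
  have h1 : ((p.1, p.1), p.2) ∈ trp u K W U j := by
    unfold trp
    rw [mem_product, mem_product]
    exact ⟨⟨hp.1, hp.1⟩, hp.2⟩
  have h2 := val_lt u k K A W U x j q hx0 hx hU hq _ h1
  unfold val at h2
  unfold val1
  simp only at h2
  omega

/-- the contribution of the high frequencies -/
def EH1 (kk : ℕ → ℕ → ℕ → ℝ) (u k K q H : ℕ) (W : Fin u → Set ℕ) (U : Finset ℕ) (x : Fin u → ℝ)
    (j M : ℕ) : ℝ :=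
  ‖1 / ((q * 2 ^ (j * k) : ℕ) : ℂ) * ∑ r ∈ high k j (q * 2 ^ (j * k)),
    ((kk (q * 2 ^ (j * k)) H r : ℂ) *
      (SU U (rep (q * 2 ^ (j * k)) r) *
        ∏ i, T (fun n => n ^ k) (blk (W i) K (2 ^ j)) (x i) (rep (q * 2 ^ (j * k)) r))) *
      e (-(M * rep (q * 2 ^ (j * k)) r))‖

/-- **comparison with the averages** -/
theorem det_main1 {kk : ℕ → ℕ → ℕ → ℝ} (hkk : ∀ Q H r, 0 ≤ kk Q H r ∧ kk Q H r ≤ 1)
    (hkk2 : ∀ Q H r, 1 ≤ Q → 1 ≤ H → r < Q → kk Q H r ≤ 5 * (H * |rep Q r|) ^ (1 / 2 : ℝ))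
    (hkk3 : ∀ (Q H M : ℕ) (c : ℕ → ℝ), 1 ≤ H → H ≤ M → M + H ≤ Q → (∀ m, 0 ≤ c m) →
      1 / (2 * (H : ℝ)) * ∑ m ∈ Icc (M - H / 2) (M + H / 2), c m -
        ‖1 / (Q : ℂ) * ∑ r ∈ Ico 1 Q, kk Q H r * dft Q c r * e (-(M * rep Q r))‖ ≤ c M)
    (u k K A q B H : ℕ) (W : Fin u → Set ℕ) (U : Finset ℕ) (x : Fin u → ℝ) (j M : ℕ)
    (hx0 : ∀ i, 0 ≤ x i) (hx : ∀ i, x i ≤ A) (hU : ∀ a ∈ U, a ≤ (2 ^ j) ^ k)
    (hq : u * (A * K ^ k) + 2 < q) (hH : 1 ≤ H)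
    (hHB : (H : ℝ) ≤ ((2 : ℝ) ^ j) ^ k / ((j : ℝ) + 1) ^ B) (hHM : H ≤ M)
    (hMH : M + H ≤ q * 2 ^ (j * k)) :
    1 / (2 * (H : ℝ)) *
      (((trp1 u K W U j).filter fun p => val1 u k x p ∈ Icc (M - H / 2) (M + H / 2)).card : ℝ) -
        15 * (U.card : ℝ) * Real.sqrt (Xlow u k K q B W x j) - EH1 kk u k K q H W U x j M ≤
      cn (trp1 u K W U j) (val1 u k x) M := by
  classical
  set Q : ℕ := q * 2 ^ (j * k) with hQ
  have hQ1 : 1 ≤ Q := by omega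
  have hQ0 : (0 : ℝ) < Q := by exact_mod_cast hQ1
  set F : ℝ → ℂ := fun b => SU U b *
    ∏ i, T (fun n => n ^ k) (blk (W i) K (2 ^ j)) (x i) b with hF
  have hd : ∀ r, dft Q (cn (trp1 u K W U j) (val1 u k x)) r = F (rep Q r) := by
    intro r
    rw [dft_cn _ _ _ _ (val_lt1 u k K A W U x j q hx0 hx hU hq), sum_trp1]
  have h1 := hkk3 Q H M (cn (trp1 u K W U j) (val1 u k x)) hH hHM hMH (cn_nonneg _ _)
  rw [sum_cn] at h1
  refine le_trans ?_ h1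
  rw [sub_sub]
  refine sub_le_sub_left ?_ _
  have hsplit : ∑ r ∈ Ico 1 Q, (kk Q H r : ℂ) * dft Q (cn (trp1 u K W U j) (val1 u k x)) r *
      e (-(M * rep Q r)) = ∑ r ∈ low k j Q, (kk Q H r : ℂ) * F (rep Q r) * e (-(M * rep Q r)) +
        ∑ r ∈ high k j Q, (kk Q H r : ℂ) * F (rep Q r) * e (-(M * rep Q r)) := by
    unfold low high
    rw [Finset.sum_filter_add_sum_filter_not]
    exact Finset.sum_congr rfl fun r _ => by rw [hd]
  rw [hsplit, mul_add]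
  refine (norm_add_le _ _).trans ?_
  refine add_le_add ?_ (le_of_eq rfl)
  -- the low frequencies
  rw [norm_mul]
  have hn1 : ‖1 / (Q : ℂ)‖ = 1 / (Q : ℝ) := by
    rw [norm_div, norm_one, Complex.norm_natCast]
  rw [hn1]
  have hSU : ∀ b, ‖SU U b‖ ≤ U.card := by
    intro b
    unfold SU
    refine (norm_sum_le _ _).trans ?_
    simp [norm_e]
  set Pr : ℕ → ℝ := fun r => ∏ i, ‖T (fun n => n ^ k) (blk (W i) K (2 ^ j)) (x i) (rep Q r)‖
    with hPr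
  have hPr0 : ∀ r, 0 ≤ Pr r := fun r => Finset.prod_nonneg fun _ _ => norm_nonneg _
  have hFn : ∀ r, ‖F (rep Q r)‖ ≤ (U.card : ℝ) * Pr r := by
    intro r
    rw [hF]
    simp only
    rw [norm_mul, norm_prod]
    exact mul_le_mul_of_nonneg_right (hSU (rep Q r)) (hPr0 r)
  have hlow : ∑ r ∈ low k j Q, ‖(kk Q H r : ℂ) * F (rep Q r) * e (-(M * rep Q r))‖ ≤
      ∑ r ∈ low k j Q, (5 * (U.card : ℝ) * Q) * ((1 / (Q * |rep Q r|)) *
        (((H : ℝ) * |rep Q r|) ^ (1 / 2 : ℝ) * |rep Q r| * Pr r)) := by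
    refine Finset.sum_le_sum fun r hr => ?_
    unfold low at hr
    rw [mem_filter] at hr
    obtain ⟨h2, -, -, -⟩ := rep_abs hr.1
    have hrQ := (mem_Ico.1 hr.1).2
    rw [norm_mul, norm_mul, norm_e, mul_one, Complex.norm_real, Real.norm_eq_abs,
      abs_of_nonneg (hkk Q H r).1]
    calc kk Q H r * ‖F (rep Q r)‖ ≤
        (5 * (H * |rep Q r|) ^ (1 / 2 : ℝ)) * ((U.card : ℝ) * Pr r) := by
          refine mul_le_mul (hkk2 Q H r hQ1 hH hrQ) (hFn r) (norm_nonneg _) ?_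
          positivity
      _ = _ := by
          field_simp
  have hcs : ∑ r ∈ low k j Q, (1 / (Q * |rep Q r|)) *
        (((H : ℝ) * |rep Q r|) ^ (1 / 2 : ℝ) * |rep Q r| * Pr r) ≤
      3 * Real.sqrt (Xlow u k K q B W x j) := by
    have h2 := Finset.sum_mul_sq_le_sq_mul_sq (low k j Q) (fun r => 1 / (Q * |rep Q r|))
      (fun r => ((H : ℝ) * |rep Q r|) ^ (1 / 2 : ℝ) * |rep Q r| * Pr r)
    have h3 : ∑ r ∈ low k j Q, (1 / (Q * |rep Q r|)) ^ 2 ≤ 8 := by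
      refine le_trans ?_ (sum_inv_sq_rep Q)
      exact Finset.sum_le_sum_of_subset_of_nonneg (Finset.filter_subset _ _)
        fun r _ _ => by positivity
    have h4 : ∑ r ∈ low k j Q, (((H : ℝ) * |rep Q r|) ^ (1 / 2 : ℝ) * |rep Q r| * Pr r) ^ 2 ≤
        Xlow u k K q B W x j := by
      unfold Xlow
      rw [← hQ]
      refine Finset.sum_le_sum fun r _ => ?_
      have h5 : ((((H : ℝ) * |rep Q r|) ^ (1 / 2 : ℝ)) ^ 2) = H * |rep Q r| := by
        rw [← Real.rpow_natCast, ← Real.rpow_mul (by positivity)]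
        norm_num
      rw [mul_pow, mul_pow, h5, hPr]
      simp only
      rw [← Finset.prod_pow]
      have h6 : 0 ≤ ∏ i, ‖T (fun n => n ^ k) (blk (W i) K (2 ^ j)) (x i) (rep Q r)‖ ^ 2 :=
        Finset.prod_nonneg fun _ _ => by positivity
      refine mul_le_mul_of_nonneg_right ?_ h6
      calc (H : ℝ) * |rep Q r| * |rep Q r| ^ 2 = H * |rep Q r| ^ 3 := by ring
        _ ≤ _ := mul_le_mul_of_nonneg_right hHB (by positivity)
    have hX0 : 0 ≤ Xlow u k K q B W x j :=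
      le_trans (Finset.sum_nonneg fun _ _ => sq_nonneg _) h4
    have h7 : (∑ r ∈ low k j Q, (1 / (Q * |rep Q r|)) *
        (((H : ℝ) * |rep Q r|) ^ (1 / 2 : ℝ) * |rep Q r| * Pr r)) ^ 2 ≤
        (3 * Real.sqrt (Xlow u k K q B W x j)) ^ 2 := by
      rw [mul_pow, Real.sq_sqrt hX0]
      refine h2.trans ?_
      calc _ ≤ 8 * Xlow u k K q B W x j := by
            refine mul_le_mul h3 h4 (Finset.sum_nonneg fun _ _ => sq_nonneg _) (by norm_num)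
        _ ≤ _ := by nlinarith
    exact (abs_le_of_sq_le_sq' h7 (by positivity)).2
  calc 1 / (Q : ℝ) * ‖∑ r ∈ low k j Q, (kk Q H r : ℂ) * F (rep Q r) * e (-(M * rep Q r))‖
      ≤ 1 / (Q : ℝ) * ∑ r ∈ low k j Q, ‖(kk Q H r : ℂ) * F (rep Q r) * e (-(M * rep Q r))‖ := by
        refine mul_le_mul_of_nonneg_left (norm_sum_le _ _) (by positivity)
    _ ≤ 1 / (Q : ℝ) * ∑ r ∈ low k j Q, (5 * (U.card : ℝ) * Q) * ((1 / (Q * |rep Q r|)) *
        (((H : ℝ) * |rep Q r|) ^ (1 / 2 : ℝ) * |rep Q r| * Pr r)) :=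
        mul_le_mul_of_nonneg_left hlow (by positivity)
    _ = 5 * (U.card : ℝ) * ∑ r ∈ low k j Q, (1 / (Q * |rep Q r|)) *
        (((H : ℝ) * |rep Q r|) ^ (1 / 2 : ℝ) * |rep Q r| * Pr r) := by
        rw [← Finset.mul_sum]
        have h9 : ∀ Y : ℝ, 1 / (Q : ℝ) * (5 * (U.card : ℝ) * Q * Y) =
            5 * (U.card : ℝ) * Y := by
          intro Y
          field_simp
        exact h9 _
    _ ≤ 5 * (U.card : ℝ) * (3 * Real.sqrt (Xlow u k K q B W x j)) :=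
        mul_le_mul_of_nonneg_left hcs (by positivity)
    _ = _ := by ring


/-- Parseval for the high frequencies -/
theorem EH1_sq (hPAR : S_PAR) {kk : ℕ → ℕ → ℕ → ℝ} (hkk : ∀ Q H r, 0 ≤ kk Q H r ∧ kk Q H r ≤ 1)
    (u k K q H : ℕ) (W : Fin u → Set ℕ) (U : Finset ℕ) (x : Fin u → ℝ) (j : ℕ) (hq : 1 ≤ q) :
    ∑ M ∈ range (q * 2 ^ (j * k)), EH1 kk u k K q H W U x j M ^ 2 ≤
      Xhigh u k K q U W x j := by
  classical
  unfold EH1 Xhigh
  set Q : ℕ := q * 2 ^ (j * k) with hQ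
  have hQ1 : 1 ≤ Q := Nat.mul_pos hq (pow_pos (by norm_num) _)
  have hQ0 : (0 : ℝ) < Q := by exact_mod_cast hQ1
  have hsub : high k j Q ⊆ range Q := by
    intro r hr
    unfold high at hr
    rw [mem_filter, mem_Ico] at hr
    exact mem_range.2 hr.1.2
  have h1 := (hPAR Q hQ1).1 (fun r => (kk Q H r : ℂ) * (SU U (rep Q r) *
      ∏ i, T (fun n => n ^ k) (blk (W i) K (2 ^ j)) (x i) (rep Q r))) (high k j Q) hsub
  rw [h1, Finset.mul_sum]
  refine Finset.sum_le_sum fun r _ => ?_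
  rw [norm_mul, norm_mul, norm_prod, Complex.norm_real,
    Real.norm_eq_abs, abs_of_nonneg (hkk Q H r).1]
  set P : ℝ := ∏ i, ‖T (fun n => n ^ k) (blk (W i) K (2 ^ j)) (x i) (rep Q r)‖ with hP
  have hP0 : 0 ≤ P := Finset.prod_nonneg fun _ _ => norm_nonneg _
  have hP2 : ∏ i, ‖T (fun n => n ^ k) (blk (W i) K (2 ^ j)) (x i) (rep Q r)‖ ^ 2 = P ^ 2 := by
    rw [hP, Finset.prod_pow]
  rw [hP2]
  have h2 := (hkk Q H r)
  calc 1 / (Q : ℝ) * (kk Q H r * (‖SU U (rep Q r)‖ * P)) ^ 2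
      ≤ 1 / (Q : ℝ) * (1 * (‖SU U (rep Q r)‖ * P)) ^ 2 := by
        have h3 := h2.1
        have h4 := h2.2
        gcongr
    _ = 1 / (Q : ℝ) * ‖SU U (rep Q r)‖ ^ 2 * P ^ 2 := by ring

theorem block_lower1 {kk : ℕ → ℕ → ℕ → ℝ} (hkk : ∀ Q H r, 0 ≤ kk Q H r ∧ kk Q H r ≤ 1)
    (hkk2 : ∀ Q H r, 1 ≤ Q → 1 ≤ H → r < Q → kk Q H r ≤ 5 * (H * |rep Q r|) ^ (1 / 2 : ℝ))
    (hkk3 : ∀ (Q H M : ℕ) (c : ℕ → ℝ), 1 ≤ H → H ≤ M → M + H ≤ Q → (∀ m, 0 ≤ c m) →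
      1 / (2 * (H : ℝ)) * ∑ m ∈ Icc (M - H / 2) (M + H / 2), c m -
        ‖1 / (Q : ℂ) * ∑ r ∈ Ico 1 Q, kk Q H r * dft Q c r * e (-(M * rep Q r))‖ ≤ c M)
    (hLBC : S_LBC) (u k : ℕ) (lam : Fin u → ℝ) (W : Fin u → Set ℕ) (c t : ℝ)
    (hu : 1 ≤ u) (hk : 1 ≤ k) (hlam : ∀ i, 0 < lam i) (hc : 0 < c) (ht : 0 ≤ t)
    (hW : ∀ i, Reg c t (W i)) :
    ∃ c₁ : ℝ, 0 < c₁ ∧ ∀ c₂ : ℕ, ∃ K₀ : ℕ, ∀ K : ℕ, K₀ ≤ K → ∀ A q D0 : ℕ, (∀ i, lam i ≤ A) →
      u * (A * K ^ k) + 2 < q → c₂ + 1 ≤ q → t * u + 1 ≤ D0 → ∃ c₄ : ℝ, 0 < c₄ ∧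
      ∀ U : ℕ → Finset ℕ, (∀ᶠ j : ℕ in atTop, ∀ a ∈ U j, a ≤ (2 ^ j) ^ k) →
      (∀ᶠ j : ℕ in atTop, Xlow u k K q (3 * u + 4 + 2 * D0) W lam j ≤
        ((2 : ℝ) ^ j) ^ (2 * u) / ((2 : ℝ) ^ j) ^ (2 * k) / ((j : ℝ) + 1) ^ (2 * D0)) →
      ∀ᶠ j : ℕ in atTop, ∀ M : ℕ, (c₁ + 2) * (2 : ℝ) ^ (j * k) ≤ M →
        (M : ℝ) ≤ c₂ * (2 : ℝ) ^ (j * k) →
        c₄ * ((U j).card : ℝ) * (((2 : ℝ) ^ j) ^ u / ((2 : ℝ) ^ j) ^ k) /
          ((j : ℝ) + 1) ^ (t * u) ≤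
          cn (trp1 u K W (U j) j) (val1 u k lam) M +
            EH1 kk u k K q (HH k j (3 * u + 4 + 2 * D0)) W (U j) lam j M := by
  classical
  obtain ⟨c₁, hc₁, hLBC⟩ := hLBC u k lam W c t hu hk hlam hc ht hW
  refine ⟨c₁, hc₁, fun c₂ => ?_⟩
  obtain ⟨K₀, hLBC⟩ := hLBC c₂
  refine ⟨K₀, fun K hK A q D0 hA hq hq2 hD0 => ?_⟩
  set B : ℕ := 3 * u + 4 + 2 * D0 with hB
  obtain ⟨c₃, hc₃, hLBC⟩ := hLBC K hK B
  refine ⟨c₃ / 4, by positivity, fun U hU hX => ?_⟩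
  have hev2 : ∀ᶠ j : ℕ in atTop, 60 / c₃ ≤ (j : ℝ) + 1 := tendsto_l.eventually_ge_atTop _
  filter_upwards [hLBC, hU, hX, hev2, pow_beats B 1] with j hj hUj hXj hl2 hbeat
  intro M hM1 hM2
  set N : ℝ := (2 : ℝ) ^ j with hN
  set l : ℝ := (j : ℝ) + 1 with hl
  have hN1 : 1 ≤ N := one_le_pow₀ (by norm_num)
  have hN0 : 0 < N := by linarith
  have hl1 : 1 ≤ l := by
    have : (0 : ℝ) ≤ j := by positivity
    linarith
  have hl0 : 0 < l := by linarith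
  have hNk : (2 : ℝ) ^ (j * k) = N ^ k := pow_mul 2 j k
  have hNN : N ≤ N ^ k := le_self_pow₀ hN1 (by omega)
  set H : ℕ := HH k j B with hH
  have hH1 : 1 ≤ H := by
    rw [hH]
    unfold HH
    rw [Nat.one_le_floor_iff, le_div_iff₀ (by positivity), hNk]
    linarith
  have hH0 : (0 : ℝ) < H := by exact_mod_cast hH1
  have hHB : (H : ℝ) ≤ N ^ k / l ^ B := by
    rw [hH, ← hNk]
    unfold HH
    exact Nat.floor_le (by positivity)
  have hHN : (H : ℝ) ≤ N ^ k := by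
    refine hHB.trans (div_le_self (by positivity) (one_le_pow₀ hl1))
  have hHM : H ≤ M := by
    have h1 : (H : ℝ) ≤ M := by
      rw [hNk] at hM1
      nlinarith [pow_pos hN0 k]
    exact_mod_cast h1
  have hMH : M + H ≤ q * 2 ^ (j * k) := by
    have h1 : (M : ℝ) + H ≤ q * (2 : ℝ) ^ (j * k) := by
      have h2 : ((c₂ : ℝ) + 1) ≤ q := by exact_mod_cast hq2
      have h3 : ((c₂ : ℝ) + 1) * (2 : ℝ) ^ (j * k) ≤ q * (2 : ℝ) ^ (j * k) :=
        mul_le_mul_of_nonneg_right h2 (by positivity)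
      rw [← hNk] at hHN
      linarith
    exact_mod_cast h1
  have hdet := det_main1 hkk hkk2 hkk3 u k K A q B H W (U j) lam j M (fun i => (hlam i).le) hA hUj hq
    hH1 hHB hHM hMH
  -- the main term
  have hcount : ((U j).card : ℝ) * (c₃ * (2 : ℝ) ^ (j * u) / l ^ ((B : ℝ) + t * u)) ≤
      (((trp1 u K W (U j) j).filter fun p => val1 u k lam p ∈
        Icc (M - H / 2) (M + H / 2)).card : ℝ) := by
    have h1 : ((trp1 u K W (U j) j).filter fun p => val1 u k lam p ∈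
        Icc (M - H / 2) (M + H / 2)).card = ∑ a ∈ U j,
          ((tup u K W j).filter fun n => val1 u k lam (a, n) ∈
            Icc (M - H / 2) (M + H / 2)).card := by
      unfold trp1
      simp only [Finset.card_filter]
      rw [Finset.sum_product]
    rw [h1]
    push_cast
    have h2 : ∀ a ∈ U j, c₃ * (2 : ℝ) ^ (j * u) / l ^ ((B : ℝ) + t * u) ≤
        (((tup u K W j).filter fun n => val1 u k lam (a, n) ∈
            Icc (M - H / 2) (M + H / 2)).card : ℝ) := by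
      intro a hab
      have ha := hUj _ hab
      have ha' : (a : ℝ) ≤ N ^ k := by
        rw [hN]
        exact_mod_cast ha
      have hle : a ≤ M := by
        have h3 : (a : ℝ) ≤ M := by
          rw [hNk] at hM1
          nlinarith [pow_pos hN0 k]
        exact_mod_cast h3
      obtain ⟨y, hy⟩ : ∃ y, M = a + y := ⟨M - a, by omega⟩
      have hy' : (M : ℝ) = a + y := by exact_mod_cast hy
      refine (hj y ?_ ?_).trans ?_
      · rw [hNk] at hM1 ⊢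
        nlinarith [pow_pos hN0 k]
      · have : (0 : ℝ) ≤ (a : ℝ) := by positivity
        linarith
      · have h4 : (((Fintype.piFinset fun i => blk (W i) K (2 ^ j)).filter fun n =>
          2 * |((∑ i, fl (lam i) (n i ^ k) : ℕ) : ℤ) - y| ≤
            (⌊(2 : ℝ) ^ (j * k) / ((j : ℝ) + 1) ^ B⌋₊ : ℤ))) ⊆
            ((tup u K W j).filter fun n => val1 u k lam (a, n) ∈
              Icc (M - H / 2) (M + H / 2)) := by
          intro n hn
          rw [mem_filter] at hn ⊢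
          refine ⟨hn.1, ?_⟩
          have h5 := hn.2
          unfold val1
          rw [mem_Icc]
          have h6 : (⌊(2 : ℝ) ^ (j * k) / ((j : ℝ) + 1) ^ B⌋₊ : ℤ) = (H : ℤ) := rfl
          rw [h6] at h5
          have h7 : |((∑ i, fl (lam i) (n i ^ k) : ℕ) : ℤ) - y| * 2 ≤ H := by linarith
          generalize ∑ i, fl (lam i) (n i ^ k) = s at h7 ⊢
          have h8 := neg_abs_le (((s : ℕ) : ℤ) - y)
          have h9 := le_abs_self (((s : ℕ) : ℤ) - y)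
          change M - H / 2 ≤ a + s ∧ a + s ≤ M + H / 2
          clear hdet h1 hj hLBC
          constructor <;> omega
        exact Nat.cast_le.2 (Finset.card_le_card h4)
    calc _ = ∑ _a ∈ U j, c₃ * (2 : ℝ) ^ (j * u) / l ^ ((B : ℝ) + t * u) := by
          rw [Finset.sum_const, nsmul_eq_mul]
      _ ≤ _ := Finset.sum_le_sum h2
  have hmain : c₃ / 2 * ((U j).card : ℝ) * (N ^ u / N ^ k) / l ^ (t * u) ≤
      1 / (2 * (H : ℝ)) * (((trp1 u K W (U j) j).filter fun p => val1 u k lam p ∈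
        Icc (M - H / 2) (M + H / 2)).card : ℝ) := by
    have h1 : l ^ B / N ^ k ≤ 1 / (H : ℝ) := by
      rw [div_le_div_iff₀ (by positivity) hH0]
      rw [le_div_iff₀ (by positivity)] at hHB
      linarith
    have h2 : 1 / (2 * (H : ℝ)) = 1 / 2 * (1 / H) := by
      field_simp
    rw [h2]
    calc c₃ / 2 * ((U j).card : ℝ) * (N ^ u / N ^ k) / l ^ (t * u)
        = 1 / 2 * (l ^ B / N ^ k) * (((U j).card : ℝ) *
          (c₃ * (2 : ℝ) ^ (j * u) / l ^ ((B : ℝ) + t * u))) := by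
          rw [Real.rpow_add hl0, Real.rpow_natCast, pow_mul, ← hN]
          have : (0 : ℝ) < l ^ (t * u) := Real.rpow_pos_of_pos hl0 _
          field_simp
      _ ≤ 1 / 2 * (1 / (H : ℝ)) * (((trp1 u K W (U j) j).filter fun p => val1 u k lam p ∈
        Icc (M - H / 2) (M + H / 2)).card : ℝ) := by
          refine mul_le_mul ?_ hcount (by positivity) (by positivity)
          exact mul_le_mul_of_nonneg_left h1 (by norm_num)
  have hlow : 15 * ((U j).card : ℝ) * Real.sqrt (Xlow u k K q B W lam j) ≤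
      c₃ / 4 * ((U j).card : ℝ) * (N ^ u / N ^ k) / l ^ (t * u) := by
    have h1 : Real.sqrt (Xlow u k K q B W lam j) ≤ N ^ u / N ^ k / l ^ D0 := by
      rw [Real.sqrt_le_left (by positivity)]
      refine hXj.trans (le_of_eq ?_)
      rw [div_pow, div_pow, ← pow_mul N u 2, ← pow_mul N k 2, ← pow_mul l D0 2, mul_comm u 2,
        mul_comm k 2, mul_comm D0 2]
    have h2 : 15 / l ^ D0 ≤ c₃ / 4 / l ^ (t * u) := by
      have h3 : l ^ (t * u + 1) ≤ l ^ D0 := by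
        rw [← Real.rpow_natCast]
        exact Real.rpow_le_rpow_of_exponent_le hl1 hD0
      rw [Real.rpow_add hl0, Real.rpow_one] at h3
      have h4 : (0 : ℝ) < l ^ (t * u) := Real.rpow_pos_of_pos hl0 _
      rw [div_le_div_iff₀ (by positivity) h4]
      rw [div_le_iff₀ hc₃] at hl2
      have h5 : c₃ / 4 * (l ^ (t * u) * l) ≤ c₃ / 4 * l ^ D0 :=
        mul_le_mul_of_nonneg_left h3 (by positivity)
      nlinarith
    calc 15 * ((U j).card : ℝ) * Real.sqrt (Xlow u k K q B W lam j)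
        ≤ 15 * ((U j).card : ℝ) * (N ^ u / N ^ k / l ^ D0) := by gcongr
      _ = ((U j).card : ℝ) * (N ^ u / N ^ k) * (15 / l ^ D0) := by ring
      _ ≤ ((U j).card : ℝ) * (N ^ u / N ^ k) * (c₃ / 4 / l ^ (t * u)) := by gcongr
      _ = _ := by ring
  have hsum : c₃ / 2 * ((U j).card : ℝ) * (N ^ u / N ^ k) / l ^ (t * u) =
      c₃ / 4 * ((U j).card : ℝ) * (N ^ u / N ^ k) / l ^ (t * u) +
        c₃ / 4 * ((U j).card : ℝ) * (N ^ u / N ^ k) / l ^ (t * u) := by ring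
  linarith


end

end Pool.Agent.Run7.h757.MW
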