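import Mathlib

/-!
# Project MW (helper757): Waring's problem for the sequences `⌊lam n ^ k⌋`, almost all `lam`

Problems MP_2fa62b_nt, MP_570bef_nt, MP_ee77ae_nt, MP_927be3_nt. Statements (NOT results) of the
pieces; each is a closed `Prop` with its proof in the doc string.

Goal: for almost all `(lam_1, ..., lam_s)`, `s ≥ 2 k + 1`, every large integer is
`⌊lam_1 n_1 ^ k⌋ + ... + ⌊lam_s n_s ^ k⌋`; the same with most of the terms genuine `k`-th powers.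
-/

open Finset MeasureTheory Filter

namespace Pool.Agent.Run7.h757.MW

noncomputable section

/-- `e(x) = exp(2 π i x)` -/
def e (x : ℝ) : ℂ := Complex.exp (2 * Real.pi * x * Complex.I)

/-- the integer part of `lam * m` -/
def fl (lam : ℝ) (m : ℕ) : ℕ := ⌊lam * m⌋₊

/-- the exponential sum of the numbers `⌊lam f(n)⌋`, `n ∈ B` -/
def T (f : ℕ → ℕ) (B : Finset ℕ) (lam a : ℝ) : ℂ := ∑ n ∈ B, e (a * fl lam (f n))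

/-- the exponential sum of the numbers `f(n)`, `n ∈ B` -/
def S (f : ℕ → ℕ) (B : Finset ℕ) (x : ℝ) : ℂ := ∑ n ∈ B, e (x * f n)

/-- the values of `f` on `B` are spaced by `P` -/
def Sp (f : ℕ → ℕ) (B : Finset ℕ) (P : ℝ) : Prop :=
  ∀ n ∈ B, ∀ m ∈ B, m < n → P * ((n : ℝ) - m) ≤ (f n : ℝ) - f m

/-- **FL** (Fourier expansion of the integer part).
Proof. `e(a ⌊x⌋) = e(a x) ψ({x})`, `ψ(v) = e(-a v)` on `[0, 1)`. Let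
`c h = ∫_0^1 ψ(v) e(-h v) dv = ∫_0^1 e(-(a + h) v) dv`, so `|c 0| ≤ 1`,
`|c h| = |sin(π a)| / (π |a + h|) ≤ 1 / |h|` for `h ≠ 0` since `|a + h| ≥ |h| / 2`.
`∫_0^1 |ψ - ∑_{|h| ≤ Z} c_h e(h v)|² = 1 - ∑_{|h| ≤ Z} |c_h|² = ∑_{|h| > Z} |c_h|²` (Parseval, e.g.
Mathlib `tsum_sq_fourierCoeff` on `AddCircle 1`, or the partial fractions of `1 / sin²`)
`≤ ∑_{|h| > Z} 1 / h² ≤ 2 / Z`. For `lam ∈ [0, A]` the number `x = lam m` runs through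
`A m` full periods, so the integral over `lam` is `A` times the integral over `[0, 1]`
(the modulus of `e(a ⌊x⌋) - ∑ c_h e((a + h) x)` has period `1` in `x ≥ 0`). -/
def S_FL : Prop := ∃ C : ℝ, 0 < C ∧ ∀ a : ℝ, |a| ≤ 1 / 2 → ∀ Z : ℕ, 1 ≤ Z →
  ∃ c : ℤ → ℂ, ‖c 0‖ ≤ 1 ∧ (∀ h : ℤ, h ≠ 0 → ‖c h‖ ≤ 1 / |(h : ℝ)|) ∧
    ∀ A m : ℕ, 1 ≤ A → 1 ≤ m →
      ∫ lam in (0 : ℝ)..A,
        ‖e (a * fl lam m) - ∑ h ∈ Icc (-(Z : ℤ)) Z, c h * e ((a + h) * (lam * m))‖ ^ 2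
        ≤ C * A / Z

/-- **MS** (mean square of `S`).
Proof. Expand the square: the diagonal gives `|B| A ≤ D A`; for `n ≠ m` the integral of
`e(b lam (f n - f m))` over `[0, A]` is at most `1 / (π |b| |f n - f m|)`, and
`|f n - f m| ≥ P |n - m|`. For fixed `n`, `∑_{m ≠ n} 1 / |n - m| ≤ 2 (1 + log D)` since
`|n - m| < D`. So `C = 1` is possible. -/
def S_MS : Prop := ∃ C : ℝ, 0 < C ∧ ∀ (f : ℕ → ℕ) (B : Finset ℕ) (P : ℝ) (D N : ℕ) (A b : ℝ),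
  1 ≤ D → 0 < P → 0 ≤ A → B ⊆ Ioc N (N + D) → Sp f B P → b ≠ 0 →
    ∫ lam in (0 : ℝ)..A, ‖S f B (b * lam)‖ ^ 2 ≤ D * (A + C * (1 + Real.log D) / (|b| * P))

/-- **MT** (mean square of `T`), from FL and MS. helper757.
Proof. `Z = D²`; `T = ∑_h c_h S((a + h) lam) + ∑_n err_n`, Cauchy-Schwarz with weights `|c_h|`. -/
def S_MT : Prop := ∃ C : ℝ, 0 < C ∧ ∀ (f : ℕ → ℕ) (B : Finset ℕ) (P : ℝ) (D N A : ℕ) (a : ℝ),
  1 ≤ D → 1 ≤ P → 1 ≤ A → B ⊆ Ioc N (N + D) → Sp f B P → (∀ n ∈ B, 1 ≤ f n) →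
    a ≠ 0 → |a| ≤ 1 / 2 →
    ∫ lam in (0 : ℝ)..A, ‖T f B lam a‖ ^ 2 ≤
      C * A * D * (1 + Real.log D) ^ 3 * (1 + 1 / (|a| * P))

/-- the box `[0, A]^u` -/
def Box (u A : ℕ) : Set (Fin u → ℝ) := Set.univ.pi fun _ => Set.Icc (0 : ℝ) A

/-- **AE** (Tonelli, Markov, Borel-Cantelli). The exponential sums at different coordinates are
independent functions on the box.
Proof. For every `j` the function `X_j(x) = ∑_{r ∈ R j} w j r ∏_i ‖T (f i) (B j i) (x i) (b j r)‖ ^ p`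
is measurable, bounded and nonnegative on the box, its integral over the box is
`∑_r w j r ∏_i ∫_0^A ‖T ...‖ ^ p` (`MeasureTheory.integral_fintype_prod_eq_prod` with indicator
functions, or the product measure of the restricted measures). By Markov's inequality the measure
of `{x ∈ Box | X_j(x) > v j}` is at most `1 / (j + 1)²` for all large `j`, and Borel-Cantelli
(`MeasureTheory.measure_limsup_atTop_eq_zero` or `ae_eventually_notMem`). Measurability of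
`lam ↦ T f B lam a`: finite sum, `Nat.floor` is measurable. -/
def S_AE : Prop := ∀ (u A p : ℕ) (f : Fin u → ℕ → ℕ) (B : ℕ → Fin u → Finset ℕ)
  (R : ℕ → Finset ℕ) (w b : ℕ → ℕ → ℝ) (v : ℕ → ℝ),
  (∀ j r, 0 ≤ w j r) → (∀ j, 0 < v j) →
  (∀ᶠ j : ℕ in atTop, ∑ r ∈ R j, w j r *
    ∏ i, ∫ lam in (0 : ℝ)..A, ‖T (f i) (B j i) lam (b j r)‖ ^ p ≤ v j / ((j : ℝ) + 1) ^ 2) →
  ∀ᵐ x : Fin u → ℝ, x ∈ Box u A → ∀ᶠ j : ℕ in atTop,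
    ∑ r ∈ R j, w j r * ∏ i, ‖T (f i) (B j i) (x i) (b j r)‖ ^ p ≤ v j

/-- the representative of `r / Q` modulo one in `(-1/2, 1/2]` -/
def rep (Q r : ℕ) : ℝ := if 2 * r ≤ Q then (r : ℝ) / Q else (r : ℝ) / Q - 1

/-- the discrete Fourier transform of a function supported on `[0, Q)` -/
def dft (Q : ℕ) (c : ℕ → ℝ) (r : ℕ) : ℂ := ∑ M ∈ range Q, c M * e (M * rep Q r)

/-- **FEJ** (comparison of a counting function with its averages over short intervals).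
Proof. Let `F(β) = ‖(1 / H) ∑_{j < H} e(j β)‖² ∈ [0, 1]`; it has period `1`, and
`1 - F(β) = (1 / H²) ∑_{i, j < H} (1 - cos(2 π (i - j) β)) ≤ min(1, 2 π² H² β²) ≤ 5 (H |β|)^(1/2)`.
Put `k r = 1 - F(rep Q r)`. By orthogonality modulo `Q`
`(1 / Q) ∑_{r < Q} F(rep Q r) dft Q c r e(-M rep Q r) = (1 / H²) ∑_{i, j < H} c(M + i - j)`
(all the arguments are in `[0, Q)`), and without `F` one gets `c M`; the term `r = 0` has `k 0 = 0`.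
Each `m` with `2 |m - M| ≤ H` has at least `H / 2` pairs `(i, j)` with `M + i - j = m`. -/
def S_FEJ : Prop := ∃ k : ℕ → ℕ → ℕ → ℝ, (∀ Q H r, 0 ≤ k Q H r ∧ k Q H r ≤ 1) ∧
  (∀ Q H r, 1 ≤ Q → 1 ≤ H → r < Q → k Q H r ≤ 5 * (H * |rep Q r|) ^ (1 / 2 : ℝ)) ∧
  ∀ (Q H M : ℕ) (c : ℕ → ℝ), 1 ≤ H → H ≤ M → M + H ≤ Q → (∀ m, 0 ≤ c m) →
    1 / (2 * (H : ℝ)) * ∑ m ∈ Icc (M - H / 2) (M + H / 2), c m -
      ‖1 / (Q : ℂ) * ∑ r ∈ Ico 1 Q, k Q H r * dft Q c r * e (-(M * rep Q r))‖ ≤ c M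

/-- **PAR** (Parseval modulo `Q`). -/
def S_PAR : Prop := ∀ (Q : ℕ), 1 ≤ Q → (∀ (g : ℕ → ℂ) (R : Finset ℕ), R ⊆ range Q →
    ∑ M ∈ range Q, ‖1 / (Q : ℂ) * ∑ r ∈ R, g r * e (-(M * rep Q r))‖ ^ 2 =
      1 / (Q : ℝ) * ∑ r ∈ R, ‖g r‖ ^ 2) ∧
  ∀ W : Finset ℕ, W ⊆ range Q →
    ∑ r ∈ range Q, ‖∑ a ∈ W, e (a * rep Q r)‖ ^ 2 = Q * (W.card : ℝ)

/-- `W` is regularly distributed: every interval `(x, x + y]`, `y ≥ x / (log x)^B`, contains at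
least `c y / (log x)^t` elements of `W`. -/
def Reg (c t : ℝ) (W : Set ℕ) : Prop := ∀ B : ℝ, ∃ x₀ : ℝ, ∀ x y : ℝ, x₀ ≤ x →
  x / (Real.log x) ^ B ≤ y → y ≤ x →
    c * y / (Real.log x) ^ t ≤ ((W ∩ {n : ℕ | x < n ∧ (n : ℝ) ≤ x + y}).ncard : ℝ)

open Classical in
/-- the elements of `W` in `(N, K N]` -/
def blk (W : Set ℕ) (K N : ℕ) : Finset ℕ := (Ioc N (K * N)).filter (· ∈ W)

open Classical in
/-- **LBC** (lower bound for the number of solutions of an inequality).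
Notation: `N = 2^j`, `H = ⌊N^k / (j + 1)^B⌋`.
Proof. Choose `i₀`; let `c₁ = 2^k (1 + ∑ lam i) + 1`; given `c₂` choose `K ≥ 2` with
`lam i₀ (K / 2)^k ≥ c₂`. For `i ≠ i₀` let `n i ∈ W i ∩ (N, 2 N]` be arbitrary: at least
`c N / (log N)^t` possibilities each. Then `z = y - ∑_{i ≠ i₀} ⌊lam i (n i)^k⌋` satisfies
`lam i₀ (2 N)^k ≤ z ≤ c₂ N^k`; let `x = (z / lam i₀)^(1/k) ∈ [2 N, K N / 2]` and take `n i₀` in
`W i₀ ∩ (x, x + η x / (j + 1)^B]`, `η > 0` small depending on `c₂, k`: then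
`0 ≤ lam i₀ (n i₀)^k - z ≤ z ((1 + η / (j+1)^B)^k - 1) ≤ z k 2^k η / (j+1)^B ≤ H / 2 - 2`, and
`Reg` gives at least `c η x / ((j + 1)^B (log x)^t)` possibilities. -/
def S_LBC : Prop := ∀ (u k : ℕ) (lam : Fin u → ℝ) (W : Fin u → Set ℕ) (c t : ℝ),
  1 ≤ u → 1 ≤ k → (∀ i, 0 < lam i) → 0 < c → 0 ≤ t → (∀ i, Reg c t (W i)) →
  ∃ c₁ : ℝ, 0 < c₁ ∧ ∀ c₂ : ℝ, ∃ K₀ : ℕ, ∀ K : ℕ, K₀ ≤ K → ∀ B : ℕ, ∃ c₃ : ℝ, 0 < c₃ ∧
    ∀ᶠ j : ℕ in atTop, ∀ y : ℕ, c₁ * (2 : ℝ) ^ (j * k) ≤ y → (y : ℝ) ≤ c₂ * (2 : ℝ) ^ (j * k) →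
      c₃ * (2 : ℝ) ^ (j * u) / ((j : ℝ) + 1) ^ (B + t * u) ≤
        (((Fintype.piFinset fun i => blk (W i) K (2 ^ j)).filter fun n =>
          2 * |((∑ i, fl (lam i) (n i ^ k) : ℕ) : ℤ) - y| ≤
            (⌊(2 : ℝ) ^ (j * k) / ((j : ℝ) + 1) ^ B⌋₊ : ℤ)).card : ℝ)

/-- **DIM** (diminishing ranges).
Proof. Induction on `t`. `t = 0`: `U = {0}`. Step: `P = ⌊N / 4⌋`, `P' = ⌊P^(1 - 1/k)⌋`, so
`P'^k ≤ P^(k-1)`; the numbers `x^k + a`, `x ∈ (P, 2 P]`, `a ∈ U(P')`, are different since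
`a ≤ P'^k ≤ P^(k-1) < (x + 1)^k - x^k`, they are at most `N^k`, and there are `P |U(P')|` of them;
exponent: `1 + (1 - 1/k)(k - k (1 - 1/k)^t) = k - k (1 - 1/k)^(t+1)`. -/
def S_DIM : Prop := ∀ (k t : ℕ) (η : ℝ), 2 ≤ k → 0 < η → ∀ᶠ N : ℕ in atTop, ∃ U : Finset ℕ,
  (∀ a ∈ U, a ≤ N ^ k ∧ ∃ x : Fin t → ℕ, (∀ i, 1 ≤ x i) ∧ ∑ i, x i ^ k = a) ∧
    (N : ℝ) ^ ((k : ℝ) - k * (1 - 1 / (k : ℝ)) ^ t - η) ≤ U.card

end

end Pool.Agent.Run7.h757.MW
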