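import Pool.Agent.Run7.h757.MW.Stm

/-!
# Project MW (helper757), second batch of pieces

Statements (NOT results); each is a closed `Prop` with its proof in the doc string.
-/

open Finset MeasureTheory Filter

namespace Pool.Agent.Run7.h757.MW

noncomputable section

/-- **REGP** (the primes are regularly distributed).
Proof. `Pool.Agent.H442R2.EHI.PntErr : pnt_err` (prime number theorem with error `y / log^U y`,
any `U`), with `U = ⌈B⌉ + 3`: the number of primes in `(x, x + y]` is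
`lis ⌊x + y⌋ - lis ⌊x⌋ + O(x / log^U x) ≥ (y - 1) / log (2 x) - O(x / log^U x)`, and
`x / log^U x ≤ y / log^3 x`. -/
def S_REGP : Prop := Reg (1 / 2) 1 {p : ℕ | p.Prime}

/-- **DIMV** (diminishing ranges in a set `V` with many elements in every dyadic interval).
Proof. As `Pool.Agent.Run7.h930.MW.DIM : t_DIM`, with `x ∈ V ∩ (P, 2 P]`. -/
def S_DIMV : Prop := ∀ V : Set ℕ,
  (∀ η : ℝ, 0 < η → ∀ᶠ N : ℕ in atTop,
    (N : ℝ) ^ (1 - η) ≤ ((V ∩ {n : ℕ | N < n ∧ n ≤ 2 * N}).ncard : ℝ)) →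
  ∀ (k t : ℕ) (η : ℝ), 2 ≤ k → 0 < η → ∀ᶠ N : ℕ in atTop, ∃ U : Finset ℕ,
  (∀ a ∈ U, a ≤ N ^ k ∧ ∃ x : Fin t → ℕ, (∀ i, 1 ≤ x i ∧ x i ∈ V) ∧ ∑ i, x i ^ k = a) ∧
    (N : ℝ) ^ ((k : ℝ) - k * (1 - 1 / (k : ℝ)) ^ t - η) ≤ U.card

/-- **UFEJ** (upper version of FEJ).
Proof. As `Pool.Agent.Run7.h930.MW.FEJ : t_FEJ`, with the same `k r = 1 - F(rep Q r)`:
`c M = (1 / H²) ∑_{i, j < H} c(M + i - j) + (1 / Q) ∑_r k r ...` and each `m` has at most `H` pairs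
`(i, j)` with `M + i - j = m`. -/
def S_UFEJ : Prop := ∃ k : ℕ → ℕ → ℕ → ℝ, (∀ Q H r, 0 ≤ k Q H r ∧ k Q H r ≤ 1) ∧
  (∀ Q H r, 1 ≤ Q → 1 ≤ H → r < Q → k Q H r ≤ 5 * (H * |rep Q r|) ^ (1 / 2 : ℝ)) ∧
  ∀ (Q H M : ℕ) (c : ℕ → ℝ), 1 ≤ H → H ≤ M → M + H ≤ Q → (∀ m, 0 ≤ c m) →
    c M ≤ 1 / (H : ℝ) * ∑ m ∈ Icc (M - H) (M + H), c m +
      ‖1 / (Q : ℂ) * ∑ r ∈ Ico 1 Q, k Q H r * dft Q c r * e (-(M * rep Q r))‖

/-- **MTF** (mean square of `T` over the full range `0 ≤ n ≤ N`).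
Proof. Split `[0, N]` into `{0}, {1}` and the dyadic intervals `(2^l, 2^(l+1)]`, `2^l ≤ N` (cut the
last one off at `N`), and apply Cauchy-Schwarz (`1 + log N` blocks). On a block with
`2^(l k) ≤ 1 / |a|` use the trivial bound `‖T_l‖² ≤ 4^l ≤ |a|^(-2/k)`. On the others use
`Pool.Agent.Run7.h757.MW.MT : t_MT` with `f n = n ^ k`, `P = 2^(l (k - 1))`, `D = N = 2^l`:
`≤ C A 2^l (1 + log)^3 (1 + 1 / (|a| 2^(l (k - 1))))`, and `2^(l (2 - k)) / |a| ≤ |a|^(-2/k)`. -/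
def S_MTF : Prop := ∃ C : ℝ, 0 < C ∧ ∀ (k N A : ℕ) (a : ℝ), 2 ≤ k → 1 ≤ N → 1 ≤ A →
  a ≠ 0 → |a| ≤ 1 / 2 →
    ∫ lam in (0 : ℝ)..A, ‖T (fun n => n ^ k) (Icc 0 N) lam a‖ ^ 2 ≤
      C * A * (1 + Real.log N) ^ 5 * (N + |a| ^ (-(2 : ℝ) / k))

/-- **UCNT** (upper bound for the number of solutions of an inequality).
Proof. Let `N = 2^j`, `H = ⌊N^k / (j + 1)^B⌋`. If `n` is counted then some `i` has
`fl (lam i) (n i ^ k) ≥ (y - H) / u ≥ (c₁ / 2) N^k / u`, so `n i ≥ c' N`. Fix such an `i` and the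
other variables (at most `u (K N + 1)^(u-1)` choices). Then `lam i (n i)^k` lies in an interval of
length `2 H + 1`, and for two such values `n i < n' i`:
`lam i k (c' N)^(k-1) (n' i - n i) ≤ lam i ((n' i)^k - (n i)^k) ≤ 2 H + 1`; so there are at most
`1 + (2 H + 1) / (lam i (c' N)^(k-1)) ≤ C N / (j + 1)^B` values `n i`. -/
def S_UCNT : Prop := ∀ (u k : ℕ) (lam : Fin u → ℝ), 1 ≤ u → 1 ≤ k → (∀ i, 0 < lam i) →
  ∀ (K B : ℕ) (c₁ : ℝ), 0 < c₁ → ∃ C : ℝ, 0 < C ∧ ∀ᶠ j : ℕ in atTop, ∀ y : ℕ,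
    c₁ * (2 : ℝ) ^ (j * k) ≤ y →
      (((Fintype.piFinset fun _ : Fin u => Icc 0 (K * 2 ^ j)).filter fun n =>
          |((∑ i, fl (lam i) (n i ^ k) : ℕ) : ℤ) - y| ≤
            (⌊(2 : ℝ) ^ (j * k) / ((j : ℝ) + 1) ^ B⌋₊ : ℤ)).card : ℝ) ≤
        C * (2 : ℝ) ^ (j * u) / ((j : ℝ) + 1) ^ B

end

end Pool.Agent.Run7.h757.MW
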